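import Pool.Agent.Y706.HN5
import Pool.Agent.W275.ND.He4

set_option autoImplicit false

/-! The specialisation theorem for families of Hénon maps. -/

namespace Pool.Agent.Y706

open MvPolynomial H294UB Pool.Agent.W275.UB Pool.Agent.W554.UB NumberField Filter Topology

section defs

variable {K : Type} [Field K]

/-- the Hénon map `(x, y) ↦ (y, (F(y) - δ x) / μ)` over the algebraic closure -/
noncomputable def henP (F : Polynomial K) (δ μ : K)
    (P : AlgebraicClosure K × AlgebraicClosure K) : AlgebraicClosure K × AlgebraicClosure K :=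
  (P.2, (Polynomial.aeval P.2 F - algebraMap K (AlgebraicClosure K) δ * P.1) /
    algebraMap K (AlgebraicClosure K) μ)

/-- the periodic points of degree at most `B` -/
def perP (F : Polynomial K) (δ μ : K) (B : ℕ) : Set (AlgebraicClosure K × AlgebraicClosure K) :=
  {P | (∃ n : ℕ, 0 < n ∧ (henP F δ μ)^[n] P = P) ∧
    Module.finrank K (IntermediateField.adjoin K {P.1, P.2}) ≤ B}

/-- the data of a Hénon map -/
noncomputable def dq {R : Type} [CommRing R] (d : ℕ) (F : Polynomial R) (δ μ : R) : Hq d → R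
  | none => μ
  | some none => δ
  | some (some i) => F.coeff i

lemma dq_map {R S : Type} [CommRing R] [CommRing S] (φ : R →+* S) (d : ℕ) (F : Polynomial R)
    (δ μ : R) (i : Hq d) : dq d (F.map φ) (φ δ) (φ μ) i = φ (dq d F δ μ i) := by
  rcases i with _ | _ | i
  · rfl
  · rfl
  · exact Polynomial.coeff_map φ i

lemma henP_eq {d : ℕ} {F : Polynomial K} (hF : F.natDegree = d) (δ μ : K) :
    henP F δ μ = hnm fun i => algebraMap K (AlgebraicClosure K) (dq d F δ μ i) := by
  funext P
  unfold henP hnm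
  ext
  · rfl
  · simp only
    have h1 : Polynomial.aeval P.2 F = ∑ i : Fin (d + 1),
        algebraMap K (AlgebraicClosure K) (dq d F δ μ (some (some i))) * P.2 ^ (i : ℕ) := by
      rw [Polynomial.aeval_eq_sum_range, hF, Finset.sum_range]
      refine Finset.sum_congr rfl fun i _ => ?_
      rw [Algebra.smul_def]
      rfl
    rw [h1]
    rfl

lemma PB_finrank {B : ℕ} {P : AlgebraicClosure K × AlgebraicClosure K} :
    Module.finrank K (IntermediateField.adjoin K {P.1, P.2}) ≤ B ↔ PB K B P := by
  constructor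
  · intro h
    refine ⟨IntermediateField.adjoin K {P.1, P.2}, ?_, h,
      IntermediateField.subset_adjoin _ _ (Set.mem_insert _ _),
      IntermediateField.subset_adjoin _ _ (Set.mem_insert_of_mem _ rfl)⟩
    have : Finite ({P.1, P.2} : Set (AlgebraicClosure K)) := (Set.toFinite _).to_subtype
    exact IntermediateField.finiteDimensional_adjoin fun z _ =>
      (Algebra.IsAlgebraic.isAlgebraic z).isIntegral
  · rintro ⟨E, hE1, hE2, h1, h2⟩
    have h3 : IntermediateField.adjoin K {P.1, P.2} ≤ E := by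
      rw [IntermediateField.adjoin_le_iff]
      rintro x (rfl | rfl)
      · exact h1
      · exact h2
    exact (IntermediateField.finrank_le_of_le_right h3).trans hE2

lemma fewH_iff {d : ℕ} {F : Polynomial K} (hF : F.natDegree = d) (δ μ : K) (B C : ℕ) :
    FewH (AlgebraicClosure K) B C (dq d F δ μ) ↔ (perP F δ μ B).encard ≤ (C : ℕ∞) := by
  classical
  constructor
  · intro h
    by_contra hcon
    push Not at hcon
    obtain ⟨T, hTs, hT⟩ := Set.exists_subset_encard_eq (Order.add_one_le_of_lt hcon)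
    have hTf : T.Finite := by
      apply Set.finite_of_encard_eq_coe (k := C + 1)
      rw [hT]
      norm_cast
    have hTc : hTf.toFinset.card = C + 1 := by
      have h1 := hTf.encard_eq_coe_toFinset_card
      rw [hT] at h1
      exact_mod_cast h1.symm
    have h2 := h hTf.toFinset (fun P hP => by
      obtain ⟨n, hn, h3⟩ := (hTs (hTf.mem_toFinset.1 hP)).1
      rw [henP_eq hF] at h3
      exact ⟨n, hn, h3⟩) fun P hP => PB_finrank.1 (hTs (hTf.mem_toFinset.1 hP)).2
    omega
  · intro h X hX hXB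
    have hsub : (X : Set (AlgebraicClosure K × AlgebraicClosure K)) ⊆ perP F δ μ B := by
      intro P hP
      obtain ⟨n, hn, h3⟩ := hX P hP
      refine ⟨⟨n, hn, ?_⟩, PB_finrank.2 (hXB P hP)⟩
      rw [henP_eq hF]
      exact h3
    have h2 := (Set.encard_le_encard hsub).trans h
    rw [Set.encard_coe_eq_coe_finsetCard] at h2
    exact_mod_cast h2

end defs

/-- a generalised Hénon map of degree `d` -/
def HenD {R : Type} [CommRing R] (d : ℕ) (F : Polynomial R) (δ μ : R) : Prop :=
  F.natDegree = d ∧ δ ≠ 0 ∧ μ ≠ 0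

/-- **The number of the periodic points of degree at most `B` of 100% of the members of a family of
Hénon maps is equal to that of the generic member, which is finite.** -/
theorem main6 (k : Type) [Field k] [NumberField k] (J : Type) [Fintype J]
    (ω : Module.Basis J ℤ (𝓞 k)) (d : ℕ) (hd : 2 ≤ d) (m : ℕ)
    (F : Polynomial (MvPolynomial (Fin m) k)) (δ μ : MvPolynomial (Fin m) k)
    (hF : HenD d F δ μ) (B : ℕ) :
    (perP (F.map (algebraMap (MvPolynomial (Fin m) k) (FractionRing (MvPolynomial (Fin m) k))))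
      (algebraMap _ _ δ) (algebraMap _ _ μ) B).Finite ∧
    Tendsto (fun H : ℕ =>
      (({v | v ∈ {v : Fin (m + 1) → 𝓞 k | ∀ l j, |ω.repr (v l) j| ≤ (H : ℤ)} ∧
        (v 0 ≠ 0 ∧
          HenD d (F.map (MvPolynomial.eval fun l : Fin m =>
            algebraMap (𝓞 k) k (v l.succ) / algebraMap (𝓞 k) k (v 0)))
            (MvPolynomial.eval (fun l : Fin m =>
            algebraMap (𝓞 k) k (v l.succ) / algebraMap (𝓞 k) k (v 0)) δ)
            (MvPolynomial.eval (fun l : Fin m =>
            algebraMap (𝓞 k) k (v l.succ) / algebraMap (𝓞 k) k (v 0)) μ) ∧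
          (perP (F.map (MvPolynomial.eval fun l : Fin m =>
            algebraMap (𝓞 k) k (v l.succ) / algebraMap (𝓞 k) k (v 0)))
            (MvPolynomial.eval (fun l : Fin m =>
            algebraMap (𝓞 k) k (v l.succ) / algebraMap (𝓞 k) k (v 0)) δ)
            (MvPolynomial.eval (fun l : Fin m =>
            algebraMap (𝓞 k) k (v l.succ) / algebraMap (𝓞 k) k (v 0)) μ) B).encard =
          (perP (F.map (algebraMap (MvPolynomial (Fin m) k)
            (FractionRing (MvPolynomial (Fin m) k))))
            (algebraMap _ _ δ) (algebraMap _ _ μ) B).encard)} :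
          Set (Fin (m + 1) → 𝓞 k)).ncard : ℝ) /
      (({v : Fin (m + 1) → 𝓞 k | ∀ l j, |ω.repr (v l) j| ≤ (H : ℤ)}).ncard : ℝ))
      atTop (𝓝 1) := by
  classical
  obtain ⟨hF1, hF2, hF3⟩ := hF
  have hF0 : F.coeff d ≠ 0 := by
    have h1 : F ≠ 0 := by
      rintro rfl
      rw [Polynomial.natDegree_zero] at hF1
      omega
    rw [← hF1]
    exact Polynomial.leadingCoeff_ne_zero.2 h1
  set q : Hq d → MvPolynomial (Fin m) k := dq d F δ μ with hq
  have hq0 : q none ≠ 0 := hF3
  have hq1 : q (some none) ≠ 0 := hF2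
  have hq2 : q (some (some (Fin.last d))) ≠ 0 := hF0
  set φ := algebraMap (MvPolynomial (Fin m) k) (FractionRing (MvPolynomial (Fin m) k)) with hφ
  have hφi : Function.Injective φ := IsFractionRing.injective _ _
  have hgq : gq q = dq d (F.map φ) (φ δ) (φ μ) := by
    funext i
    rw [dq_map]
    rfl
  have hFg : (F.map φ).natDegree = d := by
    rw [Polynomial.natDegree_map_eq_of_injective hφi, hF1]
  obtain ⟨C, hC⟩ := generic_finite ω hd q hq0 hq1 hq2 B
  rw [hgq] at hC
  have hle := (fewH_iff hFg (φ δ) (φ μ) B C).1 hC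
  have hfin : (perP (F.map φ) (φ δ) (φ μ) B).Finite :=
    Set.encard_lt_top_iff.1 (hle.trans_lt (ENat.natCast_lt_top C))
  obtain ⟨n, hn⟩ : ∃ n : ℕ, (perP (F.map φ) (φ δ) (φ μ) B).encard = (n : ℕ∞) :=
    ⟨_, hfin.encard_eq_coe_toFinset_card⟩
  refine ⟨hfin, ?_⟩
  have hup : FewH (AlgebraicClosure (FractionRing (MvPolynomial (Fin m) k))) B n (gq q) := by
    rw [hgq]
    exact (fewH_iff hFg (φ δ) (φ μ) B n).2 hn.le
  have h3 := upper_members ω hd q hq0 hq1 hq2 (AlgebraicClosure k) hup
  have h4 : D0 {w : Fin (m + 1) × J → ℤ | 1 ≤ n ∧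
      FewH (AlgebraicClosure k) B (n - 1) (fun i => eval (tp ω w) (q i))} := by
    by_cases hn1 : 1 ≤ n
    · have h5 : ¬ FewH (AlgebraicClosure (FractionRing (MvPolynomial (Fin m) k))) B (n - 1)
          (gq q) := by
        intro h6
        rw [hgq] at h6
        have h7 := (fewH_iff hFg (φ δ) (φ μ) B (n - 1)).1 h6
        rw [hn] at h7
        have h8 : n ≤ n - 1 := by exact_mod_cast h7
        omega
      have h6 := lower_members ω q (AlgebraicClosure k) h5
      intro ε hε
      exact (h6 ε hε).mono fun w hw => hw.2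
    · intro ε hε
      exact (D0.empty ε hε).mono fun w hw => absurd hw.1 hn1
  refine Pool.Agent.W275.ND.ratioV ω (ι := Fin (m + 1)) _ ?_
  intro ε hε
  refine ((h3.union h4) ε hε).mono ?_
  intro w hw
  by_contra hcon
  rw [Set.mem_union, not_or] at hcon
  obtain ⟨hcon1, hcon2⟩ := hcon
  apply hw
  have hcon1' : vec ω w 0 ≠ 0 ∧ eval (tp ω w) (q none) ≠ 0 ∧
      eval (tp ω w) (q (some none)) ≠ 0 ∧ eval (tp ω w) (q (some (some (Fin.last d)))) ≠ 0 ∧
      FewH (AlgebraicClosure k) B n (fun i => eval (tp ω w) (q i)) := by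
    by_contra h5
    exact hcon1 h5
  obtain ⟨g1, g2, g3, g4, g5⟩ := hcon1'
  have g6 : ¬ (1 ≤ n ∧ FewH (AlgebraicClosure k) B (n - 1) (fun i => eval (tp ω w) (q i))) := hcon2
  have hFs : (F.map (eval (tp ω w))).natDegree = d := by
    apply le_antisymm
    · exact Polynomial.natDegree_map_le.trans hF1.le
    · apply Polynomial.le_natDegree_of_ne_zero
      rw [Polynomial.coeff_map]
      exact g4
  have hsq : (fun i => eval (tp ω w) (q i)) =
      dq d (F.map (eval (tp ω w))) (eval (tp ω w) δ) (eval (tp ω w) μ) := by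
    funext i
    rw [dq_map]
  rw [hsq] at g5 g6
  refine ⟨g1, ⟨hFs, g3, g2⟩, ?_⟩
  show (perP (F.map (eval (tp ω w))) (eval (tp ω w) δ) (eval (tp ω w) μ) B).encard = _
  rw [hn]
  apply le_antisymm
  · exact (fewH_iff hFs _ _ B n).1 g5
  · by_contra hlt
    push Not at hlt
    apply g6
    have hn1 : 1 ≤ n := by
      by_contra h0
      have h1 : n = 0 := by omega
      rw [h1] at hlt
      simp at hlt
    refine ⟨hn1, (fewH_iff hFs _ _ B (n - 1)).2 ?_⟩
    have h5 : ((n - 1 : ℕ) : ℕ∞) + 1 = (n : ℕ∞) := by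
      norm_cast
      omega
    rw [← h5] at hlt
    exact Order.le_of_lt_add_one hlt

end Pool.Agent.Y706
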