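import Pool.Agent.Y706.G15

set_option autoImplicit false

/-! The specialisation theorem for families of endomorphisms of projective space. -/

namespace Pool.Agent.Y706

open MvPolynomial Pool.Agent.H936R2 Pool.Agent.H927R2.RD H294UB Pool.Agent.W275.UB
  Pool.Agent.W193.UB Pool.Agent.W554.UB NumberField Filter Topology

section

variable {k : Type} [Field k] [NumberField k] {m : ℕ}

theorem lowerParam {J : Type} [Fintype J] (ω : Module.Basis J ℤ (𝓞 k)) (kb : Type) [Field kb]
    [Algebra k kb] [IsAlgClosed kb] {N d B C₀ : ℕ} (v : Idx (N + 1) d → MvPolynomial (Fin m) k)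
    (hgen : ¬ FewB (AlgebraicClosure (FractionRing (MvPolynomial (Fin m) k))) B C₀
      (fun i => algebraMap (MvPolynomial (Fin m) k) (FractionRing (MvPolynomial (Fin m) k)) (v i))) :
    D0 {w : Fin (m + 1) × J → ℤ | FewB kb B C₀ (fun i => eval (tp ω w) (v i))} := by
  classical
  obtain ⟨c, hc, hci⟩ := exists_mult v
  set e : ℕ := Finset.univ.sup fun i => (v i).totalDegree with he
  have hve : ∀ i, (v i).totalDegree ≤ e := fun i =>
    Finset.le_sup (f := fun i => (v i).totalDegree) (Finset.mem_univ i)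
  set A : Fin m → MvPolynomial (Fin (m + 1)) (𝓞 k) := fun l => X l.succ with hA
  set B₀ : MvPolynomial (Fin (m + 1)) (𝓞 k) := X 0 with hB₀
  set a : Idx (N + 1) d → MvPolynomial (Fin (m + 1)) (𝓞 k) := fun i => homm A B₀ c e (v i) with ha
  have hB₀0 : B₀ ≠ 0 := MvPolynomial.X_ne_zero 0
  have hBK : algebraMap (MvPolynomial (Fin (m + 1)) (𝓞 k)) (KK k (Fin (m + 1))) B₀ ≠ 0 := by
    rw [Ne, FaithfulSMul.algebraMap_eq_zero_iff]
    exact hB₀0
  set u : KK k (Fin (m + 1)) := kap c *
    algebraMap (MvPolynomial (Fin (m + 1)) (𝓞 k)) (KK k (Fin (m + 1))) B₀ ^ e with hu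
  have hu0 : u ≠ 0 := mul_ne_zero ((map_ne_zero kap).2 hc) (pow_ne_zero _ hBK)
  have haK : (fun i => algebraMap (MvPolynomial (Fin (m + 1)) (𝓞 k)) (KK k (Fin (m + 1))) (a i)) =
      fun i => u * TM k m (algebraMap (MvPolynomial (Fin m) k)
        (FractionRing (MvPolynomial (Fin m) k)) (v i)) := by
    funext i
    rw [ha]
    simp only
    rw [homm_map kap (algebraMap (MvPolynomial (Fin (m + 1)) (𝓞 k)) (KK k (Fin (m + 1)))) kap_spec
      hBK (v i) (hve i) (hci i), TM_apply, aeval_kap]
    rfl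
  have hgen' : ¬ FewB (AlgebraicClosure (KK k (Fin (m + 1)))) B C₀ (fun i =>
      algebraMap (MvPolynomial (Fin (m + 1)) (𝓞 k)) (KK k (Fin (m + 1))) (a i)) := by
    rw [haK]
    intro h
    exact hgen (fewB_sub (TM k m) (fewB_of_scale hu0 _ h))
  have h1 := (lowerB ω kb a hgen').union (D0_B ω hB₀0)
  intro ε hε
  refine (h1 ε hε).mono ?_
  intro w hw
  by_contra hcon
  rw [Set.mem_union, not_or] at hcon
  obtain ⟨hcon1, hcon2⟩ := hcon
  have hBw : sp ω w B₀ ≠ 0 := by
    rw [sp, RingHom.comp_apply, Ne, FaithfulSMul.algebraMap_eq_zero_iff]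
    exact hcon2
  have hspX : ∀ i : Fin (m + 1), sp ω w (X i) = algebraMap (𝓞 k) k (vec ω w i) := by
    intro i
    rw [sp, RingHom.comp_apply, MvPolynomial.eval_X]
  have hspec : ∀ y, sp ω w (MvPolynomial.C y : MvPolynomial (Fin (m + 1)) (𝓞 k)) =
      (RingHom.id k) (algebraMap (𝓞 k) k y) := by
    intro y
    rw [sp, RingHom.comp_apply, MvPolynomial.eval_C, RingHom.id_apply]
  have hcf : cf ω a w = fun i => (c * sp ω w B₀ ^ e) * eval (tp ω w) (v i) := by
    funext i
    show sp ω w (homm A B₀ c e (v i)) = _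
    rw [homm_map (RingHom.id k) (sp ω w) hspec hBw (v i) (hve i) (hci i), RingHom.id_apply]
    congr 1
    have h2 : (fun l => sp ω w (A l) / sp ω w B₀) = tp ω w := by
      funext l
      rw [hA, hB₀]
      simp only
      rw [hspX, hspX]
      rfl
    rw [h2]
    rfl
  have hc0 : c * sp ω w B₀ ^ e ≠ 0 := mul_ne_zero hc (pow_ne_zero _ hBw)
  apply hcon1
  show FewB kb B C₀ (cf ω a w)
  rw [hcf]
  exact fewB_scale hc0 _ hw

/-- **The number of the preperiodic points of degree at most `B` of 100% of the members of a family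
of endomorphisms of projective space is equal to that of the generic member, which is finite.** -/
theorem main5 (k : Type) [Field k] [NumberField k] (J : Type) [Fintype J]
    (ω : Module.Basis J ℤ (𝓞 k)) (N d : ℕ) (hd : 2 ≤ d) (m : ℕ)
    (F : Fin (N + 1) → MvPolynomial (Fin (N + 1)) (MvPolynomial (Fin m) k))
    (hF : ∀ i, (F i).IsHomogeneous d)
    (hmor : MorP fun i => (F i).map (algebraMap (MvPolynomial (Fin m) k)
      (FractionRing (MvPolynomial (Fin m) k)))) (B : ℕ) :
    (preP (fun i => (F i).map (algebraMap (MvPolynomial (Fin m) k)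
      (FractionRing (MvPolynomial (Fin m) k)))) B).Finite ∧
    Tendsto (fun H : ℕ =>
      (({v | v ∈ {v : Fin (m + 1) → 𝓞 k | ∀ l j, |ω.repr (v l) j| ≤ (H : ℤ)} ∧
        (v 0 ≠ 0 ∧
          MorP (fun i => (F i).map (MvPolynomial.eval fun l : Fin m =>
            algebraMap (𝓞 k) k (v l.succ) / algebraMap (𝓞 k) k (v 0))) ∧
          (preP (fun i => (F i).map (MvPolynomial.eval fun l : Fin m =>
            algebraMap (𝓞 k) k (v l.succ) / algebraMap (𝓞 k) k (v 0))) B).encard =
          (preP (fun i => (F i).map (algebraMap (MvPolynomial (Fin m) k)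
            (FractionRing (MvPolynomial (Fin m) k)))) B).encard)} :
          Set (Fin (m + 1) → 𝓞 k)).ncard : ℝ) /
      (({v : Fin (m + 1) → 𝓞 k | ∀ l j, |ω.repr (v l) j| ≤ (H : ℤ)}).ncard : ℝ))
      atTop (𝓝 1) := by
  classical
  set R := MvPolynomial (Fin m) k with hR
  set v : Idx (N + 1) d → R := fun i => coeff (expo i.2) (F i.1) with hv
  have hFv : F = sy v := by
    funext i
    exact (form_coeff (hF i)).symm
  have hmap : ∀ {S : Type} [CommRing S] (φ : R →+* S),
      (fun i => (F i).map φ) = sy fun i => φ (v i) := by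
    intro S _ φ
    rw [hFv]
    exact Pool.Agent.W193.UB.map_sy φ v
  rw [hmap] at hmor ⊢
  set vK : Idx (N + 1) d → FractionRing R := fun i => algebraMap R (FractionRing R) (v i) with hvK
  -- the generic member
  obtain ⟨s, c, hc, hMC⟩ := exists_monC (algebraMap (FractionRing R)
    (AlgebraicClosure (FractionRing R))) vK (by
      intro x hx
      apply hmor x
      intro i
      have h1 := hx i
      rw [← Pool.Agent.W193.UB.map_sy, eval_map] at h1
      rw [aeval_def]
      exact h1)
  have hc0 : c ≠ 0 := by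
    rintro rfl
    exact hc (map_zero _)
  have hM : MonIn s (sy vK) := hMC.monIn (isUnit_iff_ne_zero.2 hc0)
  obtain ⟨C, hC⟩ := np_RF (k := k) m N d s vK hd hM B
  have hfew := hC (AlgebraicClosure (FractionRing R))
  have hle := (few_iff hM B C).1 hfew
  have hfin : (preP (sy vK) B).Finite :=
    Set.encard_lt_top_iff.1 (hle.trans_lt (ENat.natCast_lt_top C))
  obtain ⟨n, hn⟩ : ∃ n : ℕ, (preP (sy vK) B).encard = (n : ℕ∞) :=
    ⟨_, hfin.encard_eq_coe_toFinset_card⟩
  refine ⟨hfin, ?_⟩
  have hup : FewB (AlgebraicClosure (FractionRing R)) B n vK := (few_iff hM B n).2 hn.le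
  have h3 := paramB ω (AlgebraicClosure k) hd v hM hup
  have h4 : D0 {w : Fin (m + 1) × J → ℤ | 1 ≤ n ∧
      FewB (AlgebraicClosure k) B (n - 1) (fun i => eval (tp ω w) (v i))} := by
    by_cases hn1 : 1 ≤ n
    · have h5 : ¬ FewB (AlgebraicClosure (FractionRing R)) B (n - 1) vK := by
        intro h6
        have h7 := (few_iff hM B (n - 1)).1 h6
        rw [hn] at h7
        have h8 : n ≤ n - 1 := by exact_mod_cast h7
        omega
      have h6 := lowerParam ω (AlgebraicClosure k) v h5
      intro ε hε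
      exact (h6 ε hε).mono fun w hw => hw.2
    · intro ε hε
      exact (D0.empty ε hε).mono fun w hw => absurd hw.1 hn1
  refine Pool.Agent.W275.ND.ratioV ω (ι := Fin (m + 1)) _ ?_
  intro ε hε
  refine ((h3.union h4) ε hε).mono ?_
  intro w hw
  by_contra hcon
  rw [Set.mem_union, not_or] at hcon
  obtain ⟨hcon1, hcon2⟩ := hcon
  apply hw
  have hcon1' : vec ω w 0 ≠ 0 ∧ (∃ s, MonIn s (sy fun i => eval (tp ω w) (v i))) ∧
      FewB (AlgebraicClosure k) B n (fun i => eval (tp ω w) (v i)) := by
    by_contra h5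
    exact hcon1 h5
  obtain ⟨g1, ⟨s', g2⟩, g3⟩ := hcon1'
  have g4 : ¬ (1 ≤ n ∧ FewB (AlgebraicClosure k) B (n - 1) (fun i => eval (tp ω w) (v i))) := hcon2
  refine ⟨g1, ?_, ?_⟩
  · show MorP (fun i => (F i).map (MvPolynomial.eval (tp ω w)))
    rw [hmap]
    intro x hx
    have g5 : MonIn s' (sy fun i => algebraMap k (AlgebraicClosure k) (eval (tp ω w) (v i))) :=
      monIn_map (algebraMap k (AlgebraicClosure k)) g2
    apply no_zero _ g5 x
    intro i
    have h1 := hx i
    rw [aeval_def] at h1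
    rw [← Pool.Agent.W193.UB.map_sy, eval_map]
    exact h1
  · show (preP (fun i => (F i).map (MvPolynomial.eval (tp ω w))) B).encard = _
    rw [hmap, hn]
    apply le_antisymm
    · exact (few_iff g2 B n).1 g3
    · by_contra hlt
      push Not at hlt
      apply g4
      have hn1 : 1 ≤ n := by
        by_contra h0
        have h1 : n = 0 := by omega
        rw [h1] at hlt
        simp at hlt
      refine ⟨hn1, (few_iff g2 B (n - 1)).2 ?_⟩
      have h5 : ((n - 1 : ℕ) : ℕ∞) + 1 = (n : ℕ∞) := by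
        norm_cast
        omega
      rw [← h5] at hlt
      exact Order.le_of_lt_add_one hlt

end

end Pool.Agent.Y706
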