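import Pool.Agent.Y706.Tr2
import Pool.Agent.W277.UH.F2

set_option autoImplicit false

/-! Rational maps of the projective line as systems of binary forms. -/

namespace Pool.Agent.Y706

open Pool.Agent.H936R2 Pool.Agent.H927R2.RD H294UB Pool.Agent.W275.UB
  Pool.Agent.W193.UB Pool.Agent.W277.UH

section co

variable {R : Type} [CommRing R]

/-- the coefficients of the two binary forms -/
def co (p q : Polynomial R) (d : ℕ) (i : Idx 2 d) : R :=
  if i.1 = 0 then p.coeff (i.2.1 0) else q.coeff (i.2.1 0)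

lemma co_map {R' : Type} [CommRing R'] (φ : R →+* R') (p q : Polynomial R) (d : ℕ) :
    (fun i => φ (co p q d i)) = co (p.map φ) (q.map φ) d := by
  funext i
  unfold co
  split_ifs
  · rw [Polynomial.coeff_map]
  · rw [Polynomial.coeff_map]

/-- the value of a binary form -/
def bv (g : Polynomial R) (d : ℕ) (x y : R) : R :=
  ∑ m ∈ Finset.range (d + 1), g.coeff m * (x ^ m * y ^ (d - m))

lemma eval_bin (g : Polynomial R) (d : ℕ) (x : Fin 2 → R) :
    MvPolynomial.eval x (form fun κ : Mono 2 d => g.coeff (κ.1 0)) = bv g d (x 0) (x 1) := by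
  rw [eval_form, bv]
  refine Finset.sum_bij' (fun κ _ => (κ.1 0 : ℕ))
    (fun m hm => ⟨![⟨m, Finset.mem_range.1 hm⟩, ⟨d - m, by omega⟩], by
      rw [Fin.sum_univ_two]
      have := Finset.mem_range.1 hm
      simp only [Matrix.cons_val_zero, Matrix.cons_val_one]
      omega⟩) ?_ ?_ ?_ ?_ ?_
  · intro κ _
    exact Finset.mem_range.2 (κ.1 0).2
  · intro m hm
    exact Finset.mem_univ _
  · intro κ _
    apply Subtype.ext
    funext i
    have h := κ.2
    rw [Fin.sum_univ_two] at h
    fin_cases i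
    · rfl
    · apply Fin.ext
      simp only [Matrix.cons_val_one, Fin.mk_one]
      simp
      omega
  · intro m hm
    rfl
  · intro κ _
    have h := κ.2
    rw [Fin.sum_univ_two] at h
    rw [Fin.prod_univ_two]
    have h1 : (κ.1 1 : ℕ) = d - (κ.1 0 : ℕ) := by omega
    rw [h1]

lemma pt_co (p q : Polynomial R) (d : ℕ) (x : Fin 2 → R) :
    pt (sy (co p q d)) x = ![bv p d (x 0) (x 1), bv q d (x 0) (x 1)] := by
  funext i
  fin_cases i
  · show MvPolynomial.eval x (form fun κ : Mono 2 d => co p q d (0, κ)) = bv p d (x 0) (x 1)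
    rw [← eval_bin]
    rfl
  · show MvPolynomial.eval x (form fun κ : Mono 2 d => co p q d (1, κ)) = bv q d (x 0) (x 1)
    rw [← eval_bin]
    rfl

lemma bv_one (g : Polynomial R) (d : ℕ) (hg : g.natDegree ≤ d) (x : R) : bv g d x 1 = g.eval x := by
  rw [bv, Polynomial.eval_eq_sum_range' (Nat.lt_succ_of_le hg)]
  exact Finset.sum_congr rfl fun m _ => by rw [one_pow, mul_one]

lemma bv_inf (g : Polynomial R) (d : ℕ) : bv g d 1 0 = g.coeff d := by
  rw [bv, Finset.sum_range_succ, Finset.sum_eq_zero, zero_add]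
  · simp
  · intro m hm
    have := Finset.mem_range.1 hm
    rw [zero_pow (by omega), mul_zero, mul_zero]

end co

section field

variable {K : Type} [Field K]

/-- the vector representing a point -/
def hv : Option K → Fin 2 → K
  | some x => ![x, 1]
  | none => ![1, 0]

lemma hv_ne (z : Option K) : hv z ≠ 0 := by
  cases z with
  | none => exact fun h => one_ne_zero (congrFun h 0)
  | some x => exact fun h => one_ne_zero (congrFun h 1)

lemma hv_inj (z z' : Option K) (c : K) (h : hv z = c • hv z') : z = z' := by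
  cases z with
  | none =>
    cases z' with
    | none => rfl
    | some x' =>
      exfalso
      have h1 := congrFun h 1
      have h0 := congrFun h 0
      simp [hv] at h1 h0
      rw [← h1, zero_mul] at h0
      exact one_ne_zero h0
  | some x =>
    cases z' with
    | none =>
      exfalso
      have h1 := congrFun h 1
      simp [hv] at h1
    | some x' =>
      have h1 := congrFun h 1
      have h0 := congrFun h 0
      simp [hv] at h1 h0
      rw [← h1, one_mul] at h0
      rw [h0]

lemma exists_hv (x : Fin 2 → K) (hx : x ≠ 0) : ∃ (z : Option K) (c : K), c ≠ 0 ∧ x = c • hv z := by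
  by_cases h : x 1 = 0
  · refine ⟨none, x 0, ?_, ?_⟩
    · intro h0
      apply hx
      funext i
      fin_cases i
      · exact h0
      · exact h
    · funext i
      fin_cases i
      · simp [hv]
      · simp [hv, h]
  · refine ⟨some (x 0 / x 1), x 1, h, ?_⟩
    funext i
    fin_cases i
    · simp only [hv, Fin.zero_eta, Pi.smul_apply, Matrix.cons_val_zero, smul_eq_mul]
      field_simp
    · simp [hv]

variable {p q : Polynomial K} {d : ℕ}

lemma lead_of_max (hd : 1 ≤ d) (hmax : max p.natDegree q.natDegree = d) :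
    p.coeff d ≠ 0 ∨ q.coeff d ≠ 0 := by
  rcases le_total p.natDegree q.natDegree with h | h
  · right
    rw [max_eq_right h] at hmax
    rw [← hmax]
    apply Polynomial.leadingCoeff_ne_zero.mpr
    rintro rfl
    rw [Polynomial.natDegree_zero] at hmax
    omega
  · left
    rw [max_eq_left h] at hmax
    rw [← hmax]
    apply Polynomial.leadingCoeff_ne_zero.mpr
    rintro rfl
    rw [Polynomial.natDegree_zero] at hmax
    omega

lemma eval_ne_of_coprime {L : Type} [Field L] {p q : Polynomial L} (hco : IsCoprime p q) (x : L)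
    (hp : p.eval x = 0) : q.eval x ≠ 0 := by
  intro hq
  obtain ⟨a, b, hab⟩ := hco
  have := congrArg (Polynomial.eval x) hab
  rw [Polynomial.eval_add, Polynomial.eval_mul, Polynomial.eval_mul, hp, hq, mul_zero, mul_zero,
    add_zero, Polynomial.eval_one] at this
  exact zero_ne_one this

lemma pt_hv (hd : 1 ≤ d) (hmax : max p.natDegree q.natDegree = d) (hco : IsCoprime p q)
    (z : Option K) : ∃ c : K, c ≠ 0 ∧ pt (sy (co p q d)) (hv z) = c • hv (ratP1 p q d z) := by
  have hp : p.natDegree ≤ d := by rw [← hmax]; exact le_max_left _ _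
  have hq : q.natDegree ≤ d := by rw [← hmax]; exact le_max_right _ _
  rw [pt_co]
  cases z with
  | none =>
    have h0 : hv (none : Option K) 0 = 1 := rfl
    have h1 : hv (none : Option K) 1 = 0 := rfl
    rw [h0, h1, bv_inf, bv_inf]
    by_cases h : q.coeff d = 0
    · rw [ratP1_none0 p q d h, h]
      refine ⟨p.coeff d, (lead_of_max hd hmax).resolve_right (fun h' => h' h), ?_⟩
      funext i
      fin_cases i <;> simp [hv]
    · rw [ratP1_none p q d h]
      refine ⟨q.coeff d, h, ?_⟩
      funext i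
      fin_cases i
      · simp only [hv, Fin.zero_eta, Pi.smul_apply, Matrix.cons_val_zero, smul_eq_mul]
        field_simp
      · simp [hv]
  | some x =>
    have h0 : hv (some x : Option K) 0 = x := rfl
    have h1 : hv (some x : Option K) 1 = 1 := rfl
    rw [h0, h1, bv_one _ _ hp, bv_one _ _ hq]
    by_cases h : q.eval x = 0
    · rw [ratP1_some0 p q d x h, h]
      refine ⟨p.eval x, fun h' => eval_ne_of_coprime hco x h' h, ?_⟩
      funext i
      fin_cases i <;> simp [hv]
    · rw [ratP1_some p q d x h]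
      refine ⟨q.eval x, h, ?_⟩
      funext i
      fin_cases i
      · simp only [hv, Fin.zero_eta, Pi.smul_apply, Matrix.cons_val_zero, smul_eq_mul]
        field_simp
      · simp [hv]

lemma it_hv (hd : 1 ≤ d) (hmax : max p.natDegree q.natDegree = d) (hco : IsCoprime p q)
    (z : Option K) (m : ℕ) :
    ∃ c : K, c ≠ 0 ∧ (pt (sy (co p q d)))^[m] (hv z) = c • hv ((ratP1 p q d)^[m] z) := by
  induction m with
  | zero => exact ⟨1, one_ne_zero, (one_smul _ _).symm⟩
  | succ m ih =>
    obtain ⟨c, hc, h⟩ := ih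
    obtain ⟨c', hc', h'⟩ := pt_hv hd hmax hco ((ratP1 p q d)^[m] z)
    refine ⟨c ^ d * c', mul_ne_zero (pow_ne_zero _ hc) hc', ?_⟩
    rw [Function.iterate_succ_apply', h, pt_smul (Pool.Agent.W193.UB.sy_hom _), h',
      Function.iterate_succ_apply', smul_smul]

/-- a point is preperiodic iff its forward orbit is finite -/
lemma orb_fin {X : Type*} (f : X → X) (x : X) :
    (Set.range fun m : ℕ => f^[m] x).Finite ↔ ∃ m l : ℕ, m < l ∧ f^[l] x = f^[m] x := by
  constructor
  · intro h
    have h1 : ¬ Function.Injective (fun m : ℕ => f^[m] x) := fun hinj =>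
      Set.infinite_range_of_injective hinj h
    rw [Function.Injective] at h1
    push Not at h1
    obtain ⟨m, l, h2, h3⟩ := h1
    rcases lt_or_gt_of_ne h3 with h4 | h4
    · exact ⟨m, l, h4, h2.symm⟩
    · exact ⟨l, m, h4, h2⟩
  · rintro ⟨m, l, hml, h⟩
    refine (Set.Finite.image (fun j => f^[j] x) (Set.finite_lt_nat l)).subset ?_
    rintro _ ⟨j, rfl⟩
    induction j using Nat.strong_induction_on with
    | _ j ih =>
      by_cases hj : j < l
      · exact ⟨j, hj, rfl⟩
      · have h1 : f^[j] x = f^[j - (l - m)] x := by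
          obtain ⟨t, rfl⟩ := Nat.exists_eq_add_of_le (Nat.le_of_not_lt hj)
          have h2 : l + t - (l - m) = t + m := by omega
          rw [h2, Nat.add_comm l t, Function.iterate_add_apply, h, ← Function.iterate_add_apply]
        show f^[j] x ∈ _
        rw [h1]
        exact ih (j - (l - m)) (by omega)

lemma pre_hv (hd : 1 ≤ d) (hmax : max p.natDegree q.natDegree = d) (hco : IsCoprime p q)
    (z : Option K) : Pre (sy (co p q d)) (hv z) ↔
      (Set.range fun m : ℕ => (ratP1 p q d)^[m] z).Finite := by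
  rw [orb_fin]
  constructor
  · rintro ⟨m, l, hml, c, hc, h⟩
    obtain ⟨c1, h1, e1⟩ := it_hv hd hmax hco z m
    obtain ⟨c2, h2, e2⟩ := it_hv hd hmax hco z l
    refine ⟨m, l, hml, hv_inj _ _ (c2⁻¹ * (c * c1)) ?_⟩
    rw [e1, e2] at h
    rw [mul_smul, mul_smul, ← h, smul_smul, inv_mul_cancel₀ h2, one_smul]
  · rintro ⟨m, l, hml, h⟩
    obtain ⟨c1, h1, e1⟩ := it_hv hd hmax hco z m
    obtain ⟨c2, h2, e2⟩ := it_hv hd hmax hco z l
    refine ⟨m, l, hml, c2 * c1⁻¹, mul_ne_zero h2 (inv_ne_zero h1), ?_⟩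
    rw [e1, e2, h, smul_smul, mul_assoc, inv_mul_cancel₀ h1, mul_one]

/-- `Few` in terms of the map of the projective line -/
lemma few_of_encard (hd : 1 ≤ d) (hmax : max p.natDegree q.natDegree = d) (hco : IsCoprime p q)
    (C : ℕ) (h : {z : Option K | (Set.range fun m : ℕ => (ratP1 p q d)^[m] z).Finite}.encard ≤
      (C : ℕ∞)) : Few C (sy (co p q d)) := by
  classical
  intro X hX0 hXp hXpre
  have hex : ∀ x : Fin 2 → K, ∃ z : Option K, x ≠ 0 → ∃ c : K, c ≠ 0 ∧ x = c • hv z := by
    intro x
    by_cases hx : x = 0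
    · exact ⟨none, fun h => absurd hx h⟩
    · obtain ⟨z, c, hc, h⟩ := exists_hv x hx
      exact ⟨z, fun _ => ⟨c, hc, h⟩⟩
  choose ζ hζ using hex
  have hinj : Set.InjOn ζ (X : Set (Fin 2 → K)) := by
    intro x hx y hy hxy
    obtain ⟨c, hc, h1⟩ := hζ x (hX0 x hx)
    obtain ⟨c', hc', h2⟩ := hζ y (hX0 y hy)
    apply hXp x hx y hy (c * c'⁻¹)
    rw [h2, smul_smul, mul_assoc, inv_mul_cancel₀ hc', mul_one, ← hxy]
    exact h1
  have hsub : ((X.image ζ : Finset (Option K)) : Set (Option K)) ⊆
      {z : Option K | (Set.range fun m : ℕ => (ratP1 p q d)^[m] z).Finite} := by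
    intro z hz
    obtain ⟨x, hx, rfl⟩ := Finset.mem_image.1 (Finset.mem_coe.1 hz)
    show (Set.range fun m : ℕ => (ratP1 p q d)^[m] (ζ x)).Finite
    rw [← pre_hv hd hmax hco]
    obtain ⟨c, hc, h1⟩ := hζ x (hX0 x hx)
    obtain ⟨m, l, hml, c', hc', h2⟩ := hXpre x hx
    have h3 : hv (ζ x) = c⁻¹ • x := by
      conv_rhs => rw [h1]
      rw [smul_smul, inv_mul_cancel₀ hc, one_smul]
    refine ⟨m, l, hml, (c⁻¹) ^ d ^ l * c' * ((c⁻¹) ^ d ^ m)⁻¹, by
      have : c⁻¹ ≠ 0 := inv_ne_zero hc
      exact mul_ne_zero (mul_ne_zero (pow_ne_zero _ this) hc') (inv_ne_zero (pow_ne_zero _ this)), ?_⟩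
    rw [h3, it_smul (Pool.Agent.W193.UB.sy_hom _), it_smul (Pool.Agent.W193.UB.sy_hom _), h2,
      smul_smul, smul_smul, mul_assoc, mul_assoc, inv_mul_cancel₀ (pow_ne_zero _ (inv_ne_zero hc)),
      mul_one]
  have h1 := (Set.encard_le_encard hsub).trans h
  rw [Set.encard_coe_eq_coe_finsetCard, Finset.card_image_of_injOn hinj] at h1
  exact_mod_cast h1

lemma encard_of_few (hd : 1 ≤ d) (hmax : max p.natDegree q.natDegree = d) (hco : IsCoprime p q)
    (C : ℕ) (h : Few C (sy (co p q d))) :
    {z : Option K | (Set.range fun m : ℕ => (ratP1 p q d)^[m] z).Finite}.encard ≤ (C : ℕ∞) := by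
  classical
  by_contra hcon
  push Not at hcon
  obtain ⟨T, hTs, hT⟩ := Set.exists_subset_encard_eq (Order.add_one_le_of_lt hcon)
  have hTf : T.Finite := by
    apply Set.finite_of_encard_eq_coe (k := C + 1)
    rw [hT]
    norm_cast
  have hinj : Function.Injective (hv (K := K)) := fun z z' h =>
    hv_inj z z' 1 (by rw [one_smul]; exact h)
  have h1 := h (hTf.toFinset.image hv) (by
    intro x hx
    obtain ⟨z, _, rfl⟩ := Finset.mem_image.1 hx
    exact hv_ne z) (by
    intro x hx y hy c hxy
    obtain ⟨z, _, rfl⟩ := Finset.mem_image.1 hx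
    obtain ⟨z', _, rfl⟩ := Finset.mem_image.1 hy
    rw [hv_inj z z' c hxy]) (by
    intro x hx
    obtain ⟨z, hz, rfl⟩ := Finset.mem_image.1 hx
    rw [pre_hv hd hmax hco]
    exact hTs ((Set.Finite.mem_toFinset _).1 hz))
  rw [Finset.card_image_of_injective _ hinj] at h1
  have h5 : (hTf.toFinset.card : ℕ∞) = C + 1 := by
    rw [← hT, hTf.encard_eq_coe_toFinset_card]
  have h6 : hTf.toFinset.card = C + 1 := by exact_mod_cast h5
  omega

end field

end Pool.Agent.Y706
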