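import Pool.Agent.Y706.P10

set_option autoImplicit false

/-! Families with several parameters, at all rational parameters: the field theory. -/

namespace Pool.Agent.Y706

open IntermediateField

set_option linter.unusedSectionVars false

section abs

variable {k E : Type} [Field k] [Field E] [Algebra k E] {m : ℕ} {x : Fin (m + 1) → E}

lemma indep_scale {F E τ : Type*} [Field F] [Field E] [Algebra F E] {x : τ → E}
    (hx : AlgebraicIndependent F x) (c : F) (hc : c ≠ 0) :
    AlgebraicIndependent F (fun l => algebraMap F E c * x l) := by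
  let f : MvPolynomial τ F →ₐ[F] MvPolynomial τ F :=
    MvPolynomial.aeval fun l => MvPolynomial.C c * MvPolynomial.X l
  let g : MvPolynomial τ F →ₐ[F] MvPolynomial τ F :=
    MvPolynomial.aeval fun l => MvPolynomial.C c⁻¹ * MvPolynomial.X l
  have hgf : g.comp f = AlgHom.id F _ := by
    apply MvPolynomial.algHom_ext
    intro l
    rw [AlgHom.comp_apply, AlgHom.id_apply]
    simp only [f, g, MvPolynomial.aeval_X, map_mul, MvPolynomial.algHom_C]
    rw [← mul_assoc, MvPolynomial.algebraMap_eq, ← MvPolynomial.C_mul, mul_inv_cancel₀ hc,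
      MvPolynomial.C_1, one_mul]
  have hfi : Function.Injective f := by
    have h : Function.LeftInverse g f := fun y => congrArg (fun r => r y) hgf
    exact h.injective
  have h1 : MvPolynomial.aeval (fun l => algebraMap F E c * x l) =
      (MvPolynomial.aeval x).comp f := by
    apply MvPolynomial.algHom_ext
    intro l
    rw [AlgHom.comp_apply, MvPolynomial.aeval_X]
    simp only [f, MvPolynomial.aeval_X, map_mul, MvPolynomial.algHom_C]
  intro P Q hPQ
  have h2 : (MvPolynomial.aeval x) (f P) = (MvPolynomial.aeval x) (f Q) := by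
    have h3 := hPQ
    rw [h1] at h3
    exact h3
  exact hfi (hx h2)

/-- the quotients -/
noncomputable def yy (x : Fin (m + 1) → E) (l : Fin m) : E := x l.succ / x 0

lemma indep_yy (hx : AlgebraicIndependent k x) :
    AlgebraicIndependent k (Sum.elim (yy x) (fun _ : Unit => x 0)) := by
  have hb0 : x 0 ≠ 0 := by
    intro h0
    have h1 := hx.transcendental 0
    rw [h0] at h1
    exact h1 isAlgebraic_zero
  have h1 : AlgebraicIndependent k (Sum.elim (fun l : Fin m => x l.succ) (fun _ : Unit => x 0)) := by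
    have hf : Function.Injective (Sum.elim Fin.succ (fun _ => 0) : Fin m ⊕ Unit → Fin (m + 1)) := by
      rintro (a | a) (b | b) hab
      · exact congrArg Sum.inl (Fin.succ_injective m hab)
      · exact absurd hab (Fin.succ_ne_zero a)
      · exact absurd hab.symm (Fin.succ_ne_zero b)
      · rfl
    have h2 := hx.comp _ hf
    have h3 : (x ∘ (Sum.elim Fin.succ (fun _ => 0) : Fin m ⊕ Unit → Fin (m + 1))) =
        Sum.elim (fun l : Fin m => x l.succ) (fun _ : Unit => x 0) := by
      funext t
      cases t <;> rfl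
    rw [h3] at h2
    exact h2
  rw [AlgebraicIndependent.sumElim_iff] at h1 ⊢
  refine ⟨h1.1, ?_⟩
  have h4 := h1.2
  rw [← algebraicIndependent_adjoin_iff] at h4 ⊢
  have hmem : x 0 ∈ adjoin k (Set.range fun _ : Unit => x 0) := subset_adjoin _ _ ⟨(), rfl⟩
  have h5 := indep_scale h4 (⟨x 0, hmem⟩ : adjoin k (Set.range fun _ : Unit => x 0))⁻¹
    (inv_ne_zero fun h => hb0 (congrArg Subtype.val h))
  have h6 : (fun l : Fin m => algebraMap (adjoin k (Set.range fun _ : Unit => x 0)) E
      (⟨x 0, hmem⟩ : adjoin k (Set.range fun _ : Unit => x 0))⁻¹ * x l.succ) = yy x := by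
    funext l
    have h7 : algebraMap (adjoin k (Set.range fun _ : Unit => x 0)) E
      (⟨x 0, hmem⟩ : adjoin k (Set.range fun _ : Unit => x 0))⁻¹ = (x 0)⁻¹ := by
      rw [map_inv₀]
      rfl
    rw [h7, yy, div_eq_inv_mul]
  rw [h6] at h5
  exact h5

lemma indep_yy1 (hx : AlgebraicIndependent k x) : AlgebraicIndependent k (yy x) := by
  have h := (indep_yy hx).comp (Sum.inl : Fin m → Fin m ⊕ Unit) Sum.inl_injective
  exact h

lemma tr_yy (hx : AlgebraicIndependent k x) :
    Transcendental (adjoin k (Set.range (yy x))) (x 0) := by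
  have hf : Function.Injective (Sum.swap : Unit ⊕ Fin m → Fin m ⊕ Unit) :=
    (Equiv.sumComm Unit (Fin m)).injective
  have h2 := (indep_yy hx).comp _ hf
  have h3 : (Sum.elim (yy x) (fun _ : Unit => x 0) ∘ (Sum.swap : Unit ⊕ Fin m → Fin m ⊕ Unit)) =
      Sum.elim (fun _ : Unit => x 0) (yy x) := by
    funext t
    cases t <;> rfl
  rw [h3, AlgebraicIndependent.sumElim_iff] at h2
  have h4 := h2.2
  rw [← algebraicIndependent_adjoin_iff] at h4
  exact h4.transcendental ()

/-- the field of the quotients is relatively algebraically closed -/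
lemma cl_yy (hx : AlgebraicIndependent k x)
    (htop : ∀ G : IntermediateField k E, (∀ l, x l ∈ G) → ∀ z, z ∈ G) (z : E)
    (hz : IsAlgebraic (adjoin k (Set.range (yy x))) z) : z ∈ adjoin k (Set.range (yy x)) := by
  have hb0 : x 0 ≠ 0 := by
    intro h0
    have h1 := hx.transcendental 0
    rw [h0] at h1
    exact h1 isAlgebraic_zero
  set F := adjoin k (Set.range (yy x)) with hF
  have h1 : z ∈ (adjoin F {x 0}).restrictScalars k := by
    apply htop
    have h0 : x 0 ∈ (adjoin F {x 0}).restrictScalars k := by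
      rw [mem_restrictScalars]
      exact mem_adjoin_simple_self _ _
    intro l
    refine Fin.cases h0 (fun l => ?_) l
    have h2 : yy x l ∈ (adjoin F {x 0}).restrictScalars k := by
      rw [mem_restrictScalars]
      have h3 : yy x l ∈ F := subset_adjoin _ _ ⟨l, rfl⟩
      exact IntermediateField.algebraMap_mem _ (⟨_, h3⟩ : F)
    have h4 := mul_mem h2 h0
    rw [yy, div_mul_cancel₀ _ hb0] at h4
    exact h4
  rw [mem_restrictScalars] at h1
  obtain ⟨c, hc⟩ := mem_of_alg_simple (tr_yy hx) h1 hz
  rw [← hc]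
  exact c.2

lemma cl_lift {E₀ : Type} [Field E₀] (T : E₀ →+* E) (F : IntermediateField k E)
    (h1 : ∀ y, T y ∈ F) (h2 : ∀ z ∈ F, ∃ y, T y = z) (h3 : ∀ z, IsAlgebraic F z → z ∈ F) (z : E)
    (h : ∃ g : Polynomial E₀, g ≠ 0 ∧ g.eval₂ T z = 0) : ∃ y, T y = z := by
  obtain ⟨g, hg, hgz⟩ := h
  let T' : E₀ →+* F :=
    { toFun := fun y => ⟨T y, h1 y⟩
      map_one' := Subtype.ext (map_one _)
      map_mul' := fun _ _ => Subtype.ext (map_mul _ _ _)
      map_zero' := Subtype.ext (map_zero _)
      map_add' := fun _ _ => Subtype.ext (map_add _ _ _) }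
  have halg : IsAlgebraic F z := by
    refine ⟨g.map T', (Polynomial.map_ne_zero_iff T'.injective).mpr hg, ?_⟩
    rw [Polynomial.aeval_def, Polynomial.eval₂_map]
    exact hgz
  exact h2 z (h3 z halg)

end abs

open Pool.Agent.H936R2 Pool.Agent.H927R2.RD H294UB Pool.Agent.W275.UB
  Pool.Agent.W193.UB Pool.Agent.W277.UH NumberField Filter Topology

section conc

variable {k : Type} [Field k] [NumberField k] {m : ℕ}

/-- the variables in the big field -/
noncomputable def xx (k : Type) [Field k] [NumberField k] (m : ℕ) (l : Fin (m + 1)) :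
    KK k (Fin (m + 1)) :=
  algebraMap (MvPolynomial (Fin (m + 1)) (𝓞 k)) (KK k (Fin (m + 1))) (MvPolynomial.X l)

lemma aeval_kap (r : MvPolynomial (Fin m) k) :
    MvPolynomial.aeval (yy (xx k m)) r =
      MvPolynomial.eval₂Hom kap (fun l => algebraMap (MvPolynomial (Fin (m + 1)) (𝓞 k))
        (KK k (Fin (m + 1))) (MvPolynomial.X l.succ) /
        algebraMap (MvPolynomial (Fin (m + 1)) (𝓞 k)) (KK k (Fin (m + 1)))
        (MvPolynomial.X 0)) r := rfl

/-- the embedding of the small field in the big field -/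
noncomputable def TM (k : Type) [Field k] [NumberField k] (m : ℕ) :
    FractionRing (MvPolynomial (Fin m) k) →+* KK k (Fin (m + 1)) :=
  IsFractionRing.lift (A := MvPolynomial (Fin m) k)
    (g := ((MvPolynomial.aeval (yy (xx k m)) : MvPolynomial (Fin m) k →ₐ[k] KK k (Fin (m + 1))) :
      MvPolynomial (Fin m) k →+* KK k (Fin (m + 1)))) (indep_yy1 indep_K)

lemma TM_apply (r : MvPolynomial (Fin m) k) :
    TM k m (algebraMap _ _ r) = MvPolynomial.aeval (yy (xx k m)) r :=
  IsFractionRing.lift_algebraMap _ _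

lemma TM_mem (z : KK k (Fin (m + 1))) (hz : z ∈ adjoin k (Set.range (yy (xx k m)))) :
    ∃ y, TM k m y = z := by
  let G : IntermediateField k (KK k (Fin (m + 1))) :=
    { (TM k m).fieldRange with
      algebraMap_mem' := by
        intro c
        refine ⟨algebraMap (MvPolynomial (Fin m) k) _ (MvPolynomial.C c), ?_⟩
        rw [TM_apply]
        exact MvPolynomial.aeval_C _ _ }
  have h : adjoin k (Set.range (yy (xx k m))) ≤ G := by
    rw [adjoin_le_iff]
    rintro _ ⟨l, rfl⟩
    refine ⟨algebraMap (MvPolynomial (Fin m) k) _ (MvPolynomial.X l), ?_⟩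
    rw [TM_apply]
    exact MvPolynomial.aeval_X _ _
  exact h hz

lemma mem_TM (y : FractionRing (MvPolynomial (Fin m) k)) :
    TM k m y ∈ adjoin k (Set.range (yy (xx k m))) := by
  have h : ∀ r : MvPolynomial (Fin m) k, TM k m (algebraMap _ _ r) ∈
      adjoin k (Set.range (yy (xx k m))) := by
    intro r
    rw [TM_apply]
    induction r using MvPolynomial.induction_on with
    | C a =>
      rw [MvPolynomial.aeval_C]
      exact IntermediateField.algebraMap_mem _ _
    | add p q hp hq => rw [map_add]; exact add_mem hp hq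
    | mul_X p i hp =>
      rw [map_mul, MvPolynomial.aeval_X]
      exact mul_mem hp (subset_adjoin _ _ ⟨i, rfl⟩)
  obtain ⟨a, b, _, rfl⟩ := IsFractionRing.div_surjective (A := MvPolynomial (Fin m) k) y
  rw [map_div₀]
  exact div_mem (h a) (h b)

lemma indep_xx : AlgebraicIndependent k (xx k m) := indep_K

lemma top_xx (G : IntermediateField k (KK k (Fin (m + 1)))) (hG : ∀ l, xx k m l ∈ G)
    (z : KK k (Fin (m + 1))) : z ∈ G := top_K G hG z

lemma TM_cl (z : KK k (Fin (m + 1)))
    (h : ∃ g : Polynomial (FractionRing (MvPolynomial (Fin m) k)), g ≠ 0 ∧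
      g.eval₂ (TM k m) z = 0) : ∃ y, TM k m y = z :=
  cl_lift (TM k m) (adjoin k (Set.range (yy (xx k m)))) mem_TM TM_mem
    (@cl_yy k (KK k (Fin (m + 1))) _ _ _ m (xx k m) indep_xx top_xx) z h

/-- **Families with `m` parameters, at all rational parameters.** -/
theorem param_rat {J : Type} [Fintype J] (ω : Module.Basis J ℤ (𝓞 k)) {d C : ℕ} (hd : 2 ≤ d)
    (P Q : Polynomial (MvPolynomial (Fin m) k))
    (hg : GoodMap d C
      (P.map (algebraMap (MvPolynomial (Fin m) k) (FractionRing (MvPolynomial (Fin m) k))))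
      (Q.map (algebraMap (MvPolynomial (Fin m) k) (FractionRing (MvPolynomial (Fin m) k))))) :
    D0 {w : Fin (m + 1) × J → ℤ | ¬ (vec ω w 0 ≠ 0 ∧ GoodMap d C
      (P.map (MvPolynomial.eval fun l : Fin m => algebraMap (𝓞 k) k (vec ω w l.succ) /
        algebraMap (𝓞 k) k (vec ω w 0)))
      (Q.map (MvPolynomial.eval fun l : Fin m => algebraMap (𝓞 k) k (vec ω w l.succ) /
        algebraMap (𝓞 k) k (vec ω w 0))))} := by
  have h := multi_param ω (A := fun l : Fin m => MvPolynomial.X l.succ) (B := MvPolynomial.X 0) hd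
    P Q hg (MvPolynomial.X_ne_zero 0) (TM k m) (fun r => by rw [TM_apply, aeval_kap]) TM_cl
  have h1 : ∀ (w : Fin (m + 1) × J → ℤ) (i : Fin (m + 1)), sp ω w (MvPolynomial.X i) =
      algebraMap (𝓞 k) k (vec ω w i) := by
    intro w i
    rw [sp, RingHom.comp_apply, MvPolynomial.eval_X]
  intro ε hε
  refine (h ε hε).mono ?_
  intro w hw hcon
  apply hw
  obtain ⟨h2, h3⟩ := hcon
  simp only [h1] at h2 h3
  refine ⟨?_, h3⟩
  intro h0
  rw [h0, map_zero] at h2
  exact h2 rfl

end conc

/-- **Uniform boundedness for 100% of the members of every non-isotrivial family.** -/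
theorem main3 : ∃ N : ℕ → ℕ, ∀ (k : Type) [Field k] [NumberField k] (J : Type) [Fintype J]
    (ω : Module.Basis J ℤ (𝓞 k)) (d : ℕ), 2 ≤ d →
    ∀ (m : ℕ) (P Q : Polynomial (MvPolynomial (Fin m) k)) (i : Fin m),
      max P.natDegree Q.natDegree = d →
      IsCoprime (P.map (algebraMap (MvPolynomial (Fin m) k) (FractionRing (MvPolynomial (Fin m) k))))
        (Q.map (algebraMap (MvPolynomial (Fin m) k) (FractionRing (MvPolynomial (Fin m) k)))) →
      ¬ IsoOver (subF k i)
        (P.map (algebraMap (MvPolynomial (Fin m) k) (FractionRing (MvPolynomial (Fin m) k))))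
        (Q.map (algebraMap (MvPolynomial (Fin m) k) (FractionRing (MvPolynomial (Fin m) k)))) d →
      Tendsto (fun H : ℕ =>
        (({v | v ∈ {v : Fin (m + 1) → 𝓞 k | ∀ l j, |ω.repr (v l) j| ≤ (H : ℤ)} ∧
          (v 0 ≠ 0 ∧ GoodMap d (N d)
            (P.map (MvPolynomial.eval fun l : Fin m => algebraMap (𝓞 k) k (v l.succ) /
              algebraMap (𝓞 k) k (v 0)))
            (Q.map (MvPolynomial.eval fun l : Fin m => algebraMap (𝓞 k) k (v l.succ) /
              algebraMap (𝓞 k) k (v 0))))} :
            Set (Fin (m + 1) → 𝓞 k)).ncard : ℝ) /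
        (({v : Fin (m + 1) → 𝓞 k | ∀ l j, |ω.repr (v l) j| ≤ (H : ℤ)}).ncard : ℝ))
        atTop (𝓝 1) := by
  obtain ⟨N, hN1, hN2⟩ := geom2
  refine ⟨N, fun k _ _ J _ ω d hd m P Q i hmax hco hiso => ?_⟩
  have hinj : Function.Injective (algebraMap (MvPolynomial (Fin m) k)
      (FractionRing (MvPolynomial (Fin m) k))) := IsFractionRing.injective _ _
  have hmax' : max (P.map (algebraMap (MvPolynomial (Fin m) k)
      (FractionRing (MvPolynomial (Fin m) k)))).natDegree
      (Q.map (algebraMap (MvPolynomial (Fin m) k)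
        (FractionRing (MvPolynomial (Fin m) k)))).natDegree = d := by
    rw [Polynomial.natDegree_map_eq_of_injective hinj,
      Polynomial.natDegree_map_eq_of_injective hinj]
    exact hmax
  have hcz : CharZero (FractionRing (MvPolynomial (Fin m) k)) :=
    charZero_of_injective_algebraMap (R := k) (algebraMap k _).injective
  have hg := hN2 (FractionRing (MvPolynomial (Fin m) k)) (subF k i) _ (tr_sub i) (gen_sub i) d hd
    _ _ hco hmax' hiso
  exact Pool.Agent.W275.ND.ratioV ω (ι := Fin (m + 1)) _ (param_rat ω hd P Q hg)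

end Pool.Agent.Y706
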