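import Pool.Agent.Y706.B12

set_option autoImplicit false

/-! Strong uniform boundedness for 100% of the members of every non-isotrivial family of
polynomials. -/

namespace Pool.Agent.Y706

open Pool.Agent.H936R2 Pool.Agent.H927R2.RD H294UB Pool.Agent.W275.UB
  Pool.Agent.W193.UB Pool.Agent.W277.UH Pool.Agent.W277.UG Pool.Agent.W277.UC NumberField Filter
  Topology

set_option linter.unusedSectionVars false

section

variable {k : Type} [Field k] [CharZero k] {m : ℕ}

lemma alg_transfer {K₀ Ω : Type} [Field K₀] [Field Ω] [Algebra K₀ Ω] [Algebra k Ω]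
    (M : IntermediateField k Ω) (hM : ∀ r : K₀, algebraMap K₀ Ω r ∈ M) {z : Ω}
    (hz : IsAlgebraic K₀ z) : IsAlgebraic M z := by
  obtain ⟨g, hg, hgz⟩ := hz
  let φ : K₀ →+* M :=
    { toFun := fun x => ⟨algebraMap K₀ Ω x, hM x⟩
      map_one' := Subtype.ext (map_one _)
      map_mul' := fun _ _ => Subtype.ext (map_mul _ _ _)
      map_zero' := Subtype.ext (map_zero _)
      map_add' := fun _ _ => Subtype.ext (map_add _ _ _) }
  refine ⟨g.map φ, (Polynomial.map_ne_zero_iff φ.injective).mpr hg, ?_⟩
  rw [Polynomial.aeval_def, Polynomial.eval₂_map]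
  exact hgz

/-- the field `k(t_1, ..., t_m)` -/
abbrev RFk (k : Type) [Field k] (m : ℕ) : Type := FractionRing (MvPolynomial (Fin m) k)

/-- the variables in the algebraic closure -/
noncomputable def xo (k : Type) [Field k] (m : ℕ) (i : Fin m) : AlgebraicClosure (RFk k m) :=
  algebraMap (RFk k m) (AlgebraicClosure (RFk k m))
    (algebraMap (MvPolynomial (Fin m) k) (RFk k m) (MvPolynomial.X i))

lemma indep_xo : AlgebraicIndependent k (xo k m) := by
  have h := (indep_frac (k := k) (ι := Fin m)).map'
    (f := IsScalarTower.toAlgHom k (RFk k m) (AlgebraicClosure (RFk k m)))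
    (IsScalarTower.toAlgHom k (RFk k m) (AlgebraicClosure (RFk k m))).toRingHom.injective
  exact h

lemma rf_mem (r : RFk k m) : algebraMap (RFk k m) (AlgebraicClosure (RFk k m)) r ∈
    IntermediateField.adjoin k (Set.range (xo k m)) := by
  have h : ∀ P : MvPolynomial (Fin m) k, algebraMap (RFk k m) (AlgebraicClosure (RFk k m))
      (algebraMap (MvPolynomial (Fin m) k) (RFk k m) P) ∈
      IntermediateField.adjoin k (Set.range (xo k m)) := by
    intro P
    induction P using MvPolynomial.induction_on with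
    | C a =>
      have h2 : algebraMap (MvPolynomial (Fin m) k) (RFk k m)
          (MvPolynomial.C a) = algebraMap k (RFk k m) a := by
        rw [IsScalarTower.algebraMap_apply k (MvPolynomial (Fin m) k) (RFk k m)]
        rfl
      rw [h2, ← IsScalarTower.algebraMap_apply k (RFk k m) (AlgebraicClosure (RFk k m))]
      exact IntermediateField.algebraMap_mem _ a
    | add p q hp hq => rw [map_add, map_add]; exact add_mem hp hq
    | mul_X p j hp =>
      rw [map_mul, map_mul]
      exact mul_mem hp (IntermediateField.subset_adjoin _ _ ⟨j, rfl⟩)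
  obtain ⟨a, b, _, rfl⟩ := IsFractionRing.div_surjective (A := MvPolynomial (Fin m) k) r
  rw [map_div₀]
  exact div_mem (h a) (h b)

lemma sub_mem_xo (i : Fin m) (r : subF k i) : algebraMap (subF k i)
    (AlgebraicClosure (RFk k m)) r ∈
    IntermediateField.adjoin k {y : AlgebraicClosure (RFk k m) | ∃ j, j ≠ i ∧ y = xo k m j} := by
  obtain ⟨r, hr⟩ := r
  show algebraMap (RFk k m) (AlgebraicClosure (RFk k m)) r ∈ _
  have hr' : r ∈ IntermediateField.adjoin k {x : RFk k m | ∃ j, j ≠ i ∧
    x = algebraMap (MvPolynomial (Fin m) k) (RFk k m) (MvPolynomial.X j)} := hr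
  induction hr' using IntermediateField.adjoin_induction with
  | mem x hx =>
    obtain ⟨j, hj, rfl⟩ := hx
    exact IntermediateField.subset_adjoin _ _ ⟨j, hj, rfl⟩
  | algebraMap x =>
    rw [← IsScalarTower.algebraMap_apply k (RFk k m) (AlgebraicClosure (RFk k m))]
    exact IntermediateField.algebraMap_mem _ x
  | add x y hx hy h1 h2 =>
    rw [map_add]
    exact add_mem (h1 hx) (h2 hy)
  | inv x hx h1 =>
    rw [map_inv₀]
    exact inv_mem (h1 hx)
  | mul x y hx hy h1 h2 =>
    rw [map_mul]
    exact mul_mem (h1 hx) (h2 hy)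

/-- a non-isotrivial polynomial varies in one of the parameters -/
theorem exists_dir {d : ℕ} (hd : 2 ≤ d) (f : Polynomial (AlgebraicClosure (RFk k m)))
    (hf : f.natDegree = d)
    (hiso : ¬ ∃ y b : AlgebraicClosure (RFk k m), y ≠ 0 ∧ ∀ n, IsAlgebraic k ((aff y b f).coeff n)) :
    ∃ i : Fin m, ¬ ∃ y b : AlgebraicClosure (RFk k m), y ≠ 0 ∧
      ∀ n, IsAlgebraic (subF k i) ((aff y b f).coeff n) := by
  classical
  have hcz0 : CharZero (RFk k m) :=
    charZero_of_injective_algebraMap (R := k) (algebraMap k _).injective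
  have hcz : CharZero (AlgebraicClosure (RFk k m)) :=
    charZero_of_injective_algebraMap (R := RFk k m) (algebraMap (RFk k m) _).injective
  by_contra hcon
  push Not at hcon
  obtain ⟨y0, b0, hy0, hmc0, -⟩ := exists_mc (RFk k m) hd f hf
    (fun n => Algebra.IsAlgebraic.isAlgebraic _)
  refine hiso ⟨y0, b0, hy0, fun n => ?_⟩
  apply alg_inter (xo k m) indep_xo
  · exact alg_transfer _ rf_mem (Algebra.IsAlgebraic.isAlgebraic (R := RFk k m) _)
  · intro i
    refine alg_transfer (K₀ := subF k i) _ (sub_mem_xo i) ?_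
    obtain ⟨y1, b1, hy1, h1⟩ := hcon i
    obtain ⟨y2, b2, hy2, hmc2, h2⟩ := exists_mc (subF k i) hd (aff y1 b1 f)
      (by rw [aff_natDegree y1 b1 hy1, hf]) h1
    rw [aff_aff y1 b1 y2 b2 hy1] at hmc2 h2
    set yt := y1 * y2 with hyt
    set bt := y1 * b2 + b1 with hbt
    have hyt0 : yt ≠ 0 := mul_ne_zero hy1 hy2
    have h3 : aff (yt / y0) ((bt - b0) / y0) (aff y0 b0 f) = aff yt bt f := by
      rw [aff_aff y0 b0 _ _ hy0]
      congr 1
      · field_simp
      · field_simp
        ring
    have hY0 : yt / y0 ≠ 0 := div_ne_zero hyt0 hy0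
    rw [← h3] at hmc2 h2
    obtain ⟨h4, h5⟩ := mc_unique hd hY0 hmc0 hmc2
    rw [h4] at h2
    have h6 := h2 n
    rw [aff_coeff0] at h6
    set Y := yt / y0 with hY
    have hYa : IsAlgebraic (subF k i) Y := by
      apply IsAlgebraic.of_pow (by omega : 0 < d - 1)
      rw [h5]
      exact isAlgebraic_one
    have h7 : (aff y0 b0 f).coeff n =
        Y * ((Y ^ n)⁻¹ * (Y⁻¹ * (Y ^ n * (aff y0 b0 f).coeff n))) := by
      field_simp
    rw [h7]
    exact hYa.mul ((hYa.pow n).inv.mul h6)

end

/-- **Strong uniform boundedness for 100% of the members of every non-isotrivial family of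
polynomials.** -/
theorem main4 (k : Type) [Field k] [NumberField k] (J : Type) [Fintype J]
    (ω : Module.Basis J ℤ (𝓞 k)) (d : ℕ) (hd : 2 ≤ d) (B : ℕ) (hB : 1 ≤ B)
    (m : ℕ) (P : Polynomial (MvPolynomial (Fin m) k)) (hP : P.natDegree = d)
      (hiso : ¬ ∃ y b : AlgebraicClosure (RFk k m), y ≠ 0 ∧ ∀ n, IsAlgebraic k
        ((aff y b ((P.map (algebraMap (MvPolynomial (Fin m) k) (RFk k m))).map
          (algebraMap (RFk k m) (AlgebraicClosure (RFk k m))))).coeff n)) :
      Tendsto (fun H : ℕ =>
        (({v | v ∈ {v : Fin (m + 1) → 𝓞 k | ∀ l j, |ω.repr (v l) j| ≤ (H : ℤ)} ∧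
          (v 0 ≠ 0 ∧
            (P.map (MvPolynomial.eval fun l : Fin m => algebraMap (𝓞 k) k (v l.succ) /
              algebraMap (𝓞 k) k (v 0))).natDegree = d ∧
            {x : AlgebraicClosure k | (Set.range fun n : ℕ => (fun z => Polynomial.aeval z
              (P.map (MvPolynomial.eval fun l : Fin m => algebraMap (𝓞 k) k (v l.succ) /
                algebraMap (𝓞 k) k (v 0))))^[n] x).Finite ∧
              (minpoly k x).natDegree ≤ B}.encard ≤ ((Bdn d B * d ^ Bdn d B : ℕ) : ℕ∞))} :
            Set (Fin (m + 1) → 𝓞 k)).ncard : ℝ) /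
        (({v : Fin (m + 1) → 𝓞 k | ∀ l j, |ω.repr (v l) j| ≤ (H : ℤ)}).ncard : ℝ))
        atTop (𝓝 1) := by
  classical
  have hcz0 : CharZero (RFk k m) :=
    charZero_of_injective_algebraMap (R := k) (algebraMap k _).injective
  have hinj : Function.Injective (algebraMap (MvPolynomial (Fin m) k) (RFk k m)) :=
    IsFractionRing.injective _ _
  set f := P.map (algebraMap (MvPolynomial (Fin m) k) (RFk k m)) with hfdef
  have hf : f.natDegree = d := by
    rw [hfdef, Polynomial.natDegree_map_eq_of_injective hinj, hP]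
  have hmax : max f.natDegree (1 : Polynomial (RFk k m)).natDegree = d := by
    rw [hf, Polynomial.natDegree_one]
    omega
  have hco : IsCoprime f (1 : Polynomial (RFk k m)) := isCoprime_one_right
  obtain ⟨i, hi⟩ := exists_dir hd (f.map (algebraMap (RFk k m) (AlgebraicClosure (RFk k m))))
    (by rw [Polynomial.natDegree_map, hf]) hiso
  have h1 := geomB (tr_sub i) (gen_sub i) B d f hd hf hi
  have h2 := fewB_of_encard (by omega) hmax hco B _ h1
  obtain ⟨s, hM⟩ := monIn_of_good (by omega) hmax hco
  have hcoe : co f 1 d = fun i => algebraMap (MvPolynomial (Fin m) k) (RFk k m) (co P 1 d i) := by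
    rw [co_map, Polynomial.map_one]
  rw [hcoe] at h2 hM
  have h3 := paramB ω (AlgebraicClosure k) hd (co P 1 d) hM h2
  refine Pool.Agent.W275.ND.ratioV ω (ι := Fin (m + 1)) _ ?_
  intro ε hε
  refine (h3 ε hε).mono ?_
  intro w hw hcon
  apply hw
  obtain ⟨g1, ⟨s', g2⟩, g3⟩ := hcon
  have htp : (fun i => MvPolynomial.eval (tp ω w) (co P 1 d i)) =
      co (P.map (MvPolynomial.eval (tp ω w))) 1 d := by
    rw [co_map, Polynomial.map_one]
  rw [htp] at g2 g3
  set p := P.map (MvPolynomial.eval (tp ω w)) with hp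
  have hpd : p.natDegree ≤ d := Polynomial.natDegree_map_le.trans hP.le
  obtain ⟨hco', hmax'⟩ := of_monIn hpd (by rw [Polynomial.natDegree_one]; omega) g2
  have hpd' : p.natDegree = d := by
    rw [Polynomial.natDegree_one] at hmax'
    omega
  have g4 := encard_of_fewB (by omega) hmax' hco' hB _ g3
  refine ⟨g1, hpd', ?_⟩
  have hstep : ∀ x : AlgebraicClosure k, ratP1 (p.map (algebraMap k (AlgebraicClosure k)))
      ((1 : Polynomial k).map (algebraMap k (AlgebraicClosure k))) d (some x) =
      some (Polynomial.aeval x p) := by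
    intro x
    rw [ratP1_some, Polynomial.map_one, Polynomial.eval_one, div_one, Polynomial.eval_map_algebraMap]
    rw [Polynomial.map_one, Polynomial.eval_one]
    exact one_ne_zero
  have hiter : ∀ (m : ℕ) (x : AlgebraicClosure k),
      (ratP1 (p.map (algebraMap k (AlgebraicClosure k)))
      ((1 : Polynomial k).map (algebraMap k (AlgebraicClosure k))) d)^[m] (some x) =
      some ((fun z => Polynomial.aeval z p)^[m] x) := by
    intro m
    induction m with
    | zero => intro x; rfl
    | succ m ih =>
      intro x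
      rw [Function.iterate_succ_apply, hstep, ih, Function.iterate_succ_apply]
  have hsome : Function.Injective (some : AlgebraicClosure k → Option (AlgebraicClosure k)) :=
    Option.some_injective _
  set S : Set (AlgebraicClosure k) := {x | (Set.range fun n : ℕ =>
    (fun z => Polynomial.aeval z p)^[n] x).Finite ∧ (minpoly k x).natDegree ≤ B} with hS
  have hsub : insert none (some '' S) ⊆ PB (AlgebraicClosure k) p 1 d B := by
    intro z hz
    rcases Set.mem_insert_iff.1 hz with rfl | ⟨x, ⟨hx1, hx2⟩, rfl⟩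
    · refine ⟨?_, fun x hx => by cases hx⟩
      have hnone : ratP1 (p.map (algebraMap k (AlgebraicClosure k)))
          ((1 : Polynomial k).map (algebraMap k (AlgebraicClosure k))) d none = none := by
        rw [ratP1_none0]
        rw [Polynomial.map_one, Polynomial.coeff_one, if_neg (by omega)]
      rw [orb_fin]
      refine ⟨0, 1, one_pos, ?_⟩
      rw [Function.iterate_one, Function.iterate_zero, id_eq, hnone]
    · refine ⟨?_, ?_⟩
      · rw [orb_fin] at hx1 ⊢
        obtain ⟨a, b, hab, h⟩ := hx1
        refine ⟨a, b, hab, ?_⟩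
        rw [hiter, hiter]
        exact congrArg some h
      · rintro y hy
        have hyx : x = y := Option.some_injective _ hy
        subst hyx
        have hint : IsIntegral k x := (Algebra.IsAlgebraic.isAlgebraic (R := k) x).isIntegral
        refine ⟨IntermediateField.adjoin k {x}, IntermediateField.adjoin.finiteDimensional hint, ?_,
          IntermediateField.mem_adjoin_simple_self k x⟩
        rw [IntermediateField.adjoin.finrank hint]
        exact hx2
  have g5 := (Set.encard_le_encard hsub).trans g4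
  rw [Set.encard_insert_of_notMem (by rintro ⟨x, _, hx⟩; cases hx), hsome.encard_image] at g5
  push_cast at g5
  have g6 : S.encard + 1 ≤ ((Bdn d B * d ^ Bdn d B : ℕ) : ℕ∞) + 1 := by
    exact_mod_cast g5
  exact (ENat.add_le_add_iff_right (by simp)).1 g6

end Pool.Agent.Y706
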