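import Pool.Agent.Y706.Few
import Pool.Agent.Y706.Rac4
import Pool.Agent.W275.UB.All

set_option autoImplicit false

/-! Preperiodic points are algebraic. -/

namespace Pool.Agent.Y706

open MvPolynomial Pool.Agent.H936R2 Pool.Agent.H927R2.RD H294UB Pool.Agent.W275.UB

theorem alg_pts (hitr : S_itr) (hcnt : TaskCnt) (hfin : S_fin) {E Ω : Type} [Field E] [Field Ω]
    [Algebra E Ω] {N d s b e : ℕ} (hd : 2 ≤ d) (he : 0 < e) (v : Idx (N + 1) d → E)
    (hM : MonIn s (sy v)) (x : Fin (N + 1) → Ω) (i0 : Fin (N + 1)) (hx : x i0 = 1)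
    (hrel : ∃ c : Ω, c ≠ 0 ∧ (pt (sy fun i => algebraMap E Ω (v i)))^[b + e] x =
      c • (pt (sy fun i => algebraMap E Ω (v i)))^[b] x) : ∀ i, IsAlgebraic E (x i) := by
  classical
  let Ω' := AlgebraicClosure Ω
  have hinj : Function.Injective (algebraMap Ω Ω') := (algebraMap Ω Ω').injective
  have hmap : ∀ i, algebraMap E Ω' (v i) = algebraMap Ω Ω' (algebraMap E Ω (v i)) := fun i =>
    IsScalarTower.algebraMap_apply E Ω Ω' _
  obtain ⟨C, hC⟩ := hcnt N s b e he
  have hM' : MonIn s (sy fun i => algebraMap E Ω' (v i)) := by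
    have h1 : MonC s (1 : E) (sy v) := fun μ hμ => hM μ hμ
    have h2 := h1.map (algebraMap E Ω')
    rw [map_one] at h2
    exact h2.monIn isUnit_one
  have hP : (fun i => map (algebraMap E Ω') (sy v i)) = sy fun i => algebraMap E Ω' (v i) :=
    Pool.Agent.W193.UB.map_sy _ _
  have key : ∀ j, IsAlgebraic E (algebraMap Ω Ω' (x j)) := by
    apply hfin E Ω' (N + 1) C
      (insert (X i0 - 1) (Set.range fun jk : Fin (N + 1) × Fin (N + 1) =>
        mnr (sy v) b e jk.1 jk.2))
    · intro Y hY
      have hY' : ∀ u ∈ Y, u i0 = 1 ∧ ∃ c : Ω', c ≠ 0 ∧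
          (pt (sy fun i => algebraMap E Ω' (v i)))^[b + e] u =
          c • (pt (sy fun i => algebraMap E Ω' (v i)))^[b] u := by
        intro u hu
        have h2 : u i0 = 1 := by
          have := hY u hu _ (Set.mem_insert _ _)
          rw [map_sub, aeval_X, map_one, sub_eq_zero] at this
          exact this
        have hu0 : u ≠ 0 := by
          intro h
          rw [h] at h2
          exact zero_ne_one h2
        refine ⟨h2, prop_of_minors _ _ (iter_ne_zero _ hM' u hu0 _)
          (iter_ne_zero _ hM' u hu0 _) fun j k => ?_⟩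
        have h3 := hY u hu _ (Set.mem_insert_of_mem _ ⟨(j, k), rfl⟩)
        rw [aeval_def, eval_mnr hitr, hP] at h3
        exact h3
      apply hC Ω' d hd _ (fun i => Pool.Agent.W193.UB.sy_hom _ i) hM' Y
      · intro u hu h
        have := (hY' u hu).1
        rw [h] at this
        exact zero_ne_one this
      · intro u hu z hz c huz
        have h1 := (hY' u hu).1
        have h2 := (hY' z hz).1
        rw [huz, Pi.smul_apply, smul_eq_mul, h2, mul_one] at h1
        rw [huz, h1, one_smul]
      · exact fun u hu => (hY' u hu).2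
    · intro g hg
      rcases Set.mem_insert_iff.1 hg with rfl | ⟨jk, rfl⟩
      · rw [map_sub, aeval_X, map_one, sub_eq_zero, hx, map_one]
      · change aeval _ (mnr (sy v) b e jk.1 jk.2) = 0
        rw [aeval_def, eval_mnr hitr, hP]
        obtain ⟨c, _, hc⟩ := hrel
        have hit : ∀ m, (pt (sy fun i => algebraMap E Ω' (v i)))^[m]
            (fun i => algebraMap Ω Ω' (x i)) =
            fun i => algebraMap Ω Ω' ((pt (sy fun i => algebraMap E Ω (v i)))^[m] x i) := by
          intro m
          have h4 := Pool.Agent.W193.UB.it_map (algebraMap Ω Ω') (fun i => algebraMap E Ω (v i)) x m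
          have h5 : (fun i => algebraMap Ω Ω' (algebraMap E Ω (v i))) =
              fun i => algebraMap E Ω' (v i) := funext fun i => (hmap i).symm
          rw [h5] at h4
          exact h4
        rw [hit, hit, hc]
        simp only [Pi.smul_apply, smul_eq_mul, map_mul]
        ring
  intro i
  exact (isAlgebraic_algebraMap_iff hinj).1 (key i)

end Pool.Agent.Y706
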