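import Mathlib

set_option autoImplicit false

/-! Degrees over a relatively algebraically closed subfield. -/

namespace Pool.Agent.Y706

open Polynomial

section

variable {K E Ω : Type} [Field K] [Field E] [Field Ω] [Algebra K E] [Algebra E Ω] [Algebra K Ω]
  [IsScalarTower K E Ω]

lemma natDegree_minpoly_le (hcl : ∀ z : E, IsAlgebraic K z → ∃ y, algebraMap K E y = z) (θ : Ω)
    (hθ : IsIntegral K θ) (g : E[X]) (hg : g.Monic) (hgθ : aeval θ g = 0) :
    (minpoly K θ).natDegree ≤ g.natDegree := by
  have hE : IsIntegral E θ := hθ.tower_top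
  set h := minpoly E θ with hh
  have hdvd : h ∣ (minpoly K θ).map (algebraMap K E) := by
    apply minpoly.dvd
    rw [aeval_map_algebraMap]
    exact minpoly.aeval K θ
  have hm : h.Monic := minpoly.monic hE
  have hcoef : ∀ i, ∃ y, algebraMap K E y = h.coeff i := fun i =>
    hcl _ (Polynomial.isIntegral_coeff_of_dvd _ _ (minpoly.monic hθ) hm hdvd i).isAlgebraic
  obtain ⟨h0, hh0, hd0, hm0⟩ := lifts_and_natDegree_eq_and_monic
    ((lifts_iff_coeff_lifts h).2 fun i => by
      obtain ⟨y, hy⟩ := hcoef i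
      exact ⟨y, hy⟩) hm
  have h1 : aeval θ h0 = 0 := by
    rw [← aeval_map_algebraMap E θ h0, hh0]
    exact minpoly.aeval E θ
  calc (minpoly K θ).natDegree ≤ h0.natDegree :=
        Polynomial.natDegree_le_of_dvd (minpoly.dvd K θ h1) hm0.ne_zero
    _ = h.natDegree := hd0
    _ ≤ g.natDegree := Polynomial.natDegree_le_of_dvd (minpoly.dvd E θ hgθ) hg.ne_zero

lemma finrank_adjoin_le [CharZero K]
    (hcl : ∀ z : E, IsAlgebraic K z → ∃ y, algebraMap K E y = z) {n B : ℕ} (x : Fin n → Ω)
    (hx : ∀ i, IsAlgebraic K (x i))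
    (h : ∀ θ ∈ IntermediateField.adjoin K (Set.range x), ∃ g : E[X], g.Monic ∧ g.natDegree ≤ B ∧
      aeval θ g = 0) :
    FiniteDimensional K (IntermediateField.adjoin K (Set.range x)) ∧
      Module.finrank K (IntermediateField.adjoin K (Set.range x)) ≤ B := by
  have hfin : FiniteDimensional K (IntermediateField.adjoin K (Set.range x)) := by
    apply IntermediateField.finiteDimensional_adjoin
    rintro _ ⟨i, rfl⟩
    exact (hx i).isIntegral
  refine ⟨hfin, ?_⟩
  set M := IntermediateField.adjoin K (Set.range x) with hM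
  obtain ⟨θ, hθ⟩ := Field.exists_primitive_element K M
  have hθi : IsIntegral K (θ : M) := IsIntegral.of_finite K θ
  have h1 : Module.finrank K M = (minpoly K θ).natDegree := by
    rw [← IntermediateField.adjoin.finrank hθi, hθ, IntermediateField.finrank_top']
  rw [h1]
  have h2 : minpoly K θ = minpoly K (θ : Ω) :=
    (minpoly.algebraMap_eq (algebraMap M Ω).injective θ).symm
  rw [h2]
  obtain ⟨g, hg, hgB, hgθ⟩ := h θ θ.2
  exact (natDegree_minpoly_le hcl (θ : Ω) (hθi.map (IntermediateField.val M)) g hg hgθ).trans hgB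

end

end Pool.Agent.Y706
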