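import Pool.Agent.Y706.B9
import Pool.Agent.W277.UG.D12

set_option autoImplicit false

/-! The geometric bound for polynomials and points of bounded degree. -/

namespace Pool.Agent.Y706

open Polynomial Pool.Agent.W277.UH Pool.Agent.W277.UG

section

variable {K : Type} [Field K] [CharZero K]

omit [CharZero K] in
/-- the field `K = F(t)` -/
lemma gonLE_of {F : Subfield K} {t : K} (ht : Transcendental F t)
    (htop : ∀ G : Subfield K, F ≤ G → t ∈ G → ∀ x, x ∈ G) (L : Type) [Field L] [Algebra K L]
    [FiniteDimensional K L] {B : ℕ} (hB : Module.finrank K L ≤ B) : GonLE F L B := by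
  have hinj : Function.Injective (algebraMap K L) := (algebraMap K L).injective
  refine ⟨algebraMap K L t, ?_, ?_⟩
  · exact (transcendental_algebraMap_iff hinj).2 ht
  set M := IntermediateField.adjoin F {algebraMap K L t} with hM
  have hmem : ∀ x : K, algebraMap K L x ∈ M := by
    intro x
    have h1 := htop (M.toSubfield.comap (algebraMap K L)) (by
      intro y hy
      show algebraMap K L y ∈ M
      have h2 : algebraMap K L y = algebraMap F L ⟨y, hy⟩ := rfl
      rw [h2]
      exact M.algebraMap_mem _) (by
      show algebraMap K L t ∈ M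
      exact IntermediateField.mem_adjoin_simple_self F _) x
    exact h1
  have hsub : M ≤ { (algebraMap K L).fieldRange with
      algebraMap_mem' := fun y => ⟨(y : K), rfl⟩ } := by
    rw [hM, IntermediateField.adjoin_le_iff]
    intro y hy
    rw [Set.mem_singleton_iff] at hy
    exact ⟨t, hy.symm⟩
  let φ : K →+* M :=
    { toFun := fun x => ⟨algebraMap K L x, hmem x⟩
      map_one' := Subtype.ext (map_one _)
      map_mul' := fun _ _ => Subtype.ext (map_mul _ _ _)
      map_zero' := Subtype.ext (map_zero _)
      map_add' := fun _ _ => Subtype.ext (map_add _ _ _) }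
  have hφ : Function.Bijective φ := by
    refine ⟨φ.injective, fun y => ?_⟩
    obtain ⟨x, hx⟩ := hsub y.2
    exact ⟨x, Subtype.ext hx⟩
  let e : K ≃+* M := RingEquiv.ofBijective φ hφ
  have hcomm : (algebraMap M L).comp (e : K →+* M) =
      ((RingEquiv.refl L : L ≃+* L) : L →+* L).comp (algebraMap K L) := RingHom.ext fun _ => rfl
  have h1 : Module.Finite M L := Module.Finite.of_equiv_equiv e (RingEquiv.refl L) hcomm
  refine ⟨h1, ?_⟩
  rw [← Algebra.finrank_eq_of_equiv_equiv e (RingEquiv.refl L) hcomm]
  exact hB

/-- the geometric bound -/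
theorem geomB {F : Subfield K} {t : K} (ht : Transcendental F t)
    (htop : ∀ G : Subfield K, F ≤ G → t ∈ G → ∀ x, x ∈ G) (B d : ℕ) (f : K[X]) (hd : 2 ≤ d)
    (hf : f.natDegree = d)
    (hiso : ¬ ∃ y b : AlgebraicClosure K, y ≠ 0 ∧ ∀ m, IsAlgebraic F
      ((Pool.Agent.W277.UC.aff y b (f.map (algebraMap K (AlgebraicClosure K)))).coeff m)) :
    (PB (AlgebraicClosure K) f 1 d B).encard ≤ ((Bdn d B * d ^ Bdn d B + 1 : ℕ) : ℕ∞) := by
  classical
  have hcz : CharZero F := charZero_of_injective_algebraMap (algebraMap F K).injective |> fun _ => by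
    constructor
    intro a b hab
    have := congrArg (algebraMap F K) hab
    rw [map_natCast, map_natCast] at this
    exact_mod_cast this
  set S := {x : AlgebraicClosure K | (Set.range fun m : ℕ =>
    (fun z => (f.map (algebraMap K (AlgebraicClosure K))).eval z)^[m] x).Finite ∧
    GonLE F (IntermediateField.adjoin K {x}) B} with hS
  have hSc : S.encard ≤ ((Bdn d B * d ^ Bdn d B : ℕ) : ℕ∞) :=
    geom_bound F K (AlgebraicClosure K) B d f hd hf hiso
  have hstep : ∀ x : AlgebraicClosure K, ratP1 (f.map (algebraMap K (AlgebraicClosure K)))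
      ((1 : K[X]).map (algebraMap K (AlgebraicClosure K))) d (some x) =
      some ((f.map (algebraMap K (AlgebraicClosure K))).eval x) := by
    intro x
    rw [ratP1_some, Polynomial.map_one, eval_one, div_one]
    rw [Polynomial.map_one, eval_one]
    exact one_ne_zero
  have hiter : ∀ (m : ℕ) (x : AlgebraicClosure K),
      (ratP1 (f.map (algebraMap K (AlgebraicClosure K)))
      ((1 : K[X]).map (algebraMap K (AlgebraicClosure K))) d)^[m] (some x) =
      some ((fun z => (f.map (algebraMap K (AlgebraicClosure K))).eval z)^[m] x) := by
    intro m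
    induction m with
    | zero => intro x; rfl
    | succ m ih =>
      intro x
      rw [Function.iterate_succ_apply, hstep, ih, Function.iterate_succ_apply]
  have hsub : PB (AlgebraicClosure K) f 1 d B ⊆ insert none (some '' S) := by
    rintro z ⟨h1, h2⟩
    cases z with
    | none => exact Set.mem_insert _ _
    | some x =>
      apply Set.mem_insert_of_mem
      refine ⟨x, ⟨?_, ?_⟩, rfl⟩
      · rw [orb_fin] at h1 ⊢
        obtain ⟨m, l, hml, h⟩ := h1
        rw [hiter, hiter] at h
        exact ⟨m, l, hml, Option.some_injective _ h⟩
      · obtain ⟨E, hE1, hE2, hxE⟩ := h2 x rfl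
        have hle : IntermediateField.adjoin K {x} ≤ E := by
          rw [IntermediateField.adjoin_le_iff]
          intro y hy
          rw [Set.mem_singleton_iff] at hy
          rw [hy]
          exact hxE
        have hfd : FiniteDimensional K (IntermediateField.adjoin K {x}) :=
          FiniteDimensional.of_injective (IntermediateField.inclusion hle).toLinearMap
            (IntermediateField.inclusion hle).injective
        have hfr : Module.finrank K (IntermediateField.adjoin K {x}) ≤ Module.finrank K E :=
          LinearMap.finrank_le_finrank_of_injective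
            (f := (IntermediateField.inclusion hle).toLinearMap)
            (IntermediateField.inclusion hle).injective
        exact gonLE_of ht htop _ (hfr.trans hE2)
  refine (Set.encard_le_encard hsub).trans ((Set.encard_insert_le _ _).trans ?_)
  push_cast
  gcongr
  refine (Set.encard_image_le _ _).trans ?_
  exact_mod_cast hSc

end

end Pool.Agent.Y706
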