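import Mathlib

set_option autoImplicit false

/-! Elements algebraic over each of the fields `k(t_j : j ≠ i)`. -/

namespace Pool.Agent.Y706

open AlgebraicIndependent

lemma alg_of_adjoin {k Ω : Type} [Field k] [Field Ω] [Algebra k Ω] {s : Set Ω} {z : Ω}
    (h : IsAlgebraic (IntermediateField.adjoin k s) z) : IsAlgebraic (Algebra.adjoin k s) z := by
  by_contra hcon
  have h1 : Transcendental (Algebra.adjoin k s) z := hcon
  rw [← IntermediateField.transcendental_adjoin_iff] at h1
  exact h1 h

theorem alg_inter {k Ω : Type} [Field k] [Field Ω] [Algebra k Ω] {m : ℕ} (x : Fin m → Ω)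
    (hx : AlgebraicIndependent k x) (z : Ω)
    (h0 : IsAlgebraic (IntermediateField.adjoin k (Set.range x)) z)
    (h : ∀ i, IsAlgebraic (IntermediateField.adjoin k {y : Ω | ∃ j, j ≠ i ∧ y = x j}) z) :
    IsAlgebraic k z := by
  let M := AlgebraicIndependent.matroid k Ω
  let Js : Option (Fin m) → Set Ω := fun o => match o with
    | none => Set.range x
    | some i => {y | ∃ j, j ≠ i ∧ y = x j}
  have hI : M.Indep (Set.range x) := by
    rw [matroid_indep_iff]
    exact hx.to_subtype_range
  have hJ : ∀ o, Js o ⊆ Set.range x := by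
    rintro (_ | i)
    · exact le_rfl
    · rintro _ ⟨j, _, rfl⟩
      exact ⟨j, rfl⟩
  have h1 := Matroid.Indep.closure_iInter_eq_biInter_closure_of_forall_subset hI hJ
  have h2 : (⋂ o, Js o) = ∅ := by
    rw [Set.eq_empty_iff_forall_notMem]
    intro y hy
    rw [Set.mem_iInter] at hy
    obtain ⟨j, rfl⟩ := hy none
    obtain ⟨j', hj', he⟩ := hy (some j)
    exact hj' (hx.injective he.symm)
  have h3 : z ∈ ⋂ o, M.closure (Js o) := by
    rw [Set.mem_iInter]
    rintro (_ | i)
    · show z ∈ M.closure (Set.range x)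
      rw [matroid_closure_eq]
      exact alg_of_adjoin h0
    · show z ∈ M.closure {y | ∃ j, j ≠ i ∧ y = x j}
      rw [matroid_closure_eq]
      exact alg_of_adjoin (h i)
  rw [← h1, h2, matroid_closure_eq] at h3
  have h4 : IsAlgebraic (Algebra.adjoin k (∅ : Set Ω)) z := h3
  have h5 : Algebra.IsAlgebraic k (Algebra.adjoin k (∅ : Set Ω)) := by
    constructor
    rintro ⟨y, hy⟩
    rw [Algebra.adjoin_empty, Algebra.mem_bot] at hy
    obtain ⟨c, rfl⟩ := hy
    exact isAlgebraic_algebraMap (R := k) (A := Algebra.adjoin k (∅ : Set Ω)) c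
  exact h4.restrictScalars k

end Pool.Agent.Y706
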