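import Pool.Agent.Y706.B11
import Pool.Agent.Y706.B10
import Pool.Agent.W277.UG.D10

set_option autoImplicit false

/-! Monic centered polynomials. -/

namespace Pool.Agent.Y706

open Polynomial Pool.Agent.W277.UC Pool.Agent.W277.UG

section

variable {Ω : Type} [Field Ω]

lemma aff_coeff (y b : Ω) (f : Polynomial Ω) (n : ℕ) (hn : 1 ≤ n) :
    (aff y b f).coeff n = y⁻¹ * (y ^ n * (taylor b f).coeff n) := by
  have h1 : f.comp (C y * X + C b) = (taylor b f).comp (C y * X) := by
    rw [taylor_apply, comp_assoc]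
    congr 1
    simp
  rw [aff, coeff_C_mul, coeff_sub, coeff_C, if_neg (by omega), sub_zero, h1, comp_C_mul_X_coeff,
    mul_comm (y ^ n)]

lemma aff_coeff0 (y : Ω) (f : Polynomial Ω) (n : ℕ) :
    (aff y 0 f).coeff n = y⁻¹ * (y ^ n * f.coeff n) := by
  have h1 : f.comp (C y * X + C 0) = f.comp (C y * X) := by
    rw [C_0, add_zero]
  rw [aff, coeff_C_mul, coeff_sub, h1, C_0, coeff_zero, sub_zero, comp_C_mul_X_coeff,
    mul_comm (y ^ n)]

lemma taylor_top (b : Ω) (f : Polynomial Ω) : (taylor b f).coeff f.natDegree = f.leadingCoeff := by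
  have h1 := leadingCoeff_taylor b f
  rw [leadingCoeff, natDegree_taylor] at h1
  exact h1

lemma taylor_next (b : Ω) (f : Polynomial Ω) {d : ℕ} (hd : 1 ≤ d) (hf : f.natDegree = d) :
    (taylor b f).coeff (d - 1) = f.coeff (d - 1) + d * f.coeff d * b := by
  rw [taylor_coeff]
  have h1 : (hasseDeriv (d - 1) f).natDegree < 2 := by
    have := natDegree_hasseDeriv_le f (d - 1)
    omega
  rw [eval_eq_sum_range' h1, Finset.sum_range_succ, Finset.sum_range_one, hasseDeriv_coeff,
    hasseDeriv_coeff, pow_zero, pow_one, mul_one, zero_add, Nat.choose_self, Nat.cast_one, one_mul]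
  have h2 : 1 + (d - 1) = d := by omega
  have h3 : d.choose (d - 1) = d := by
    rw [Nat.choose_symm_of_eq_add (by omega : d = (d - 1) + 1), Nat.choose_one_right]
  rw [h2, h3]

/-- monic of degree `d`, without term of degree `d - 1` -/
def MC (d : ℕ) (g : Polynomial Ω) : Prop := g.natDegree = d ∧ g.coeff d = 1 ∧ g.coeff (d - 1) = 0

variable [CharZero Ω] {d : ℕ}

lemma mc_unique (hd : 2 ≤ d) {g : Polynomial Ω} {y b : Ω} (hy : y ≠ 0) (h1 : MC d g)
    (h2 : MC d (aff y b g)) : b = 0 ∧ y ^ (d - 1) = 1 := by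
  obtain ⟨a1, a2, a3⟩ := h1
  obtain ⟨b1, b2, b3⟩ := h2
  have hd0 : (d : Ω) ≠ 0 := by
    rw [Nat.cast_ne_zero]
    omega
  rw [aff_coeff _ _ _ _ (by omega)] at b2 b3
  rw [taylor_next b g (by omega) a1, a2, a3] at b3
  have hy' : y⁻¹ ≠ 0 := inv_ne_zero hy
  constructor
  · simpa [hy, hd0] using b3
  · have h3 : (taylor b g).coeff d = 1 := by
      have h4 := taylor_top b g
      rw [a1, leadingCoeff, a1, a2] at h4
      exact h4
    rw [h3, mul_one] at b2
    have h5 : y ^ d = y * y ^ (d - 1) := by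
      rw [← pow_succ']
      congr 1
      omega
    rw [h5, inv_mul_cancel_left₀ hy] at b2
    exact b2

/-- a polynomial over `F` has a monic centered conjugate over the algebraic closure -/
lemma exists_mc [IsAlgClosed Ω] (F : Type) [Field F] [Algebra F Ω] (hd : 2 ≤ d) (f : Polynomial Ω)
    (hf : f.natDegree = d) (hF : ∀ n, IsAlgebraic F (f.coeff n)) :
    ∃ y b : Ω, y ≠ 0 ∧ MC d (aff y b f) ∧ ∀ n, IsAlgebraic F ((aff y b f).coeff n) := by
  have hlc : f.coeff d ≠ 0 := by
    rw [← hf]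
    exact leadingCoeff_ne_zero.2 (by
      rintro rfl
      rw [natDegree_zero] at hf
      omega)
  obtain ⟨y, hy⟩ := IsAlgClosed.exists_pow_nat_eq (f.coeff d)⁻¹ (by omega : 0 < d - 1)
  have hd0 : (d : Ω) ≠ 0 := by
    rw [Nat.cast_ne_zero]
    omega
  have hy0 : y ≠ 0 := by
    rintro rfl
    rw [zero_pow (by omega)] at hy
    exact inv_ne_zero hlc hy.symm
  set b : Ω := -(f.coeff (d - 1)) / (d * f.coeff d) with hb
  refine ⟨y, b, hy0, ⟨?_, ?_, ?_⟩, ?_⟩
  · rw [aff_natDegree y b hy0, hf]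
  · rw [aff_coeff _ _ _ _ (by omega)]
    have h4 := taylor_top b f
    rw [hf, leadingCoeff, hf] at h4
    rw [h4]
    have h5 : y ^ d = y * y ^ (d - 1) := by
      rw [← pow_succ']
      congr 1
      omega
    rw [h5, hy, mul_assoc, inv_mul_cancel₀ hlc, mul_one, inv_mul_cancel₀ hy0]
  · rw [aff_coeff _ _ _ _ (by omega), taylor_next b f (by omega) hf]
    have h6 : f.coeff (d - 1) + d * f.coeff d * b = 0 := by
      rw [hb]
      field_simp
      ring
    rw [h6, mul_zero, mul_zero]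
  · have hya : IsAlgebraic F y := by
      apply IsAlgebraic.of_pow (by omega : 0 < d - 1)
      rw [hy]
      exact (hF d).inv
    have hba : IsAlgebraic F b := by
      rw [hb, div_eq_mul_inv]
      exact (hF (d - 1)).neg.mul ((isAlgebraic_natCast (R := F) (A := Ω) d).mul (hF d)).inv
    intro n
    set A := algebraicClosure F Ω with hA
    obtain ⟨f0, hf0⟩ : ∃ f0 : Polynomial A, f0.map (algebraMap A Ω) = f := by
      have h1 : f ∈ lifts (algebraMap A Ω) := by
        rw [lifts_iff_coeff_lifts]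
        intro n
        exact ⟨⟨f.coeff n, mem_algebraicClosure_iff.2 (hF n)⟩, rfl⟩
      exact h1
    have h7 := aff_map (algebraMap A Ω) (⟨y, mem_algebraicClosure_iff.2 hya⟩ : A)
      (⟨b, mem_algebraicClosure_iff.2 hba⟩ : A) f0
    rw [hf0] at h7
    have h8 : aff y b f = aff (algebraMap A Ω (⟨y, mem_algebraicClosure_iff.2 hya⟩ : A))
      (algebraMap A Ω (⟨b, mem_algebraicClosure_iff.2 hba⟩ : A)) f := rfl
    rw [h8, ← h7, coeff_map]
    exact mem_algebraicClosure_iff.1 (Subtype.mem _)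

end

end Pool.Agent.Y706
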