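import Pool.Agent.Y706.Few
import Pool.Agent.Y706.B1

set_option autoImplicit false

/-! Systems with many preperiodic points of bounded degree. -/

namespace Pool.Agent.Y706

open MvPolynomial Pool.Agent.H936R2 Pool.Agent.H927R2.RD H294UB Pool.Agent.W275.UB
  Pool.Agent.W193.UB Pool.Agent.W554.UB

/-- the point with homogeneous coordinates `x` is defined over an extension of degree at most
`B` -/
def DegLe (K : Type) {L : Type} [Field K] [Field L] [Algebra K L] {n : ℕ} (B : ℕ)
    (x : Fin n → L) : Prop :=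
  ∃ E : IntermediateField K L, FiniteDimensional K E ∧ Module.finrank K E ≤ B ∧
    ∃ c : L, c ≠ 0 ∧ ∀ j, c * x j ∈ E

/-- the system has at most `C` preperiodic points of degree at most `B` -/
def FewB {K : Type} (L : Type) [Field K] [Field L] [Algebra K L] {n d : ℕ} (B C : ℕ)
    (v : Idx n d → K) : Prop :=
  ∀ X : Finset (Fin n → L), (∀ x ∈ X, x ≠ 0) →
    (∀ x ∈ X, ∀ y ∈ X, ∀ c : L, x = c • y → x = y) →
    (∀ x ∈ X, Pre (sy fun i => algebraMap K L (v i)) x) → (∀ x ∈ X, DegLe K B x) → X.card ≤ C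

section

variable {K L : Type} [Field K] [Field L] [Algebra K L] {n d s : ℕ}

lemma DegLe.smul {B : ℕ} {x : Fin n → L} (h : DegLe K B x) {c : L} (hc : c ≠ 0) :
    DegLe K B (c • x) := by
  obtain ⟨E, h1, h2, a, ha, h3⟩ := h
  refine ⟨E, h1, h2, a * c⁻¹, mul_ne_zero ha (inv_ne_zero hc), fun j => ?_⟩
  have h4 : a * c⁻¹ * (c • x) j = a * x j := by
    rw [Pi.smul_apply, smul_eq_mul]
    field_simp
  rw [h4]
  exact h3 j

lemma DegLe.pt {B : ℕ} {x : Fin n → L} (h : DegLe K B x) (v : Idx n d → K) :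
    DegLe K B (pt (sy fun i => algebraMap K L (v i)) x) := by
  obtain ⟨E, h1, h2, a, ha, h3⟩ := h
  refine ⟨E, h1, h2, a ^ d, pow_ne_zero _ ha, fun j => ?_⟩
  let y : Fin n → E := fun j => ⟨a * x j, h3 j⟩
  have h4 := it_map (algebraMap E L) (fun i => algebraMap K E (v i)) y 1
  have h5 : (fun i => algebraMap E L (algebraMap K E (v i))) = fun i => algebraMap K L (v i) :=
    funext fun i => (IsScalarTower.algebraMap_apply K E L _).symm
  have h6 : (fun i => algebraMap E L (y i)) = a • x := rfl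
  rw [h5, h6, Function.iterate_one, Function.iterate_one,
    pt_smul (Pool.Agent.W193.UB.sy_hom _)] at h4
  have h7 := congrFun h4 j
  rw [Pi.smul_apply, smul_eq_mul] at h7
  rw [h7]
  exact (Pool.Agent.H936R2.pt (sy fun i => algebraMap K E (v i)) y j).2

/-- the relation between iterates descends to subfields -/
lemma Rl_sub {v : Idx n d → K} (hM : MonIn s (sy v)) (E : IntermediateField K L) {y : Fin n → E}
    (hy : y ≠ 0) (m : ℕ) :
    Rl (sy fun i => algebraMap K L (v i)) (fun i => (y i : L)) 0 m ↔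
      Rl (sy fun i => algebraMap K E (v i)) y 0 m := by
  have hME : MonIn s (sy fun i => algebraMap K E (v i)) := by
    have h1 : MonC s (1 : K) (sy v) := fun μ hμ => hM μ hμ
    have h2 := h1.map (algebraMap K E)
    rw [map_one] at h2
    exact h2.monIn isUnit_one
  have hit : ∀ m, (Pool.Agent.H936R2.pt (sy fun i => algebraMap K L (v i)))^[m]
      (fun i => (y i : L)) = fun i => algebraMap E L
        ((Pool.Agent.H936R2.pt (sy fun i => algebraMap K E (v i)))^[m] y i) := by
    intro m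
    have h4 := it_map (algebraMap E L) (fun i => algebraMap K E (v i)) y m
    have h5 : (fun i => algebraMap E L (algebraMap K E (v i))) = fun i => algebraMap K L (v i) :=
      funext fun i => (IsScalarTower.algebraMap_apply K E L _).symm
    rw [h5] at h4
    exact h4
  constructor
  · rintro ⟨c, hc, h⟩
    rw [hit, hit] at h
    exact descend (algebraMap E L) (Pool.Agent.W275.UB.iter_ne_zero _ hME y hy _)
      (Pool.Agent.W275.UB.iter_ne_zero _ hME y hy _) c fun i => congrFun h i
  · rintro ⟨c, hc, h⟩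
    refine ⟨algebraMap E L c, hc.map _, ?_⟩
    rw [hit, hit, h]
    funext i
    simp only [Pi.smul_apply, smul_eq_mul, map_mul]

lemma manyB {v : Idx n d → K} (hM : MonIn s (sy v)) (B C e : ℕ)
    (hper : ∀ y : Fin n → L, y ≠ 0 → DegLe K B y → ∀ m, 0 < m →
      Rl (sy fun i => algebraMap K L (v i)) y 0 m → Rl (sy fun i => algebraMap K L (v i)) y 0 e)
    (hmany : ¬ FewB L B C v) : ∃ (x : Fin (C + 1) → Fin n → L) (i0 : Fin (C + 1) → Fin n)
      (E : Fin (C + 1) → IntermediateField K L),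
      (∀ l, x l (i0 l) = 1) ∧ (∀ l l' (c : L), x l = c • x l' → l = l') ∧
      (∀ l, ∃ c : L, c ≠ 0 ∧
        (Pool.Agent.H936R2.pt (sy fun i => algebraMap K L (v i)))^[C + e] (x l) =
        c • (Pool.Agent.H936R2.pt (sy fun i => algebraMap K L (v i)))^[C] (x l)) ∧
      ∀ l, FiniteDimensional K (E l) ∧ Module.finrank K (E l) ≤ B ∧ ∀ j, x l j ∈ E l := by
  classical
  set P := sy fun i => algebraMap K L (v i) with hPdef
  have hP : ∀ i, (P i).IsHomogeneous d := Pool.Agent.W193.UB.sy_hom _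
  have hM' : MonIn s P := by
    have h1 : MonC s (1 : K) (sy v) := fun μ hμ => hM μ hμ
    have h2 := h1.map (algebraMap K L)
    rw [map_one] at h2
    exact h2.monIn isUnit_one
  unfold FewB at hmany
  push Not at hmany
  obtain ⟨X, hX0, hXp, hXpre, hXd, hXc⟩ := hmany
  -- points of degree at most `B`
  have hrep : ∀ (x : Fin n → L) (hx : x ≠ 0), DegLe K B x →
      DegLe K B (Projectivization.mk L x hx).rep := by
    intro x hx h
    obtain ⟨a, ha⟩ := Projectivization.exists_smul_eq_mk_rep L x hx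
    rw [← ha]
    exact h.smul a.ne_zero
  let A := {p : Projectivization L (Fin n → L) // DegLe K B p.rep}
  let f : A → A := fun p => ⟨pmap hM' p.1, hrep _ _ (p.2.pt v)⟩
  have hfv : ∀ (m : ℕ) (p : A), (f^[m] p).1 = (pmap hM')^[m] p.1 := by
    intro m
    induction m with
    | zero => intro p; rfl
    | succ m ih =>
      intro p
      rw [Function.iterate_succ_apply, Function.iterate_succ_apply, ih]
  let S : Finset A :=
    X.attach.image fun x => ⟨Projectivization.mk L x.1 (hX0 x.1 x.2),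
      hrep _ _ (hXd x.1 x.2)⟩
  have hScard : C < S.card := by
    rw [Finset.card_image_of_injective, Finset.card_attach]
    · exact hXc
    · rintro ⟨x, hx⟩ ⟨y, hy⟩ h
      have h' := congrArg Subtype.val h
      simp only at h'
      rw [Projectivization.mk_eq_mk_iff'] at h'
      obtain ⟨c, hc⟩ := h'
      exact Subtype.ext (hXp x hx y hy c hc.symm)
  obtain ⟨T, hT, hTf⟩ := chain f C e S hScard (by
    intro p hp
    obtain ⟨⟨x, hx⟩, _, rfl⟩ := Finset.mem_image.1 hp
    obtain ⟨m, l, hml, h⟩ := hXpre x hx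
    refine ⟨m, l, hml, Subtype.ext ?_⟩
    rw [hfv, hfv]
    exact (pmap_eq hP hM' x (hX0 x hx) l m).2 h) (by
    rintro ⟨p, hpd⟩ ⟨m, hm, h⟩
    have h' := congrArg Subtype.val h
    apply Subtype.ext
    rw [hfv] at h' ⊢
    simp only at h' ⊢
    rw [← p.mk_rep] at h' ⊢
    obtain ⟨c, hc, h1⟩ := (pmap_eq hP hM' p.rep p.rep_nonzero m 0).1 h'
    obtain ⟨c', hc', h2⟩ := hper p.rep p.rep_nonzero hpd m hm ⟨c, isUnit_iff_ne_zero.2 hc, h1⟩
    exact (pmap_eq hP hM' p.rep p.rep_nonzero e 0).2 ⟨c', hc'.ne_zero, h2⟩)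
  let E := T.equivFinOfCardEq hT
  have hex : ∀ p : Projectivization L (Fin n → L), ∃ i, p.rep i ≠ 0 := by
    intro p
    exact Function.ne_iff.1 p.rep_nonzero
  choose j hj using hex
  have hpt : ∀ p : Projectivization L (Fin n → L), (p.rep (j p))⁻¹ • p.rep ≠ 0 := fun p =>
    smul_ne_zero (inv_ne_zero (hj p)) p.rep_nonzero
  have hmk : ∀ p : Projectivization L (Fin n → L),
      Projectivization.mk L ((p.rep (j p))⁻¹ • p.rep) (hpt p) = p := by
    intro p
    conv_rhs => rw [← p.mk_rep]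
    rw [Projectivization.mk_eq_mk_iff']
    exact ⟨_, rfl⟩
  have hone : ∀ p : Projectivization L (Fin n → L), ((p.rep (j p))⁻¹ • p.rep) (j p) = 1 := by
    intro p
    simp only [Pi.smul_apply, smul_eq_mul]
    exact inv_mul_cancel₀ (hj p)
  have hEx : ∀ p : A, ∃ F : IntermediateField K L, FiniteDimensional K F ∧
      Module.finrank K F ≤ B ∧ ∀ i, ((p.1.rep (j p.1))⁻¹ • p.1.rep) i ∈ F := by
    rintro ⟨p, hp⟩
    obtain ⟨F, h1, h2, c, hc, h3⟩ := hp.smul (inv_ne_zero (hj p))
    refine ⟨F, h1, h2, fun i => ?_⟩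
    have h4 := h3 (j p)
    rw [hone, mul_one] at h4
    have h5 := mul_mem (inv_mem h4) (h3 i)
    rwa [inv_mul_cancel_left₀ hc] at h5
  choose F hF1 hF2 hF3 using hEx
  refine ⟨fun l => ((E.symm l).1.1.rep (j (E.symm l).1.1))⁻¹ • (E.symm l).1.1.rep,
    fun l => j (E.symm l).1.1, fun l => F (E.symm l).1, ?_, ?_, ?_, ?_⟩
  · intro l
    exact hone _
  · intro l l' c h
    apply E.symm.injective
    apply Subtype.ext
    apply Subtype.ext
    rw [← hmk (E.symm l).1.1, ← hmk (E.symm l').1.1, Projectivization.mk_eq_mk_iff']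
    exact ⟨c, h.symm⟩
  · intro l
    have h1 := congrArg Subtype.val (hTf (E.symm l).1 (E.symm l).2)
    rw [hfv, hfv] at h1
    have h2 := pmap_eq hP hM' _ (hpt (E.symm l).1.1) (C + e) C
    rw [hmk] at h2
    exact h2.1 h1
  · intro l
    exact ⟨hF1 _, hF2 _, hF3 _⟩

end

end Pool.Agent.Y706
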