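import Pool.Agent.Y706.B2
import Pool.Agent.Y706.Tr2

set_option autoImplicit false

/-! Preperiodic points of bounded degree over a relatively algebraically closed subfield. -/

namespace Pool.Agent.Y706

open MvPolynomial Pool.Agent.H936R2 Pool.Agent.H927R2.RD H294UB Pool.Agent.W275.UB
  Pool.Agent.W193.UB Pool.Agent.W554.UB

section

variable {K E Ω : Type} [Field K] [Field E] [Field Ω] [Algebra K E] [Algebra E Ω] [Algebra K Ω]
  [IsScalarTower K E Ω]

theorem transport [CharZero K] (hitr : S_itr) (hcnt : TaskCnt) (hfin : S_fin)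
    (hcl : ∀ z : E, IsAlgebraic K z → ∃ y, algebraMap K E y = z) {N d s B C : ℕ} (hd : 2 ≤ d)
    (v : Idx (N + 1) d → K) (hM : MonIn s (sy v))
    (Xp : Fin (C + 1) → Fin (N + 1) → Ω) (m0 : Fin (C + 1) → Fin (N + 1))
    (hX1 : ∀ l, Xp l (m0 l) = 1) (hXp : ∀ l l' (c : Ω), Xp l = c • Xp l' → l = l')
    (hXrel : ∀ l, Pre (sy fun i => algebraMap K Ω (v i)) (Xp l))
    (hXd : ∀ l, ∀ θ ∈ IntermediateField.adjoin K (Set.range (Xp l)),
      ∃ g : Polynomial E, g.Monic ∧ g.natDegree ≤ B ∧ Polynomial.aeval θ g = 0) :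
    ¬ FewB (AlgebraicClosure K) B C v := by
  classical
  have halg : ∀ l i, IsAlgebraic K (Xp l i) := by
    intro l
    obtain ⟨m, m', hmm, h⟩ := hXrel l
    obtain ⟨e, rfl⟩ := Nat.exists_eq_add_of_le hmm.le
    exact alg_pts hitr hcnt hfin hd (by omega) v hM (Xp l) (m0 l) (hX1 l) (b := m) (e := e) h
  set A := algebraicClosure K Ω with hA
  let Xa : Fin (C + 1) → Fin (N + 1) → A := fun l i =>
    ⟨Xp l i, (mem_algebraicClosure_iff).2 (halg l i)⟩
  let τ : A →ₐ[K] AlgebraicClosure K := IsAlgClosed.lift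
  have hMA : MonIn s (sy fun i => algebraMap K A (v i)) := by
    have h1 : MonC s (1 : K) (sy v) := fun μ hμ => hM μ hμ
    have h2 := h1.map (algebraMap K A)
    rw [map_one] at h2
    exact h2.monIn isUnit_one
  have hXa1 : ∀ l, Xa l (m0 l) = 1 := fun l => Subtype.ext (hX1 l)
  have hXa0 : ∀ l, Xa l ≠ 0 := by
    intro l h0
    have := hXa1 l
    rw [h0] at this
    exact zero_ne_one this
  have hitA : ∀ m l, (pt (sy fun i => algebraMap K Ω (v i)))^[m] (Xp l) =
      fun i => algebraMap A Ω ((pt (sy fun i => algebraMap K A (v i)))^[m] (Xa l) i) := by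
    intro m l
    have h4 := it_map (algebraMap A Ω) (fun i => algebraMap K A (v i)) (Xa l) m
    exact h4
  have hrelA : ∀ l, ∃ m m' : ℕ, m < m' ∧ ∃ c : A, IsUnit c ∧
      (pt (sy fun i => algebraMap K A (v i)))^[m'] (Xa l) =
      c • (pt (sy fun i => algebraMap K A (v i)))^[m] (Xa l) := by
    intro l
    obtain ⟨m, m', hmm, c, hc, h⟩ := hXrel l
    rw [hitA, hitA] at h
    exact ⟨m, m', hmm, descend (algebraMap A Ω) (iter_ne_zero _ hMA (Xa l) (hXa0 l) m)
      (iter_ne_zero _ hMA (Xa l) (hXa0 l) m') c fun i => congrFun h i⟩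
  let Y : Fin (C + 1) → Fin (N + 1) → AlgebraicClosure K := fun l i => τ (Xa l i)
  have hY1 : ∀ l, Y l (m0 l) = 1 := by
    intro l
    show τ (Xa l (m0 l)) = 1
    rw [hXa1, map_one]
  have hY0 : ∀ l, Y l ≠ 0 := by
    intro l h0
    have := hY1 l
    rw [h0] at this
    exact zero_ne_one this
  have hitY : ∀ m l, (pt (sy fun i => algebraMap K (AlgebraicClosure K) (v i)))^[m] (Y l) =
      fun i => τ ((pt (sy fun i => algebraMap K A (v i)))^[m] (Xa l) i) := by
    intro m l
    have h4 := it_map (τ : A →+* AlgebraicClosure K) (fun i => algebraMap K A (v i)) (Xa l) m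
    have h5 : (fun i => (τ : A →+* AlgebraicClosure K) (algebraMap K A (v i))) =
        fun i => algebraMap K (AlgebraicClosure K) (v i) := funext fun i => τ.commutes (v i)
    rw [h5] at h4
    exact h4
  have hYp : ∀ l l' (c : AlgebraicClosure K), Y l = c • Y l' → l = l' := by
    intro l l' c h
    have h1 : c = τ (Xa l (m0 l')) := by
      have h2 := congrFun h (m0 l')
      rw [Pi.smul_apply, smul_eq_mul, hY1, mul_one] at h2
      exact h2.symm
    apply hXp l l' (algebraMap A Ω (Xa l (m0 l')))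
    have h3 : Xa l = Xa l (m0 l') • Xa l' := by
      funext i
      apply τ.toRingHom.injective
      have h4 := congrFun h i
      rw [Pi.smul_apply, smul_eq_mul, h1] at h4
      show τ (Xa l i) = τ (Xa l (m0 l') * Xa l' i)
      rw [map_mul]
      exact h4
    funext i
    have h5 := congrArg (algebraMap A Ω) (congrFun h3 i)
    rw [Pi.smul_apply, smul_eq_mul, map_mul] at h5
    exact h5
  intro hfew
  have h13 := hfew (Finset.univ.image Y) (by
    intro y hy
    obtain ⟨l, _, rfl⟩ := Finset.mem_image.1 hy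
    exact hY0 l) (by
    intro y hy y' hy' c hcy
    obtain ⟨l, _, rfl⟩ := Finset.mem_image.1 hy
    obtain ⟨l', _, rfl⟩ := Finset.mem_image.1 hy'
    rw [hYp l l' c hcy]) (by
    intro y hy
    obtain ⟨l, _, rfl⟩ := Finset.mem_image.1 hy
    obtain ⟨m, m', hmm, c, hc, h⟩ := hrelA l
    refine ⟨m, m', hmm, τ c, (hc.map τ).ne_zero, ?_⟩
    rw [hitY, hitY, h]
    funext i
    simp only [Pi.smul_apply, smul_eq_mul, map_mul]) (by
    intro y hy
    obtain ⟨l, _, rfl⟩ := Finset.mem_image.1 hy
    obtain ⟨hfd, hfr⟩ := finrank_adjoin_le hcl (Xp l) (halg l) (hXd l)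
    have hle : IntermediateField.adjoin K (Set.range (Xp l)) ≤ A := by
      rw [IntermediateField.adjoin_le_iff]
      rintro _ ⟨i, rfl⟩
      exact (Xa l i).2
    let τM := τ.comp (IntermediateField.inclusion hle)
    let eM := AlgEquiv.ofInjectiveField τM
    refine ⟨τM.fieldRange, ?_, ?_, 1, one_ne_zero, fun j => ?_⟩
    · exact Module.Finite.equiv eM.toLinearEquiv
    · exact le_trans (le_of_eq (LinearEquiv.finrank_eq eM.toLinearEquiv).symm) hfr
    · rw [one_mul]
      refine ⟨⟨Xp l j, IntermediateField.subset_adjoin _ _ ⟨j, rfl⟩⟩, ?_⟩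
      rfl)
  rw [Finset.card_image_of_injective, Finset.card_univ, Fintype.card_fin] at h13
  · omega
  · intro l l' hll
    exact hYp l l' 1 (by rw [one_smul]; exact hll)

end

end Pool.Agent.Y706
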