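import Pool.Agent.Y706.B3
import Pool.Agent.Y706.P11

set_option autoImplicit false

/-! Ultrapowers: points of bounded degree. -/

namespace Pool.Agent.Y706

open MvPolynomial Pool.Agent.H936R2 Pool.Agent.H927R2.RD H294UB Pool.Agent.W275.UB
  Pool.Agent.W193.UB Pool.Agent.W554.UB NumberField

set_option linter.unusedSectionVars false

section germs

variable {α : Type} (U : Ultrafilter α) {k kb : Type} [Field k] [Field kb] [Algebra k kb]

/-- the germs of functions with values in `k` -/
noncomputable def jU : UP U k →+* UP U kb := upMap U (algebraMap k kb)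

lemma jU_up (x : α → k) : jU (kb := kb) U (up U k x) = up U kb fun w => algebraMap k kb (x w) := rfl

variable {U}

/-- germs of sections of a family of subfields -/
noncomputable def germF {K : Type} [Field K] [Algebra K (UP U kb)]
    (h : ∀ y : K, ∃ z : UP U k, algebraMap K (UP U kb) y = jU U z)
    (Ew : α → IntermediateField k kb) : IntermediateField K (UP U kb) where
  carrier := {z | ∃ f : α → kb, up U kb f = z ∧ ∀ᶠ w in (U : Filter α), f w ∈ Ew w}
  mul_mem' := by
    rintro _ _ ⟨f, rfl, hf⟩ ⟨g, rfl, hg⟩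
    refine ⟨f * g, map_mul _ _ _, ?_⟩
    filter_upwards [hf, hg] with w h1 h2
    exact mul_mem h1 h2
  one_mem' := ⟨1, map_one _, Filter.Eventually.of_forall fun w => one_mem _⟩
  add_mem' := by
    rintro _ _ ⟨f, rfl, hf⟩ ⟨g, rfl, hg⟩
    refine ⟨f + g, map_add _ _ _, ?_⟩
    filter_upwards [hf, hg] with w h1 h2
    exact add_mem h1 h2
  zero_mem' := ⟨0, map_zero _, Filter.Eventually.of_forall fun w => zero_mem _⟩
  algebraMap_mem' := by
    intro y
    obtain ⟨z, hz⟩ := h y
    obtain ⟨x, rfl⟩ := up_surj z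
    refine ⟨fun w => algebraMap k kb (x w), ?_, Filter.Eventually.of_forall fun w =>
      (Ew w).algebraMap_mem _⟩
    rw [hz, jU_up]
  inv_mem' := by
    rintro _ ⟨f, rfl, hf⟩
    refine ⟨f⁻¹, ?_, ?_⟩
    · by_cases h0 : up U kb f = 0
      · rw [h0, inv_zero, up_eq_zero]
        rw [up_eq_zero] at h0
        filter_upwards [h0] with w hw
        rw [Pi.inv_apply, hw, inv_zero]
      · apply eq_inv_of_mul_eq_one_left
        rw [← map_mul, ← map_one (up U kb), up_eq]
        have h1 : ∀ᶠ w in (U : Filter α), f w ≠ 0 := by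
          rw [up_eq_zero] at h0
          exact Ultrafilter.eventually_not.2 h0
        filter_upwards [h1] with w hw
        rw [Pi.mul_apply, Pi.inv_apply, inv_mul_cancel₀ hw, Pi.one_apply]
    · filter_upwards [hf] with w hw
      exact inv_mem hw

lemma deg_up (f : α → kb) (Ew : α → IntermediateField k kb) (B : ℕ)
    (h : ∀ᶠ w in (U : Filter α), f w ∈ Ew w ∧ FiniteDimensional k (Ew w) ∧
      Module.finrank k (Ew w) ≤ B) :
    ∃ g : Polynomial (UP U k), g.Monic ∧ g.natDegree ≤ B ∧
      g.eval₂ (jU U) (up U kb f) = 0 := by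
  classical
  have key : ∀ w, ∃ g : Polynomial k, (f w ∈ Ew w ∧ FiniteDimensional k (Ew w) ∧
      Module.finrank k (Ew w) ≤ B) → g.natDegree ≤ B ∧ g.coeff B = 1 ∧
      Polynomial.aeval (f w) g = 0 := by
    intro w
    by_cases hw : f w ∈ Ew w ∧ FiniteDimensional k (Ew w) ∧ Module.finrank k (Ew w) ≤ B
    · obtain ⟨h1, h2, h3⟩ := hw
      have hint : IsIntegral k (f w) := by
        have h4 : IsIntegral k (⟨f w, h1⟩ : Ew w) := IsIntegral.of_finite k _
        exact h4.map (IntermediateField.val (Ew w))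
      have hm : (minpoly k (f w)).Monic := minpoly.monic hint
      have hdeg : (minpoly k (f w)).natDegree ≤ B := by
        have h5 := minpoly.natDegree_le (A := k) (⟨f w, h1⟩ : Ew w)
        have h6 : minpoly k (⟨f w, h1⟩ : Ew w) = minpoly k (f w) :=
          (minpoly.algebraMap_eq (algebraMap (Ew w) kb).injective (⟨f w, h1⟩ : Ew w)).symm
        rw [h6] at h5
        exact h5.trans h3
      set m := minpoly k (f w) with hmdef
      have hX : (Polynomial.X ^ (B - m.natDegree) * m).Monic := (Polynomial.monic_X_pow _).mul hm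
      have hXd : (Polynomial.X ^ (B - m.natDegree) * m).natDegree = B := by
        rw [(Polynomial.monic_X_pow _).natDegree_mul hm, Polynomial.natDegree_X_pow]
        omega
      refine ⟨Polynomial.X ^ (B - m.natDegree) * m, fun _ => ⟨hXd.le, ?_, ?_⟩⟩
      · have h7 := hX.coeff_natDegree
        rwa [hXd] at h7
      · rw [map_mul, hmdef, minpoly.aeval, mul_zero]
    · exact ⟨0, fun h' => absurd h' hw⟩
  choose g hg using key
  set G : Polynomial (UP U k) := Polynomial.X ^ B + ∑ i ∈ Finset.range B,
    Polynomial.C (up U k fun w => (g w).coeff i) * Polynomial.X ^ i with hG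
  have hlt : (∑ i ∈ Finset.range B,
      Polynomial.C (up U k fun w => (g w).coeff i) * Polynomial.X ^ i).degree < (B : WithBot ℕ) := by
    refine (Polynomial.degree_sum_le _ _).trans_lt ?_
    refine (Finset.sup_lt_iff (WithBot.bot_lt_coe B)).2 ?_
    intro i hi
    refine (Polynomial.degree_C_mul_X_pow_le _ _).trans_lt ?_
    exact WithBot.coe_lt_coe.2 (Finset.mem_range.1 hi)
  refine ⟨G, Polynomial.monic_X_pow_add hlt, ?_, ?_⟩
  · rw [hG]
    refine (Polynomial.natDegree_add_le _ _).trans (max_le (Polynomial.natDegree_X_pow_le B) ?_)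
    exact Polynomial.natDegree_le_of_degree_le hlt.le
  · rw [hG, Polynomial.eval₂_add, Polynomial.eval₂_pow, Polynomial.eval₂_X,
      Polynomial.eval₂_finsetSum]
    have h1 : up U kb f ^ B + ∑ i ∈ Finset.range B, (Polynomial.C (up U k fun w => (g w).coeff i) *
        Polynomial.X ^ i).eval₂ (jU U) (up U kb f) =
        up U kb fun w => f w ^ B + ∑ i ∈ Finset.range B, algebraMap k kb ((g w).coeff i) * f w ^ i := by
      have h2 : (fun w => f w ^ B + ∑ i ∈ Finset.range B,
          algebraMap k kb ((g w).coeff i) * f w ^ i) =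
          f ^ B + ∑ i ∈ Finset.range B, (fun w => algebraMap k kb ((g w).coeff i)) * f ^ i := by
        funext w
        simp only [Pi.add_apply, Pi.pow_apply, Finset.sum_apply, Pi.mul_apply]
      rw [h2, map_add, map_pow, map_sum]
      congr 1
      refine Finset.sum_congr rfl fun i _ => ?_
      rw [Polynomial.eval₂_mul, Polynomial.eval₂_C, Polynomial.eval₂_pow, Polynomial.eval₂_X, jU_up,
        map_mul, map_pow]
    rw [h1, up_eq_zero]
    filter_upwards [h] with w hw
    obtain ⟨h3, h4, h5⟩ := hg w hw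
    rw [Polynomial.aeval_eq_sum_range' (Nat.lt_succ_of_le h3), Finset.sum_range_succ, h4,
      one_smul] at h5
    rw [add_comm, ← h5]
    congr 1
    refine Finset.sum_congr rfl fun i _ => ?_
    rw [Algebra.smul_def]

end germs

section

variable {k : Type} [Field k] [NumberField k] {ι J : Type} [Fintype ι] [Fintype J]
  (ω : Module.Basis J ℤ (𝓞 k)) {U : Ultrafilter (ι × J → ℤ)}

lemma psiF_mem (hd : S_dens) (hU : Gen U) (y : FractionRing (MvPolynomial ι (𝓞 k))) :
    psiF ω hd hU y ∈ IntermediateField.adjoin k (Set.range (Vk U (zk ω))) := by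
  obtain ⟨a, b, _, rfl⟩ := IsFractionRing.div_surjective (A := MvPolynomial ι (𝓞 k)) y
  rw [map_div₀, psiF_algebraMap, psiF_algebraMap]
  exact div_mem (rho_mem ω U a) (rho_mem ω U b)

lemma psiF_closed (hd : S_dens) (hurel : S_urel) (hU : Gen U) (z : UP U k)
    (h : ∃ g : Polynomial (FractionRing (MvPolynomial ι (𝓞 k))), g ≠ 0 ∧
      g.eval₂ (psiF ω hd hU) z = 0) : ∃ y, psiF ω hd hU y = z := by
  obtain ⟨j0⟩ : Nonempty J := ω.index_nonempty
  exact cl_lift (psiF ω hd hU) (IntermediateField.adjoin k (Set.range (Vk U (zk ω))))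
    (psiF_mem ω hd hU) (mem_range ω hd hU)
    (fun z hz => rac hd hurel hU (zk ω) j0 (zk_ne ω j0) z hz) z h

end

end Pool.Agent.Y706
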