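import Pool.Agent.Y706.B6

set_option autoImplicit false

/-! Points of bounded degree: scalings and extensions of the base field. -/

namespace Pool.Agent.Y706

open MvPolynomial Pool.Agent.H936R2 Pool.Agent.H927R2.RD H294UB Pool.Agent.W275.UB
  Pool.Agent.W193.UB Pool.Agent.W554.UB NumberField

section scale

variable {K L : Type} [Field K] [Field L] [Algebra K L] {n d : ℕ}

lemma sy_scale {R : Type} [CommRing R] (c : R) (v : Idx n d → R) :
    sy (fun i => c * v i) = fun j => C c * sy v j := by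
  funext j
  show form (fun κ => c * v (j, κ)) = C c * form (fun κ => v (j, κ))
  unfold form
  rw [Finset.mul_sum]
  exact Finset.sum_congr rfl fun κ _ => by rw [C_mul_monomial]

lemma pt_scale {R : Type} [CommRing R] (c : R) (v : Idx n d → R) (x : Fin n → R) :
    pt (sy fun i => c * v i) x = c • pt (sy v) x := by
  funext j
  rw [sy_scale]
  simp only [pt, Pi.smul_apply, smul_eq_mul, map_mul, eval_C]

lemma it_scale {c : L} (hc : c ≠ 0) (v : Idx n d → L) (x : Fin n → L) (m : ℕ) :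
    ∃ u : L, u ≠ 0 ∧ (pt (sy fun i => c * v i))^[m] x = u • (pt (sy v))^[m] x := by
  induction m with
  | zero => exact ⟨1, one_ne_zero, (one_smul _ _).symm⟩
  | succ m ih =>
    obtain ⟨u, hu, h⟩ := ih
    refine ⟨c * u ^ d, mul_ne_zero hc (pow_ne_zero _ hu), ?_⟩
    rw [Function.iterate_succ_apply', h, pt_scale, pt_smul (Pool.Agent.W193.UB.sy_hom _), smul_smul,
      Function.iterate_succ_apply']

lemma pre_scale {c : L} (hc : c ≠ 0) (v : Idx n d → L) (x : Fin n → L)
    (h : Pre (sy fun i => c * v i) x) : Pre (sy v) x := by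
  obtain ⟨m, l, hml, a, ha, h⟩ := h
  obtain ⟨u1, hu1, h1⟩ := it_scale hc v x m
  obtain ⟨u2, hu2, h2⟩ := it_scale hc v x l
  refine ⟨m, l, hml, u2⁻¹ * (a * u1), mul_ne_zero (inv_ne_zero hu2) (mul_ne_zero ha hu1), ?_⟩
  rw [h1, h2, smul_smul] at h
  rw [← smul_smul, ← h, smul_smul, inv_mul_cancel₀ hu2, one_smul]

lemma fewB_scale {B C₀ : ℕ} {c : K} (hc : c ≠ 0) (v : Idx n d → K) (h : FewB L B C₀ v) :
    FewB L B C₀ (fun i => c * v i) := by
  intro X h0 h1 h2 h3
  refine h X h0 h1 (fun x hx => ?_) h3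
  have h4 := h2 x hx
  have h5 : (fun i => algebraMap K L (c * v i)) = fun i => algebraMap K L c * algebraMap K L (v i) :=
    funext fun i => map_mul _ _ _
  rw [h5] at h4
  exact pre_scale ((map_ne_zero _).2 hc) _ x h4

lemma fewB_of_scale {B C₀ : ℕ} {c : K} (hc : c ≠ 0) (v : Idx n d → K)
    (h : FewB L B C₀ (fun i => c * v i)) : FewB L B C₀ v := by
  have h1 := fewB_scale (inv_ne_zero hc) _ h
  have h2 : (fun i => c⁻¹ * (c * v i)) = v := funext fun i => by
    rw [inv_mul_cancel_left₀ hc]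
  rwa [h2] at h1

end scale

section ext

/-- if `K` is relatively algebraically closed in `E`, bounds over `K` give bounds over `E` -/
theorem fewB_ext {K E : Type} [Field K] [Field E] [CharZero K] (hitr : S_itr) (hcnt : TaskCnt)
    (hfin : S_fin) (T : K →+* E)
    (hcl : ∀ z : E, (∃ g : Polynomial K, g ≠ 0 ∧ g.eval₂ T z = 0) → ∃ y, T y = z) {N d s B C : ℕ}
    (hd : 2 ≤ d) (v : Idx (N + 1) d → K) (hM : MonIn s (sy v))
    (h : FewB (AlgebraicClosure K) B C v) :
    FewB (AlgebraicClosure E) B C (fun i => T (v i)) := by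
  classical
  let iE : Algebra K E := T.toAlgebra
  by_contra hcon
  unfold FewB at hcon
  push Not at hcon
  obtain ⟨X, hX0, hXp, hXpre, hXd, hXc⟩ := hcon
  obtain ⟨Y, hYX, hYc⟩ := Finset.exists_subset_card_eq (Nat.succ_le_of_lt hXc)
  let e := Y.equivFinOfCardEq hYc
  have hex : ∀ x : Y, ∃ i, x.1 i ≠ 0 := fun x => Function.ne_iff.1 (hX0 x.1 (hYX x.2))
  choose j hj using hex
  let Xp : Fin (C + 1) → Fin (N + 1) → AlgebraicClosure E := fun l =>
    ((e.symm l).1 (j (e.symm l)))⁻¹ • (e.symm l).1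
  have hcoef : (fun i => algebraMap E (AlgebraicClosure E) (T (v i))) =
      fun i => algebraMap K (AlgebraicClosure E) (v i) :=
    funext fun i => (IsScalarTower.algebraMap_apply K E (AlgebraicClosure E) (v i)).symm
  have hXp1 : ∀ l, Xp l (j (e.symm l)) = 1 := by
    intro l
    simp only [Xp, Pi.smul_apply, smul_eq_mul]
    exact inv_mul_cancel₀ (hj _)
  refine transport (E := E) (Ω := AlgebraicClosure E) hitr hcnt hfin ?_ hd v hM Xp
    (fun l => j (e.symm l)) hXp1 ?_ ?_ ?_ h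
  · rintro z ⟨g, hg, hgz⟩
    exact hcl z ⟨g, hg, hgz⟩
  · intro l l' c hc
    apply e.symm.injective
    apply Subtype.ext
    apply hXp _ (hYX (e.symm l).2) _ (hYX (e.symm l').2)
      ((e.symm l).1 (j (e.symm l)) * (c * ((e.symm l').1 (j (e.symm l')))⁻¹))
    have h1 : (e.symm l).1 = (e.symm l).1 (j (e.symm l)) • Xp l := by
      rw [smul_smul, mul_inv_cancel₀ (hj _), one_smul]
    conv_lhs => rw [h1, hc]
    rw [smul_smul, smul_smul]
    congr 1
    ring
  · intro l
    obtain ⟨m, m', hmm, c, hc, h2⟩ := hXpre _ (hYX (e.symm l).2)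
    rw [hcoef] at h2
    set a := ((e.symm l).1 (j (e.symm l)))⁻¹ with ha
    have ha0 : a ≠ 0 := inv_ne_zero (hj _)
    refine ⟨m, m', hmm, a ^ d ^ m' * c * (a ^ d ^ m)⁻¹, ?_, ?_⟩
    · exact mul_ne_zero (mul_ne_zero (pow_ne_zero _ ha0) hc) (inv_ne_zero (pow_ne_zero _ ha0))
    · show (pt _)^[m'] (a • (e.symm l).1) = _ • (pt _)^[m] (a • (e.symm l).1)
      rw [it_smul (Pool.Agent.W193.UB.sy_hom _), it_smul (Pool.Agent.W193.UB.sy_hom _), h2,
        smul_smul, smul_smul]
      congr 1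
      rw [mul_assoc, inv_mul_cancel₀ (pow_ne_zero _ ha0), mul_one]
  · intro l θ hθ
    obtain ⟨F, hF1, hF2, c, hc, hF3⟩ := (hXd _ (hYX (e.symm l).2)).smul (inv_ne_zero (hj (e.symm l)))
    have h1 := hF3 (j (e.symm l))
    have h2 : (((e.symm l).1 (j (e.symm l)))⁻¹ • (e.symm l).1) (j (e.symm l)) = 1 := hXp1 l
    rw [h2, mul_one] at h1
    have h3 : ∀ i, Xp l i ∈ F := by
      intro i
      have h4 := mul_mem (inv_mem h1) (hF3 i)
      rwa [inv_mul_cancel_left₀ hc] at h4
    have h5 : IntermediateField.adjoin K (Set.range (Xp l)) ≤ F.restrictScalars K := by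
      rw [IntermediateField.adjoin_le_iff]
      rintro _ ⟨i, rfl⟩
      exact h3 i
    have h6 : θ ∈ F := h5 hθ
    have h7 : IsIntegral E (⟨θ, h6⟩ : F) := IsIntegral.of_finite E _
    have h8 : IsIntegral E θ := h7.map (IntermediateField.val F)
    refine ⟨minpoly E θ, minpoly.monic h8, ?_, minpoly.aeval E θ⟩
    have h9 := minpoly.natDegree_le (A := E) (⟨θ, h6⟩ : F)
    have h10 : minpoly E (⟨θ, h6⟩ : F) = minpoly E θ :=
      (minpoly.algebraMap_eq (algebraMap F (AlgebraicClosure E)).injective (⟨θ, h6⟩ : F)).symm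
    rw [h10] at h9
    exact h9.trans hF2

end ext

end Pool.Agent.Y706
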