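import Pool.Agent.Y706.B8

set_option autoImplicit false

/-! Points of bounded degree on the projective line. -/

namespace Pool.Agent.Y706

open Pool.Agent.H936R2 Pool.Agent.H927R2.RD H294UB Pool.Agent.W275.UB
  Pool.Agent.W193.UB Pool.Agent.W277.UH

section

variable {K L : Type} [Field K] [Field L] [Algebra K L] {p q : Polynomial K} {d : ℕ}

/-- the point `z` of the projective line is defined over an extension of degree at most `B` -/
def DegO (K : Type) {L : Type} [Field K] [Field L] [Algebra K L] (B : ℕ) (z : Option L) : Prop :=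
  ∀ x, z = some x → ∃ E : IntermediateField K L, FiniteDimensional K E ∧
    Module.finrank K E ≤ B ∧ x ∈ E

/-- the preperiodic points of `p / q` of degree at most `B` -/
def PB (L : Type) [Field L] [Algebra K L] (p q : Polynomial K) (d B : ℕ) : Set (Option L) :=
  {z | (Set.range fun m : ℕ =>
    (ratP1 (p.map (algebraMap K L)) (q.map (algebraMap K L)) d)^[m] z).Finite ∧ DegO K B z}

lemma degO_of_degLe {B : ℕ} {x : Fin 2 → L} (h : DegLe K B x) {z : Option L} {c : L} (hc : c ≠ 0)
    (hx : x = c • hv z) : DegO K B z := by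
  rintro y rfl
  obtain ⟨E, h1, h2, a, ha, h3⟩ := h
  refine ⟨E, h1, h2, ?_⟩
  have h0 := h3 0
  have h4 := h3 1
  rw [hx] at h0 h4
  simp only [hv, Pi.smul_apply, Matrix.cons_val_zero, Matrix.cons_val_one, smul_eq_mul, mul_one]
    at h0 h4
  have h5 := mul_mem (inv_mem h4) h0
  have h6 : (a * c)⁻¹ * (a * (c * y)) = y := by
    field_simp
  rwa [h6] at h5

lemma degLe_of_degO {B : ℕ} (hB : 1 ≤ B) {z : Option L} (h : DegO K B z) : DegLe K B (hv z) := by
  cases z with
  | none =>
    refine ⟨⊥, inferInstance, ?_, 1, one_ne_zero, fun j => ?_⟩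
    · rw [IntermediateField.finrank_bot]
      exact hB
    · rw [one_mul]
      fin_cases j
      · exact one_mem _
      · exact zero_mem _
  | some x =>
    obtain ⟨E, h1, h2, h3⟩ := h x rfl
    refine ⟨E, h1, h2, 1, one_ne_zero, fun j => ?_⟩
    rw [one_mul]
    fin_cases j
    · exact h3
    · exact one_mem _

lemma fewB_of_encard (hd : 1 ≤ d) (hmax : max p.natDegree q.natDegree = d) (hco : IsCoprime p q)
    (B C : ℕ) (h : (PB L p q d B).encard ≤ (C : ℕ∞)) : FewB L B C (co p q d) := by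
  classical
  intro X hX0 hXp hXpre hXd
  have hmax' : max (p.map (algebraMap K L)).natDegree (q.map (algebraMap K L)).natDegree = d := by
    rw [Polynomial.natDegree_map, Polynomial.natDegree_map]
    exact hmax
  have hco' : IsCoprime (p.map (algebraMap K L)) (q.map (algebraMap K L)) :=
    hco.map (Polynomial.mapRingHom (algebraMap K L))
  rw [co_map] at hXpre
  have hex : ∀ x : Fin 2 → L, ∃ z : Option L, x ≠ 0 → ∃ c : L, c ≠ 0 ∧ x = c • hv z := by
    intro x
    by_cases hx : x = 0
    · exact ⟨none, fun h => absurd hx h⟩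
    · obtain ⟨z, c, hc, h⟩ := exists_hv x hx
      exact ⟨z, fun _ => ⟨c, hc, h⟩⟩
  choose ζ hζ using hex
  have hinj : Set.InjOn ζ (X : Set (Fin 2 → L)) := by
    intro x hx y hy hxy
    obtain ⟨c, hc, h1⟩ := hζ x (hX0 x hx)
    obtain ⟨c', hc', h2⟩ := hζ y (hX0 y hy)
    apply hXp x hx y hy (c * c'⁻¹)
    rw [h2, smul_smul, mul_assoc, inv_mul_cancel₀ hc', mul_one, ← hxy]
    exact h1
  have hsub : ((X.image ζ : Finset (Option L)) : Set (Option L)) ⊆ PB L p q d B := by
    intro z hz
    obtain ⟨x, hx, rfl⟩ := Finset.mem_image.1 (Finset.mem_coe.1 hz)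
    obtain ⟨c, hc, h1⟩ := hζ x (hX0 x hx)
    refine ⟨?_, degO_of_degLe (hXd x hx) hc h1⟩
    rw [← pre_hv hd hmax' hco']
    obtain ⟨m, l, hml, c', hc', h2⟩ := hXpre x hx
    have h3 : hv (ζ x) = c⁻¹ • x := by
      conv_rhs => rw [h1]
      rw [smul_smul, inv_mul_cancel₀ hc, one_smul]
    refine ⟨m, l, hml, (c⁻¹) ^ d ^ l * c' * ((c⁻¹) ^ d ^ m)⁻¹, by
      have : c⁻¹ ≠ 0 := inv_ne_zero hc
      exact mul_ne_zero (mul_ne_zero (pow_ne_zero _ this) hc') (inv_ne_zero (pow_ne_zero _ this)), ?_⟩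
    rw [h3, it_smul (Pool.Agent.W193.UB.sy_hom _), it_smul (Pool.Agent.W193.UB.sy_hom _), h2,
      smul_smul, smul_smul, mul_assoc, mul_assoc, inv_mul_cancel₀ (pow_ne_zero _ (inv_ne_zero hc)),
      mul_one]
  have h1 := (Set.encard_le_encard hsub).trans h
  rw [Set.encard_coe_eq_coe_finsetCard, Finset.card_image_of_injOn hinj] at h1
  exact_mod_cast h1

lemma encard_of_fewB (hd : 1 ≤ d) (hmax : max p.natDegree q.natDegree = d) (hco : IsCoprime p q)
    {B : ℕ} (hB : 1 ≤ B) (C : ℕ) (h : FewB L B C (co p q d)) :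
    (PB L p q d B).encard ≤ (C : ℕ∞) := by
  classical
  have hmax' : max (p.map (algebraMap K L)).natDegree (q.map (algebraMap K L)).natDegree = d := by
    rw [Polynomial.natDegree_map, Polynomial.natDegree_map]
    exact hmax
  have hco' : IsCoprime (p.map (algebraMap K L)) (q.map (algebraMap K L)) :=
    hco.map (Polynomial.mapRingHom (algebraMap K L))
  by_contra hcon
  push Not at hcon
  obtain ⟨T, hTs, hT⟩ := Set.exists_subset_encard_eq (Order.add_one_le_of_lt hcon)
  have hTf : T.Finite := by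
    apply Set.finite_of_encard_eq_coe (k := C + 1)
    rw [hT]
    norm_cast
  have hinj : Function.Injective (hv (K := L)) := fun z z' h =>
    hv_inj z z' 1 (by rw [one_smul]; exact h)
  have h1 := h (hTf.toFinset.image hv) (by
    intro x hx
    obtain ⟨z, _, rfl⟩ := Finset.mem_image.1 hx
    exact hv_ne z) (by
    intro x hx y hy c hxy
    obtain ⟨z, _, rfl⟩ := Finset.mem_image.1 hx
    obtain ⟨z', _, rfl⟩ := Finset.mem_image.1 hy
    rw [hv_inj z z' c hxy]) (by
    intro x hx
    obtain ⟨z, hz, rfl⟩ := Finset.mem_image.1 hx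
    rw [co_map, pre_hv hd hmax' hco']
    exact (hTs ((Set.Finite.mem_toFinset _).1 hz)).1) (by
    intro x hx
    obtain ⟨z, hz, rfl⟩ := Finset.mem_image.1 hx
    exact degLe_of_degO hB (hTs ((Set.Finite.mem_toFinset _).1 hz)).2)
  rw [Finset.card_image_of_injective _ hinj] at h1
  have h5 : (hTf.toFinset.card : ℕ∞) = C + 1 := by
    rw [← hT, hTf.encard_eq_coe_toFinset_card]
  have h6 : hTf.toFinset.card = C + 1 := by exact_mod_cast h5
  omega

end

end Pool.Agent.Y706
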