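import Pool.Agent.Y706.P1

set_option autoImplicit false

/-! Coprimality and common zeros. -/

namespace Pool.Agent.Y706

open Pool.Agent.H936R2 Pool.Agent.H927R2.RD H294UB Pool.Agent.W275.UB
  Pool.Agent.W193.UB Pool.Agent.W277.UH

lemma exists_monC {B Kb : Type} [CommRing B] [Field Kb] [IsAlgClosed Kb] (φ : B →+* Kb) {n d : ℕ}
    (v : Idx n d → B)
    (hz : ∀ x : Fin n → Kb, (∀ j, MvPolynomial.eval x (sy (fun i => φ (v i)) j) = 0) → x = 0) :
    ∃ (s : ℕ) (c : B), φ c ≠ 0 ∧ MonC s c (sy v) := by
  obtain ⟨s, hs⟩ := W563.UB.Null.main Kb (Fin n) n (sy fun i => φ (v i)) hz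
  obtain ⟨c, hc, h⟩ := W230.UB.Cram.main B Kb (Fin n) φ n s (sy v) (fun _ => d)
    (fun j => Pool.Agent.W193.UB.sy_hom v j) (by
      intro μ hμ
      have h1 : (fun j => MvPolynomial.map φ (sy v j)) = sy fun i => φ (v i) :=
        Pool.Agent.W193.UB.map_sy φ v
      rw [h1]
      exact hs s le_rfl μ hμ)
  exact ⟨s, c, hc, h⟩

section

variable {K : Type} [Field K] {p q : Polynomial K} {d : ℕ}

lemma no_common (hd : 1 ≤ d) (hmax : max p.natDegree q.natDegree = d) (hco : IsCoprime p q)
    (x : Fin 2 → K) (hx : ∀ j, MvPolynomial.eval x (sy (co p q d) j) = 0) : x = 0 := by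
  by_contra h0
  obtain ⟨z, c, hc, h⟩ := exists_hv x h0
  obtain ⟨c', hc', h'⟩ := pt_hv hd hmax hco z
  have h1 : pt (sy (co p q d)) x = 0 := funext hx
  rw [h, pt_smul (Pool.Agent.W193.UB.sy_hom _), h', smul_smul] at h1
  exact smul_ne_zero (mul_ne_zero (pow_ne_zero _ hc) hc') (hv_ne _) h1

lemma no_common_map {L : Type} [Field L] (φ : K →+* L) (hd : 1 ≤ d)
    (hmax : max p.natDegree q.natDegree = d) (hco : IsCoprime p q)
    (x : Fin 2 → L) (hx : ∀ j, MvPolynomial.eval x (sy (fun i => φ (co p q d i)) j) = 0) :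
    x = 0 := by
  rw [co_map] at hx
  refine no_common hd ?_ (hco.map (Polynomial.mapRingHom φ)) x hx
  show max (p.map φ).natDegree (q.map φ).natDegree = d
  rw [Polynomial.natDegree_map, Polynomial.natDegree_map]
  exact hmax

lemma of_monIn {s : ℕ} (hp : p.natDegree ≤ d) (hq : q.natDegree ≤ d)
    (hM : MonIn s (sy (co p q d))) : IsCoprime p q ∧ max p.natDegree q.natDegree = d := by
  have hM' : MonIn s (sy (co (p.map (algebraMap K (AlgebraicClosure K)))
      (q.map (algebraMap K (AlgebraicClosure K))) d)) := by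
    have h1 : MonC s (1 : K) (sy (co p q d)) := fun μ hμ => hM μ hμ
    have h2 := h1.map (algebraMap K (AlgebraicClosure K))
    rw [map_one, co_map] at h2
    exact h2.monIn isUnit_one
  constructor
  · rw [Polynomial.isCoprime_iff_aeval_ne_zero_of_isAlgClosed K (AlgebraicClosure K)]
    intro a
    by_contra hcon
    push Not at hcon
    have h3 := no_zero _ hM' ![a, 1] (fun i => by
      have h4 : pt (sy (co (p.map (algebraMap K (AlgebraicClosure K)))
        (q.map (algebraMap K (AlgebraicClosure K))) d)) ![a, 1] = 0 := by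
        rw [pt_co]
        simp only [Matrix.cons_val_zero, Matrix.cons_val_one]
        rw [bv_one _ _ (Polynomial.natDegree_map_le.trans hp),
          bv_one _ _ (Polynomial.natDegree_map_le.trans hq), Polynomial.eval_map_algebraMap,
          Polynomial.eval_map_algebraMap, hcon.1, hcon.2]
        funext i
        fin_cases i <;> rfl
      exact congrFun h4 i)
    exact one_ne_zero (congrFun h3 1)
  · by_contra hcon
    have hlt : max p.natDegree q.natDegree < d := lt_of_le_of_ne (max_le hp hq) hcon
    have h3 := no_zero _ hM ![1, 0] (fun i => by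
      have h4 : pt (sy (co p q d)) ![1, 0] = 0 := by
        rw [pt_co]
        simp only [Matrix.cons_val_zero, Matrix.cons_val_one]
        rw [bv_inf, bv_inf, Polynomial.coeff_eq_zero_of_natDegree_lt ((le_max_left _ _).trans_lt hlt),
          Polynomial.coeff_eq_zero_of_natDegree_lt ((le_max_right _ _).trans_lt hlt)]
        funext i
        fin_cases i <;> rfl
      exact congrFun h4 i)
    exact one_ne_zero (congrFun h3 0)

end

end Pool.Agent.Y706
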