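import Pool.Agent.Y706.P8

set_option autoImplicit false

/-! Families with several parameters: the final statement. -/

namespace Pool.Agent.Y706

open Pool.Agent.H936R2 Pool.Agent.H927R2.RD H294UB Pool.Agent.W275.UB
  Pool.Agent.W193.UB Pool.Agent.W277.UH NumberField Filter Topology

set_option linter.unusedSectionVars false

/-- the subfield generated by the constants and the variables other than the `i`-th -/
noncomputable def subF (k : Type) [Field k] {ι : Type} (i : ι) :
    Subfield (FractionRing (MvPolynomial ι k)) :=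
  (IntermediateField.adjoin k {x : FractionRing (MvPolynomial ι k) | ∃ j, j ≠ i ∧
    x = algebraMap (MvPolynomial ι k) (FractionRing (MvPolynomial ι k))
      (MvPolynomial.X j)}).toSubfield

section

variable {k : Type} [Field k] {ι : Type}

lemma indep_frac : AlgebraicIndependent k (fun i : ι =>
    algebraMap (MvPolynomial ι k) (FractionRing (MvPolynomial ι k)) (MvPolynomial.X i)) := by
  have h2 : ∀ P : MvPolynomial ι k, MvPolynomial.aeval (fun i : ι =>
      algebraMap (MvPolynomial ι k) (FractionRing (MvPolynomial ι k)) (MvPolynomial.X i)) P =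
      algebraMap (MvPolynomial ι k) (FractionRing (MvPolynomial ι k)) P := by
    intro P
    induction P using MvPolynomial.induction_on with
    | C a =>
      rw [MvPolynomial.aeval_C, IsScalarTower.algebraMap_apply k (MvPolynomial ι k)
        (FractionRing (MvPolynomial ι k))]
      rfl
    | add p q hp hq => rw [map_add, map_add, hp, hq]
    | mul_X p i hp => rw [map_mul, map_mul, hp, MvPolynomial.aeval_X]
  intro P Q hPQ
  have h3 : MvPolynomial.aeval (fun i : ι =>
      algebraMap (MvPolynomial ι k) (FractionRing (MvPolynomial ι k)) (MvPolynomial.X i)) P =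
      MvPolynomial.aeval (fun i : ι =>
      algebraMap (MvPolynomial ι k) (FractionRing (MvPolynomial ι k)) (MvPolynomial.X i)) Q := hPQ
  rw [h2, h2] at h3
  exact IsFractionRing.injective (MvPolynomial ι k) (FractionRing (MvPolynomial ι k)) h3

lemma tr_sub (i : ι) : Transcendental (subF k i)
    (algebraMap (MvPolynomial ι k) (FractionRing (MvPolynomial ι k)) (MvPolynomial.X i)) := by
  have h1 := (indep_frac (k := k) (ι := ι)).transcendental_adjoin (s := {j | j ≠ i}) (i := i)
    (by simp)
  rw [← IntermediateField.transcendental_adjoin_iff] at h1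
  have h2 : ((fun i : ι => algebraMap (MvPolynomial ι k) (FractionRing (MvPolynomial ι k))
      (MvPolynomial.X i)) '' {j | j ≠ i}) = {x : FractionRing (MvPolynomial ι k) | ∃ j, j ≠ i ∧
      x = algebraMap (MvPolynomial ι k) (FractionRing (MvPolynomial ι k)) (MvPolynomial.X j)} := by
    ext x
    constructor
    · rintro ⟨j, hj, rfl⟩
      exact ⟨j, hj, rfl⟩
    · rintro ⟨j, hj, rfl⟩
      exact ⟨j, hj, rfl⟩
  rw [h2] at h1
  exact h1

lemma gen_sub (i : ι) (G : Subfield (FractionRing (MvPolynomial ι k))) (hG : subF k i ≤ G)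
    (hi : algebraMap (MvPolynomial ι k) (FractionRing (MvPolynomial ι k)) (MvPolynomial.X i) ∈ G)
    (x : FractionRing (MvPolynomial ι k)) : x ∈ G := by
  have h1 : ∀ P : MvPolynomial ι k,
      algebraMap (MvPolynomial ι k) (FractionRing (MvPolynomial ι k)) P ∈ G := by
    intro P
    induction P using MvPolynomial.induction_on with
    | C a =>
      apply hG
      have h2 : algebraMap (MvPolynomial ι k) (FractionRing (MvPolynomial ι k))
          (MvPolynomial.C a) = algebraMap k (FractionRing (MvPolynomial ι k)) a := by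
        rw [IsScalarTower.algebraMap_apply k (MvPolynomial ι k) (FractionRing (MvPolynomial ι k))]
        rfl
      rw [h2]
      exact IntermediateField.algebraMap_mem _ a
    | add p q hp hq => rw [map_add]; exact add_mem hp hq
    | mul_X p j hp =>
      rw [map_mul]
      refine mul_mem hp ?_
      by_cases hj : j = i
      · rw [hj]; exact hi
      · apply hG
        exact IntermediateField.subset_adjoin _ _ ⟨j, hj, rfl⟩
  obtain ⟨a, b, _, rfl⟩ := IsFractionRing.div_surjective (A := MvPolynomial ι k) x
  exact div_mem (h1 a) (h1 b)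

end

/-- **Uniform boundedness for 100% of the members of every non-isotrivial family.** -/
theorem main2 : ∃ N : ℕ → ℕ, ∀ (k : Type) [Field k] [NumberField k] (J : Type) [Fintype J]
    (ω : Module.Basis J ℤ (𝓞 k)) (d : ℕ), 2 ≤ d →
    (∀ P Q : Polynomial (Polynomial k), max P.natDegree Q.natDegree = d →
      IsCoprime (P.map (algebraMap (Polynomial k) (RatFunc k)))
        (Q.map (algebraMap (Polynomial k) (RatFunc k))) →
      ¬ IsoOver (algebraMap k (RatFunc k)).fieldRange
        (P.map (algebraMap (Polynomial k) (RatFunc k)))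
        (Q.map (algebraMap (Polynomial k) (RatFunc k))) d →
      Tendsto (fun H : ℕ =>
        (({s : 𝓞 k × 𝓞 k | (∀ j, |ω.repr s.1 j| ≤ (H : ℤ) ∧ |ω.repr s.2 j| ≤ (H : ℤ)) ∧
          (s.2 ≠ 0 ∧ GoodMap d (N d)
            (P.map (Polynomial.evalRingHom (algebraMap (𝓞 k) k s.1 / algebraMap (𝓞 k) k s.2)))
            (Q.map (Polynomial.evalRingHom
              (algebraMap (𝓞 k) k s.1 / algebraMap (𝓞 k) k s.2))))}).ncard : ℝ) /
        (({s : 𝓞 k × 𝓞 k |
          ∀ j, |ω.repr s.1 j| ≤ (H : ℤ) ∧ |ω.repr s.2 j| ≤ (H : ℤ)}).ncard : ℝ))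
        atTop (𝓝 1)) ∧
    (∀ (m : ℕ) (P Q : Polynomial (MvPolynomial (Fin m) k)) (i : Fin m),
      max P.natDegree Q.natDegree = d →
      IsCoprime (P.map (algebraMap (MvPolynomial (Fin m) k) (FractionRing (MvPolynomial (Fin m) k))))
        (Q.map (algebraMap (MvPolynomial (Fin m) k) (FractionRing (MvPolynomial (Fin m) k)))) →
      ¬ IsoOver (subF k i)
        (P.map (algebraMap (MvPolynomial (Fin m) k) (FractionRing (MvPolynomial (Fin m) k))))
        (Q.map (algebraMap (MvPolynomial (Fin m) k) (FractionRing (MvPolynomial (Fin m) k)))) d →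
      Tendsto (fun H : ℕ =>
        (({v | v ∈ {v : Fin m → 𝓞 k | ∀ l j, |ω.repr (v l) j| ≤ (H : ℤ)} ∧
          GoodMap d (N d)
            (P.map (MvPolynomial.eval fun l => algebraMap (𝓞 k) k (v l)))
            (Q.map (MvPolynomial.eval fun l => algebraMap (𝓞 k) k (v l)))} :
            Set (Fin m → 𝓞 k)).ncard : ℝ) /
        (({v : Fin m → 𝓞 k | ∀ l j, |ω.repr (v l) j| ≤ (H : ℤ)}).ncard : ℝ))
        atTop (𝓝 1)) := by
  obtain ⟨N, hN1, hN2⟩ := geom2
  refine ⟨N, fun k _ _ J _ ω d hd => ⟨fun P Q hmax hco hiso => ?_, fun m P Q i hmax hco hiso => ?_⟩⟩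
  · have hinj : Function.Injective (algebraMap (Polynomial k) (RatFunc k)) :=
      IsFractionRing.injective _ _
    have hmax' : max (P.map (algebraMap (Polynomial k) (RatFunc k))).natDegree
        (Q.map (algebraMap (Polynomial k) (RatFunc k))).natDegree = d := by
      rw [Polynomial.natDegree_map_eq_of_injective hinj,
        Polynomial.natDegree_map_eq_of_injective hinj]
      exact hmax
    have hiso' : ¬ Isotriv (P.map (algebraMap (Polynomial k) (RatFunc k)))
        (Q.map (algebraMap (Polynomial k) (RatFunc k))) d := by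
      rintro ⟨a, b, c, e, hdet, u, w, hne, hu, hw, hid⟩
      refine hiso ⟨a, b, c, e, hdet, u.map (algebraMap k (RatFunc k)),
        w.map (algebraMap k (RatFunc k)), ?_, ?_, ?_, ?_, ?_, ?_⟩
      · rcases hne with h | h
        · exact Or.inl ((Polynomial.map_ne_zero_iff (algebraMap k (RatFunc k)).injective).mpr h)
        · exact Or.inr ((Polynomial.map_ne_zero_iff (algebraMap k (RatFunc k)).injective).mpr h)
      · rw [Polynomial.natDegree_map]; exact hu
      · rw [Polynomial.natDegree_map]; exact hw
      · exact fun n => ⟨u.coeff n, by rw [Polynomial.coeff_map]⟩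
      · exact fun n => ⟨w.coeff n, by rw [Polynomial.coeff_map]⟩
      · simp only [Polynomial.coeff_map]
        exact hid
    have hg := hN1 k d hd _ _ hco hmax' hiso'
    exact dens_two ω _ (param_all ω hd P Q hg)
  · have hinj : Function.Injective (algebraMap (MvPolynomial (Fin m) k)
        (FractionRing (MvPolynomial (Fin m) k))) := IsFractionRing.injective _ _
    have hmax' : max (P.map (algebraMap (MvPolynomial (Fin m) k)
        (FractionRing (MvPolynomial (Fin m) k)))).natDegree
        (Q.map (algebraMap (MvPolynomial (Fin m) k)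
          (FractionRing (MvPolynomial (Fin m) k)))).natDegree = d := by
      rw [Polynomial.natDegree_map_eq_of_injective hinj,
        Polynomial.natDegree_map_eq_of_injective hinj]
      exact hmax
    have hcz : CharZero (FractionRing (MvPolynomial (Fin m) k)) :=
      charZero_of_injective_algebraMap (R := k) (algebraMap k _).injective
    have hg := hN2 (FractionRing (MvPolynomial (Fin m) k)) (subF k i) _ (tr_sub i) (gen_sub i) d hd
      _ _ hco hmax' hiso
    exact Pool.Agent.W275.ND.ratioV ω (ι := Fin m) _ (several ω hd P Q hg)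

end Pool.Agent.Y706
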