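import Mathlib

set_option autoImplicit false

/-! Preperiodic points with short tails. -/

namespace Pool.Agent.Y706

/-- if the periodic points are fixed by the `e`-th iterate and there are more than `C` preperiodic
points, then there are more than `C` points `x` with `f^(C+e) x = f^C x` -/
lemma chain {X : Type*} (f : X → X) (C e : ℕ) (S : Finset X) (hS : C < S.card)
    (hpre : ∀ x ∈ S, ∃ m l : ℕ, m < l ∧ f^[l] x = f^[m] x)
    (hper : ∀ x, (∃ m, 0 < m ∧ f^[m] x = x) → f^[e] x = x) :
    ∃ T : Finset X, T.card = C + 1 ∧ ∀ x ∈ T, f^[C + e] x = f^[C] x := by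
  classical
  -- forward orbits are finite
  have horb : ∀ x, (∃ m l : ℕ, m < l ∧ f^[l] x = f^[m] x) →
      (Set.range fun m : ℕ => f^[m] x).Finite := by
    rintro x ⟨m, l, hml, h⟩
    refine (Set.Finite.image (fun j => f^[j] x) (Set.finite_lt_nat l)).subset ?_
    rintro _ ⟨j, rfl⟩
    induction j using Nat.strong_induction_on with
    | _ j ih =>
      by_cases hj : j < l
      · exact ⟨j, hj, rfl⟩
      · have h1 : f^[j] x = f^[j - (l - m)] x := by
          obtain ⟨t, rfl⟩ := Nat.exists_eq_add_of_le (Nat.le_of_not_lt hj)
          have h2 : l + t - (l - m) = t + m := by omega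
          rw [h2, Nat.add_comm l t, Function.iterate_add_apply, h, ← Function.iterate_add_apply]
        show f^[j] x ∈ _
        rw [h1]
        exact ih (j - (l - m)) (by omega)
  have hfin : (⋃ x ∈ S, Set.range fun m : ℕ => f^[m] x).Finite :=
    S.finite_toSet.biUnion fun x hx => horb x (hpre x hx)
  set R : Finset X := hfin.toFinset with hR
  have hSR : S ⊆ R := by
    intro x hx
    rw [hR, Set.Finite.mem_toFinset, Set.mem_iUnion₂]
    exact ⟨x, hx, 0, rfl⟩
  have hRf : ∀ x ∈ R, f x ∈ R := by
    intro x hx
    rw [hR, Set.Finite.mem_toFinset, Set.mem_iUnion₂] at hx ⊢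
    obtain ⟨y, hy, m, hm⟩ := hx
    refine ⟨y, hy, m + 1, ?_⟩
    simp only at hm ⊢
    rw [Function.iterate_succ_apply', hm]
  have hRpre : ∀ x ∈ R, ∃ j, ∃ m, 0 < m ∧ f^[m] (f^[j] x) = f^[j] x := by
    intro x hx
    rw [hR, Set.Finite.mem_toFinset, Set.mem_iUnion₂] at hx
    obtain ⟨y, hy, t, ht⟩ := hx
    simp only at ht
    obtain ⟨m, l, hml, h⟩ := hpre y hy
    refine ⟨m, l - m, by omega, ?_⟩
    rw [← ht, ← Function.iterate_add_apply, ← Function.iterate_add_apply,
      ← Function.iterate_add_apply, Nat.add_comm (l - m + m) t, Nat.add_comm m t,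
      Function.iterate_add_apply f t, Function.iterate_add_apply f t, Nat.sub_add_cancel hml.le, h]
  let T : ℕ → Finset X := fun j => R.filter fun x => ∃ m, 0 < m ∧ f^[m] (f^[j] x) = f^[j] x
  have hmono : ∀ j, T j ⊆ T (j + 1) := by
    intro j x hx
    rw [Finset.mem_filter] at hx ⊢
    obtain ⟨hxR, m, hm, h⟩ := hx
    refine ⟨hxR, m, hm, ?_⟩
    rw [Function.iterate_succ_apply', ← Function.iterate_succ_apply, Function.iterate_succ_apply', h]
  have hstab : ∀ j, T (j + 1) = T j → ∀ i, T (j + i) = T j := by
    intro j hj i
    induction i with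
    | zero => rfl
    | succ i ih =>
      apply Finset.Subset.antisymm
      · intro x hx
        have hxR : x ∈ R := (Finset.mem_filter.1 hx).1
        obtain ⟨m, hm, h⟩ := (Finset.mem_filter.1 hx).2
        rw [← ih]
        -- `f x ∈ T (j + i) = T j`, so `x ∈ T (j + 1) = T j`
        have h1 : f x ∈ T (j + i) := by
          rw [Finset.mem_filter]
          refine ⟨hRf x hxR, m, hm, ?_⟩
          rw [← Function.iterate_succ_apply f (j + i)]
          exact h
        rw [ih] at h1
        have h2 : x ∈ T (j + 1) := by
          rw [Finset.mem_filter]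
          obtain ⟨m', hm', h'⟩ := (Finset.mem_filter.1 h1).2
          exact ⟨hxR, m', hm', by rw [Function.iterate_succ_apply]; exact h'⟩
        rw [hj] at h2
        rw [ih]
        exact h2
      · have h3 : ∀ i, T j ⊆ T (j + i) := by
          intro i
          induction i with
          | zero => exact Finset.Subset.refl _
          | succ i ih' => exact ih'.trans (hmono _)
        exact h3 (i + 1)
  have hsub : ∀ j, T j ⊆ R := fun j => Finset.filter_subset _ _
  have hfull : ∀ j, T (j + 1) = T j → T j = R := by
    intro j hj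
    apply Finset.Subset.antisymm (hsub j)
    intro x hx
    obtain ⟨i, m, hm, h⟩ := hRpre x hx
    have h1 : x ∈ T (j + i) := by
      rw [Finset.mem_filter]
      refine ⟨hx, m, hm, ?_⟩
      rw [Function.iterate_add_apply f j i, ← Function.iterate_add_apply f m j, Nat.add_comm m j,
        Function.iterate_add_apply f j m, h]
    rw [hstab j hj i] at h1
    exact h1
  have hgrow : ∀ j, j + 1 ≤ (T j).card ∨ T j = R := by
    intro j
    induction j with
    | zero =>
      left
      have h0 : 0 < S.card := by omega
      obtain ⟨x, hx⟩ := Finset.card_pos.1 h0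
      obtain ⟨i, m, hm, h⟩ := hRpre x (hSR hx)
      apply Finset.card_pos.2
      refine ⟨f^[i] x, Finset.mem_filter.2 ⟨?_, m, hm, h⟩⟩
      have h2 : ∀ i, f^[i] x ∈ R := by
        intro i
        induction i with
        | zero => exact hSR hx
        | succ i ih => rw [Function.iterate_succ_apply']; exact hRf _ ih
      exact h2 i
    | succ j ih =>
      rcases ih with ih | ih
      · by_cases h : T (j + 1) = T j
        · right
          rw [h]
          exact hfull j h
        · left
          have h1 : T j ⊂ T (j + 1) :=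
            Finset.ssubset_iff_subset_ne.2 ⟨hmono j, fun h' => h h'.symm⟩
          have h2 := Finset.card_lt_card h1
          omega
      · right
        apply Finset.Subset.antisymm (hsub _)
        rw [← ih]
        exact hmono j
  have hcard : C + 1 ≤ (T C).card := by
    rcases hgrow C with h | h
    · exact h
    · rw [h]
      have := Finset.card_le_card hSR
      omega
  obtain ⟨T', hT', hT'c⟩ := Finset.exists_subset_card_eq hcard
  refine ⟨T', hT'c, fun x hx => ?_⟩
  obtain ⟨m, hm, h⟩ := (Finset.mem_filter.1 (hT' hx)).2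
  rw [Nat.add_comm, Function.iterate_add_apply]
  exact hper _ ⟨m, hm, h⟩

end Pool.Agent.Y706
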