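import Pool.Agent.Y706.Good
import Pool.Agent.Y706.Chain
import Pool.Agent.W275.UB.Fin

set_option autoImplicit false

/-! Systems with many rational preperiodic points. -/

namespace Pool.Agent.Y706

open MvPolynomial Pool.Agent.H936R2 Pool.Agent.H927R2.RD H294UB Pool.Agent.W193.UB

/-- the vector `x` represents a preperiodic point of the system -/
def Pre {K : Type} [Field K] {n : ℕ} (P : Fin n → MvPolynomial (Fin n) K) (x : Fin n → K) : Prop :=
  ∃ m l : ℕ, m < l ∧ ∃ c : K, c ≠ 0 ∧ (pt P)^[l] x = c • (pt P)^[m] x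

/-- the system has at most `C` rational preperiodic points -/
def Few {K : Type} [Field K] {n : ℕ} (C : ℕ) (P : Fin n → MvPolynomial (Fin n) K) : Prop :=
  ∀ X : Finset (Fin n → K), (∀ x ∈ X, x ≠ 0) →
    (∀ x ∈ X, ∀ y ∈ X, ∀ c : K, x = c • y → x = y) → (∀ x ∈ X, Pre P x) → X.card ≤ C

section

variable {K : Type} [Field K] {n d s : ℕ} {P : Fin n → MvPolynomial (Fin n) K}

/-- the map on projective space -/
noncomputable def pmap (hM : MonIn s P) (p : Projectivization K (Fin n → K)) :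
    Projectivization K (Fin n → K) :=
  Projectivization.mk K (pt P p.rep)
    (Pool.Agent.W275.UB.iter_ne_zero P hM p.rep p.rep_nonzero 1)

lemma pmap_mk (hP : ∀ i, (P i).IsHomogeneous d) (hM : MonIn s P) (v : Fin n → K) (hv : v ≠ 0) :
    pmap hM (Projectivization.mk K v hv) = Projectivization.mk K (pt P v)
      (Pool.Agent.W275.UB.iter_ne_zero P hM v hv 1) := by
  obtain ⟨a, ha⟩ := Projectivization.exists_smul_eq_mk_rep K v hv
  unfold pmap
  rw [Projectivization.mk_eq_mk_iff']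
  refine ⟨(a : K) ^ d, ?_⟩
  rw [← pt_smul hP, ← ha]
  rfl

lemma pmap_iter (hP : ∀ i, (P i).IsHomogeneous d) (hM : MonIn s P) (v : Fin n → K) (hv : v ≠ 0)
    (m : ℕ) : (pmap hM)^[m] (Projectivization.mk K v hv) = Projectivization.mk K ((pt P)^[m] v)
      (Pool.Agent.W275.UB.iter_ne_zero P hM v hv m) := by
  induction m with
  | zero => rfl
  | succ m ih =>
    rw [Function.iterate_succ_apply', ih, pmap_mk hP]
    congr 1
    rw [Function.iterate_succ_apply']

lemma pmap_eq (hP : ∀ i, (P i).IsHomogeneous d) (hM : MonIn s P) (v : Fin n → K) (hv : v ≠ 0)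
    (l m : ℕ) : (pmap hM)^[l] (Projectivization.mk K v hv) =
      (pmap hM)^[m] (Projectivization.mk K v hv) ↔
      ∃ c : K, c ≠ 0 ∧ (pt P)^[l] v = c • (pt P)^[m] v := by
  rw [pmap_iter hP, pmap_iter hP, Projectivization.mk_eq_mk_iff']
  constructor
  · rintro ⟨c, hc⟩
    refine ⟨c, ?_, hc.symm⟩
    rintro rfl
    rw [zero_smul] at hc
    exact Pool.Agent.W275.UB.iter_ne_zero P hM v hv l hc.symm
  · rintro ⟨c, _, hc⟩
    exact ⟨c, hc.symm⟩

lemma many (hP : ∀ i, (P i).IsHomogeneous d) (hM : MonIn s P) (C e : ℕ)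
    (hper : ∀ y : Fin n → K, y ≠ 0 → ∀ m, 0 < m → Rl P y 0 m → Rl P y 0 e)
    (hmany : ¬ Few C P) : ∃ (x : Fin (C + 1) → Fin n → K) (i0 : Fin (C + 1) → Fin n),
      (∀ l, x l (i0 l) = 1) ∧ (∀ l l' (c : K), x l = c • x l' → l = l') ∧
      ∀ l, ∃ c : K, c ≠ 0 ∧ (pt P)^[C + e] (x l) = c • (pt P)^[C] (x l) := by
  classical
  unfold Few at hmany
  push Not at hmany
  obtain ⟨X, hX0, hXp, hXpre, hXc⟩ := hmany
  let S : Finset (Projectivization K (Fin n → K)) :=
    X.attach.image fun x => Projectivization.mk K x.1 (hX0 x.1 x.2)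
  have hScard : C < S.card := by
    rw [Finset.card_image_of_injective, Finset.card_attach]
    · exact hXc
    · rintro ⟨x, hx⟩ ⟨y, hy⟩ h
      simp only at h
      rw [Projectivization.mk_eq_mk_iff'] at h
      obtain ⟨c, hc⟩ := h
      exact Subtype.ext (hXp x hx y hy c hc.symm)
  obtain ⟨T, hT, hTf⟩ := chain (pmap hM) C e S hScard (by
    intro p hp
    obtain ⟨⟨x, hx⟩, _, rfl⟩ := Finset.mem_image.1 hp
    obtain ⟨m, l, hml, h⟩ := hXpre x hx
    exact ⟨m, l, hml, (pmap_eq hP hM x (hX0 x hx) l m).2 h⟩) (by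
    intro p
    rintro ⟨m, hm, h⟩
    rw [← p.mk_rep] at h ⊢
    obtain ⟨c, hc, h1⟩ := (pmap_eq hP hM p.rep p.rep_nonzero m 0).1 h
    obtain ⟨c', hc', h2⟩ := hper p.rep p.rep_nonzero m hm ⟨c, isUnit_iff_ne_zero.2 hc, h1⟩
    exact (pmap_eq hP hM p.rep p.rep_nonzero e 0).2 ⟨c', hc'.ne_zero, h2⟩)
  let E := T.equivFinOfCardEq hT
  have hex : ∀ p : Projectivization K (Fin n → K), ∃ i, p.rep i ≠ 0 := by
    intro p
    exact Function.ne_iff.1 p.rep_nonzero
  choose j hj using hex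
  have hpt : ∀ p : Projectivization K (Fin n → K), (p.rep (j p))⁻¹ • p.rep ≠ 0 := fun p =>
    smul_ne_zero (inv_ne_zero (hj p)) p.rep_nonzero
  have hmk : ∀ p : Projectivization K (Fin n → K),
      Projectivization.mk K ((p.rep (j p))⁻¹ • p.rep) (hpt p) = p := by
    intro p
    conv_rhs => rw [← p.mk_rep]
    rw [Projectivization.mk_eq_mk_iff']
    exact ⟨_, rfl⟩
  refine ⟨fun l => ((E.symm l).1.rep (j (E.symm l).1))⁻¹ • (E.symm l).1.rep,
    fun l => j (E.symm l).1, ?_, ?_, ?_⟩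
  · intro l
    simp only [Pi.smul_apply, smul_eq_mul]
    exact inv_mul_cancel₀ (hj _)
  · intro l l' c h
    apply E.symm.injective
    apply Subtype.ext
    rw [← hmk (E.symm l).1, ← hmk (E.symm l').1, Projectivization.mk_eq_mk_iff']
    exact ⟨c, h.symm⟩
  · intro l
    have h1 := hTf (E.symm l).1 (E.symm l).2
    have h2 := pmap_eq hP hM _ (hpt (E.symm l).1) (C + e) C
    rw [hmk] at h2
    exact h2.1 h1

end

end Pool.Agent.Y706
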