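import Pool.Agent.Y706.B2

set_option autoImplicit false

/-! Residues of points of bounded degree. -/

namespace Pool.Agent.Y706

open MvPolynomial Pool.Agent.H936R2 Pool.Agent.H927R2.RD H294UB Pool.Agent.W275.UB
  Pool.Agent.W193.UB Pool.Agent.W554.UB

/-- the residue field of the valuation ring `O ∩ K` is `F` -/
def ResIn (K F : Type) {Ω : Type} [Field K] [Field F] [Field Ω] [Algebra K Ω]
    (O : ValuationSubring Ω) [Algebra F (IsLocalRing.ResidueField O)] : Prop :=
  (∀ (c : K) (hc : algebraMap K Ω c ∈ O), ∃ f : F,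
    algebraMap F (IsLocalRing.ResidueField O) f = IsLocalRing.residue O ⟨algebraMap K Ω c, hc⟩) ∧
  ∀ f : F, ∃ (c : K) (hc : algebraMap K Ω c ∈ O),
    algebraMap F (IsLocalRing.ResidueField O) f = IsLocalRing.residue O ⟨algebraMap K Ω c, hc⟩

section

variable {K F Ω : Type} [Field K] [Field F] [Field Ω] [Algebra K Ω]
  {O : ValuationSubring Ω} [Algebra F (IsLocalRing.ResidueField O)]

/-- the residues of the elements of `E ∩ O` -/
noncomputable def resF (h : ResIn K F O) (E : IntermediateField K Ω) :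
    IntermediateField F (IsLocalRing.ResidueField O) where
  carrier := {z | ∃ y : O, (y : Ω) ∈ E ∧ IsLocalRing.residue O y = z}
  mul_mem' := by
    rintro _ _ ⟨y, hy, rfl⟩ ⟨y', hy', rfl⟩
    exact ⟨y * y', mul_mem hy hy', map_mul _ _ _⟩
  one_mem' := ⟨1, one_mem _, map_one _⟩
  add_mem' := by
    rintro _ _ ⟨y, hy, rfl⟩ ⟨y', hy', rfl⟩
    exact ⟨y + y', add_mem hy hy', map_add _ _ _⟩
  zero_mem' := ⟨0, zero_mem _, map_zero _⟩
  algebraMap_mem' := by
    intro f
    obtain ⟨c, hc, h1⟩ := h.2 f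
    exact ⟨⟨algebraMap K Ω c, hc⟩, E.algebraMap_mem c, h1.symm⟩
  inv_mem' := by
    rintro _ ⟨y, hy, rfl⟩
    by_cases h0 : IsLocalRing.residue O y = 0
    · exact ⟨0, zero_mem _, by rw [h0, inv_zero, map_zero]⟩
    · have hu : IsUnit y := by
        rwa [IsLocalRing.residue_eq_zero_iff, IsLocalRing.mem_maximalIdeal, mem_nonunits_iff,
          not_not] at h0
      obtain ⟨u, hu⟩ := hu
      have h1 : y * ((u⁻¹ : Oˣ) : O) = 1 := by rw [← hu, Units.mul_inv]
      have h2 : (y : Ω) * (((u⁻¹ : Oˣ) : O) : Ω) = 1 := congrArg Subtype.val h1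
      have h3 : (((u⁻¹ : Oˣ) : O) : Ω) = (y : Ω)⁻¹ := eq_inv_of_mul_eq_one_right h2
      refine ⟨((u⁻¹ : Oˣ) : O), ?_, ?_⟩
      · rw [h3]
        exact inv_mem hy
      · apply eq_inv_of_mul_eq_one_right
        rw [← map_mul, h1, map_one]

lemma mem_resF (h : ResIn K F O) (E : IntermediateField K Ω) {y : O} (hy : (y : Ω) ∈ E) :
    IsLocalRing.residue O y ∈ resF h E := ⟨y, hy, rfl⟩

/-- lifts of independent residues are independent -/
lemma lift_indep (h : ResIn K F O) {I : Type} [Fintype I] (y : I → O)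
    (hy : LinearIndependent F fun i => IsLocalRing.residue O (y i)) :
    LinearIndependent K fun i => (y i : Ω) := by
  classical
  rw [Fintype.linearIndependent_iff]
  intro c hc
  by_contra hcon
  push Not at hcon
  obtain ⟨j, hj⟩ := hcon
  have : Nonempty I := ⟨j⟩
  obtain ⟨i0, hi0⟩ := Finite.exists_max fun i => O.valuation (algebraMap K Ω (c i))
  have hne : c i0 ≠ 0 := by
    intro h0
    have h1 := hi0 j
    rw [h0, map_zero, map_zero, le_zero_iff, Valuation.zero_iff, map_eq_zero] at h1
    exact hj h1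
  have hne' : algebraMap K Ω (c i0) ≠ 0 := (map_ne_zero _).2 hne
  have hmem : ∀ i, algebraMap K Ω (c i / c i0) ∈ O := by
    intro i
    rw [← O.valuation_le_one_iff, map_div₀, map_div₀]
    exact div_le_one_of_le₀ (hi0 i) zero_le
  have hsum : ∑ i, (⟨algebraMap K Ω (c i / c i0), hmem i⟩ : O) * y i = 0 := by
    apply Subtype.ext
    have h1 : ((∑ i, (⟨algebraMap K Ω (c i / c i0), hmem i⟩ : O) * y i : O) : Ω) =
        ∑ i, algebraMap K Ω (c i / c i0) * (y i : Ω) := by
      push_cast
      rfl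
    rw [h1]
    have h2 : ∑ i, algebraMap K Ω (c i / c i0) * (y i : Ω) =
        (algebraMap K Ω (c i0))⁻¹ * ∑ i, c i • (y i : Ω) := by
      rw [Finset.mul_sum]
      refine Finset.sum_congr rfl fun i _ => ?_
      rw [map_div₀, Algebra.smul_def]
      field_simp
    rw [h2, hc, mul_zero]
    rfl
  choose f hf using fun i => h.1 (c i / c i0) (hmem i)
  have h3 := congrArg (IsLocalRing.residue O) hsum
  rw [map_sum, map_zero] at h3
  have h4 : ∑ i, f i • IsLocalRing.residue O (y i) = 0 := by
    rw [← h3]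
    refine Finset.sum_congr rfl fun i _ => ?_
    rw [map_mul, ← hf i, Algebra.smul_def]
  have h5 := (Fintype.linearIndependent_iff.1 hy) f h4 i0
  have h6 := hf i0
  rw [h5, map_zero] at h6
  have h7 : (⟨algebraMap K Ω (c i0 / c i0), hmem i0⟩ : O) = 1 := by
    apply Subtype.ext
    show algebraMap K Ω (c i0 / c i0) = 1
    rw [div_self hne, map_one]
  rw [h7, map_one] at h6
  exact zero_ne_one h6

lemma resF_finrank (h : ResIn K F O) (E : IntermediateField K Ω) [FiniteDimensional K E] :
    FiniteDimensional F (resF h E) ∧ Module.finrank F (resF h E) ≤ Module.finrank K E := by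
  classical
  have key : Module.rank F (resF h E) ≤ (Module.finrank K E : Cardinal) := by
    apply rank_le
    intro s hs
    have hex : ∀ z : s, ∃ y : O, (y : Ω) ∈ E ∧
        IsLocalRing.residue O y = ((z : resF h E) : IsLocalRing.ResidueField O) := fun z => z.1.2
    choose y hyE hy using hex
    have h1 : LinearIndependent F fun z : s => IsLocalRing.residue O (y z) := by
      have h2 : (fun z : s => IsLocalRing.residue O (y z)) =
          (resF h E).val ∘ fun z : s => (z : resF h E) := by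
        funext z
        exact hy z
      rw [h2]
      exact hs.map' (resF h E).val.toLinearMap
        (LinearMap.ker_eq_bot.2 (resF h E).val.injective)
    have h3 := lift_indep h y h1
    have h4 : LinearIndependent K fun z : s => (⟨(y z : Ω), hyE z⟩ : E) := by
      refine LinearIndependent.of_comp E.val.toLinearMap ?_
      exact h3
    have h5 := h4.fintype_card_le_finrank
    rwa [Fintype.card_coe] at h5
  have hfd : FiniteDimensional F (resF h E) := by
    rw [FiniteDimensional, ← Module.rank_lt_aleph0_iff]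
    exact key.trans_lt (Cardinal.natCast_lt_aleph0)
  refine ⟨hfd, ?_⟩
  rw [← Module.finrank_eq_rank] at key
  exact_mod_cast key

/-- the residue of a point of degree at most `B` has degree at most `B` -/
lemma degLe_res (h : ResIn K F O) {n B : ℕ} {z : Fin n → O} (hz : Prim z)
    (hB : DegLe K B fun i => (z i : Ω)) :
    DegLe F B fun i => IsLocalRing.residue O (z i) := by
  obtain ⟨E, hE1, hE2, c, hc, hE3⟩ := hB
  obtain ⟨i0, hi0⟩ := hz
  obtain ⟨u, hu⟩ := hi0
  have hfr := resF_finrank h E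
  refine ⟨resF h E, hfr.1, hfr.2.trans hE2, IsLocalRing.residue O ((u⁻¹ : Oˣ) : O), ?_, ?_⟩
  · intro h0
    have h1 : IsLocalRing.residue O (((u⁻¹ : Oˣ) : O) * (u : O)) = 0 := by
      rw [map_mul, h0, zero_mul]
    rw [Units.inv_mul, map_one] at h1
    exact one_ne_zero h1
  · intro j
    rw [← map_mul]
    apply mem_resF
    have h1 : ((((u⁻¹ : Oˣ) : O) * z j : O) : Ω) = (c * (z i0 : Ω))⁻¹ * (c * (z j : Ω)) := by
      have h2 : (((u⁻¹ : Oˣ) : O) : Ω) * (z i0 : Ω) = 1 := by
        have h3 : ((u⁻¹ : Oˣ) : O) * z i0 = 1 := by rw [← hu, Units.inv_mul]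
        exact congrArg Subtype.val h3
      have h4 : (z i0 : Ω) ≠ 0 := right_ne_zero_of_mul_eq_one h2
      have h5 : (((u⁻¹ : Oˣ) : O) : Ω) = (z i0 : Ω)⁻¹ := eq_inv_of_mul_eq_one_left h2
      show (((u⁻¹ : Oˣ) : O) : Ω) * (z j : Ω) = _
      rw [h5]
      field_simp
    rw [h1]
    exact mul_mem (inv_mem (hE3 i0)) (hE3 j)

end

end Pool.Agent.Y706
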