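import Pool.Agent.Y706.G9

set_option autoImplicit false

/-! Periods of points of bounded degree: transfer from an ultrapower. -/

namespace Pool.Agent.Y706

open MvPolynomial Pool.Agent.H936R2 Pool.Agent.H927R2.RD H294UB Pool.Agent.W275.UB
  Pool.Agent.W193.UB Pool.Agent.W554.UB NumberField

theorem per_up {α : Type} {U : Ultrafilter α} {K k kb : Type} [Field K] [CharZero K] [Field k]
    [Field kb] [IsAlgClosed kb] [Algebra k kb] (ψ : K →+* UP U k) {N d s B e : ℕ}
    (v : Idx (N + 1) d → K) (hM : MonIn s (sy v)) (vw : Idx (N + 1) d → α → k)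
    (hvw : ∀ i, ψ (v i) = up U k (vw i))
    (h : ∀ᶠ w in (U : Filter α), ∀ x : Fin (N + 1) → kb, x ≠ 0 → DegLe k B x → ∀ m, 0 < m →
      Rl (sy fun i => algebraMap k kb (vw i w)) x 0 m →
      Rl (sy fun i => algebraMap k kb (vw i w)) x 0 e) : PerB v B e := by
  classical
  intro y hy hyB m hm hrel
  let iO : Algebra K (UP U kb) := ((jU (kb := kb) U).comp ψ).toAlgebra
  have hac : IsAlgClosed (UP U kb) := up_closed
  let τ : AlgebraicClosure K →ₐ[K] UP U kb := IsAlgClosed.lift
  have hML : MonIn s (sy fun i => algebraMap K (AlgebraicClosure K) (v i)) := monIn_map _ hM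
  have hhom := Pool.Agent.W193.UB.sy_hom (R := (AlgebraicClosure K)) fun i => algebraMap K (AlgebraicClosure K) (v i)
  -- normalisation
  obtain ⟨i1, hi1⟩ := Function.ne_iff.1 hy
  have hi1' : y i1 ≠ 0 := hi1
  set z : Fin (N + 1) → (AlgebraicClosure K) := (y i1)⁻¹ • y with hz
  have hz1 : z i1 = 1 := by
    rw [hz, Pi.smul_apply, smul_eq_mul, inv_mul_cancel₀ hi1']
  have hz0 : z ≠ 0 := smul_ne_zero (inv_ne_zero hi1') hy
  have hzB : DegLe K B z := hyB.smul (inv_ne_zero hi1')
  have hzrel : Rl (sy fun i => algebraMap K (AlgebraicClosure K) (v i)) z 0 m := Rl_smul hhom (inv_ne_zero hi1') hrel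
  suffices hsuf : Rl (sy fun i => algebraMap K (AlgebraicClosure K) (v i)) z 0 e by
    have h1 := Rl_smul hhom hi1' hsuf
    rwa [hz, smul_smul, mul_inv_cancel₀ hi1', one_smul] at h1
  -- the point as a family of points
  obtain ⟨θ, g, hh, hg, hgB, hgθ, hhθ⟩ := exists_prim_elt hzB hz1
  obtain ⟨b, hb⟩ := up_surj (U := U) (k := kb) (τ θ)
  obtain ⟨G, hG, hGb⟩ := polyfam_monic (kb := kb) ψ g hg
  choose H hH using fun j => polyfam (kb := kb) ψ (hh j)
  set x : α → Fin (N + 1) → kb := fun w j => Polynomial.aeval (b w) (H j w) with hx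
  have hτ : ∀ P : Polynomial K, τ (Polynomial.aeval θ P) =
      P.eval₂ ((jU (kb := kb) U).comp ψ) (up U kb b) := by
    intro P
    rw [hb, ← Polynomial.aeval_algHom_apply]
    rfl
  have hτz : ∀ j, τ (z j) = up U kb fun w => x w j := by
    intro j
    rw [← hhθ j, hτ, hH]
  have hGw : ∀ᶠ w in (U : Filter α), Polynomial.aeval (b w) (G w) = 0 := by
    have h1 := hτ g
    rw [hgθ, map_zero, hGb] at h1
    exact up_eq_zero.1 h1.symm
  have hxB : ∀ᶠ w in (U : Filter α), DegLe k B (x w) := by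
    filter_upwards [hGw] with w hw
    obtain ⟨h1, h2⟩ := adj_deg (hG w).1 hw
    refine ⟨IntermediateField.adjoin k {b w}, h1, h2.trans ((hG w).2.le.trans hgB), 1, one_ne_zero,
      fun j => ?_⟩
    rw [one_mul]
    exact IntermediateField.algebra_adjoin_le_adjoin k {b w}
      (Polynomial.aeval_mem_adjoin_singleton k (b w))
  have hx0 : ∀ᶠ w in (U : Filter α), x w i1 = 1 := by
    have h1 := hτz i1
    rw [hz1, map_one, ← map_one (up U kb)] at h1
    have h2 := up_eq.1 h1
    filter_upwards [h2] with w hw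
    exact hw.symm
  -- iterates
  have hcoef : (fun i => (τ : (AlgebraicClosure K) →+* UP U kb) (algebraMap K (AlgebraicClosure K) (v i))) =
      fun i => up U kb fun w => algebraMap k kb (vw i w) := by
    funext i
    have h1 : (τ : (AlgebraicClosure K) →+* UP U kb) (algebraMap K (AlgebraicClosure K) (v i)) = algebraMap K (UP U kb) (v i) :=
      τ.commutes (v i)
    rw [h1]
    show jU U (ψ (v i)) = _
    rw [hvw, jU_up]
  have hit : ∀ l : ℕ, (fun j => τ ((pt (sy fun i => algebraMap K (AlgebraicClosure K) (v i)))^[l] z j)) =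
      fun j => up U kb fun w => (pt (sy fun i => algebraMap k kb (vw i w)))^[l] (x w) j := by
    intro l
    have h1 := it_map (τ : (AlgebraicClosure K) →+* UP U kb) (fun i => algebraMap K (AlgebraicClosure K) (v i)) z l
    rw [hcoef] at h1
    let V : Idx (N + 1) d → α → kb := fun i w => algebraMap k kb (vw i w)
    let Y : Fin (N + 1) → α → kb := fun j w => x w j
    have h2 := it_map (up U kb) V Y l
    have h3 : (fun j => (τ : (AlgebraicClosure K) →+* UP U kb) (z j)) = fun j => (up U kb) (Y j) := funext hτz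
    rw [h3] at h1
    have h4 : (fun j => τ ((pt (sy fun i => algebraMap K (AlgebraicClosure K) (v i)))^[l] z j)) =
        fun j => (up U kb) ((pt (sy V))^[l] Y j) := h1.symm.trans h2
    rw [h4]
    funext j
    congr 1
    funext w
    have h5 := it_map (Pi.evalRingHom (fun _ : α => kb) w) V Y l
    exact (congrFun h5 j).symm
  obtain ⟨c, hc, hcz⟩ := hzrel
  obtain ⟨cw, hcw⟩ := up_surj (U := U) (k := kb) (τ c)
  have hcw0 : ∀ᶠ w in (U : Filter α), cw w ≠ 0 := by
    refine Ultrafilter.eventually_not.2 fun h1 => ?_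
    have h2 : up U kb cw = 0 := up_eq_zero.2 h1
    rw [hcw] at h2
    exact ((hc.map τ).ne_zero) h2
  have hrelw : ∀ᶠ w in (U : Filter α), ∀ j,
      (pt (sy fun i => algebraMap k kb (vw i w)))^[m] (x w) j = cw w * x w j := by
    rw [Filter.eventually_all]
    intro j
    have h1 := congrFun (hit m) j
    rw [hcz] at h1
    simp only [Function.iterate_zero, id_eq, Pi.smul_apply, smul_eq_mul, map_mul] at h1
    rw [← hcw, hτz, ← map_mul] at h1
    have h2 := up_eq.1 h1
    filter_upwards [h2] with w hw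
    exact hw.symm
  have hres : ∀ᶠ w in (U : Filter α), ∃ c' : kb, c' ≠ 0 ∧
      ∀ j, (pt (sy fun i => algebraMap k kb (vw i w)))^[e] (x w) j = c' * x w j := by
    filter_upwards [h, hxB, hx0, hcw0, hrelw] with w h1 h2 h3 h4 h5
    have hxw0 : x w ≠ 0 := by
      intro h6
      rw [h6] at h3
      exact zero_ne_one h3
    obtain ⟨c', hc', h7⟩ := h1 (x w) hxw0 h2 m hm ⟨cw w, isUnit_iff_ne_zero.2 h4, by
      funext j
      rw [h5 j]
      rfl⟩
    refine ⟨c', hc'.ne_zero, fun j => ?_⟩
    rw [h7]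
    rfl
  have hres' : ∀ w, ∃ c' : kb, (∃ c' : kb, c' ≠ 0 ∧
      ∀ j, (pt (sy fun i => algebraMap k kb (vw i w)))^[e] (x w) j = c' * x w j) →
      ∀ j, (pt (sy fun i => algebraMap k kb (vw i w)))^[e] (x w) j = c' * x w j := by
    intro w
    by_cases h1 : ∃ c' : kb, c' ≠ 0 ∧
      ∀ j, (pt (sy fun i => algebraMap k kb (vw i w)))^[e] (x w) j = c' * x w j
    · obtain ⟨c', _, h2⟩ := h1
      exact ⟨c', fun _ => h2⟩
    · exact ⟨0, fun h2 => absurd h2 h1⟩
  choose c' hc' using hres'
  have hfin : ∀ j, τ ((pt (sy fun i => algebraMap K (AlgebraicClosure K) (v i)))^[e] z j) =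
      up U kb c' * τ ((pt (sy fun i => algebraMap K (AlgebraicClosure K) (v i)))^[0] z j) := by
    intro j
    have h1 := congrFun (hit e) j
    rw [h1]
    simp only [Function.iterate_zero, id_eq]
    rw [hτz, ← map_mul]
    refine up_eq.2 ?_
    filter_upwards [hres] with w hw
    exact hc' w hw j
  exact descend (τ : (AlgebraicClosure K) →+* UP U kb) (iter_ne_zero _ hML z hz0 0) (iter_ne_zero _ hML z hz0 e)
    (up U kb c') hfin

end Pool.Agent.Y706
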