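import Pool.Agent.Y706.G10

set_option autoImplicit false

/-! Descent along extensions of the base field. -/

namespace Pool.Agent.Y706

open MvPolynomial Pool.Agent.H936R2 Pool.Agent.H927R2.RD H294UB Pool.Agent.W275.UB
  Pool.Agent.W193.UB Pool.Agent.W554.UB NumberField

lemma degLe_push {K E Ω Ω' : Type} [Field K] [CharZero K] [Field E] [Field Ω] [Field Ω']
    [Algebra K Ω] [Algebra E Ω'] (T : K →+* E) (τ : Ω →+* Ω')
    (hτ : ∀ c, τ (algebraMap K Ω c) = algebraMap E Ω' (T c)) {n B : ℕ} {y : Fin n → Ω}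
    (hy : y ≠ 0) (hB : DegLe K B y) : DegLe E B fun j => τ (y j) := by
  obtain ⟨i1, hi1⟩ := Function.ne_iff.1 hy
  have hi1' : y i1 ≠ 0 := hi1
  have hz1 : ((y i1)⁻¹ • y) i1 = 1 := by
    rw [Pi.smul_apply, smul_eq_mul, inv_mul_cancel₀ hi1']
  obtain ⟨θ, g, hh, hg, hgB, hgθ, hhθ⟩ := exists_prim_elt (hB.smul (inv_ne_zero hi1')) hz1
  have hev : ∀ P : Polynomial K, Polynomial.aeval (τ θ) (P.map T) = τ (Polynomial.aeval θ P) := by
    intro P
    rw [Polynomial.aeval_def, Polynomial.eval₂_map, Polynomial.aeval_def, Polynomial.hom_eval₂]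
    congr 1
    exact RingHom.ext fun c => (hτ c).symm
  obtain ⟨h1, h2⟩ := adj_deg (k := E) (b := τ θ) (Q := g.map T) (hg.map T) (by
    rw [hev, hgθ, map_zero])
  have h3 : DegLe E B fun j => τ (((y i1)⁻¹ • y) j) := by
    refine ⟨IntermediateField.adjoin E {τ θ}, h1, ?_, 1, one_ne_zero, fun j => ?_⟩
    · refine h2.trans ?_
      rw [hg.natDegree_map]
      exact hgB
    · show 1 * τ (((y i1)⁻¹ • y) j) ∈ _
      rw [one_mul, ← hhθ j, ← hev]
      exact IntermediateField.algebra_adjoin_le_adjoin E {τ θ}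
        (Polynomial.aeval_mem_adjoin_singleton E (τ θ))
  have h4 := h3.smul ((map_ne_zero τ).2 hi1')
  have h5 : (τ (y i1) • fun j => τ (((y i1)⁻¹ • y) j)) = fun j => τ (y j) := by
    funext j
    rw [Pi.smul_apply, smul_eq_mul, ← map_mul, Pi.smul_apply, smul_eq_mul, ← mul_assoc,
      mul_inv_cancel₀ hi1', one_mul]
  rwa [h5] at h4

lemma exists_tau {K E : Type} [Field K] [Field E] (T : K →+* E) :
    ∃ τ : AlgebraicClosure K →+* AlgebraicClosure E,
      ∀ c, τ (algebraMap K (AlgebraicClosure K) c) = algebraMap E (AlgebraicClosure E) (T c) := by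
  let iA : Algebra K (AlgebraicClosure E) := ((algebraMap E (AlgebraicClosure E)).comp T).toAlgebra
  let τ : AlgebraicClosure K →ₐ[K] AlgebraicClosure E := IsAlgClosed.lift
  exact ⟨τ, fun c => τ.commutes c⟩

theorem perB_sub {K E : Type} [Field K] [CharZero K] [Field E] (T : K →+* E) {n d s B e : ℕ}
    {v : Idx n d → K} (hM : MonIn s (sy v)) (h : PerB (fun i => T (v i)) B e) : PerB v B e := by
  obtain ⟨τ, hτ⟩ := exists_tau T
  intro y hy hyB m hm hrel
  have hML : MonIn s (sy fun i => algebraMap K (AlgebraicClosure K) (v i)) := monIn_map _ hM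
  have hco : (fun i => τ (algebraMap K (AlgebraicClosure K) (v i))) =
      fun i => algebraMap E (AlgebraicClosure E) (T (v i)) := funext fun i => hτ (v i)
  have h1 := Rl_map τ hrel
  rw [hco] at h1
  have hy' : (fun j => τ (y j)) ≠ 0 := by
    intro h0
    apply hy
    funext j
    have := congrFun h0 j
    exact (map_eq_zero τ).1 this
  obtain ⟨c, hc, h2⟩ := h _ hy' (degLe_push T τ hτ hy hyB) m hm h1
  rw [← hco, it_map, it_map] at h2
  exact descend τ (iter_ne_zero _ hML y hy 0) (iter_ne_zero _ hML y hy e) c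
    fun j => congrFun h2 j

theorem fewB_sub {K E : Type} [Field K] [CharZero K] [Field E] (T : K →+* E) {n d B C : ℕ}
    {v : Idx n d → K} (h : FewB (AlgebraicClosure E) B C (fun i => T (v i))) :
    FewB (AlgebraicClosure K) B C v := by
  classical
  obtain ⟨τ, hτ⟩ := exists_tau T
  have hco : (fun i => τ (algebraMap K (AlgebraicClosure K) (v i))) =
      fun i => algebraMap E (AlgebraicClosure E) (T (v i)) := funext fun i => hτ (v i)
  intro X hX0 hXp hXpre hXd
  have hne : ∀ {y : Fin n → AlgebraicClosure K}, y ≠ 0 → (fun j => τ (y j)) ≠ 0 := by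
    intro y hy h0
    apply hy
    funext j
    have := congrFun h0 j
    exact (map_eq_zero τ).1 this
  have hinj : Function.Injective fun (y : Fin n → AlgebraicClosure K) => fun j => τ (y j) := by
    intro x y hxy
    funext j
    exact τ.injective (congrFun hxy j)
  have h1 := h (X.image fun y => fun j => τ (y j)) (by
    intro z hz
    obtain ⟨y, hy, rfl⟩ := Finset.mem_image.1 hz
    exact hne (hX0 y hy)) (by
    intro z hz z' hz' c hzz
    obtain ⟨x, hx, rfl⟩ := Finset.mem_image.1 hz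
    obtain ⟨y, hy, rfl⟩ := Finset.mem_image.1 hz'
    obtain ⟨i, hi⟩ := Function.ne_iff.1 (hX0 y hy)
    have hi' : y i ≠ 0 := hi
    have h2 : x = (x i / y i) • y := by
      funext j
      apply τ.injective
      rw [Pi.smul_apply, smul_eq_mul, map_mul, map_div₀]
      have h3 := congrFun hzz i
      have h4 := congrFun hzz j
      simp only [Pi.smul_apply, smul_eq_mul] at h3 h4
      have h5 : τ (y i) ≠ 0 := (map_ne_zero τ).2 hi'
      rw [h3, h4]
      field_simp
    rw [hXp x hx y hy _ h2]) (by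
    intro z hz
    obtain ⟨y, hy, rfl⟩ := Finset.mem_image.1 hz
    obtain ⟨m, l, hml, c, hc, h2⟩ := hXpre y hy
    refine ⟨m, l, hml, τ c, (map_ne_zero τ).2 hc, ?_⟩
    rw [← hco, it_map, it_map, h2]
    funext j
    simp only [Pi.smul_apply, smul_eq_mul, map_mul]) (by
    intro z hz
    obtain ⟨y, hy, rfl⟩ := Finset.mem_image.1 hz
    exact degLe_push T τ hτ (hX0 y hy) (hXd y hy))
  rwa [Finset.card_image_of_injective _ hinj] at h1

theorem perB_scale {K : Type} [Field K] {n d B e : ℕ} {v : Idx n d → K} {c : K} (hc : c ≠ 0)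
    (h : PerB v B e) : PerB (fun i => c * v i) B e := by
  intro y hy hyB m hm hrel
  have hco : (fun i => algebraMap K (AlgebraicClosure K) (c * v i)) = fun i => algebraMap K (AlgebraicClosure K) c * algebraMap K (AlgebraicClosure K) (v i) :=
    funext fun i => map_mul _ _ _
  have hc' : algebraMap K (AlgebraicClosure K) c ≠ 0 := (map_ne_zero _).2 hc
  obtain ⟨b, hb, h1⟩ := hrel
  rw [hco] at h1
  obtain ⟨u1, hu1, h2⟩ := it_scale hc' (fun i => algebraMap K (AlgebraicClosure K) (v i)) y m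
  obtain ⟨u2, hu2, h3⟩ := it_scale hc' (fun i => algebraMap K (AlgebraicClosure K) (v i)) y e
  obtain ⟨b', hb', h4⟩ := h y hy hyB m hm ⟨u1⁻¹ * b, by
    rw [isUnit_iff_ne_zero]
    exact mul_ne_zero (inv_ne_zero hu1) hb.ne_zero, by
    rw [h2] at h1
    rw [← smul_smul, Function.iterate_zero, id_eq]
    rw [Function.iterate_zero, id_eq] at h1
    rw [← h1, smul_smul, inv_mul_cancel₀ hu1, one_smul]⟩
  refine ⟨u2 * b', ?_, ?_⟩
  · rw [isUnit_iff_ne_zero]
    exact mul_ne_zero hu2 hb'.ne_zero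
  · rw [hco, h3, h4, smul_smul]
    rfl

theorem perB_of_scale {K : Type} [Field K] {n d B e : ℕ} {v : Idx n d → K} {c : K} (hc : c ≠ 0)
    (h : PerB (fun i => c * v i) B e) : PerB v B e := by
  have h1 := perB_scale (inv_ne_zero hc) h
  have h2 : (fun i => c⁻¹ * (c * v i)) = v := funext fun i => by
    rw [inv_mul_cancel_left₀ hc]
  rwa [h2] at h1

/-- from the algebraic closure to arbitrary extensions -/
theorem fewB_any {K κ : Type} [Field K] [Field κ] [Algebra K κ] [CharZero K] (hitr : S_itr)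
    (hcnt : TaskCnt) (hfin : S_fin) {N d s B C : ℕ}
    (hd : 2 ≤ d) (v : Idx (N + 1) d → K) (hM : MonIn s (sy v))
    (h : FewB (AlgebraicClosure K) B C v) : FewB κ B C v := by
  classical
  by_contra hcon
  unfold FewB at hcon
  push Not at hcon
  obtain ⟨X, hX0, hXp, hXpre, hXd, hXc⟩ := hcon
  obtain ⟨Y, hYX, hYc⟩ := Finset.exists_subset_card_eq (Nat.succ_le_of_lt hXc)
  let e := Y.equivFinOfCardEq hYc
  have hex : ∀ x : Y, ∃ i, x.1 i ≠ 0 := fun x => Function.ne_iff.1 (hX0 x.1 (hYX x.2))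
  choose j hj using hex
  let Xp : Fin (C + 1) → Fin (N + 1) → κ := fun l =>
    ((e.symm l).1 (j (e.symm l)))⁻¹ • (e.symm l).1
  have hXp1 : ∀ l, Xp l (j (e.symm l)) = 1 := by
    intro l
    simp only [Xp, Pi.smul_apply, smul_eq_mul]
    exact inv_mul_cancel₀ (hj _)
  refine transport (K := K) (E := K) (Ω := κ) hitr hcnt hfin (fun z _ => ⟨z, rfl⟩) hd v hM Xp
    (fun l => j (e.symm l)) hXp1 ?_ ?_ ?_ h
  · intro l l' c hc
    apply e.symm.injective
    apply Subtype.ext
    apply hXp _ (hYX (e.symm l).2) _ (hYX (e.symm l').2)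
      ((e.symm l).1 (j (e.symm l)) * (c * ((e.symm l').1 (j (e.symm l')))⁻¹))
    have h1 : (e.symm l).1 = (e.symm l).1 (j (e.symm l)) • Xp l := by
      rw [smul_smul, mul_inv_cancel₀ (hj _), one_smul]
    conv_lhs => rw [h1, hc]
    rw [smul_smul, smul_smul]
    congr 1
    ring
  · intro l
    obtain ⟨m, m', hmm, c, hc, h2⟩ := hXpre _ (hYX (e.symm l).2)
    set a := ((e.symm l).1 (j (e.symm l)))⁻¹ with ha
    have ha0 : a ≠ 0 := inv_ne_zero (hj _)
    refine ⟨m, m', hmm, a ^ d ^ m' * c * (a ^ d ^ m)⁻¹, ?_, ?_⟩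
    · exact mul_ne_zero (mul_ne_zero (pow_ne_zero _ ha0) hc) (inv_ne_zero (pow_ne_zero _ ha0))
    · show (pt _)^[m'] (a • (e.symm l).1) = _ • (pt _)^[m] (a • (e.symm l).1)
      rw [it_smul (Pool.Agent.W193.UB.sy_hom _), it_smul (Pool.Agent.W193.UB.sy_hom _), h2,
        smul_smul, smul_smul]
      congr 1
      rw [mul_assoc, inv_mul_cancel₀ (pow_ne_zero _ ha0), mul_one]
  · intro l θ hθ
    obtain ⟨F, hF1, hF2, c, hc, hF3⟩ := (hXd _ (hYX (e.symm l).2)).smul (inv_ne_zero (hj (e.symm l)))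
    have h1 := hF3 (j (e.symm l))
    have h2 : (((e.symm l).1 (j (e.symm l)))⁻¹ • (e.symm l).1) (j (e.symm l)) = 1 := hXp1 l
    rw [h2, mul_one] at h1
    have h3 : ∀ i, Xp l i ∈ F := by
      intro i
      have h4 := mul_mem (inv_mem h1) (hF3 i)
      rwa [inv_mul_cancel_left₀ hc] at h4
    have h5 : IntermediateField.adjoin K (Set.range (Xp l)) ≤ F := by
      rw [IntermediateField.adjoin_le_iff]
      rintro _ ⟨i, rfl⟩
      exact h3 i
    have h6 : θ ∈ F := h5 hθ
    have h7 : IsIntegral K (⟨θ, h6⟩ : F) := IsIntegral.of_finite K _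
    have h8 : IsIntegral K θ := h7.map (IntermediateField.val F)
    refine ⟨minpoly K θ, minpoly.monic h8, ?_, minpoly.aeval K θ⟩
    have h9 := minpoly.natDegree_le (A := K) (⟨θ, h6⟩ : F)
    have h10 : minpoly K (⟨θ, h6⟩ : F) = minpoly K θ :=
      (minpoly.algebraMap_eq (algebraMap F κ).injective (⟨θ, h6⟩ : F)).symm
    rw [h10] at h9
    exact h9.trans hF2

end Pool.Agent.Y706
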