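import Pool.Agent.Y706.G11

set_option autoImplicit false

/-! Periods of points of bounded degree over function fields over number fields. -/

namespace Pool.Agent.Y706

open MvPolynomial Pool.Agent.H936R2 Pool.Agent.H927R2.RD H294UB Pool.Agent.W275.UB
  Pool.Agent.W193.UB Pool.Agent.W554.UB NumberField

theorem perK {k : Type} [Field k] [NumberField k] {ι J : Type} [Fintype ι] [Fintype J]
    (ω : Module.Basis J ℤ (𝓞 k)) {N d s : ℕ} (B : ℕ)
    (a : Idx (N + 1) d → MvPolynomial ι (𝓞 k)) (c : MvPolynomial ι (𝓞 k)) (hc : c ≠ 0)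
    (hM : MonC s c (sy a)) :
    ∃ e : ℕ, 0 < e ∧ PerB (fun i => algebraMap (MvPolynomial ι (𝓞 k))
      (FractionRing (MvPolynomial ι (𝓞 k))) (a i)) B e := by
  classical
  have : CharZero (FractionRing (MvPolynomial ι (𝓞 k))) :=
    charZero_of_injective_algebraMap (R := MvPolynomial ι (𝓞 k))
      (IsFractionRing.injective (MvPolynomial ι (𝓞 k)) (FractionRing (MvPolynomial ι (𝓞 k))))
  obtain ⟨n, hn, hdvd⟩ := norm_poly ω c hc
  obtain ⟨P₀, hP₀⟩ := W925.UB.Densp.main (ι × J) n hn (1 / 4) (by positivity)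
  obtain ⟨p, hp, hpP⟩ := exists_prime_ge P₀
  obtain ⟨q, hq, hqP⟩ := exists_prime_ge (max P₀ (p + 1))
  have hpq : p ≠ q := by
    have := (le_max_right P₀ (p + 1)).trans hqP
    omega
  obtain ⟨Wp, hWp, hRp⟩ := red p (Module.finrank ℚ k * B) (N + 1) hp
  obtain ⟨Wq, hWq, hRq⟩ := red q (Module.finrank ℚ k * B) (N + 1) hq
  set G : Set (ι × J → ℤ) := {w | ¬ (p : ℤ) ∣ eval w n ∧ ¬ (q : ℤ) ∣ eval w n} with hG
  have hnot : ¬ (∀ ε : ℝ, 0 < ε → UD ε G) := by
    intro h0
    have h1 := ((h0 (1 / 4) (by positivity)).union (hP₀ p hp hpP)).union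
      (hP₀ q hq ((le_max_left _ _).trans hqP))
    refine not_UD_univ (by norm_num : (1 / 4 + 1 / 4 + 1 / 4 : ℝ) < 1) (h1.mono ?_)
    intro w _
    by_cases h2 : (p : ℤ) ∣ eval w n
    · exact Or.inl (Or.inr h2)
    · by_cases h3 : (q : ℤ) ∣ eval w n
      · exact Or.inr h3
      · exact Or.inl (Or.inl ⟨h2, h3⟩)
  obtain ⟨U, hU, hUG⟩ := W125.UB.Exu.main (ι × J) G hnot
  have hMK : MonIn s (sy fun i => algebraMap (MvPolynomial ι (𝓞 k))
      (FractionRing (MvPolynomial ι (𝓞 k))) (a i)) := by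
    refine (hM.map (algebraMap (MvPolynomial ι (𝓞 k))
      (FractionRing (MvPolynomial ι (𝓞 k))))).monIn ?_
    rw [isUnit_iff_ne_zero, Ne, FaithfulSMul.algebraMap_eq_zero_iff]
    exact hc
  refine ⟨Wp * Wq, Nat.mul_pos hWp hWq, ?_⟩
  refine per_up (kb := AlgebraicClosure k) (psiF ω W883.UB.Dens.main hU) _ hMK
    (fun i w => cf ω a w i) (fun i => ?_) ?_
  · rw [psiF_algebraMap, rho_apply]
    rfl
  · filter_upwards [hUG] with w hw x hx hxB m hm hper
    obtain ⟨hwp, hwq⟩ := hw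
    have hm0 : eval w n ≠ 0 := by
      intro h0
      rw [h0] at hwp
      exact hwp (dvd_zero _)
    have hcw : eval (vec ω w) c ≠ 0 := by
      intro h0
      have h1 := hdvd w
      rw [h0, zero_dvd_iff] at h1
      exact hm0 (by exact_mod_cast h1)
    have hMw : MonC s (eval (vec ω w) c) (sy fun i => eval (vec ω w) (a i)) :=
      hM.map (eval (vec ω w))
    have hMon : MonIn s (sy (cf ω a w)) := by
      refine (hMw.map (algebraMap (𝓞 k) k)).monIn ?_
      rw [isUnit_iff_ne_zero, Ne, FaithfulSMul.algebraMap_eq_zero_iff]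
      exact hcw
    exact per_B (kb := AlgebraicClosure k) W405.UB.main lev hp hq hpq hRp hRq le_rfl
      (fun i => eval (vec ω w) (a i)) (eval (vec ω w) c) hMw hMon (eval w n) (hdvd w) hwp hwq hx
      hxB hm hper

theorem perRF {k : Type} [Field k] [NumberField k] {m N d s : ℕ} (B : ℕ)
    (v : Idx (N + 1) d → FractionRing (MvPolynomial (Fin m) k)) (hM : MonIn s (sy v)) :
    ∃ e : ℕ, 0 < e ∧ PerB v B e := by
  classical
  have hcz : CharZero (FractionRing (MvPolynomial (Fin m) k)) :=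
    charZero_of_injective_algebraMap (R := k) (algebraMap k _).injective
  -- integral coefficients
  obtain ⟨b, hb⟩ := IsLocalization.exist_integer_multiples_of_finite
    (nonZeroDivisors (MvPolynomial (Fin m) k)) v
  choose v₀ hv₀ using hb
  have hb0 : algebraMap (MvPolynomial (Fin m) k) (FractionRing (MvPolynomial (Fin m) k))
      (b : MvPolynomial (Fin m) k) ≠ 0 := by
    rw [Ne, FaithfulSMul.algebraMap_eq_zero_iff]
    exact nonZeroDivisors.coe_ne_zero b
  have hv₀' : (fun i => algebraMap (MvPolynomial (Fin m) k)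
      (FractionRing (MvPolynomial (Fin m) k)) (v₀ i)) = fun i =>
      algebraMap (MvPolynomial (Fin m) k) (FractionRing (MvPolynomial (Fin m) k))
      (b : MvPolynomial (Fin m) k) * v i := by
    funext i
    rw [hv₀ i, Algebra.smul_def]
  have hM₀ : MonIn s (sy fun i => algebraMap (MvPolynomial (Fin m) k)
      (FractionRing (MvPolynomial (Fin m) k)) (v₀ i)) := by
    rw [hv₀']
    exact monIn_scale hb0 hM
  obtain ⟨c, hc, hci⟩ := exists_mult v₀
  set e : ℕ := Finset.univ.sup fun i => (v₀ i).totalDegree with he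
  have hve : ∀ i, (v₀ i).totalDegree ≤ e := fun i =>
    Finset.le_sup (f := fun i => (v₀ i).totalDegree) (Finset.mem_univ i)
  set A : Fin m → MvPolynomial (Fin (m + 1)) (𝓞 k) := fun l => X l.succ with hA
  set B₀ : MvPolynomial (Fin (m + 1)) (𝓞 k) := X 0 with hB₀
  set a : Idx (N + 1) d → MvPolynomial (Fin (m + 1)) (𝓞 k) := fun i => homm A B₀ c e (v₀ i) with ha
  have hB₀0 : B₀ ≠ 0 := MvPolynomial.X_ne_zero 0
  have hBK : algebraMap (MvPolynomial (Fin (m + 1)) (𝓞 k)) (KK k (Fin (m + 1))) B₀ ≠ 0 := by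
    rw [Ne, FaithfulSMul.algebraMap_eq_zero_iff]
    exact hB₀0
  set u : KK k (Fin (m + 1)) := kap c *
    algebraMap (MvPolynomial (Fin (m + 1)) (𝓞 k)) (KK k (Fin (m + 1))) B₀ ^ e with hu
  have hu0 : u ≠ 0 := mul_ne_zero ((map_ne_zero kap).2 hc) (pow_ne_zero _ hBK)
  have haK : (fun i => algebraMap (MvPolynomial (Fin (m + 1)) (𝓞 k)) (KK k (Fin (m + 1))) (a i)) =
      fun i => u * TM k m (algebraMap (MvPolynomial (Fin m) k)
        (FractionRing (MvPolynomial (Fin m) k)) (v₀ i)) := by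
    funext i
    rw [ha]
    simp only
    rw [homm_map kap (algebraMap (MvPolynomial (Fin (m + 1)) (𝓞 k)) (KK k (Fin (m + 1)))) kap_spec
      hBK (v₀ i) (hve i) (hci i), TM_apply, aeval_kap]
    rfl
  have hMT : MonIn s (sy fun i =>
      algebraMap (MvPolynomial (Fin (m + 1)) (𝓞 k)) (KK k (Fin (m + 1))) (a i)) := by
    rw [haK]
    exact monIn_scale hu0 (monIn_map (TM k m) hM₀)
  obtain ⟨s', c', hc', hMC⟩ := exists_monC
    ((algebraMap (KK k (Fin (m + 1))) (AlgebraicClosure (KK k (Fin (m + 1))))).comp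
      (algebraMap (MvPolynomial (Fin (m + 1)) (𝓞 k)) (KK k (Fin (m + 1))))) a (by
      intro x hx
      exact no_zero _ (monIn_map (algebraMap (KK k (Fin (m + 1)))
        (AlgebraicClosure (KK k (Fin (m + 1))))) hMT) x hx)
  have hc'0 : c' ≠ 0 := by
    rintro rfl
    exact hc' (map_zero _)
  obtain ⟨e₁, he₁, hper⟩ := perK (NumberField.RingOfIntegers.basis k) B a c' hc'0 hMC
  refine ⟨e₁, he₁, ?_⟩
  have h1 : PerB (fun i => u * TM k m (algebraMap (MvPolynomial (Fin m) k)
      (FractionRing (MvPolynomial (Fin m) k)) (v₀ i))) B e₁ := by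
    rw [← haK]
    exact hper
  have h2 := perB_sub (TM k m) hM₀ (perB_of_scale hu0 h1)
  rw [hv₀'] at h2
  exact perB_of_scale hb0 h2

end Pool.Agent.Y706
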