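import Pool.Agent.Y706.G12

set_option autoImplicit false

/-! Finiteness of the set of the preperiodic points of bounded degree over finitely generated
purely transcendental extensions of number fields. -/

namespace Pool.Agent.Y706

open MvPolynomial Pool.Agent.H936R2 Pool.Agent.H927R2.RD H294UB Pool.Agent.W275.UB
  Pool.Agent.W193.UB Pool.Agent.W554.UB NumberField

theorem np_of {K : Type} [Field K] [CharZero K] (hP : Places K (AlgebraicClosure K))
    (hper : ∀ (N d s B : ℕ) (v : Idx (N + 1) d → K), MonIn s (sy v) →
      ∃ e : ℕ, 0 < e ∧ PerB v B e) : NP K := by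
  intro N d s v hd hM B
  obtain ⟨e, he, h1⟩ := hper N d s B v hM
  obtain ⟨C, hC⟩ := stepNP (H294UB.taskCnt H294UB.taskFib) hP hd he v hM h1
  exact ⟨C, fun κ _ _ => fewB_any W405.UB.main (H294UB.taskCnt H294UB.taskFib)
    W125.UB.FinT.fin_main hd v hM hC⟩

theorem np_sub {K E : Type} [Field K] [CharZero K] [Field E] (T : K →+* E) (h : NP E) : NP K := by
  intro N d s v hd hM B
  obtain ⟨C, hC⟩ := h N d s (fun i => T (v i)) hd (monIn_map T hM) B
  exact ⟨C, fun κ _ _ => fewB_any W405.UB.main (H294UB.taskCnt H294UB.taskFib)
    W125.UB.FinT.fin_main hd v hM (fewB_sub T (hC (AlgebraicClosure E)))⟩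

section

variable {k : Type} [Field k] [NumberField k]

instance cz_RF (m : ℕ) : CharZero (FractionRing (MvPolynomial (Fin m) k)) :=
  charZero_of_injective_algebraMap (R := k) (algebraMap k _).injective

theorem np_nf : NP k := by
  refine np_of (places_nf fun F _ _ => np_finite F) ?_
  intro N d s B v hM
  obtain ⟨e, he, h⟩ := perRF (k := k) (m := 0) B
    (fun i => algebraMap k (FractionRing (MvPolynomial (Fin 0) k)) (v i))
    (monIn_map (algebraMap k (FractionRing (MvPolynomial (Fin 0) k))) hM)
  exact ⟨e, he, perB_sub (algebraMap k (FractionRing (MvPolynomial (Fin 0) k))) hM h⟩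

/-- the inclusion of the rational functions in `m + 1` variables in the rational functions in one
variable over the rational functions in `m` variables -/
noncomputable def g1 (k : Type) [Field k] (m : ℕ) : MvPolynomial (Fin (m + 1)) k →+*
    FractionRing (Polynomial (FractionRing (MvPolynomial (Fin m) k))) :=
  ((algebraMap (Polynomial (FractionRing (MvPolynomial (Fin m) k)))
    (FractionRing (Polynomial (FractionRing (MvPolynomial (Fin m) k))))).comp
    (Polynomial.mapRingHom (algebraMap (MvPolynomial (Fin m) k)
      (FractionRing (MvPolynomial (Fin m) k))))).comp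
    (MvPolynomial.finSuccEquiv k m : MvPolynomial (Fin (m + 1)) k →+*
      Polynomial (MvPolynomial (Fin m) k))

lemma g1_inj (k : Type) [Field k] (m : ℕ) : Function.Injective (g1 k m) := by
  unfold g1
  have h1 : Function.Injective (Polynomial.mapRingHom (algebraMap (MvPolynomial (Fin m) k)
      (FractionRing (MvPolynomial (Fin m) k)))) :=
    Polynomial.map_injective _ (IsFractionRing.injective (MvPolynomial (Fin m) k)
      (FractionRing (MvPolynomial (Fin m) k)))
  have h2 : Function.Injective (algebraMap (Polynomial (FractionRing (MvPolynomial (Fin m) k)))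
      (FractionRing (Polynomial (FractionRing (MvPolynomial (Fin m) k))))) :=
    IsFractionRing.injective (Polynomial (FractionRing (MvPolynomial (Fin m) k)))
      (FractionRing (Polynomial (FractionRing (MvPolynomial (Fin m) k))))
  exact (h2.comp h1).comp (MvPolynomial.finSuccEquiv k m).injective

noncomputable def T1 (k : Type) [Field k] (m : ℕ) : FractionRing (MvPolynomial (Fin (m + 1)) k) →+*
    FractionRing (Polynomial (FractionRing (MvPolynomial (Fin m) k))) :=
  IsFractionRing.lift (g1_inj k m)

lemma T1_apply (k : Type) [Field k] (m : ℕ) (x : MvPolynomial (Fin (m + 1)) k) :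
    T1 k m (algebraMap _ _ x) = g1 k m x := IsFractionRing.lift_algebraMap (g1_inj k m) x

lemma T1_surj (k : Type) [Field k] (m : ℕ) : Function.Surjective (T1 k m) := by
  have hC0 : ∀ a : MvPolynomial (Fin m) k, algebraMap _ _ (Polynomial.C
      (algebraMap (MvPolynomial (Fin m) k) (FractionRing (MvPolynomial (Fin m) k)) a)) ∈
      (T1 k m).fieldRange := by
    intro a
    refine ⟨algebraMap _ _ ((MvPolynomial.finSuccEquiv k m).symm (Polynomial.C a)), ?_⟩
    rw [T1_apply]
    simp [g1]
  have hX : algebraMap (Polynomial (FractionRing (MvPolynomial (Fin m) k)))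
      (FractionRing (Polynomial (FractionRing (MvPolynomial (Fin m) k)))) Polynomial.X ∈
      (T1 k m).fieldRange := by
    refine ⟨algebraMap _ _ ((MvPolynomial.finSuccEquiv k m).symm Polynomial.X), ?_⟩
    rw [T1_apply]
    simp [g1]
  have hC : ∀ f : FractionRing (MvPolynomial (Fin m) k),
      algebraMap (Polynomial (FractionRing (MvPolynomial (Fin m) k)))
      (FractionRing (Polynomial (FractionRing (MvPolynomial (Fin m) k)))) (Polynomial.C f) ∈
      (T1 k m).fieldRange := by
    intro f
    obtain ⟨a, b, _, rfl⟩ := IsFractionRing.div_surjective (A := MvPolynomial (Fin m) k) f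
    have h1 : algebraMap (Polynomial (FractionRing (MvPolynomial (Fin m) k)))
        (FractionRing (Polynomial (FractionRing (MvPolynomial (Fin m) k)))) (Polynomial.C
        (algebraMap (MvPolynomial (Fin m) k) (FractionRing (MvPolynomial (Fin m) k)) a /
          algebraMap (MvPolynomial (Fin m) k) (FractionRing (MvPolynomial (Fin m) k)) b)) =
        ((algebraMap (Polynomial (FractionRing (MvPolynomial (Fin m) k)))
        (FractionRing (Polynomial (FractionRing (MvPolynomial (Fin m) k))))).comp Polynomial.C)
        (algebraMap (MvPolynomial (Fin m) k) (FractionRing (MvPolynomial (Fin m) k)) a /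
          algebraMap (MvPolynomial (Fin m) k) (FractionRing (MvPolynomial (Fin m) k)) b) := rfl
    rw [h1, map_div₀]
    exact div_mem (hC0 a) (hC0 b)
  have hP : ∀ P : Polynomial (FractionRing (MvPolynomial (Fin m) k)),
      algebraMap (Polynomial (FractionRing (MvPolynomial (Fin m) k)))
      (FractionRing (Polynomial (FractionRing (MvPolynomial (Fin m) k)))) P ∈
      (T1 k m).fieldRange := by
    intro P
    induction P using Polynomial.induction_on' with
    | add p q hp hq => rw [map_add]; exact add_mem hp hq
    | monomial n f =>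
      rw [← Polynomial.C_mul_X_pow_eq_monomial, map_mul, map_pow]
      exact mul_mem (hC f) (pow_mem hX n)
  intro z
  obtain ⟨a, b, _, rfl⟩ := IsFractionRing.div_surjective
    (A := Polynomial (FractionRing (MvPolynomial (Fin m) k))) z
  exact div_mem (hP a) (hP b)

noncomputable def T2 (k : Type) [Field k] (m : ℕ) :
    FractionRing (Polynomial (FractionRing (MvPolynomial (Fin m) k))) →+*
    FractionRing (MvPolynomial (Fin (m + 1)) k) :=
  ((RingEquiv.ofBijective (T1 k m) ⟨(T1 k m).injective, T1_surj k m⟩).symm : _ →+* _)

/-- **Finiteness over rational function fields.** -/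
theorem np_RF (m : ℕ) : NP (FractionRing (MvPolynomial (Fin m) k)) := by
  induction m with
  | zero =>
    have hinj : Function.Injective ((MvPolynomial.isEmptyAlgEquiv k (Fin 0) :
        MvPolynomial (Fin 0) k →+* k)) := (MvPolynomial.isEmptyAlgEquiv k (Fin 0)).injective
    exact np_sub (IsFractionRing.lift hinj) np_nf
  | succ m ih =>
    have hcz : CharZero (FractionRing (Polynomial (FractionRing (MvPolynomial (Fin m) k)))) :=
      charZero_of_injective_ringHom (f := (algebraMap
        (Polynomial (FractionRing (MvPolynomial (Fin m) k)))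
        (FractionRing (Polynomial (FractionRing (MvPolynomial (Fin m) k))))).comp Polynomial.C)
        (RingHom.injective _)
    refine np_sub (T1 k m) (np_of (places_fun ih) ?_)
    intro N d s B v hM
    obtain ⟨e, he, h⟩ := perRF (k := k) (m := m + 1) B (fun i => T2 k m (v i))
      (monIn_map (T2 k m) hM)
    exact ⟨e, he, perB_sub (T2 k m) hM h⟩

end

end Pool.Agent.Y706
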