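import Pool.Agent.Y706.G13

set_option autoImplicit false

/-! Points of the generic member give points of the special members. -/

namespace Pool.Agent.Y706

open MvPolynomial Pool.Agent.H936R2 Pool.Agent.H927R2.RD H294UB Pool.Agent.W275.UB
  Pool.Agent.W193.UB Pool.Agent.W554.UB NumberField

section

variable {α : Type} {U : Ultrafilter α} {K k kb : Type} [Field K] [CharZero K] [Field k]
    [Field kb] [Algebra k kb] (ψ : K →+* UP U k) (τ : AlgebraicClosure K →+* UP U kb)
    (hτ : ∀ c, τ (algebraMap K (AlgebraicClosure K) c) = jU U (ψ c))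

include hτ in
/-- a point as a family of points -/
lemma fam {n B : ℕ} {z : Fin n → AlgebraicClosure K} {i1 : Fin n} (hz1 : z i1 = 1)
    (hzB : DegLe K B z) : ∃ x : α → Fin n → kb, (∀ j, τ (z j) = up U kb fun w => x w j) ∧
      (∀ᶠ w in (U : Filter α), DegLe k B (x w)) ∧ ∀ᶠ w in (U : Filter α), x w i1 = 1 := by
  classical
  obtain ⟨θ, g, hh, hg, hgB, hgθ, hhθ⟩ := exists_prim_elt hzB hz1
  obtain ⟨b, hb⟩ := up_surj (U := U) (k := kb) (τ θ)
  obtain ⟨G, hG, hGb⟩ := polyfam_monic (kb := kb) ψ g hg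
  choose H hH using fun j => polyfam (kb := kb) ψ (hh j)
  set x : α → Fin n → kb := fun w j => Polynomial.aeval (b w) (H j w) with hx
  have hτP : ∀ P : Polynomial K, τ (Polynomial.aeval θ P) =
      P.eval₂ ((jU (kb := kb) U).comp ψ) (up U kb b) := by
    intro P
    rw [hb, Polynomial.aeval_def, Polynomial.hom_eval₂]
    congr 1
    exact RingHom.ext hτ
  have hτz : ∀ j, τ (z j) = up U kb fun w => x w j := by
    intro j
    rw [← hhθ j, hτP, hH]
  have hGw : ∀ᶠ w in (U : Filter α), Polynomial.aeval (b w) (G w) = 0 := by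
    have h1 := hτP g
    rw [hgθ, map_zero, hGb] at h1
    exact up_eq_zero.1 h1.symm
  refine ⟨x, hτz, ?_, ?_⟩
  · filter_upwards [hGw] with w hw
    obtain ⟨h1, h2⟩ := adj_deg (hG w).1 hw
    refine ⟨IntermediateField.adjoin k {b w}, h1, h2.trans ((hG w).2.le.trans hgB), 1, one_ne_zero,
      fun j => ?_⟩
    rw [one_mul]
    exact IntermediateField.algebra_adjoin_le_adjoin k {b w}
      (Polynomial.aeval_mem_adjoin_singleton k (b w))
  · have h1 := hτz i1
    rw [hz1, map_one, ← map_one (up U kb)] at h1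
    have h2 := up_eq.1 h1
    filter_upwards [h2] with w hw
    exact hw.symm

include hτ in
/-- preperiodic points as families of preperiodic points -/
lemma fam_pre {n d : ℕ} {v : Idx n d → K} {vw : Idx n d → α → k}
    (hvw : ∀ i, ψ (v i) = up U k (vw i)) {z : Fin n → AlgebraicClosure K} {x : α → Fin n → kb}
    (hx : ∀ j, τ (z j) = up U kb fun w => x w j)
    (hpre : Pre (sy fun i => algebraMap K (AlgebraicClosure K) (v i)) z) :
    ∀ᶠ w in (U : Filter α), Pre (sy fun i => algebraMap k kb (vw i w)) (x w) := by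
  have hcoef : (fun i => τ (algebraMap K (AlgebraicClosure K) (v i))) =
      fun i => up U kb fun w => algebraMap k kb (vw i w) := by
    funext i
    rw [hτ, hvw, jU_up]
  have hit : ∀ l : ℕ, (fun j => τ ((pt (sy fun i => algebraMap K (AlgebraicClosure K)
      (v i)))^[l] z j)) =
      fun j => up U kb fun w => (pt (sy fun i => algebraMap k kb (vw i w)))^[l] (x w) j := by
    intro l
    have h1 := it_map τ (fun i => algebraMap K (AlgebraicClosure K) (v i)) z l
    rw [hcoef] at h1
    let V : Idx n d → α → kb := fun i w => algebraMap k kb (vw i w)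
    let Y : Fin n → α → kb := fun j w => x w j
    have h2 := it_map (up U kb) V Y l
    have h3 : (fun j => τ (z j)) = fun j => (up U kb) (Y j) := funext hx
    rw [h3] at h1
    have h4 : (fun j => τ ((pt (sy fun i => algebraMap K (AlgebraicClosure K) (v i)))^[l] z j)) =
        fun j => (up U kb) ((pt (sy V))^[l] Y j) := h1.symm.trans h2
    rw [h4]
    funext j
    congr 1
    funext w
    have h5 := it_map (Pi.evalRingHom (fun _ : α => kb) w) V Y l
    exact (congrFun h5 j).symm
  obtain ⟨m, l, hml, c, hc, h⟩ := hpre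
  obtain ⟨cw, hcw⟩ := up_surj (U := U) (k := kb) (τ c)
  have hcw0 : ∀ᶠ w in (U : Filter α), cw w ≠ 0 := by
    refine Ultrafilter.eventually_not.2 fun h1 => ?_
    have h2 : up U kb cw = 0 := up_eq_zero.2 h1
    rw [hcw, map_eq_zero] at h2
    exact hc h2
  have hrel : ∀ᶠ w in (U : Filter α), ∀ j,
      (pt (sy fun i => algebraMap k kb (vw i w)))^[l] (x w) j =
      cw w * (pt (sy fun i => algebraMap k kb (vw i w)))^[m] (x w) j := by
    rw [Filter.eventually_all]
    intro j
    have h1 := congrFun (hit l) j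
    have h2 := congrFun (hit m) j
    rw [h] at h1
    simp only [Pi.smul_apply, smul_eq_mul, map_mul] at h1
    rw [h2, ← hcw, ← map_mul] at h1
    have h3 := up_eq.1 h1
    filter_upwards [h3] with w hw
    exact hw.symm
  filter_upwards [hcw0, hrel] with w h1 h2
  refine ⟨m, l, hml, cw w, h1, ?_⟩
  funext j
  rw [h2 j]
  rfl

include hτ in
/-- points of the generic member give points of almost all members -/
theorem lift_up {n d B C : ℕ} {v : Idx n d → K} {vw : Idx n d → α → k}
    (hvw : ∀ i, ψ (v i) = up U k (vw i)) (h : ¬ FewB (AlgebraicClosure K) B C v) :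
    ∀ᶠ w in (U : Filter α), ¬ FewB kb B C fun i => vw i w := by
  classical
  unfold FewB at h
  push Not at h
  obtain ⟨X, hX0, hXp, hXpre, hXd, hXc⟩ := h
  have hex : ∀ y : X, ∃ i, y.1 i ≠ 0 := fun y => Function.ne_iff.1 (hX0 y.1 y.2)
  choose i0 hi0 using hex
  have hfam : ∀ y : X, ∃ x : α → Fin n → kb,
      (∀ j, τ (((y.1 (i0 y))⁻¹ • y.1) j) = up U kb fun w => x w j) ∧
      (∀ᶠ w in (U : Filter α), DegLe k B (x w)) ∧ ∀ᶠ w in (U : Filter α), x w (i0 y) = 1 := by
    intro y
    refine fam ψ τ hτ ?_ ((hXd y.1 y.2).smul (inv_ne_zero (hi0 y)))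
    rw [Pi.smul_apply, smul_eq_mul, inv_mul_cancel₀ (hi0 y)]
  choose x hx hxd hx1 using hfam
  have hpre : ∀ y : X, ∀ᶠ w in (U : Filter α),
      Pre (sy fun i => algebraMap k kb (vw i w)) (x y w) := by
    intro y
    refine fam_pre ψ τ hτ hvw (hx y) ?_
    obtain ⟨m, l, hml, c, hc, h1⟩ := hXpre y.1 y.2
    have hs := Pool.Agent.W193.UB.sy_hom (R := AlgebraicClosure K)
      fun i => algebraMap K (AlgebraicClosure K) (v i)
    have ha := inv_ne_zero (hi0 y)
    refine ⟨m, l, hml, ((y.1 (i0 y))⁻¹) ^ d ^ l * c * (((y.1 (i0 y))⁻¹) ^ d ^ m)⁻¹,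
      mul_ne_zero (mul_ne_zero (pow_ne_zero _ ha) hc) (inv_ne_zero (pow_ne_zero _ ha)), ?_⟩
    rw [it_smul hs, it_smul hs, h1, smul_smul, smul_smul]
    congr 1
    rw [mul_assoc, inv_mul_cancel₀ (pow_ne_zero _ ha), mul_one]
  have hne : ∀ y y' : X, y ≠ y' → ∀ᶠ w in (U : Filter α), ¬ ∃ c : kb, x y w = c • x y' w := by
    intro y y' hyy
    have h1 : ¬ ∀ᶠ w in (U : Filter α), ∀ j, x y w j = x y w (i0 y') * x y' w j := by
      intro h2
      apply hyy
      apply Subtype.ext
      have h3 : ∀ j, ((y.1 (i0 y))⁻¹ • y.1) j =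
          ((y.1 (i0 y))⁻¹ • y.1) (i0 y') * ((y'.1 (i0 y'))⁻¹ • y'.1) j := by
        intro j
        apply τ.injective
        rw [map_mul, hx, hx, hx, ← map_mul]
        refine up_eq.2 ?_
        filter_upwards [h2] with w hw
        exact hw j
      apply hXp y.1 y.2 y'.1 y'.2 (y.1 (i0 y) * ((y.1 (i0 y))⁻¹ * y.1 (i0 y') * (y'.1 (i0 y'))⁻¹))
      funext j
      have h4 := h3 j
      simp only [Pi.smul_apply, smul_eq_mul] at h4 ⊢
      have h5 := hi0 y
      calc y.1 j = y.1 (i0 y) * ((y.1 (i0 y))⁻¹ * y.1 j) := by field_simp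
        _ = _ := by rw [h4]; ring
    have h2 := Ultrafilter.eventually_not.2 h1
    filter_upwards [h2, hx1 y, hx1 y'] with w hw hw1 hw2
    rintro ⟨c, hc⟩
    apply hw
    intro j
    have h3 : x y w (i0 y') = c := by
      rw [hc, Pi.smul_apply, smul_eq_mul, hw2, mul_one]
    rw [h3]
    exact congrFun hc j
  have hpre' := (Filter.eventually_all (l := (U : Filter α))).2 hpre
  have hxd' := (Filter.eventually_all (l := (U : Filter α))).2 hxd
  have hx1' := (Filter.eventually_all (l := (U : Filter α))).2 hx1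
  have hne' : ∀ᶠ w in (U : Filter α), ∀ y y' : X, y ≠ y' → ¬ ∃ c : kb, x y w = c • x y' w := by
    rw [Filter.eventually_all]
    intro y
    rw [Filter.eventually_all]
    intro y'
    by_cases h1 : y = y'
    · exact Filter.Eventually.of_forall fun w h2 => absurd h1 h2
    · filter_upwards [hne y y' h1] with w hw _
      exact hw
  filter_upwards [hpre', hxd', hx1', hne'] with w h1 h2 h3 h4 hfew
  have hinj : Function.Injective fun y : X => x y w := by
    intro y y' hyy
    by_contra hne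
    exact h4 y y' hne ⟨1, by rw [one_smul]; exact hyy⟩
  have h5 := hfew (Finset.univ.image fun y : X => x y w) (by
    intro z hz
    obtain ⟨y, _, rfl⟩ := Finset.mem_image.1 hz
    intro h0
    have := h3 y
    rw [h0] at this
    exact zero_ne_one this) (by
    intro z hz z' hz' c hzz
    obtain ⟨y, _, rfl⟩ := Finset.mem_image.1 hz
    obtain ⟨y', _, rfl⟩ := Finset.mem_image.1 hz'
    by_cases hyy : y = y'
    · rw [hyy]
    · exact absurd ⟨c, hzz⟩ (h4 y y' hyy)) (by
    intro z hz
    obtain ⟨y, _, rfl⟩ := Finset.mem_image.1 hz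
    exact h1 y) (by
    intro z hz
    obtain ⟨y, _, rfl⟩ := Finset.mem_image.1 hz
    exact h2 y)
  rw [Finset.card_image_of_injective _ hinj, Finset.card_univ, Fintype.card_coe] at h5
  omega

end

theorem lowerB {k : Type} [Field k] [NumberField k] {ι J : Type} [Fintype ι] [Fintype J]
    (ω : Module.Basis J ℤ (𝓞 k)) (kb : Type) [Field kb] [Algebra k kb] [IsAlgClosed kb]
    {n d B C : ℕ} (a : Idx n d → MvPolynomial ι (𝓞 k))
    (h : ¬ FewB (AlgebraicClosure (FractionRing (MvPolynomial ι (𝓞 k)))) B C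
      (fun i => algebraMap (MvPolynomial ι (𝓞 k)) (FractionRing (MvPolynomial ι (𝓞 k))) (a i))) :
    D0 {w : ι × J → ℤ | FewB kb B C (cf ω a w)} := by
  classical
  have : CharZero (FractionRing (MvPolynomial ι (𝓞 k))) :=
    charZero_of_injective_algebraMap (R := MvPolynomial ι (𝓞 k))
      (IsFractionRing.injective (MvPolynomial ι (𝓞 k)) (FractionRing (MvPolynomial ι (𝓞 k))))
  by_contra hcon
  obtain ⟨U, hU, hUG⟩ := W125.UB.Exu.main (ι × J) _ hcon
  let ψ : FractionRing (MvPolynomial ι (𝓞 k)) →+* UP U k := psiF ω W883.UB.Dens.main hU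
  let iO : Algebra (FractionRing (MvPolynomial ι (𝓞 k))) (UP U kb) :=
    ((jU (kb := kb) U).comp ψ).toAlgebra
  have hac : IsAlgClosed (UP U kb) := up_closed
  let τ : AlgebraicClosure (FractionRing (MvPolynomial ι (𝓞 k)))
    →ₐ[FractionRing (MvPolynomial ι (𝓞 k))] UP U kb := IsAlgClosed.lift
  have h1 := lift_up (kb := kb) ψ (τ : _ →+* UP U kb) (fun c => τ.commutes c)
    (vw := fun i w => cf ω a w i) (fun i => by
      rw [psiF_algebraMap, rho_apply]
      rfl) h
  have h2 : ∀ᶠ w in (U : Filter (ι × J → ℤ)), FewB kb B C (cf ω a w) := hUG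
  obtain ⟨w, hw1, hw2⟩ := (h1.and h2).exists
  exact hw1 hw2

end Pool.Agent.Y706
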