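import Pool.Agent.Y706.G14

set_option autoImplicit false

/-! The set of the preperiodic points of bounded degree in projective space. -/

namespace Pool.Agent.Y706

open MvPolynomial Pool.Agent.H936R2 Pool.Agent.H927R2.RD H294UB Pool.Agent.W275.UB
  Pool.Agent.W193.UB Pool.Agent.W554.UB NumberField LinearAlgebra.Projectivization

section defs

variable {K : Type} [Field K] {n : ℕ}

/-- the image of a vector -/
noncomputable def imgP (F : Fin n → MvPolynomial (Fin n) K) (x : Fin n → AlgebraicClosure K) :
    Fin n → AlgebraicClosure K := fun i => aeval x (F i)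

/-- the orbit of a point, as a set of lines -/
def orbP (F : Fin n → MvPolynomial (Fin n) K) (x : Fin n → AlgebraicClosure K) :
    Set (Submodule (AlgebraicClosure K) (Fin n → AlgebraicClosure K)) :=
  Set.range fun j : ℕ => Submodule.span (AlgebraicClosure K) {(imgP F)^[j] x}

/-- the degree of a point -/
noncomputable def degP (K : Type) [Field K] {n : ℕ} (x : Fin n → AlgebraicClosure K) : ℕ :=
  Module.finrank K (IntermediateField.adjoin K (Set.range fun ij : Fin n × Fin n =>
    x ij.1 / x ij.2))

/-- the preperiodic points of degree at most `B` -/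
def preP (F : Fin n → MvPolynomial (Fin n) K) (B : ℕ) :
    Set (ℙ (AlgebraicClosure K) (Fin n → AlgebraicClosure K)) :=
  {p | (orbP F p.rep).Finite ∧ degP K p.rep ≤ B}

/-- the forms have no common zero -/
def MorP (F : Fin n → MvPolynomial (Fin n) K) : Prop :=
  ∀ x : Fin n → AlgebraicClosure K, (∀ i, aeval x (F i) = 0) → x = 0

end defs

section

variable {K : Type} [Field K] {n d : ℕ}

lemma imgP_sy (v : Idx n d → K) :
    imgP (sy v) = pt (sy fun i => algebraMap K (AlgebraicClosure K) (v i)) := by
  funext x i
  show aeval x (sy v i) = eval x (sy (fun i => algebraMap K (AlgebraicClosure K) (v i)) i)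
  rw [← Pool.Agent.W193.UB.map_sy, aeval_def, eval_map]

lemma orb_iff {s : ℕ} {v : Idx n d → K} (hM : MonIn s (sy v)) {x : Fin n → AlgebraicClosure K}
    (hx : x ≠ 0) : (orbP (sy v) x).Finite ↔
      Pre (sy fun i => algebraMap K (AlgebraicClosure K) (v i)) x := by
  have hML : MonIn s (sy fun i => algebraMap K (AlgebraicClosure K) (v i)) := monIn_map _ hM
  have hs := Pool.Agent.W193.UB.sy_hom (R := AlgebraicClosure K)
    fun i => algebraMap K (AlgebraicClosure K) (v i)
  unfold orbP
  rw [imgP_sy]
  set P := sy fun i => algebraMap K (AlgebraicClosure K) (v i) with hP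
  have hne : ∀ j, (pt P)^[j] x ≠ 0 := fun j => iter_ne_zero _ hML x hx j
  constructor
  · intro hfin
    have h1 : ¬ Function.Injective fun j : ℕ =>
        Submodule.span (AlgebraicClosure K) {(pt P)^[j] x} := by
      intro hinj
      exact Set.infinite_range_of_injective hinj hfin
    have h2 : ∃ m l : ℕ, m < l ∧ Submodule.span (AlgebraicClosure K) {(pt P)^[m] x} =
        Submodule.span (AlgebraicClosure K) {(pt P)^[l] x} := by
      unfold Function.Injective at h1
      push Not at h1
      obtain ⟨m, l, h3, h4⟩ := h1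
      rcases lt_or_gt_of_ne h4 with h5 | h5
      · exact ⟨m, l, h5, h3⟩
      · exact ⟨l, m, h5, h3.symm⟩
    obtain ⟨m, l, hml, h3⟩ := h2
    have h4 : (pt P)^[l] x ∈ Submodule.span (AlgebraicClosure K) {(pt P)^[m] x} := by
      rw [h3]
      exact Submodule.mem_span_singleton_self _
    obtain ⟨c, hc⟩ := Submodule.mem_span_singleton.1 h4
    refine ⟨m, l, hml, c, ?_, hc.symm⟩
    rintro rfl
    rw [zero_smul] at hc
    exact hne l hc.symm
  · rintro ⟨m, l, hml, c, hc, h⟩
    have hstep : ∀ i, Submodule.span (AlgebraicClosure K) {(pt P)^[i + l] x} =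
        Submodule.span (AlgebraicClosure K) {(pt P)^[i + m] x} := by
      intro i
      rw [Function.iterate_add_apply, h, it_smul hs, Function.iterate_add_apply]
      exact Submodule.span_singleton_smul_eq (isUnit_iff_ne_zero.2 (pow_ne_zero _ hc)) _
    refine (Set.Finite.image (fun j => Submodule.span (AlgebraicClosure K) {(pt P)^[j] x})
      (Set.finite_lt_nat l)).subset ?_
    rintro _ ⟨j, rfl⟩
    induction j using Nat.strong_induction_on with
    | _ j ih =>
      by_cases hj : j < l
      · exact ⟨j, hj, rfl⟩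
      · obtain ⟨t, rfl⟩ := Nat.exists_eq_add_of_le (Nat.le_of_not_lt hj)
        have h1 := ih (t + m) (by omega)
        have h2 := hstep t
        rw [Nat.add_comm t l] at h2
        simp only
        rw [h2]
        exact h1

lemma deg_iff {x : Fin n → AlgebraicClosure K} (hx : x ≠ 0) {B : ℕ} :
    degP K x ≤ B ↔ DegLe K B x := by
  unfold degP
  constructor
  · intro h
    obtain ⟨i0, hi0⟩ := Function.ne_iff.1 hx
    refine ⟨IntermediateField.adjoin K (Set.range fun ij : Fin n × Fin n => x ij.1 / x ij.2), ?_,
      h, (x i0)⁻¹, inv_ne_zero hi0, fun j => ?_⟩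
    · have : Finite (Set.range fun ij : Fin n × Fin n => x ij.1 / x ij.2) :=
        (Set.finite_range _).to_subtype
      exact IntermediateField.finiteDimensional_adjoin fun z _ =>
        (Algebra.IsAlgebraic.isAlgebraic z).isIntegral
    · refine IntermediateField.subset_adjoin _ _ ⟨(j, i0), ?_⟩
      simp only
      rw [div_eq_mul_inv, mul_comm]
  · rintro ⟨E, hE1, hE2, c, hc, hE3⟩
    have h1 : IntermediateField.adjoin K (Set.range fun ij : Fin n × Fin n => x ij.1 / x ij.2) ≤
        E := by
      rw [IntermediateField.adjoin_le_iff]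
      rintro _ ⟨ij, rfl⟩
      have h2 := div_mem (hE3 ij.1) (hE3 ij.2)
      rwa [mul_div_mul_left _ _ hc] at h2
    exact (IntermediateField.finrank_le_of_le_right h1).trans hE2

lemma few_iff {s : ℕ} {v : Idx n d → K} (hM : MonIn s (sy v)) (B C : ℕ) :
    FewB (AlgebraicClosure K) B C v ↔ (preP (sy v) B).encard ≤ (C : ℕ∞) := by
  classical
  have hs := Pool.Agent.W193.UB.sy_hom (R := AlgebraicClosure K)
    fun i => algebraMap K (AlgebraicClosure K) (v i)
  constructor
  · intro h
    by_contra hcon
    push Not at hcon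
    obtain ⟨T, hTs, hT⟩ := Set.exists_subset_encard_eq (Order.add_one_le_of_lt hcon)
    have hTf : T.Finite := by
      apply Set.finite_of_encard_eq_coe (k := C + 1)
      rw [hT]
      norm_cast
    have hTc : hTf.toFinset.card = C + 1 := by
      have h1 := hTf.encard_eq_coe_toFinset_card
      rw [hT] at h1
      exact_mod_cast h1.symm
    have hinj : Set.InjOn (fun p : ℙ (AlgebraicClosure K) (Fin n → AlgebraicClosure K) => p.rep)
        (hTf.toFinset : Set _) := by
      intro p _ q _ hpq
      simp only at hpq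
      rw [← p.mk_rep, ← q.mk_rep]
      congr 1
    have h2 := h (hTf.toFinset.image fun p => p.rep) (by
      intro x hx
      obtain ⟨p, _, rfl⟩ := Finset.mem_image.1 hx
      exact p.rep_nonzero) (by
      intro x hx y hy c hxy
      obtain ⟨p, _, rfl⟩ := Finset.mem_image.1 hx
      obtain ⟨q, _, rfl⟩ := Finset.mem_image.1 hy
      have h3 : p = q := by
        rw [← p.mk_rep, ← q.mk_rep, Projectivization.mk_eq_mk_iff']
        exact ⟨c, hxy.symm⟩
      rw [h3]) (by
      intro x hx
      obtain ⟨p, hp, rfl⟩ := Finset.mem_image.1 hx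
      exact (orb_iff hM p.rep_nonzero).1 (hTs (hTf.mem_toFinset.1 hp)).1) (by
      intro x hx
      obtain ⟨p, hp, rfl⟩ := Finset.mem_image.1 hx
      exact (deg_iff p.rep_nonzero).1 (hTs (hTf.mem_toFinset.1 hp)).2)
    rw [Finset.card_image_of_injOn hinj, hTc] at h2
    omega
  · intro h X hX0 hXp hXpre hXd
    let g : X → ℙ (AlgebraicClosure K) (Fin n → AlgebraicClosure K) := fun x =>
      Projectivization.mk _ x.1 (hX0 x.1 x.2)
    have hginj : Function.Injective g := by
      intro x y hxy
      simp only [g] at hxy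
      rw [Projectivization.mk_eq_mk_iff'] at hxy
      obtain ⟨c, hc⟩ := hxy
      exact Subtype.ext (hXp x.1 x.2 y.1 y.2 c hc.symm)
    have hsub : Set.range g ⊆ preP (sy v) B := by
      rintro _ ⟨x, rfl⟩
      obtain ⟨a, ha⟩ := Projectivization.exists_smul_eq_mk_rep (AlgebraicClosure K) x.1
        (hX0 x.1 x.2)
      have ha' : (g x).rep = (a : AlgebraicClosure K) • x.1 := ha.symm
      constructor
      · rw [orb_iff hM (g x).rep_nonzero, ha']
        obtain ⟨m, l, hml, c, hc, h1⟩ := hXpre x.1 x.2
        have ha0 : (a : AlgebraicClosure K) ≠ 0 := a.ne_zero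
        refine ⟨m, l, hml, (a : AlgebraicClosure K) ^ d ^ l * c *
          ((a : AlgebraicClosure K) ^ d ^ m)⁻¹,
          mul_ne_zero (mul_ne_zero (pow_ne_zero _ ha0) hc) (inv_ne_zero (pow_ne_zero _ ha0)), ?_⟩
        rw [it_smul hs, it_smul hs, h1, smul_smul, smul_smul]
        congr 1
        rw [mul_assoc, inv_mul_cancel₀ (pow_ne_zero _ ha0), mul_one]
      · rw [deg_iff (g x).rep_nonzero, ha']
        exact (hXd x.1 x.2).smul a.ne_zero
    have h2 := (Set.encard_le_encard hsub).trans h
    rw [← Set.image_univ, hginj.encard_image, Set.encard_univ, ENat.card_eq_coe_natCard,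
      Nat.card_eq_fintype_card, Fintype.card_coe] at h2
    exact_mod_cast h2

end

end Pool.Agent.Y706
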