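import Pool.Agent.Y706.G1

set_option autoImplicit false

/-! Long tails are impossible when a reduction separates the points `f^(1+e) x = f x`. -/

namespace Pool.Agent.Y706

open MvPolynomial Pool.Agent.H936R2 Pool.Agent.H927R2.RD H294UB Pool.Agent.W275.UB
  Pool.Agent.W193.UB Pool.Agent.W554.UB

lemma Rl_map {R R' : Type} [CommRing R] [CommRing R'] (φ : R →+* R') {n d : ℕ} {a : Idx n d → R}
    {z : Fin n → R} {i j : ℕ} (h : Rl (sy a) z i j) :
    Rl (sy fun l => φ (a l)) (fun l => φ (z l)) i j := by
  obtain ⟨c, hc, h⟩ := h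
  refine ⟨φ c, hc.map φ, ?_⟩
  rw [it_map, it_map, h]
  funext l
  simp only [Pi.smul_apply, smul_eq_mul, map_mul]

/-- shifting the initial point -/
lemma Rl_start {R : Type} [CommRing R] {n d : ℕ} {a : Idx n d → R} {z : Fin n → R} (m i j : ℕ) :
    Rl (sy a) ((pt (sy a))^[m] z) i j ↔ Rl (sy a) z (m + i) (m + j) := by
  unfold Rl
  rw [← Function.iterate_add_apply, ← Function.iterate_add_apply, Nat.add_comm i, Nat.add_comm j]

section

variable {K F Ω : Type} [Field K] [Field F] [Field Ω] [Algebra K Ω]
  {O : ValuationSubring Ω} [Algebra F (IsLocalRing.ResidueField O)]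

lemma res_ne {n : ℕ} {z : Fin n → O} (hz : Prim z) : (fun i => IsLocalRing.residue O (z i)) ≠ 0 := by
  obtain ⟨i, hi⟩ := hz
  intro h0
  have h1 := congrFun h0 i
  simp only [Pi.zero_apply] at h1
  exact (hi.map (IsLocalRing.residue O)).ne_zero h1

lemma coe_it {n d : ℕ} {v : Idx n d → K} {a : Idx n d → O}
    (hav : ∀ i, (a i : Ω) = algebraMap K Ω (v i)) (z : Fin n → O) (j : ℕ) :
    (fun i => (((pt (sy a))^[j] z i : O) : Ω)) =
      (pt (sy fun i => algebraMap K Ω (v i)))^[j] fun i => (z i : Ω) := by
  have h1 := it_map O.subtype a z j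
  have h2 : (fun i => O.subtype (a i)) = fun i => algebraMap K Ω (v i) := funext hav
  rw [h2] at h1
  exact h1.symm

lemma degLe_it {n d B : ℕ} {v : Idx n d → K} {x : Fin n → Ω} (h : DegLe K B x) (j : ℕ) :
    DegLe K B ((pt (sy fun i => algebraMap K Ω (v i)))^[j] x) := by
  induction j with
  | zero => exact h
  | succ j ih =>
    rw [Function.iterate_succ_apply']
    exact ih.pt v

lemma step (h : ResIn K F O) {n d s B C' e : ℕ} (he : 0 < e) (v : Idx n d → K) (a : Idx n d → O)
    (hav : ∀ i, (a i : Ω) = algebraMap K Ω (v i)) (hMa : MonIn s (sy a)) (vF : Idx n d → F)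
    (hvF : ∀ i, algebraMap F (IsLocalRing.ResidueField O) (vF i) = IsLocalRing.residue O (a i))
    (hNP : FewB (IsLocalRing.ResidueField O) B C' vF)
    (hinj : ∀ z z' : Fin n → O, Prim z → Prim z' → Rl (sy a) z 1 (1 + e) →
      Rl (sy a) z' 1 (1 + e) → (∃ c : IsLocalRing.ResidueField O,
        (fun i => IsLocalRing.residue O (z' i)) = c • fun i => IsLocalRing.residue O (z i)) →
      ∃ u : O, IsUnit u ∧ z' = u • z)
    (z : Fin n → O) (hz : Prim z) (hzB : DegLe K B fun i => (z i : Ω)) (b : ℕ)
    (hrel : Rl (sy a) z (C' + b) (C' + b + e)) : Rl (sy a) z C' (C' + e) := by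
  classical
  have hG : Good (sy a) := good_of_monIn hMa
  induction b with
  | zero => exact hrel
  | succ b ih =>
    apply ih
    set κ := IsLocalRing.ResidueField O with hκ
    set ρ := IsLocalRing.residue O with hρ
    have hcoef : (fun i => algebraMap F κ (vF i)) = fun i => ρ (a i) := funext hvF
    have hs := Pool.Agent.W193.UB.sy_hom (R := κ) fun i => ρ (a i)
    have hsO := Pool.Agent.W193.UB.sy_hom (R := O) a
    set P := sy fun i => ρ (a i) with hP
    let zb : ℕ → Fin n → κ := fun j i => ρ ((pt (sy a))^[j] z i)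
    have hzb : ∀ j, zb j = (pt P)^[j] (fun i => ρ (z i)) := fun j => (it_map ρ a z j).symm
    have hprim : ∀ j, Prim ((pt (sy a))^[j] z) := it_prim hG hz
    have hzb0 : ∀ j, zb j ≠ 0 := fun j => res_ne (hprim j)
    -- two of the first points coincide
    obtain ⟨i, j, hij, hjC, c, hc⟩ : ∃ i j : ℕ, i < j ∧ j ≤ C' ∧ ∃ c : κ, zb j = c • zb i := by
      by_contra hcon
      push Not at hcon
      have hinjz : Set.InjOn zb (Finset.range (C' + 1) : Set ℕ) := by
        intro i hi j hj hij
        rw [Finset.coe_range, Set.mem_Iio] at hi hj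
        rcases lt_trichotomy i j with h1 | h1 | h1
        · exact absurd (by rw [one_smul, hij]) (hcon i j h1 (by omega) 1)
        · exact h1
        · exact absurd (by rw [one_smul, hij]) (hcon j i h1 (by omega) 1)
      have h1 := hNP ((Finset.range (C' + 1)).image zb) (by
        intro x hx
        obtain ⟨j, _, rfl⟩ := Finset.mem_image.1 hx
        exact hzb0 j) (by
        intro x hx y hy c hxy
        obtain ⟨j, hj, rfl⟩ := Finset.mem_image.1 hx
        obtain ⟨i, hi, rfl⟩ := Finset.mem_image.1 hy
        rw [Finset.mem_range] at hi hj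
        rcases lt_trichotomy i j with h1 | h1 | h1
        · exact absurd hxy (hcon i j h1 (by omega) c)
        · rw [h1]
        · exfalso
          have hc0 : c ≠ 0 := by
            rintro rfl
            rw [zero_smul] at hxy
            exact hzb0 j hxy
          exact hcon j i h1 (by omega) c⁻¹ (by rw [hxy, smul_smul, inv_mul_cancel₀ hc0, one_smul]))
        (by
        intro x hx
        obtain ⟨j, _, rfl⟩ := Finset.mem_image.1 hx
        rw [hcoef]
        have h2 := Rl_map ρ ((Rl_start (R := O) (a := a) (z := z) j (C' + (b + 1))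
          (C' + (b + 1) + e)).2 (by
            have h3 := hrel.shift hsO j
            rw [Nat.add_comm j, Nat.add_comm j]
            exact h3))
        obtain ⟨c, hc, h4⟩ := h2
        exact ⟨C' + (b + 1), C' + (b + 1) + e, by omega, c, hc.ne_zero, h4⟩)
        (by
        intro x hx
        obtain ⟨j, _, rfl⟩ := Finset.mem_image.1 hx
        refine degLe_res h (hprim j) ?_
        rw [coe_it hav]
        exact degLe_it hzB j)
      rw [Finset.card_image_of_injOn hinjz, Finset.card_range] at h1
      omega
    have hc0 : c ≠ 0 := by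
      rintro rfl
      rw [zero_smul] at hc
      exact hzb0 j hc
    have h1 : Rl P (fun i => ρ (z i)) i j := by
      refine ⟨c, isUnit_iff_ne_zero.2 hc0, ?_⟩
      rw [← hzb, ← hzb, hc]
    obtain ⟨t, rfl⟩ := Nat.exists_eq_add_of_le hij.le
    have ht : 0 < t := by omega
    -- the reduction of the point number `C' + b` is periodic
    have h2 : Rl P (fun i => ρ (z i)) (C' + b) (C' + b + t) := by
      have h3 := h1.shift hs (C' + b - i)
      have h4 : i + (C' + b - i) = C' + b := by omega
      have h5 : i + t + (C' + b - i) = C' + b + t := by omega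
      rwa [h4, h5] at h3
    have h3 : Rl P (fun i => ρ (z i)) (C' + b) (C' + b + t * e) := h2.mul hs e
    have h4 : Rl P (fun i => ρ (z i)) (C' + (b + 1)) (C' + (b + 1) + e) := Rl_map ρ hrel
    have h5 : Rl P (fun i => ρ (z i)) (C' + (b + 1)) (C' + (b + 1) + e * (t - 1)) :=
      h4.mul hs (t - 1)
    have h6 := h5.shift hs (e - 1)
    have h7 : C' + (b + 1) + (e - 1) = C' + b + e := by omega
    have h8 : C' + (b + 1) + e * (t - 1) + (e - 1) = C' + b + t * e := by
      obtain ⟨t', rfl⟩ := Nat.exists_eq_succ_of_ne_zero ht.ne'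
      rw [Nat.succ_sub_one, Nat.succ_mul, Nat.mul_comm t' e]
      omega
    rw [h7, h8] at h6
    have h9 : Rl P (fun i => ρ (z i)) (C' + b) (C' + b + e) := h3.trans h6.symm
    obtain ⟨c', hc', h10⟩ := h9
    have h11 : Rl (sy a) ((pt (sy a))^[C' + b] z) 1 (1 + e) := by
      rw [Rl_start]
      have h12 : C' + b + (1 + e) = C' + (b + 1) + e := by omega
      rw [h12]
      exact hrel
    have h13 : Rl (sy a) ((pt (sy a))^[C' + b + e] z) 1 (1 + e) := by
      rw [Rl_start]
      have h14 := hrel.shift hsO e
      have h15 : C' + (b + 1) + e = C' + b + e + 1 := by omega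
      rw [h15] at h14
      have h16 : C' + b + e + (1 + e) = C' + b + e + 1 + e := by omega
      rw [h16]
      exact h14
    obtain ⟨u, hu, h17⟩ := hinj _ _ (hprim (C' + b)) (hprim (C' + b + e)) h11 h13 ⟨c', by
      have h18 := hzb (C' + b)
      have h19 := hzb (C' + b + e)
      show zb (C' + b + e) = c' • zb (C' + b)
      rw [h18, h19, h10]⟩
    exact ⟨u, hu, h17⟩

end

end Pool.Agent.Y706
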