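import Pool.Agent.Y706.G2
import Pool.Agent.Y706.P2

set_option autoImplicit false

/-! Complete finite sets of points and their separation. -/

namespace Pool.Agent.Y706

open MvPolynomial Pool.Agent.H936R2 Pool.Agent.H927R2.RD H294UB Pool.Agent.W275.UB
  Pool.Agent.W193.UB Pool.Agent.W554.UB

/-- a complete finite set of representatives -/
lemma exists_complete {L : Type} [Field L] {n : ℕ} (S : Set (Fin n → L)) (C : ℕ)
    (hC : ∀ X : Finset (Fin n → L), (∀ x ∈ X, x ≠ 0) →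
      (∀ x ∈ X, ∀ y ∈ X, ∀ c : L, x = c • y → x = y) → (∀ x ∈ X, x ∈ S) → X.card ≤ C) :
    ∃ X : Finset (Fin n → L), (∀ x ∈ X, x ≠ 0) ∧
      (∀ x ∈ X, ∀ y ∈ X, ∀ c : L, x = c • y → x = y) ∧
      ∀ x ∈ S, x ≠ 0 → ∃ y ∈ X, ∃ c : L, c ≠ 0 ∧ x = c • y := by
  classical
  let P : ℕ → Prop := fun m => ∃ X : Finset (Fin n → L), (∀ x ∈ X, x ≠ 0) ∧
    (∀ x ∈ X, ∀ y ∈ X, ∀ c : L, x = c • y → x = y) ∧ (∀ x ∈ X, x ∈ S) ∧ X.card = m
  have hP0 : P 0 := ⟨∅, by simp, by simp, by simp, rfl⟩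
  obtain ⟨X, h1, h2, h3, h4⟩ : P (Nat.findGreatest P C) :=
    Nat.findGreatest_spec (Nat.zero_le C) hP0
  refine ⟨X, h1, h2, fun x hx hx0 => ?_⟩
  by_contra hcon
  push Not at hcon
  have hnp : ∀ y ∈ X, ∀ c : L, x ≠ c • y := by
    intro y hy c hxy
    by_cases hc : c = 0
    · rw [hc, zero_smul] at hxy
      exact hx0 hxy
    · exact hcon y hy c hc hxy
  have hxX : x ∉ X := fun h => hnp x h 1 (one_smul _ _).symm
  have g1 : ∀ y ∈ insert x X, y ≠ 0 := by
    intro y hy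
    rcases Finset.mem_insert.1 hy with rfl | hy
    · exact hx0
    · exact h1 y hy
  have g2 : ∀ y ∈ insert x X, ∀ z ∈ insert x X, ∀ c : L, y = c • z → y = z := by
    intro y hy z hz c hyz
    rcases Finset.mem_insert.1 hy with rfl | hy'
    · rcases Finset.mem_insert.1 hz with rfl | hz'
      · rfl
      · exact absurd hyz (hnp z hz' c)
    · rcases Finset.mem_insert.1 hz with rfl | hz'
      · exfalso
        have hc : c ≠ 0 := by
          rintro rfl
          rw [zero_smul] at hyz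
          exact h1 y hy' hyz
        refine hnp y hy' c⁻¹ ?_
        rw [hyz, smul_smul, inv_mul_cancel₀ hc, one_smul]
      · exact h2 y hy' z hz' c hyz
  have g3 : ∀ y ∈ insert x X, y ∈ S := by
    intro y hy
    rcases Finset.mem_insert.1 hy with rfl | hy
    · exact hx
    · exact h3 y hy
  have g4 : (insert x X).card = Nat.findGreatest P C + 1 := by
    rw [Finset.card_insert_of_notMem hxX, h4]
  have g5 : Nat.findGreatest P C + 1 ≤ C := by
    rw [← g4]
    exact hC _ g1 g2 g3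
  have g6 := Nat.le_findGreatest (P := P) g5 ⟨_, g1, g2, g3, g4⟩
  omega

section

variable {Ω : Type} [Field Ω] {O : ValuationSubring Ω}

lemma unit_of_mem {ξ : Ω} (h0 : ξ ≠ 0) (h1 : ξ ∈ O) (h2 : ξ⁻¹ ∈ O) : IsUnit (⟨ξ, h1⟩ : O) :=
  IsUnit.of_mul_eq_one ⟨ξ⁻¹, h2⟩ (Subtype.ext (mul_inv_cancel₀ h0))

/-- primitive representatives -/
lemma prim_val {n : ℕ} {x : Fin n → Ω} (hx : x ≠ 0) :
    ∃ (z : Fin n → O) (t : Ω), t ≠ 0 ∧ Prim z ∧ x = t • fun i => (z i : Ω) := by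
  obtain ⟨j, hj⟩ := Function.ne_iff.1 hx
  have : Nonempty (Fin n) := ⟨j⟩
  obtain ⟨i0, hi0⟩ := Finite.exists_max fun i => O.valuation (x i)
  have hne : x i0 ≠ 0 := by
    intro h0
    have h1 := hi0 j
    rw [h0, map_zero, le_zero_iff, Valuation.zero_iff] at h1
    exact hj h1
  have hmem : ∀ i, x i / x i0 ∈ O := by
    intro i
    rw [← O.valuation_le_one_iff, map_div₀]
    exact div_le_one_of_le₀ (hi0 i) zero_le
  refine ⟨fun i => ⟨x i / x i0, hmem i⟩, x i0, hne, ⟨i0, ?_⟩, ?_⟩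
  · have h1 : (⟨x i0 / x i0, hmem i0⟩ : O) = 1 := Subtype.ext (div_self hne)
    show IsUnit (⟨x i0 / x i0, hmem i0⟩ : O)
    rw [h1]
    exact isUnit_one
  · funext i
    show x i = x i0 * (x i / x i0)
    field_simp

/-- reduction separates the points of `X` -/
lemma sep {n : ℕ} {X : Finset (Fin n → Ω)} (h0 : ∀ x ∈ X, x ≠ 0)
    (hX : ∀ x ∈ X, ∀ y ∈ X, ∀ c : Ω, x = c • y → x = y)
    (h1 : ∀ x ∈ X, ∀ i, x i ∈ O ∧ (x i)⁻¹ ∈ O)
    (h2 : ∀ x ∈ X, ∀ y ∈ X, ∀ i j, x i * y j - x j * y i ∈ O ∧ (x i * y j - x j * y i)⁻¹ ∈ O)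
    {z z' : Fin n → O} (hz : Prim z) (hz' : Prim z') {x x' : Fin n → Ω} (hx : x ∈ X) (hx' : x' ∈ X)
    {l m : Ω} (hl : (fun i => (z i : Ω)) = l • x) (hm : (fun i => (z' i : Ω)) = m • x')
    (hc : ∃ c : IsLocalRing.ResidueField O,
      (fun i => IsLocalRing.residue O (z' i)) = c • fun i => IsLocalRing.residue O (z i)) :
    ∃ u : O, IsUnit u ∧ z' = u • z := by
  -- the scalars are units
  have key : ∀ {z : Fin n → O} {x : Fin n → Ω} {l : Ω}, Prim z → x ∈ X →
      (fun i => (z i : Ω)) = l • x → ∃ l' : O, IsUnit l' ∧ (l' : Ω) = l := by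
    intro z x l hz hx hl
    obtain ⟨i, u, hu⟩ := hz
    have h3 : (z i : Ω) = l * x i := congrFun hl i
    have h4 : (z i : Ω) * ((((u⁻¹ : Oˣ) : O)) : Ω) = 1 := by
      have h5 : z i * ((u⁻¹ : Oˣ) : O) = 1 := by rw [← hu, Units.mul_inv]
      exact congrArg Subtype.val h5
    have h6 : (z i : Ω) ≠ 0 := left_ne_zero_of_mul_eq_one h4
    have h7 : x i ≠ 0 := by
      intro h
      rw [h, mul_zero] at h3
      exact h6 h3
    have h8 : l ≠ 0 := by
      intro h
      rw [h, zero_mul] at h3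
      exact h6 h3
    have h9 : l = (z i : Ω) * (x i)⁻¹ := by
      rw [h3, mul_assoc, mul_inv_cancel₀ h7, mul_one]
    have h10 : l ∈ O := by
      rw [h9]
      exact mul_mem (z i).2 (h1 x hx i).2
    have h11 : l⁻¹ = ((((u⁻¹ : Oˣ) : O)) : Ω) * x i := by
      have h12 : ((((u⁻¹ : Oˣ) : O)) : Ω) = (z i : Ω)⁻¹ := eq_inv_of_mul_eq_one_right h4
      rw [h12, h3]
      field_simp
    have h13 : l⁻¹ ∈ O := by
      rw [h11]
      exact mul_mem (Subtype.property _) (h1 x hx i).1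
    exact ⟨⟨l, h10⟩, unit_of_mem h8 h10 h13, rfl⟩
  obtain ⟨l', hl', rfl⟩ := key hz hx hl
  obtain ⟨m', hm', rfl⟩ := key hz' hx' hm
  by_cases hxx : x = x'
  · subst hxx
    obtain ⟨ul, rfl⟩ := hl'
    refine ⟨m' * ((ul⁻¹ : Oˣ) : O), hm'.mul (Units.isUnit _), ?_⟩
    funext i
    apply Subtype.ext
    show (z' i : Ω) = ((m' : O) : Ω) * ((((ul⁻¹ : Oˣ) : O)) : Ω) * (z i : Ω)
    have h3 : (z i : Ω) = ((ul : O) : Ω) * x i := congrFun hl i
    have h4 : (z' i : Ω) = (m' : Ω) * x i := congrFun hm i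
    have h5 : ((((ul⁻¹ : Oˣ) : O)) : Ω) * ((ul : O) : Ω) = 1 := by
      have h6 : ((ul⁻¹ : Oˣ) : O) * (ul : O) = 1 := Units.inv_mul ul
      exact congrArg Subtype.val h6
    rw [h4, h3]
    linear_combination (-(m' : Ω) * x i) * h5
  · exfalso
    obtain ⟨i, j, hij⟩ : ∃ i j, x i * x' j - x j * x' i ≠ 0 := by
      by_contra hcon
      push Not at hcon
      obtain ⟨i0, hi0⟩ := Function.ne_iff.1 (h0 x hx)
      apply hxx
      symm
      apply hX x' hx' x hx (x' i0 / x i0)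
      funext j
      have h3 := hcon i0 j
      rw [Pi.smul_apply, smul_eq_mul]
      have hi0' : x i0 ≠ 0 := hi0
      field_simp
      linear_combination h3
    obtain ⟨h3, h4⟩ := h2 x hx x' hx' i j
    have hu := unit_of_mem hij h3 h4
    have h5 : z i * z' j - z j * z' i = l' * m' * ⟨x i * x' j - x j * x' i, h3⟩ := by
      apply Subtype.ext
      show (z i : Ω) * (z' j : Ω) - (z j : Ω) * (z' i : Ω) =
        (l' : Ω) * (m' : Ω) * (x i * x' j - x j * x' i)
      have e1 : (z i : Ω) = (l' : Ω) * x i := congrFun hl i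
      have e2 : (z j : Ω) = (l' : Ω) * x j := congrFun hl j
      have e3 : (z' i : Ω) = (m' : Ω) * x' i := congrFun hm i
      have e4 : (z' j : Ω) = (m' : Ω) * x' j := congrFun hm j
      rw [e1, e2, e3, e4]
      ring
    have h6 : IsUnit (z i * z' j - z j * z' i) := by
      rw [h5]
      exact (hl'.mul hm').mul hu
    have h7 := (h6.map (IsLocalRing.residue O)).ne_zero
    apply h7
    obtain ⟨c, hc⟩ := hc
    have e1 := congrFun hc i
    have e2 := congrFun hc j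
    simp only [Pi.smul_apply, smul_eq_mul] at e1 e2
    rw [map_sub, map_mul, map_mul, e1, e2]
    ring

end

end Pool.Agent.Y706
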