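import Pool.Agent.Y706.G3
import Pool.Agent.Y706.B8

set_option autoImplicit false

/-! Finiteness of the set of the preperiodic points of bounded degree, from good places. -/

namespace Pool.Agent.Y706

open MvPolynomial Pool.Agent.H936R2 Pool.Agent.H927R2.RD H294UB Pool.Agent.W275.UB
  Pool.Agent.W193.UB Pool.Agent.W554.UB

lemma lift_mv {Ω : Type} [Field Ω] (O : ValuationSubring Ω) {σ : Type} (q : MvPolynomial σ Ω)
    (h : ∀ m, q.coeff m ∈ O) : ∃ q' : MvPolynomial σ O, MvPolynomial.map O.subtype q' = q := by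
  refine ⟨∑ m ∈ q.support, monomial m ⟨q.coeff m, h m⟩, ?_⟩
  rw [map_sum]
  conv_rhs => rw [← q.support_sum_monomial_coeff]
  refine Finset.sum_congr rfl fun m _ => ?_
  rw [map_monomial]
  rfl

/-- the Macaulay condition over valuation rings containing a finite set -/
lemma monIn_lift {Ω : Type} [Field Ω] {n d s : ℕ} (w : Idx n d → Ω) (hM : MonIn s (sy w)) :
    ∃ T : Finset Ω, ∀ (O : ValuationSubring Ω) (a : Idx n d → O), (∀ i, (a i : Ω) = w i) →
      (∀ t ∈ T, t ∈ O) → MonIn s (sy a) := by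
  classical
  have hex : ∀ μ : Fin n →₀ ℕ, ∃ q : Fin n → MvPolynomial (Fin n) Ω, μ.degree = s →
      ∑ j, q j * sy w j = monomial μ 1 := by
    intro μ
    by_cases h : μ.degree = s
    · obtain ⟨q, hq⟩ := Ideal.mem_span_range_iff_exists_fun.1 (hM μ h)
      exact ⟨q, fun _ => hq⟩
    · exact ⟨0, fun h' => absurd h' h⟩
  choose q hq using hex
  refine ⟨((Finset.univ : Finset (Fin n)).finsuppAntidiag s).biUnion fun μ =>
    Finset.univ.biUnion fun j => (q μ j).support.image fun m => (q μ j).coeff m, ?_⟩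
  intro O a ha hT μ hμ
  have hmem : μ ∈ (Finset.univ : Finset (Fin n)).finsuppAntidiag s := by
    rw [Finset.mem_finsuppAntidiag]
    refine ⟨?_, Finset.subset_univ _⟩
    rw [← hμ, Finsupp.degree_eq_sum]
  have hco : ∀ j m, (q μ j).coeff m ∈ O := by
    intro j m
    by_cases h0 : (q μ j).coeff m = 0
    · rw [h0]
      exact zero_mem _
    · exact hT _ (Finset.mem_biUnion.2 ⟨μ, hmem, Finset.mem_biUnion.2 ⟨j, Finset.mem_univ _,
        Finset.mem_image.2 ⟨m, MvPolynomial.mem_support_iff.2 h0, rfl⟩⟩⟩)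
  choose q' hq' using fun j => lift_mv O (q μ j) (hco j)
  rw [Ideal.mem_span_range_iff_exists_fun]
  refine ⟨q', ?_⟩
  apply MvPolynomial.map_injective O.subtype O.subtype_injective
  rw [map_sum, map_monomial, map_one, ← hq μ hμ]
  refine Finset.sum_congr rfl fun j _ => ?_
  rw [map_mul, hq']
  congr 1
  have h1 := congrFun (Pool.Agent.W193.UB.map_sy O.subtype a) j
  have h2 : (fun i => O.subtype (a i)) = w := funext ha
  rw [h2] at h1
  exact h1

/-- for every endomorphism of projective space over `F` the number of the preperiodic points of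
bounded degree is finite -/
def NP (F : Type) [Field F] : Prop :=
  ∀ (N d s : ℕ) (v : Idx (N + 1) d → F), 2 ≤ d → MonIn s (sy v) → ∀ B : ℕ, ∃ C : ℕ,
    ∀ (κ : Type) [Field κ] [Algebra F κ], FewB κ B C v

/-- every finite set is contained in a valuation ring whose residue field is good -/
def Places (K Ω : Type) [Field K] [Field Ω] [Algebra K Ω] : Prop :=
  ∀ T : Finset Ω, ∃ (O : ValuationSubring Ω) (F : Type) (_ : Field F)
    (_ : Algebra F (IsLocalRing.ResidueField O)), (∀ t ∈ T, t ∈ O) ∧ ResIn K F O ∧ NP F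

theorem stepNP {K Ω : Type} [Field K] [Field Ω] [Algebra K Ω] (hcnt : TaskCnt)
    (hP : Places K Ω) {N d s B e : ℕ} (hd : 2 ≤ d) (he : 0 < e) (v : Idx (N + 1) d → K)
    (hM : MonIn s (sy v))
    (hper : ∀ y : Fin (N + 1) → Ω, y ≠ 0 → DegLe K B y → ∀ m, 0 < m →
      Rl (sy fun i => algebraMap K Ω (v i)) y 0 m → Rl (sy fun i => algebraMap K Ω (v i)) y 0 e) :
    ∃ C, FewB Ω B C v := by
  classical
  set w : Idx (N + 1) d → Ω := fun i => algebraMap K Ω (v i) with hw
  have hMw : MonIn s (sy w) := monIn_map (algebraMap K Ω) hM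
  have hhom := Pool.Agent.W193.UB.sy_hom (R := Ω) w
  -- the points with `f^(1+e) x = f x`
  obtain ⟨C1, hC1⟩ := hcnt N s 1 e he
  obtain ⟨X, hX0, hXp, hXc⟩ := exists_complete
    {x : Fin (N + 1) → Ω | ∃ c : Ω, c ≠ 0 ∧ (pt (sy w))^[1 + e] x = c • (pt (sy w))^[1] x} C1
    (fun Y h0 h1 h2 => hC1 Ω d hd (sy w) hhom hMw Y h0 h1 h2)
  obtain ⟨T1, hT1⟩ := monIn_lift w hMw
  let T2 : Finset Ω := Finset.univ.image w
  let T3 : Finset Ω := X.biUnion fun x => Finset.univ.image fun i => x i
  let T4 : Finset Ω := X.biUnion fun x => Finset.univ.image fun i => (x i)⁻¹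
  let T5 : Finset Ω := X.biUnion fun x => X.biUnion fun y => Finset.univ.biUnion fun i =>
    Finset.univ.image fun j => x i * y j - x j * y i
  let T6 : Finset Ω := X.biUnion fun x => X.biUnion fun y => Finset.univ.biUnion fun i =>
    Finset.univ.image fun j => (x i * y j - x j * y i)⁻¹
  obtain ⟨O, F, _, _, hTO, hres, hNPF⟩ := hP (T1 ∪ T2 ∪ T3 ∪ T4 ∪ T5 ∪ T6)
  have hwO : ∀ i, w i ∈ O := fun i => hTO _ (by
    simp only [Finset.mem_union]
    exact Or.inl (Or.inl (Or.inl (Or.inl (Or.inr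
      (Finset.mem_image.2 ⟨i, Finset.mem_univ _, rfl⟩))))))
  let a : Idx (N + 1) d → O := fun i => ⟨w i, hwO i⟩
  have hMa : MonIn s (sy a) := hT1 O a (fun _ => rfl) fun t ht => hTO t (by
    simp only [Finset.mem_union]
    exact Or.inl (Or.inl (Or.inl (Or.inl (Or.inl ht)))))
  have hG : Good (sy a) := good_of_monIn hMa
  choose vF hvF using fun i => hres.1 (v i) (hwO i)
  have hvF' : ∀ i, algebraMap F (IsLocalRing.ResidueField O) (vF i) =
      IsLocalRing.residue O (a i) := hvF
  -- the reduction is an endomorphism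
  obtain ⟨s', c', hc', hMF⟩ := exists_monC
    ((algebraMap (IsLocalRing.ResidueField O) (AlgebraicClosure (IsLocalRing.ResidueField O))).comp
      (algebraMap F (IsLocalRing.ResidueField O))) vF (by
      intro x hx
      have h1 : MonIn s (sy fun i => ((algebraMap (IsLocalRing.ResidueField O)
          (AlgebraicClosure (IsLocalRing.ResidueField O))).comp
          (algebraMap F (IsLocalRing.ResidueField O))) (vF i)) := by
        have h2 : (fun i => ((algebraMap (IsLocalRing.ResidueField O)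
            (AlgebraicClosure (IsLocalRing.ResidueField O))).comp
            (algebraMap F (IsLocalRing.ResidueField O))) (vF i)) =
            fun i => ((algebraMap (IsLocalRing.ResidueField O)
            (AlgebraicClosure (IsLocalRing.ResidueField O))).comp (IsLocalRing.residue O)) (a i) := by
          funext i
          rw [RingHom.comp_apply, RingHom.comp_apply, hvF']
        rw [h2]
        have h3 : MonC s (1 : O) (sy a) := fun μ hμ => hMa μ hμ
        have h4 := h3.map ((algebraMap (IsLocalRing.ResidueField O)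
            (AlgebraicClosure (IsLocalRing.ResidueField O))).comp (IsLocalRing.residue O))
        rw [map_one] at h4
        exact h4.monIn isUnit_one
      exact no_zero _ h1 x hx)
  have hc'0 : c' ≠ 0 := by
    rintro rfl
    exact hc' (map_zero _)
  have hMF' : MonIn s' (sy vF) := hMF.monIn (isUnit_iff_ne_zero.2 hc'0)
  obtain ⟨C', hC'⟩ := hNPF N d s' vF hd hMF' B
  -- separation
  have hinj : ∀ z z' : Fin (N + 1) → O, Prim z → Prim z' → Rl (sy a) z 1 (1 + e) →
      Rl (sy a) z' 1 (1 + e) → (∃ c : IsLocalRing.ResidueField O,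
        (fun i => IsLocalRing.residue O (z' i)) = c • fun i => IsLocalRing.residue O (z i)) →
      ∃ u : O, IsUnit u ∧ z' = u • z := by
    intro z z' hz hz' hr hr' hc
    have hz0 : ∀ {z : Fin (N + 1) → O}, Prim z → (fun i => (z i : Ω)) ≠ 0 := by
      rintro z ⟨i, hi⟩ h0
      have h1 := congrFun h0 i
      have h2 : z i = 0 := Subtype.ext h1
      rw [h2] at hi
      exact not_isUnit_zero hi
    have hmem : ∀ {z : Fin (N + 1) → O}, Rl (sy a) z 1 (1 + e) → (fun i => (z i : Ω)) ∈
        {x : Fin (N + 1) → Ω | ∃ c : Ω, c ≠ 0 ∧ (pt (sy w))^[1 + e] x = c • (pt (sy w))^[1] x} := by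
      intro z hz
      obtain ⟨c, hc, h⟩ := Rl_map O.subtype hz
      exact ⟨c, hc.ne_zero, h⟩
    obtain ⟨x, hx, l, _, hl⟩ := hXc _ (hmem hr) (hz0 hz)
    obtain ⟨x', hx', m, _, hm⟩ := hXc _ (hmem hr') (hz0 hz')
    refine sep hX0 hXp ?_ ?_ hz hz' hx hx' hl hm hc
    · intro x hx i
      constructor
      · apply hTO
        simp only [Finset.mem_union]
        exact Or.inl (Or.inl (Or.inl (Or.inr (Finset.mem_biUnion.2 ⟨x, hx, Finset.mem_image.2
          ⟨i, Finset.mem_univ _, rfl⟩⟩))))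
      · apply hTO
        simp only [Finset.mem_union]
        exact Or.inl (Or.inl (Or.inr (Finset.mem_biUnion.2 ⟨x, hx, Finset.mem_image.2
          ⟨i, Finset.mem_univ _, rfl⟩⟩)))
    · intro x hx y hy i j
      constructor
      · apply hTO
        simp only [Finset.mem_union]
        exact Or.inl (Or.inr (Finset.mem_biUnion.2 ⟨x, hx, Finset.mem_biUnion.2 ⟨y, hy,
          Finset.mem_biUnion.2 ⟨i, Finset.mem_univ _, Finset.mem_image.2
          ⟨j, Finset.mem_univ _, rfl⟩⟩⟩⟩))
      · apply hTO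
        simp only [Finset.mem_union]
        exact Or.inr (Finset.mem_biUnion.2 ⟨x, hx, Finset.mem_biUnion.2 ⟨y, hy,
          Finset.mem_biUnion.2 ⟨i, Finset.mem_univ _, Finset.mem_image.2
          ⟨j, Finset.mem_univ _, rfl⟩⟩⟩⟩)
  -- all tails are short
  obtain ⟨C, hC⟩ := hcnt N s C' e he
  refine ⟨C, fun Y h0 h1 h2 h3 => hC Ω d hd (sy w) hhom hMw Y h0 h1 fun y hy => ?_⟩
  obtain ⟨m, l, hml, c, hc, hrel⟩ := h2 y hy
  have hy0 := h0 y hy
  have hyB := h3 y hy
  obtain ⟨t, rfl⟩ := Nat.exists_eq_add_of_le hml.le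
  have g1 : Rl (sy w) ((pt (sy w))^[m] y) 0 t := by
    rw [Rl_start]
    exact ⟨c, isUnit_iff_ne_zero.2 hc, hrel⟩
  have g2 : Rl (sy w) ((pt (sy w))^[m] y) 0 e :=
    hper _ (iter_ne_zero _ hMw y hy0 m) (degLe_it hyB m) t (by omega) g1
  rw [Rl_start] at g2
  have g3 : Rl (sy w) y (C' + m) (C' + m + e) := by
    have g4 := g2.shift hhom C'
    have g5 : m + 0 + C' = C' + m := by omega
    have g6 : m + e + C' = C' + m + e := by omega
    rwa [g5, g6] at g4
  obtain ⟨z, t', ht', hz, hyz⟩ := prim_val (O := O) hy0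
  have hav : ∀ i, algebraMap O Ω (a i) = (RingHom.id Ω) (w i) := fun _ => rfl
  have hxz : (fun i => (RingHom.id Ω) (y i)) = t' • fun i => algebraMap O Ω (z i) := hyz
  have g7 : Rl (sy a) z (C' + m) (C' + m + e) :=
    (tr_rel (RingHom.id Ω) hav ht' hxz hG hz _ _).1 g3
  have hzB : DegLe K B fun i => (z i : Ω) := by
    have g8 : (fun i => (z i : Ω)) = t'⁻¹ • y := by
      rw [hyz, smul_smul, inv_mul_cancel₀ ht', one_smul]
    rw [g8]
    exact hyB.smul (inv_ne_zero ht')
  have g9 := step hres he v a (fun _ => rfl) hMa vF hvF' (hC' _) hinj z hz hzB m g7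
  have g10 := (tr_rel (RingHom.id Ω) hav ht' hxz hG hz _ _).2 g9
  obtain ⟨c2, hc2, h10⟩ := g10
  exact ⟨c2, hc2.ne_zero, h10⟩

end Pool.Agent.Y706
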