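import Pool.Agent.Y706.G4

set_option autoImplicit false

/-! Supply of good places. -/

namespace Pool.Agent.Y706

open Pool.Agent.H936R2 Pool.Agent.H927R2.RD H294UB Pool.Agent.W275.UB
  Pool.Agent.W193.UB Pool.Agent.W554.UB

section

variable {D K Ω F : Type} [CommRing D] [IsDomain D] [IsPrincipalIdealRing D] [Field K]
  [Algebra D K] [IsFractionRing D K] [Field Ω] [Algebra K Ω] [Field F]

/-- places over the points of a principal ideal domain -/
theorem place (ev : D →+* F) (hev : Function.Surjective ev) :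
    ∃ (O : ValuationSubring Ω) (ι : F →+* IsLocalRing.ResidueField O)
      (j : D →+* O), (∀ x, (j x : Ω) = algebraMap K Ω (algebraMap D K x)) ∧
      (∀ x, IsLocalRing.residue O (j x) = ι (ev x)) ∧
      (∀ (c : K) (hc : algebraMap K Ω c ∈ O), ∃ f : F,
        ι f = IsLocalRing.residue O ⟨algebraMap K Ω c, hc⟩) := by
  classical
  set φ : D →+* Ω := (algebraMap K Ω).comp (algebraMap D K) with hφ
  have hφi : Function.Injective φ :=
    (algebraMap K Ω).injective.comp (IsFractionRing.injective D K)
  set I : Ideal φ.range := Ideal.map φ.rangeRestrict (RingHom.ker ev) with hI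
  have hIne : I ≠ ⊤ := by
    intro h
    have h1 : (1 : φ.range) ∈ I := by rw [h]; trivial
    rw [hI, Ideal.mem_map_iff_of_surjective _ φ.rangeRestrict_surjective] at h1
    obtain ⟨x, hx, hx1⟩ := h1
    have h2 : φ x = 1 := congrArg Subtype.val hx1
    have h3 : x = 1 := hφi (by rw [h2, map_one])
    rw [h3, RingHom.mem_ker, map_one] at hx
    exact one_ne_zero hx
  obtain ⟨O, hO1, hO2⟩ := Ideal.image_subset_nonunits_valuationSubring I hIne
  have hmem : ∀ x, φ x ∈ O := fun x => hO1 ⟨x, rfl⟩
  let j : D →+* O :=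
    { toFun := fun x => ⟨φ x, hmem x⟩
      map_one' := Subtype.ext (map_one φ)
      map_mul' := fun x y => Subtype.ext (map_mul φ x y)
      map_zero' := Subtype.ext (map_zero φ)
      map_add' := fun x y => Subtype.ext (map_add φ x y) }
  have hj0 : ∀ x, ev x = 0 → IsLocalRing.residue O (j x) = 0 := by
    intro x hx
    have h1 : φ x ∈ O.nonunits := hO2 ⟨φ.rangeRestrict x, Ideal.mem_map_of_mem _ hx, rfl⟩
    rw [IsLocalRing.residue_eq_zero_iff, IsLocalRing.mem_maximalIdeal, mem_nonunits_iff]
    intro hu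
    rw [ValuationSubring.mem_nonunits_iff_or] at h1
    rcases h1 with h1 | h1
    · have h2 : j x = 0 := Subtype.ext h1
      rw [h2] at hu
      exact not_isUnit_zero hu
    · obtain ⟨u, hu⟩ := hu
      apply h1
      have h2 : (φ x) * ((((u⁻¹ : Oˣ) : O)) : Ω) = 1 := by
        have h3 : j x * ((u⁻¹ : Oˣ) : O) = 1 := by rw [← hu, Units.mul_inv]
        exact congrArg Subtype.val h3
      rw [← eq_inv_of_mul_eq_one_right h2]
      exact Subtype.property _
  let g : {g : D →+* IsLocalRing.ResidueField O // RingHom.ker ev ≤ RingHom.ker g} :=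
    ⟨(IsLocalRing.residue O).comp j, fun x hx => hj0 x hx⟩
  set ι : F →+* IsLocalRing.ResidueField O := ev.liftOfSurjective hev g with hι
  have hιev : ∀ x, IsLocalRing.residue O (j x) = ι (ev x) := fun x =>
    (RingHom.liftOfSurjective_comp_apply ev hev g x).symm
  refine ⟨O, ι, j, fun _ => rfl, hιev, ?_⟩
  intro c hc
  obtain ⟨a, b, hab, hcab⟩ := IsFractionRing.exists_reduced_fraction (A := D) c
  have hb0 : (b : D) ≠ 0 := nonZeroDivisors.coe_ne_zero b
  have hmul : (⟨algebraMap K Ω c, hc⟩ : O) * j b = j a := by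
    apply Subtype.ext
    show algebraMap K Ω c * φ b = φ a
    rw [hφ, RingHom.comp_apply, RingHom.comp_apply, ← map_mul]
    congr 1
    rw [← hcab]
    exact IsLocalization.mk'_spec K a b
  have hmulr := congrArg (IsLocalRing.residue O) hmul
  rw [map_mul, hιev, hιev] at hmulr
  have hevb : ev b ≠ 0 := by
    intro h0
    rw [h0, map_zero, mul_zero] at hmulr
    have h1 : ev a = 0 := by
      have h2 := hmulr.symm
      rwa [map_eq_zero] at h2
    obtain ⟨π, hπ⟩ := (IsPrincipalIdealRing.principal (RingHom.ker ev)).principal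
    have h2 : π ∣ a := by
      rw [← Ideal.mem_span_singleton]
      change a ∈ Submodule.span D {π}
      rw [← hπ]
      exact h1
    have h3 : π ∣ (b : D) := by
      rw [← Ideal.mem_span_singleton]
      change (b : D) ∈ Submodule.span D {π}
      rw [← hπ]
      exact h0
    have h4 : IsUnit π := hab h2 h3
    have h5 : ev π = 0 := by
      have h6 : π ∈ Submodule.span D {π} := Submodule.mem_span_singleton_self π
      rw [← hπ] at h6
      exact h6
    have h7 := h4.map ev
    rw [h5] at h7
    exact not_isUnit_zero h7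
  refine ⟨ev a / ev b, ?_⟩
  rw [map_div₀, ← hmulr]
  have h8 : ι (ev b) ≠ 0 := (map_ne_zero ι).2 hevb
  field_simp

end

/-- elements are in a valuation ring if the leading coefficient of their equation is a unit -/
lemma mem_of_lead {Ω D : Type} [Field Ω] [CommRing D] (O : ValuationSubring Ω) (j : D →+* O)
    (φ : D →+* Ω) (hφ : ∀ x, (j x : Ω) = φ x) {t : Ω} (P : Polynomial D)
    (hP : P.eval₂ φ t = 0) (hu : IsUnit (j P.leadingCoeff)) : t ∈ O := by
  obtain ⟨u, hu⟩ := hu
  have hne : j P.leadingCoeff ≠ 0 := by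
    rw [← hu]
    exact u.ne_zero
  set Q : Polynomial O := Polynomial.C ((u⁻¹ : Oˣ) : O) * P.map j with hQ
  have hQm : Q.Monic := by
    have h1 : (P.map j).leadingCoeff = j P.leadingCoeff :=
      Polynomial.leadingCoeff_map_of_leadingCoeff_ne_zero j hne
    rw [Polynomial.Monic, hQ, Polynomial.leadingCoeff_mul, Polynomial.leadingCoeff_C, h1, ← hu,
      Units.inv_mul]
  have hQt : Polynomial.eval₂ (algebraMap O Ω) t Q = 0 := by
    rw [hQ, Polynomial.eval₂_mul, Polynomial.eval₂_map]
    have h2 : (algebraMap O Ω).comp j = φ := RingHom.ext hφ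
    rw [h2, hP, mul_zero]
  have hint : IsIntegral O t := ⟨Q, hQm, hQt⟩
  obtain ⟨y, hy⟩ := IsIntegrallyClosed.isIntegral_iff.1 hint
  rw [← hy]
  exact y.2

end Pool.Agent.Y706
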