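import Pool.Agent.Y706.G5

set_option autoImplicit false

/-! Good places of function fields and of number fields. -/

namespace Pool.Agent.Y706

open Pool.Agent.H936R2 Pool.Agent.H927R2.RD H294UB Pool.Agent.W275.UB
  Pool.Agent.W193.UB Pool.Agent.W554.UB

/-- places of `F(X)` -/
theorem places_fun {K Ω F : Type} [Field F] [Infinite F] [Field K] [Algebra (Polynomial F) K]
    [IsFractionRing (Polynomial F) K] [Field Ω] [Algebra K Ω] [Algebra.IsAlgebraic K Ω]
    (hNP : NP F) : Places K Ω := by
  classical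
  intro T
  set φ : Polynomial F →+* Ω := (algebraMap K Ω).comp (algebraMap (Polynomial F) K) with hφ
  have hφi : Function.Injective φ :=
    (algebraMap K Ω).injective.comp (IsFractionRing.injective (Polynomial F) K)
  -- equations over the polynomial ring
  have hex : ∀ t : Ω, ∃ P : Polynomial (Polynomial F), P ≠ 0 ∧ P.eval₂ φ t = 0 := by
    intro t
    have h1 : IsAlgebraic K t := Algebra.IsAlgebraic.isAlgebraic t
    obtain ⟨Q, hQ, hQt⟩ := h1
    obtain ⟨b, hbM, hb⟩ := IsLocalization.integerNormalization_spec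
      (nonZeroDivisors (Polynomial F)) Q
    refine ⟨IsLocalization.integerNormalization (nonZeroDivisors (Polynomial F)) Q, ?_, ?_⟩
    · intro h0
      rw [h0, Polynomial.map_zero] at hb
      have h2 : algebraMap (Polynomial F) K (b : Polynomial F) ≠ 0 := by
        rw [Ne, FaithfulSMul.algebraMap_eq_zero_iff]
        exact nonZeroDivisors.ne_zero hbM
      have h3 : (b : Polynomial F) • Q = Polynomial.C (algebraMap (Polynomial F) K b) * Q := by
        rw [← Polynomial.smul_eq_C_mul, algebraMap_smul]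
      rw [h3] at hb
      rcases mul_eq_zero.1 hb.symm with h4 | h4
      · exact h2 (Polynomial.C_eq_zero.1 h4)
      · exact hQ h4
    · rw [hφ, ← Polynomial.eval₂_map, hb]
      have h3 : (b : Polynomial F) • Q = Polynomial.C (algebraMap (Polynomial F) K b) * Q := by
        rw [← Polynomial.smul_eq_C_mul, algebraMap_smul]
      rw [h3, Polynomial.eval₂_mul]
      have h4 : Polynomial.eval₂ (algebraMap K Ω) t Q = 0 := hQt
      rw [h4, mul_zero]
  choose P hP0 hPt using hex
  have hg : ∏ t ∈ T, (P t).leadingCoeff ≠ 0 :=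
    Finset.prod_ne_zero_iff.2 fun t _ => Polynomial.leadingCoeff_ne_zero.2 (hP0 t)
  obtain ⟨α, hα⟩ : ∃ α : F, Polynomial.eval α (∏ t ∈ T, (P t).leadingCoeff) ≠ 0 := by
    by_contra hcon
    push Not at hcon
    exact hg (Polynomial.funext fun r => by rw [hcon r, Polynomial.eval_zero])
  obtain ⟨O, ι, j, hj, hjι, hres⟩ := place (K := K) (Ω := Ω) (Polynomial.evalRingHom α)
    (fun c => ⟨Polynomial.C c, by simp⟩)
  refine ⟨O, F, inferInstance, ι.toAlgebra, ?_, ⟨hres, ?_⟩, hNP⟩
  · intro t ht
    refine mem_of_lead O j φ hj (P t) (hPt t) ?_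
    by_contra hu
    have h1 : IsLocalRing.residue O (j (P t).leadingCoeff) = 0 := by
      rw [IsLocalRing.residue_eq_zero_iff, IsLocalRing.mem_maximalIdeal]
      exact hu
    rw [hjι, map_eq_zero] at h1
    apply hα
    rw [Polynomial.eval_prod]
    exact Finset.prod_eq_zero ht h1
  · intro f
    have h1 : algebraMap K Ω (algebraMap (Polynomial F) K (Polynomial.C f)) ∈ O := by
      rw [← hj]
      exact (j (Polynomial.C f)).2
    refine ⟨algebraMap (Polynomial F) K (Polynomial.C f), h1, ?_⟩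
    have h2 : (⟨algebraMap K Ω (algebraMap (Polynomial F) K (Polynomial.C f)), h1⟩ : O) =
        j (Polynomial.C f) := Subtype.ext (hj _).symm
    rw [h2, hjι]
    show ι f = _
    simp

/-- places of number fields -/
theorem places_nf {k Ω : Type} [Field k] [NumberField k] [Field Ω] [Algebra k Ω]
    [Algebra.IsAlgebraic k Ω] (hNP : ∀ (F : Type) [Field F] [Finite F], NP F) : Places k Ω := by
  classical
  intro T
  have : CharZero Ω := charZero_of_injective_algebraMap (algebraMap k Ω).injective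
  have hex : ∀ t : Ω, ∃ P : Polynomial ℤ, P ≠ 0 ∧ P.eval₂ (Int.castRingHom Ω) t = 0 := by
    intro t
    have h1 : Algebra.IsAlgebraic ℤ k :=
      (IsFractionRing.comap_isAlgebraic_iff (A := ℤ) (K := ℚ) (C := k)).2 inferInstance
    have h2 : Algebra.IsAlgebraic ℤ Ω := Algebra.IsAlgebraic.trans ℤ k Ω
    obtain ⟨P, hP, hPt⟩ := h2.isAlgebraic t
    exact ⟨P, hP, hPt⟩
  choose P hP0 hPt using hex
  have hg : ∏ t ∈ T, (P t).leadingCoeff ≠ 0 :=
    Finset.prod_ne_zero_iff.2 fun t _ => Polynomial.leadingCoeff_ne_zero.2 (hP0 t)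
  obtain ⟨p, hpge, hp⟩ := Nat.exists_infinite_primes ((∏ t ∈ T, (P t).leadingCoeff).natAbs + 1)
  have hpn : ¬ (p : ℤ) ∣ ∏ t ∈ T, (P t).leadingCoeff := by
    intro h
    have h1 := Int.natAbs_dvd_natAbs.2 h
    rw [Int.natAbs_natCast] at h1
    have h2 := Nat.le_of_dvd (Nat.pos_of_ne_zero (Int.natAbs_ne_zero.2 hg)) h1
    omega
  obtain ⟨A, _, _, _, _, _, π, hπ, hπp, _, hfin⟩ := taskNF k (Module.finrank ℚ k) le_rfl p hp
  have hmax : (Ideal.span {π}).IsMaximal := PrincipalIdealRing.isMaximal_of_irreducible hπ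
  let iF : Field (A ⧸ Ideal.span {π}) := Ideal.Quotient.field (Ideal.span {π})
  have hF : Finite (A ⧸ Ideal.span {π}) := by
    have h1 := (hfin 1).1
    rwa [pow_one] at h1
  obtain ⟨O, ι, j, hj, hjι, hres⟩ := place (K := k) (Ω := Ω) (Ideal.Quotient.mk (Ideal.span {π}))
    Ideal.Quotient.mk_surjective
  refine ⟨O, A ⧸ Ideal.span {π}, iF, ι.toAlgebra, ?_, ⟨hres, ?_⟩, hNP _⟩
  · intro t ht
    refine mem_of_lead O (Int.castRingHom O) (Int.castRingHom Ω) (fun x => by simp) (P t)
      (hPt t) ?_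
    by_contra hu
    have h1 : IsLocalRing.residue O (Int.castRingHom O (P t).leadingCoeff) = 0 := by
      rw [IsLocalRing.residue_eq_zero_iff, IsLocalRing.mem_maximalIdeal]
      exact hu
    have hp0 : IsLocalRing.residue O (Int.castRingHom O (p : ℤ)) = 0 := by
      have h2 : (Int.castRingHom O (p : ℤ)) = j (p : A) := by simp
      rw [h2, hjι]
      have h3 : Ideal.Quotient.mk (Ideal.span {π}) (p : A) = 0 := by
        rw [Ideal.Quotient.eq_zero_iff_mem, Ideal.mem_span_singleton]
        exact hπp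
      rw [h3, map_zero]
    have hcop : IsCoprime (p : ℤ) (P t).leadingCoeff := by
      rw [Int.isCoprime_iff_gcd_eq_one]
      have h4 : ¬ (p : ℤ) ∣ (P t).leadingCoeff := fun h => hpn (h.trans (Finset.dvd_prod_of_mem _ ht))
      have h5 : ¬ p ∣ ((P t).leadingCoeff).natAbs := by
        intro h
        exact h4 (Int.natCast_dvd.2 h)
      exact (Nat.Prime.coprime_iff_not_dvd hp).2 h5
    obtain ⟨x, y, hxy⟩ := hcop
    have h6 := congrArg (fun z : ℤ => IsLocalRing.residue O (Int.castRingHom O z)) hxy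
    simp only [map_add, map_mul, map_one] at h6
    rw [h1, hp0, mul_zero, mul_zero, add_zero] at h6
    exact zero_ne_one h6
  · intro f
    obtain ⟨x, rfl⟩ := Ideal.Quotient.mk_surjective f
    have h1 : algebraMap k Ω (algebraMap A k x) ∈ O := by
      rw [← hj]
      exact (j x).2
    refine ⟨algebraMap A k x, h1, ?_⟩
    have h2 : (⟨algebraMap k Ω (algebraMap A k x), h1⟩ : O) = j x := Subtype.ext (hj _).symm
    rw [h2, hjι]
    rfl

end Pool.Agent.Y706
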