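import Pool.Agent.Y706.G6

set_option autoImplicit false

/-! Points of bounded degree over finite fields. -/

namespace Pool.Agent.Y706

open Pool.Agent.H936R2 Pool.Agent.H927R2.RD H294UB Pool.Agent.W275.UB
  Pool.Agent.W193.UB Pool.Agent.W554.UB

theorem np_finite (F : Type) [Field F] [Finite F] : NP F := by
  classical
  intro N d s v _ _ B
  set q := Nat.card F with hq
  have hq1 : 1 < q := Finite.one_lt_card
  set M := ∑ j ∈ Finset.range B, q ^ (j + 1) with hM
  refine ⟨M ^ (N + 1), ?_⟩
  intro κ _ _ X hX0 hXp _ hXd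
  set G : Polynomial κ := ∏ j ∈ Finset.range B, (Polynomial.X ^ q ^ (j + 1) - Polynomial.X) with hG
  have hne : ∀ j, (Polynomial.X ^ q ^ (j + 1) - Polynomial.X : Polynomial κ) ≠ 0 := fun j =>
    FiniteField.X_pow_card_sub_X_ne_zero κ (Nat.one_lt_pow (Nat.succ_ne_zero j) hq1)
  have hG0 : G ≠ 0 := Finset.prod_ne_zero_iff.2 fun j _ => hne j
  have hGd : G.natDegree ≤ M := by
    rw [hG]
    refine (Polynomial.natDegree_prod_le _ _).trans ?_
    refine Finset.sum_le_sum fun j _ => ?_
    rw [FiniteField.X_pow_card_sub_X_natDegree_eq κ (Nat.one_lt_pow (Nat.succ_ne_zero j) hq1)]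
  set Z : Finset κ := G.roots.toFinset with hZ
  have hZc : Z.card ≤ M :=
    (Multiset.toFinset_card_le _).trans ((Polynomial.card_roots' G).trans hGd)
  -- elements of small extensions are in `Z`
  have hmemZ : ∀ (E : IntermediateField F κ), FiniteDimensional F E → Module.finrank F E ≤ B →
      ∀ z ∈ E, z ∈ Z := by
    intro E hE hEB z hz
    have hEf : Finite E := Module.finite_of_finite F
    have hcard : Nat.card E = q ^ Module.finrank F E := Module.natCard_eq_pow_finrank
    have hpos : 0 < Module.finrank F E := Module.finrank_pos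
    have h1 : (⟨z, hz⟩ : E) ^ Nat.card E = ⟨z, hz⟩ := by
      have : Fintype E := Fintype.ofFinite E
      rw [Nat.card_eq_fintype_card]
      exact FiniteField.pow_card _
    rw [hcard] at h1
    have h2 : z ^ q ^ Module.finrank F E = z := congrArg Subtype.val h1
    rw [hZ, Multiset.mem_toFinset, Polynomial.mem_roots hG0, Polynomial.IsRoot.def, hG,
      Polynomial.eval_prod]
    apply Finset.prod_eq_zero (Finset.mem_range.2 (show Module.finrank F E - 1 < B by omega))
    rw [Nat.sub_add_cancel hpos, Polynomial.eval_sub, Polynomial.eval_pow, Polynomial.eval_X, h2,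
      sub_self]
  have hex : ∀ x : X, ∃ i, x.1 i ≠ 0 := fun x => Function.ne_iff.1 (hX0 x.1 x.2)
  choose i0 hi0 using hex
  let g : X → (Fin (N + 1) → κ) := fun x => (x.1 (i0 x))⁻¹ • x.1
  have hgZ : ∀ x : X, g x ∈ Fintype.piFinset fun _ : Fin (N + 1) => Z := by
    intro x
    rw [Fintype.mem_piFinset]
    intro j
    obtain ⟨E, hE1, hE2, c, hc, hE3⟩ := hXd x.1 x.2
    refine hmemZ E hE1 hE2 _ ?_
    have h1 : g x j = (c * x.1 (i0 x))⁻¹ * (c * x.1 j) := by
      simp only [g, Pi.smul_apply, smul_eq_mul]
      have := hi0 x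
      field_simp
    rw [h1]
    exact mul_mem (inv_mem (hE3 _)) (hE3 _)
  have hginj : Function.Injective g := by
    intro x y hxy
    apply Subtype.ext
    apply hXp x.1 x.2 y.1 y.2 (x.1 (i0 x) * (y.1 (i0 y))⁻¹)
    have h1 : x.1 = x.1 (i0 x) • g x := by
      simp only [g, smul_smul]
      rw [mul_inv_cancel₀ (hi0 x), one_smul]
    conv_lhs => rw [h1, hxy]
    simp only [g, smul_smul]
  calc X.card = (Finset.univ : Finset X).card := by rw [Finset.card_univ, Fintype.card_coe]
    _ = ((Finset.univ : Finset X).image g).card :=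
        (Finset.card_image_of_injective _ hginj).symm
    _ ≤ (Fintype.piFinset fun _ : Fin (N + 1) => Z).card := by
        apply Finset.card_le_card
        intro y hy
        obtain ⟨x, _, rfl⟩ := Finset.mem_image.1 hy
        exact hgZ x
    _ = Z.card ^ (N + 1) := by
        rw [Fintype.card_piFinset, Finset.prod_const, Finset.card_univ, Fintype.card_fin]
    _ ≤ M ^ (N + 1) := Nat.pow_le_pow_left hZc _

end Pool.Agent.Y706
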