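import Pool.Agent.Y706.G7

set_option autoImplicit false

/-! Ultrapowers of algebraically closed fields; families of polynomials. -/

namespace Pool.Agent.Y706

open MvPolynomial Pool.Agent.H936R2 Pool.Agent.H927R2.RD H294UB Pool.Agent.W275.UB
  Pool.Agent.W193.UB Pool.Agent.W554.UB NumberField

lemma box_ncard {ι : Type} [Fintype ι] (H : ℕ) :
    ({v | v ∈ (Set.univ : Set (ι → ℤ)) ∧ ∀ i, |v i| ≤ (H : ℤ)} : Set (ι → ℤ)).ncard =
      (2 * H + 1) ^ Fintype.card ι := by
  classical
  have h1 : ({v | v ∈ (Set.univ : Set (ι → ℤ)) ∧ ∀ i, |v i| ≤ (H : ℤ)} : Set (ι → ℤ)) =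
      ((Fintype.piFinset fun _ : ι => Finset.Icc (-(H : ℤ)) H : Finset (ι → ℤ)) : Set (ι → ℤ)) := by
    ext v
    simp only [Set.mem_univ, true_and, Set.mem_ofPred_eq, Finset.mem_coe, Fintype.mem_piFinset,
      Finset.mem_Icc, abs_le]
  rw [h1, Set.ncard_coe_finset, Fintype.card_piFinset, Finset.prod_const, Finset.card_univ,
    Int.card_Icc]
  congr 1
  omega

lemma not_UD_univ {ι : Type} [Fintype ι] {ε : ℝ} (hε : ε < 1) :
    ¬ UD ε (Set.univ : Set (ι → ℤ)) := by
  rintro ⟨H₀, h⟩
  have h1 := h H₀ le_rfl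
  rw [box_ncard] at h1
  push_cast at h1
  have h2 : (0 : ℝ) < (2 * (H₀ : ℝ) + 1) ^ Fintype.card ι := by positivity
  nlinarith

section up

variable {α : Type} {U : Ultrafilter α}

/-- ultrapowers of algebraically closed fields are algebraically closed -/
theorem up_closed {kb : Type} [Field kb] [IsAlgClosed kb] : IsAlgClosed (UP U kb) := by
  classical
  apply IsAlgClosed.of_exists_root
  intro p hp hirr
  have hdeg : 0 < p.natDegree := hirr.natDegree_pos
  choose f hf using fun i => up_surj (U := U) (k := kb) (p.coeff i)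
  set q : α → Polynomial kb := fun w => Polynomial.X ^ p.natDegree +
    ∑ i ∈ Finset.range p.natDegree, Polynomial.C (f i w) * Polynomial.X ^ i with hq
  have hlt : ∀ w, (∑ i ∈ Finset.range p.natDegree,
      Polynomial.C (f i w) * Polynomial.X ^ i).degree < (p.natDegree : WithBot ℕ) := by
    intro w
    refine (Polynomial.degree_sum_le _ _).trans_lt ?_
    refine (Finset.sup_lt_iff (WithBot.bot_lt_coe _)).2 ?_
    intro i hi
    refine (Polynomial.degree_C_mul_X_pow_le _ _).trans_lt ?_
    exact WithBot.coe_lt_coe.2 (Finset.mem_range.1 hi)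
  have hdq : ∀ w, (q w).degree ≠ 0 := by
    intro w
    rw [hq]
    simp only
    rw [Polynomial.degree_add_eq_left_of_degree_lt (by rw [Polynomial.degree_X_pow]; exact hlt w),
      Polynomial.degree_X_pow]
    intro h
    have h1 : p.natDegree = 0 := by exact_mod_cast h
    omega
  choose r hr using fun w => IsAlgClosed.exists_root (q w) (hdq w)
  refine ⟨up U kb r, ?_⟩
  rw [hp.as_sum, Polynomial.eval_add, Polynomial.eval_pow, Polynomial.eval_X,
    Polynomial.eval_finsetSum]
  have h1 : up U kb r ^ p.natDegree + ∑ i ∈ Finset.range p.natDegree,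
      Polynomial.eval (up U kb r) (Polynomial.C (p.coeff i) * Polynomial.X ^ i) =
      up U kb (r ^ p.natDegree + ∑ i ∈ Finset.range p.natDegree, f i * r ^ i) := by
    rw [map_add, map_pow, map_sum]
    congr 1
    refine Finset.sum_congr rfl fun i _ => ?_
    rw [Polynomial.eval_mul, Polynomial.eval_C, Polynomial.eval_pow, Polynomial.eval_X, map_mul,
      map_pow, hf]
  rw [h1, up_eq_zero]
  refine Filter.Eventually.of_forall fun w => ?_
  have h2 := hr w
  rw [Polynomial.IsRoot.def, hq] at h2
  simp only [Polynomial.eval_add, Polynomial.eval_pow, Polynomial.eval_X,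
    Polynomial.eval_finsetSum, Polynomial.eval_mul, Polynomial.eval_C] at h2
  simp only [Pi.add_apply, Pi.pow_apply, Finset.sum_apply, Pi.mul_apply]
  exact h2

variable {K k kb : Type} [Field K] [Field k] [Field kb] [Algebra k kb] (ψ : K →+* UP U k)

/-- a polynomial over a subfield of an ultrapower is a family of polynomials -/
lemma polyfam (P : Polynomial K) : ∃ Q : α → Polynomial k,
    ∀ b : α → kb, P.eval₂ ((jU (kb := kb) U).comp ψ) (up U kb b) =
      up U kb fun w => Polynomial.aeval (b w) (Q w) := by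
  classical
  choose f hf using fun i => up_surj (U := U) (k := k) (ψ (P.coeff i))
  refine ⟨fun w => ∑ i ∈ Finset.range (P.natDegree + 1), Polynomial.C (f i w) * Polynomial.X ^ i,
    fun b => ?_⟩
  rw [Polynomial.eval₂_eq_sum_range]
  have h1 : (fun w => Polynomial.aeval (b w)
      (∑ i ∈ Finset.range (P.natDegree + 1), Polynomial.C (f i w) * Polynomial.X ^ i)) =
      ∑ i ∈ Finset.range (P.natDegree + 1), (fun w => algebraMap k kb (f i w)) * b ^ i := by
    funext w
    simp only [map_sum, map_mul, Polynomial.aeval_C, map_pow, Polynomial.aeval_X,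
      Finset.sum_apply, Pi.mul_apply, Pi.pow_apply]
  rw [h1, map_sum]
  refine Finset.sum_congr rfl fun i _ => ?_
  rw [map_mul, map_pow, RingHom.comp_apply, ← hf i, jU_up]

lemma polyfam_monic (P : Polynomial K) (hP : P.Monic) : ∃ Q : α → Polynomial k,
    (∀ w, (Q w).Monic ∧ (Q w).natDegree = P.natDegree) ∧
    ∀ b : α → kb, P.eval₂ ((jU (kb := kb) U).comp ψ) (up U kb b) =
      up U kb fun w => Polynomial.aeval (b w) (Q w) := by
  classical
  choose f hf using fun i => up_surj (U := U) (k := k) (ψ (P.coeff i))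
  have hlt : ∀ w, (∑ i ∈ Finset.range P.natDegree,
      Polynomial.C (f i w) * Polynomial.X ^ i).degree < (P.natDegree : WithBot ℕ) := by
    intro w
    refine (Polynomial.degree_sum_le _ _).trans_lt ?_
    refine (Finset.sup_lt_iff (WithBot.bot_lt_coe _)).2 ?_
    intro i hi
    refine (Polynomial.degree_C_mul_X_pow_le _ _).trans_lt ?_
    exact WithBot.coe_lt_coe.2 (Finset.mem_range.1 hi)
  refine ⟨fun w => Polynomial.X ^ P.natDegree +
    ∑ i ∈ Finset.range P.natDegree, Polynomial.C (f i w) * Polynomial.X ^ i, fun w => ⟨?_, ?_⟩,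
    fun b => ?_⟩
  · exact Polynomial.monic_X_pow_add (hlt w)
  · apply Polynomial.natDegree_eq_of_degree_eq_some
    rw [Polynomial.degree_add_eq_left_of_degree_lt (by rw [Polynomial.degree_X_pow]; exact hlt w),
      Polynomial.degree_X_pow]
  · have h0 : P = Polynomial.X ^ P.natDegree +
        ∑ i ∈ Finset.range P.natDegree, Polynomial.C (P.coeff i) * Polynomial.X ^ i := hP.as_sum
    conv_lhs => rw [h0]
    rw [Polynomial.eval₂_add, Polynomial.eval₂_pow, Polynomial.eval₂_X,
      Polynomial.eval₂_finsetSum]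
    have h1 : (fun w => Polynomial.aeval (b w) (Polynomial.X ^ P.natDegree +
        ∑ i ∈ Finset.range P.natDegree, Polynomial.C (f i w) * Polynomial.X ^ i)) =
        b ^ P.natDegree +
        ∑ i ∈ Finset.range P.natDegree, (fun w => algebraMap k kb (f i w)) * b ^ i := by
      funext w
      simp only [map_add, map_sum, map_mul, Polynomial.aeval_C, map_pow, Polynomial.aeval_X,
        Finset.sum_apply, Pi.add_apply, Pi.mul_apply, Pi.pow_apply]
    rw [h1, map_add, map_pow, map_sum]
    congr 1
    refine Finset.sum_congr rfl fun i _ => ?_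
    rw [Polynomial.eval₂_mul, Polynomial.eval₂_C, Polynomial.eval₂_pow, Polynomial.eval₂_X,
      map_mul, map_pow, RingHom.comp_apply, ← hf i, jU_up]

end up

end Pool.Agent.Y706
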