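import Pool.Agent.Y706.G8

set_option autoImplicit false

/-! Periods of points of bounded degree over function fields over number fields. -/

namespace Pool.Agent.Y706

open MvPolynomial Pool.Agent.H936R2 Pool.Agent.H927R2.RD H294UB Pool.Agent.W275.UB
  Pool.Agent.W193.UB Pool.Agent.W554.UB NumberField

/-- periodic points of degree at most `B` have period dividing `e` -/
def PerB {K : Type} [Field K] {n d : ℕ} (v : Idx n d → K) (B e : ℕ) : Prop :=
  ∀ y : Fin n → AlgebraicClosure K, y ≠ 0 → DegLe K B y → ∀ m, 0 < m →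
    Rl (sy fun i => algebraMap K (AlgebraicClosure K) (v i)) y 0 m →
    Rl (sy fun i => algebraMap K (AlgebraicClosure K) (v i)) y 0 e

lemma adj_deg {k kb : Type} [Field k] [Field kb] [Algebra k kb] {b : kb} {Q : Polynomial k}
    (hQ : Q.Monic) (hb : Polynomial.aeval b Q = 0) :
    FiniteDimensional k (IntermediateField.adjoin k {b}) ∧
      Module.finrank k (IntermediateField.adjoin k {b}) ≤ Q.natDegree := by
  have hint : IsIntegral k b := ⟨Q, hQ, hb⟩
  refine ⟨IntermediateField.adjoin.finiteDimensional hint, ?_⟩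
  rw [IntermediateField.adjoin.finrank hint]
  exact Polynomial.natDegree_le_of_dvd (minpoly.dvd k b hb) hQ.ne_zero

/-- primitive elements for points -/
lemma exists_prim_elt {K Ω : Type} [Field K] [CharZero K] [Field Ω] [Algebra K Ω] {n B : ℕ}
    {y : Fin n → Ω} (hB : DegLe K B y) {i1 : Fin n} (hi1 : y i1 = 1) :
    ∃ (α : Ω) (g : Polynomial K) (h : Fin n → Polynomial K), g.Monic ∧ g.natDegree ≤ B ∧
      Polynomial.aeval α g = 0 ∧ ∀ j, Polynomial.aeval α (h j) = y j := by
  obtain ⟨E, hE1, hE2, c, hc, hE3⟩ := hB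
  have hyE : ∀ j, y j ∈ E := by
    intro j
    have h1 := hE3 i1
    rw [hi1, mul_one] at h1
    have h2 := mul_mem (inv_mem h1) (hE3 j)
    rwa [inv_mul_cancel_left₀ hc] at h2
  obtain ⟨α, hα⟩ := Field.exists_primitive_element K E
  have hint : IsIntegral K α := IsIntegral.of_finite K α
  refine ⟨(α : Ω), minpoly K α, ?_⟩
  have hdeg : (minpoly K α).natDegree ≤ B := by
    rw [← IntermediateField.adjoin.finrank hint, hα, IntermediateField.finrank_top']
    exact hE2
  have hex : ∀ j, ∃ P : Polynomial K, Polynomial.aeval (α : Ω) P = y j := by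
    intro j
    have h1 : (⟨y j, hyE j⟩ : E) ∈ IntermediateField.adjoin K {α} := by
      rw [hα]
      trivial
    have h2 : (⟨y j, hyE j⟩ : E) ∈ (IntermediateField.adjoin K {α}).toSubalgebra := h1
    rw [IntermediateField.adjoin_simple_toSubalgebra_of_isAlgebraic hint.isAlgebraic,
      Algebra.adjoin_singleton_eq_range_aeval] at h2
    obtain ⟨P, hP⟩ := h2
    refine ⟨P, ?_⟩
    have h3 := congrArg Subtype.val hP
    have h4 : Polynomial.aeval (α : Ω) P = ((Polynomial.aeval α P : E) : Ω) :=
      Polynomial.aeval_algHom_apply (IntermediateField.val E) α P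
    rw [h4]
    exact h3
  choose h hh using hex
  refine ⟨h, minpoly.monic hint, hdeg, ?_, hh⟩
  have h5 := Polynomial.aeval_algHom_apply (IntermediateField.val E) α (minpoly K α)
  rw [minpoly.aeval, map_zero] at h5
  exact h5

end Pool.Agent.Y706
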