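import Pool.Agent.W275.UB.Stm2

set_option autoImplicit false

/-! Norm polynomials of polynomials over an order. -/

namespace Pool.Agent.Y706

open MvPolynomial Pool.Agent.W275.UB

section

variable {O J ι : Type} [CommRing O] [IsDomain O] [CharZero O] [Fintype J]
  (ω : Module.Basis J ℤ O)

/-- the vector with coordinates `w` -/
noncomputable def vec (w : ι × J → ℤ) : ι → O := cv ω fun q => (w q : O)

omit [IsDomain O] [CharZero O] in
lemma exists_vec (v : ι → O) : ∃ w : ι × J → ℤ, vec ω w = v := by
  refine ⟨fun q => ω.repr (v q.1) q.2, ?_⟩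
  funext i
  have h := ω.sum_repr (v i)
  conv_rhs => rw [← h]
  simp only [vec, cv, zsmul_eq_mul]
  exact Finset.sum_congr rfl fun j _ => mul_comm _ _

/-- `c(v)` divides the nonzero integer polynomial `n(w)` -/
lemma norm_poly (c : MvPolynomial ι O) (hc : c ≠ 0) :
    ∃ n : MvPolynomial (ι × J) ℤ, n ≠ 0 ∧ ∀ w : ι × J → ℤ,
      eval (vec ω w) c ∣ ((eval w n : ℤ) : O) := by
  have : Module.Finite ℤ O := Module.Finite.of_basis ω
  have : Algebra.IsAlgebraic ℤ O := Algebra.IsIntegral.isAlgebraic
  have : Infinite O := Infinite.of_injective (fun n : ℕ => (n : O)) Nat.cast_injective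
  set θ : MvPolynomial ι O →ₐ[O] MvPolynomial (ι × J) O :=
    aeval fun i => ∑ j, C (ω j) * X (i, j) with hθ
  have hev : ∀ (w : ι × J → ℤ) (r : MvPolynomial ι O),
      eval (fun q => (w q : O)) (θ r) = eval (vec ω w) r := by
    intro w r
    have h1 : (eval (fun q => (w q : O))).comp (θ : MvPolynomial ι O →+* MvPolynomial (ι × J) O) =
        eval (vec ω w) := by
      apply MvPolynomial.ringHom_ext
      · intro x
        simp
      · intro i
        simp [hθ, vec, cv]
    exact congrArg (fun f => f r) h1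
  have hc' : θ c ≠ 0 := by
    intro h0
    apply hc
    apply MvPolynomial.funext
    intro v
    obtain ⟨w, hw⟩ := exists_vec ω v
    rw [← hw, ← hev, h0, map_zero, map_zero]
  obtain ⟨n, hn, e, he⟩ := MvPolynomial.exists_dvd_map_of_isAlgebraic (R := ℤ) hc'
  refine ⟨n, hn, fun w => ⟨eval (fun q => (w q : O)) e, ?_⟩⟩
  have h2 := congrArg (eval fun q => (w q : O)) he
  rw [map_mul, hev, eval_map] at h2
  rw [← h2]
  have h3 := MvPolynomial.eval₂_comp_left (algebraMap ℤ O) (RingHom.id ℤ) w n
  rw [RingHom.comp_id] at h3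
  exact h3

end

end Pool.Agent.Y706
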