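import Pool.Agent.W193.UB.Core
import Pool.Agent.W554.UB.Lmn
import Pool.Agent.Y706.Nrm

set_option autoImplicit false

/-! Periods at a prime of good reduction, for systems with coefficients in an order. -/

namespace Pool.Agent.Y706

open MvPolynomial Pool.Agent.H936R2 Pool.Agent.H927R2.RD H294UB Pool.Agent.W275.UB
  Pool.Agent.W193.UB Pool.Agent.W554.UB

/-- all monomials of degree `s` times `c` lie in the ideal of the forms -/
def MonC {R : Type} [CommRing R] {n : ℕ} (s : ℕ) (c : R) (P : Fin n → MvPolynomial (Fin n) R) :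
    Prop :=
  ∀ μ : Fin n →₀ ℕ, μ.degree = s → monomial μ c ∈ Ideal.span (Set.range P)

lemma MonC.map {R R' : Type} [CommRing R] [CommRing R'] (φ : R →+* R') {n d s : ℕ} {c : R}
    {v : Idx n d → R} (h : MonC s c (sy v)) : MonC s (φ c) (sy fun i => φ (v i)) := by
  intro μ hμ
  have h1 := Ideal.mem_map_of_mem (MvPolynomial.map φ) (h μ hμ)
  rw [Ideal.map_span, map_monomial] at h1
  have h2 : MvPolynomial.map φ '' Set.range (sy v) = Set.range (sy fun i => φ (v i)) := by
    rw [← Pool.Agent.W193.UB.map_sy, ← Set.range_comp]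
    rfl
  rwa [h2] at h1

lemma MonC.monIn {R : Type} [CommRing R] {n s : ℕ} {c : R} {P : Fin n → MvPolynomial (Fin n) R}
    (hc : IsUnit c) (h : MonC s c P) : MonIn s P := by
  intro μ hμ
  obtain ⟨u, rfl⟩ := hc
  have h1 := Ideal.mul_mem_left _ (C ((u⁻¹ : Rˣ) : R)) (h μ hμ)
  rwa [C_mul_monomial, Units.inv_mul] at h1

/-- the period of a rational periodic point, at a prime where `c` is a unit -/
theorem per_p (hItr : S_itr) (hLev : S_lev) {p D n W : ℕ} (hp : p.Prime) (hR : RedW p D n W)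
    {k : Type} [Field k] [NumberField k] (hD : Module.finrank ℚ k ≤ D) {O : Type} [CommRing O]
    [Module.Finite ℤ O] (σ : O →+* k) {d s : ℕ} (a : Idx n d → O) (c : O) (hM : MonC s c (sy a))
    (m : ℤ) (hcm : c ∣ (m : O)) (hpm : ¬ (p : ℤ) ∣ m) {y : Fin n → k} (hy : y ≠ 0) {t : ℕ}
    (ht : 0 < t) (hper : Rl (sy fun i => σ (a i)) y 0 t) :
    ∃ r : ℕ, Rl (sy fun i => σ (a i)) y 0 (W * p ^ r) := by
  obtain ⟨A, _, _, _, _, _, π, hπ, hπp, _, hj⟩ := taskNF k D hD p hp
  have himg : ∀ x : O, ∃ a : A, algebraMap A k a = σ x := by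
    intro x
    have h0 : IsIntegral ℤ x := Algebra.IsIntegral.isIntegral x
    have h1 : IsIntegral ℤ (σ x) := h0.map σ.toIntAlgHom
    have h2 : IsIntegral A (σ x) := h1.tower_top
    exact IsIntegrallyClosed.isIntegral_iff.1 h2
  have hinj : Function.Injective (algebraMap A k) := IsFractionRing.injective A k
  choose f hf using himg
  let σA : O →+* A :=
    { toFun := f
      map_one' := hinj (by rw [hf, map_one, map_one])
      map_mul' := fun x y => hinj (by rw [hf, map_mul, map_mul, hf, hf])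
      map_zero' := hinj (by rw [hf, map_zero, map_zero])
      map_add' := fun x y => hinj (by rw [hf, map_add, map_add, hf, hf]) }
  have hσA : ∀ x, algebraMap A k (σA x) = σ x := hf
  have hcu : IsUnit (σA c) := by
    have h1 := map_dvd σA hcm
    rw [map_intCast] at h1
    exact isUnit_of_dvd_unit h1 (unit_of_not_dvd hπ hp hπp hpm)
  have hG : Good (sy fun i => σA (a i)) := good_of_monIn ((hM.map σA).monIn hcu)
  obtain ⟨z, t', ht', hz, hxz⟩ := exists_prim' (A := A) π hπ (RingHom.id k) hy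
  have hav : ∀ i, algebraMap A k (σA (a i)) = (RingHom.id k) (σ (a i)) := fun i => hσA _
  have h1 := hj 1
  rw [pow_one, mul_one] at h1
  obtain ⟨r, hr⟩ := per_dvr hItr hLev hp hR π hπ hπp h1.1 h1.2
    (Pool.Agent.W193.UB.sy_hom fun i => σA (a i)) hG hz ht
    ((tr_rel (RingHom.id k) hav ht' hxz hG hz 0 t).1 hper)
  exact ⟨r, (tr_rel (RingHom.id k) hav ht' hxz hG hz 0 _).2 hr⟩

/-- the period of a rational periodic point, at two primes where `c` is a unit -/
theorem per_pq (hItr : S_itr) (hLev : S_lev) {p q D n Wp Wq : ℕ} (hp : p.Prime) (hq : q.Prime)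
    (hpq : p ≠ q) (hRp : RedW p D n Wp) (hRq : RedW q D n Wq)
    {k : Type} [Field k] [NumberField k] (hD : Module.finrank ℚ k ≤ D) {O : Type} [CommRing O]
    [Module.Finite ℤ O] (σ : O →+* k) {d s : ℕ} (a : Idx n d → O) (c : O) (hM : MonC s c (sy a))
    (m : ℤ) (hcm : c ∣ (m : O)) (hpm : ¬ (p : ℤ) ∣ m) (hqm : ¬ (q : ℤ) ∣ m)
    {y : Fin n → k} (hy : y ≠ 0) {t : ℕ}
    (ht : 0 < t) (hper : Rl (sy fun i => σ (a i)) y 0 t) :
    Rl (sy fun i => σ (a i)) y 0 (Wp * Wq) := by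
  obtain ⟨r, hr⟩ := per_p hItr hLev hp hRp hD σ a c hM m hcm hpm hy ht hper
  obtain ⟨r', hr'⟩ := per_p hItr hLev hq hRq hD σ a c hM m hcm hqm hy ht hper
  have hs := Pool.Agent.W193.UB.sy_hom fun i => σ (a i)
  have hg := Rl.gcd hs _ _ hr hr'
  refine hg.dvd hs ?_
  have h1 : Nat.gcd (Wp * p ^ r) (Wq * q ^ r') ∣
      Nat.gcd (Wp * Wq * p ^ r) (Wp * Wq * q ^ r') := by
    apply Nat.dvd_gcd
    · exact (Nat.gcd_dvd_left _ _).trans ⟨Wq, by ring⟩
    · exact (Nat.gcd_dvd_right _ _).trans ⟨Wp, by ring⟩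
  rw [Nat.gcd_mul_left] at h1
  have h2 : Nat.gcd (p ^ r) (q ^ r') = 1 :=
    Nat.Coprime.pow r r' ((Nat.coprime_primes hp hq).2 hpq)
  rwa [h2, mul_one] at h1

end Pool.Agent.Y706
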