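import Pool.Agent.W333.ND.HAlg
import Pool.Agent.Y706.G14

set_option autoImplicit false

/-! Hénon maps: the maps, their functoriality, and algebraicity of the periodic points. -/

namespace Pool.Agent.Y706

open Pool.Agent.H504D (hen card_periodic_le)

/-- indices of the data of a Hénon map: `none` for the denominator `μ`, `some none` for `δ`,
`some (some i)` for the coefficient `a_i` -/
abbrev Hq (d : ℕ) : Type := Option (Option (Fin (d + 1)))

/-- the polynomial of the Hénon map -/
noncomputable def pF {L : Type} [Field L] {d : ℕ} (q : Hq d → L) : Polynomial L :=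
  ∑ i : Fin (d + 1), Polynomial.C (q (some (some i)) / q none) * Polynomial.X ^ (i : ℕ)

/-- the Hénon map `(x, y) ↦ (y, (∑ a_i y^i - δ x) / μ)` -/
noncomputable def hnm {L : Type} [Field L] {d : ℕ} (q : Hq d → L) (P : L × L) : L × L :=
  (P.2, ((∑ i : Fin (d + 1), q (some (some i)) * P.2 ^ (i : ℕ)) - q (some none) * P.1) / q none)

section

variable {L : Type} [Field L] {d : ℕ}

lemma pF_eval (q : Hq d → L) (x : L) :
    (pF q).eval x = (∑ i : Fin (d + 1), q (some (some i)) * x ^ (i : ℕ)) / q none := by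
  unfold pF
  rw [Polynomial.eval_finsetSum, Finset.sum_div]
  refine Finset.sum_congr rfl fun i _ => ?_
  simp only [Polynomial.eval_mul, Polynomial.eval_C, Polynomial.eval_pow, Polynomial.eval_X]
  ring

lemma hnm_eq (q : Hq d → L) : hnm q = hen (pF q) (q (some none) / q none) := by
  funext P
  unfold hnm hen
  rw [pF_eval]
  ext
  · rfl
  · simp only
    ring

lemma pF_coeff (q : Hq d → L) (n : ℕ) : (pF q).coeff n =
    if h : n < d + 1 then q (some (some ⟨n, h⟩)) / q none else 0 := by
  unfold pF
  rw [Polynomial.finsetSum_coeff]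
  simp only [Polynomial.coeff_C_mul, Polynomial.coeff_X_pow]
  split_ifs with hn
  · rw [Finset.sum_eq_single ⟨n, hn⟩]
    · simp
    · intro j _ hj
      have : n ≠ (j : ℕ) := fun h => hj (Fin.ext h.symm)
      simp [this]
    · intro h; exact absurd (Finset.mem_univ _) h
  · refine Finset.sum_eq_zero fun j _ => ?_
    have : n ≠ (j : ℕ) := fun h => hn (h ▸ j.2)
    simp [this]

lemma pF_natDegree (q : Hq d → L) (h1 : q (some (some (Fin.last d))) ≠ 0) (h2 : q none ≠ 0) :
    (pF q).natDegree = d := by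
  apply le_antisymm
  · rw [Polynomial.natDegree_le_iff_coeff_eq_zero]
    intro n hn
    rw [pF_coeff, dif_neg (by omega)]
  · apply Polynomial.le_natDegree_of_ne_zero
    rw [pF_coeff, dif_pos (Nat.lt_succ_self d)]
    exact div_ne_zero h1 h2

/-- functoriality -/
lemma hnm_map {L' : Type} [Field L'] (φ : L →+* L') (q : Hq d → L) (P : L × L) :
    hnm (fun i => φ (q i)) (φ P.1, φ P.2) = (φ (hnm q P).1, φ (hnm q P).2) := by
  unfold hnm
  ext
  · rfl
  · simp only [map_div₀, map_sub, map_mul, map_sum, map_pow]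

lemma hnm_iter_map {L' : Type} [Field L'] (φ : L →+* L') (q : Hq d → L) (P : L × L) (n : ℕ) :
    (hnm (fun i => φ (q i)))^[n] (φ P.1, φ P.2) = (φ ((hnm q)^[n] P).1, φ ((hnm q)^[n] P).2) := by
  induction n with
  | zero => rfl
  | succ n ih => rw [Function.iterate_succ_apply', Function.iterate_succ_apply', ih, hnm_map]

lemma hnm_per_map {L' : Type} [Field L'] (φ : L →+* L') (q : Hq d → L) (P : L × L) (n : ℕ) :
    (hnm (fun i => φ (q i)))^[n] (φ P.1, φ P.2) = (φ P.1, φ P.2) ↔ (hnm q)^[n] P = P := by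
  rw [hnm_iter_map]
  constructor
  · intro h
    ext
    · exact φ.injective (congrArg Prod.fst h)
    · exact φ.injective (congrArg Prod.snd h)
  · intro h
    rw [h]

/-- scaling -/
lemma hnm_scale {c : L} (hc : c ≠ 0) (q : Hq d → L) : hnm (fun i => c * q i) = hnm q := by
  funext P
  unfold hnm
  ext
  · rfl
  · simp only
    have h1 : (∑ i : Fin (d + 1), c * q (some (some i)) * P.2 ^ (i : ℕ)) - c * q (some none) * P.1 =
        c * ((∑ i : Fin (d + 1), q (some (some i)) * P.2 ^ (i : ℕ)) - q (some none) * P.1) := by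
      rw [mul_sub, Finset.mul_sum]
      congr 1
      · exact Finset.sum_congr rfl fun i _ => by ring
      · ring
    rw [h1, mul_div_mul_left _ _ hc]

/-- the number of points of period `e` -/
lemma card_hnm (hd : 2 ≤ d) (q : Hq d → L) (h1 : q (some (some (Fin.last d))) ≠ 0)
    (h2 : q none ≠ 0) {e : ℕ} (he : 0 < e) (S : Finset (L × L))
    (hS : ∀ P ∈ S, (hnm q)^[e] P = P) : S.card ≤ d ^ e := by
  have h := card_periodic_le (pF q) (q (some none) / q none) S e he
    (by rw [pF_natDegree q h1 h2]; exact hd) (by rw [← hnm_eq]; exact hS)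
  rwa [pF_natDegree q h1 h2] at h

end

/-- the points of period `e` are algebraic, over algebraically closed fields -/
lemma alg_hnm0 {E Ω : Type} [Field E] [Field Ω] [IsAlgClosed Ω] [Algebra E Ω] {d e : ℕ}
    (hd : 2 ≤ d) (he : 0 < e) (q : Hq d → E) (h1 : q (some (some (Fin.last d))) ≠ 0)
    (h2 : q none ≠ 0) (P : Ω × Ω) (hP : (hnm fun i => algebraMap E Ω (q i))^[e] P = P) :
    IsAlgebraic E P.1 ∧ IsAlgebraic E P.2 := by
  classical
  set v : Hq d → Ω := fun i => algebraMap E Ω (q i) with hv
  have hv1 : v (some (some (Fin.last d))) ≠ 0 := (map_ne_zero _).2 h1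
  have hv2 : v none ≠ 0 := (map_ne_zero _).2 h2
  let ix : ℕ → Fin e := fun t => ⟨t % e, Nat.mod_lt _ he⟩
  let g : Fin e → MvPolynomial (Fin e) E := fun i =>
    MvPolynomial.C (q none) * MvPolynomial.X (ix (i + 2)) -
      ((∑ k : Fin (d + 1), MvPolynomial.C (q (some (some k))) * MvPolynomial.X (ix (i + 1)) ^ (k : ℕ)) -
        MvPolynomial.C (q (some none)) * MvPolynomial.X i)
  have hg : ∀ (x : Fin e → Ω) (i : Fin e), MvPolynomial.aeval x (g i) = v none * x (ix (i + 2)) -
      ((∑ k : Fin (d + 1), v (some (some k)) * x (ix (i + 1)) ^ (k : ℕ)) - v (some none) * x i) := by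
    intro x i
    simp only [g, map_sub, map_mul, map_sum, map_pow, MvPolynomial.aeval_X, MvPolynomial.aeval_C, hv]
  have hcnt : ∀ S : Finset (Fin e → Ω), (∀ x ∈ S, ∀ p ∈ Set.range g, MvPolynomial.aeval x p = 0) →
      S.card ≤ d ^ e := by
    intro S hS
    have horb : ∀ x ∈ S, ∀ t : ℕ, (hnm v)^[t] (x (ix 0), x (ix 1)) =
        (x (ix t), x (ix (t + 1))) := by
      intro x hx t
      induction t with
      | zero => rfl
      | succ t ih =>
        rw [Function.iterate_succ_apply', ih]
        have h1 := hS x hx (g (ix t)) ⟨_, rfl⟩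
        rw [hg] at h1
        have e1 : ix ((ix t : ℕ) + 2) = ix (t + 2) := by
          apply Fin.ext; simp [ix, Nat.mod_add_mod]
        have e2 : ix ((ix t : ℕ) + 1) = ix (t + 1) := by
          apply Fin.ext; simp [ix, Nat.mod_add_mod]
        rw [e1, e2] at h1
        unfold hnm
        have h2 : v none * x (ix (t + 2)) = (∑ k : Fin (d + 1), v (some (some k)) *
          x (ix (t + 1)) ^ (k : ℕ)) - v (some none) * x (ix t) := sub_eq_zero.1 h1
        ext
        · rfl
        · simp only
          rw [show t + 1 + 1 = t + 2 from rfl, ← h2, mul_div_cancel_left₀ _ hv2]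
    have himg : ∀ P ∈ S.image (fun x => (x (ix 0), x (ix 1))), (hnm v)^[e] P = P := by
      intro P hP
      obtain ⟨x, hx, rfl⟩ := Finset.mem_image.1 hP
      rw [horb x hx e]
      have e1 : ix e = ix 0 := by apply Fin.ext; simp [ix]
      have e2 : ix (e + 1) = ix 1 := by apply Fin.ext; simp [ix]
      rw [e1, e2]
    have hinj : Set.InjOn (fun x : Fin e → Ω => (x (ix 0), x (ix 1))) S := by
      intro x hx x' hx' h
      simp only at h
      funext i
      have h1 := horb x hx i
      have h2 := horb x' hx' i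
      rw [h, h2] at h1
      have h3 := congrArg Prod.fst h1
      have e1 : ix (i : ℕ) = i := by
        apply Fin.ext
        exact Nat.mod_eq_of_lt i.2
      simp only [e1] at h3
      exact h3.symm
    have h4 := card_hnm hd v hv1 hv2 he _ himg
    rwa [Finset.card_image_of_injOn hinj] at h4
  let y : ℕ → Ω := fun t => ((hnm v)^[t] P).1
  have hy1 : ∀ t, y (t + 1) = ((hnm v)^[t] P).2 := by
    intro t
    simp only [y]
    rw [Function.iterate_succ_apply']
    rfl
  have hyp : Function.Periodic y e := by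
    intro t
    simp only [y]
    rw [Function.iterate_add_apply, hP]
  have hrec : ∀ t, v none * y (t + 2) = (∑ k : Fin (d + 1), v (some (some k)) *
      y (t + 1) ^ (k : ℕ)) - v (some none) * y t := by
    intro t
    have h3 : y (t + 2) = (hnm v ((hnm v)^[t] P)).2 := by
      rw [hy1 (t + 1), Function.iterate_succ_apply']
    have h4 : ∀ R : Ω × Ω, v none * (hnm v R).2 = (∑ k : Fin (d + 1), v (some (some k)) *
        R.2 ^ (k : ℕ)) - v (some none) * R.1 := by
      intro R
      simp only [hnm]
      rw [mul_div_cancel₀ _ hv2]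
    rw [h3, hy1 t, h4]
  have hfin := Pool.Agent.W125.UB.FinT.fin_main E Ω e (d ^ e) (Set.range g) hcnt
    (fun i => y i) (by
      rintro _ ⟨i, rfl⟩
      rw [hg]
      have e1 : y ((ix (i + 2) : Fin e) : ℕ) = y (i + 2) := hyp.map_mod_nat _
      have e2 : y ((ix (i + 1) : Fin e) : ℕ) = y (i + 1) := hyp.map_mod_nat _
      simp only [e1, e2]
      rw [sub_eq_zero]
      exact hrec i)
  have halg : ∀ t, IsAlgebraic E (y t) := by
    intro t
    have h1 := hfin (ix t)
    have h2 : y ((ix t : Fin e) : ℕ) = y t := hyp.map_mod_nat _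
    simp only [h2] at h1
    exact h1
  refine ⟨halg 0, ?_⟩
  have h3 := halg 1
  rw [hy1 0] at h3
  exact h3

/-- the points of period `e` are algebraic -/
lemma alg_hnm {E Ω : Type} [Field E] [Field Ω] [Algebra E Ω] {d e : ℕ}
    (hd : 2 ≤ d) (he : 0 < e) (q : Hq d → E) (h1 : q (some (some (Fin.last d))) ≠ 0)
    (h2 : q none ≠ 0) (P : Ω × Ω) (hP : (hnm fun i => algebraMap E Ω (q i))^[e] P = P) :
    IsAlgebraic E P.1 ∧ IsAlgebraic E P.2 := by
  have hinj : Function.Injective (algebraMap Ω (AlgebraicClosure Ω)) :=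
    (algebraMap Ω (AlgebraicClosure Ω)).injective
  have hmap : (fun i => algebraMap E (AlgebraicClosure Ω) (q i)) =
      fun i => algebraMap Ω (AlgebraicClosure Ω) (algebraMap E Ω (q i)) := by
    funext i
    exact IsScalarTower.algebraMap_apply E Ω (AlgebraicClosure Ω) _
  have h3 := alg_hnm0 (Ω := AlgebraicClosure Ω) hd he q h1 h2
    (algebraMap Ω (AlgebraicClosure Ω) P.1, algebraMap Ω (AlgebraicClosure Ω) P.2) (by
      rw [hmap, hnm_per_map]
      exact hP)
  exact ⟨(isAlgebraic_algebraMap_iff hinj).1 h3.1, (isAlgebraic_algebraMap_iff hinj).1 h3.2⟩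

end Pool.Agent.Y706
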