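import Pool.Agent.Y706.HN1
import Pool.Agent.W240.ND.Hper

set_option autoImplicit false

/-! Hénon maps: the periods of points of bounded degree. -/

namespace Pool.Agent.Y706

open H294UB Pool.Agent.W275.UB Pool.Agent.W554.UB NumberField

/-- the period bound above the prime `p` -/
def PerH (p D W : ℕ) : Prop :=
  ∀ (A : Type) [CommRing A] [IsDomain A] [IsDiscreteValuationRing A] (K : Type) [Field K]
  [Algebra A K] [IsFractionRing A K] (π : A), Irreducible π → π ∣ (p : A) →
  Finite (A ⧸ Ideal.span {π}) → Nat.card (A ⧸ Ideal.span {π}) ≤ p ^ D →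
  ∀ (F : Polynomial A) (δ : A), 2 ≤ F.natDegree → IsUnit F.leadingCoeff → IsUnit δ →
  ∀ y : ℕ → K, (∀ t, y (t + 2) =
    (F.map (algebraMap A K)).eval (y (t + 1)) - algebraMap A K δ * y t) →
  (∃ n, 0 < n ∧ ∀ t, y (t + n) = y t) → ∃ r : ℕ, ∀ t, y (t + W * p ^ r) = y t

lemma exists_perH (p D : ℕ) (hp : p.Prime) : ∃ W : ℕ, 0 < W ∧ PerH p D W :=
  W240.ND.Hper.main p D hp

/-- the periods at one place -/
theorem per_h {p D W : ℕ} (hp : p.Prime) (hW : PerH p D W)
    {k : Type} [Field k] [NumberField k] (hD : Module.finrank ℚ k ≤ D) {O : Type} [CommRing O]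
    [Module.Finite ℤ O] (σ : O →+* k) {d : ℕ} (hd : 2 ≤ d) (a : Hq d → O) (m : ℤ)
    (hcm : a none * a (some none) * a (some (some (Fin.last d))) ∣ (m : O)) (hpm : ¬ (p : ℤ) ∣ m)
    {P : k × k} {t : ℕ} (ht : 0 < t) (hper : (hnm fun i => σ (a i))^[t] P = P) :
    ∃ r : ℕ, (hnm fun i => σ (a i))^[W * p ^ r] P = P := by
  obtain ⟨A, _, _, _, _, _, π, hπ, hπp, _, hj⟩ := taskNF k D hD p hp
  have himg : ∀ x : O, ∃ a : A, algebraMap A k a = σ x := by
    intro x
    have h0 : IsIntegral ℤ x := Algebra.IsIntegral.isIntegral x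
    have h1 : IsIntegral ℤ (σ x) := h0.map σ.toIntAlgHom
    have h2 : IsIntegral A (σ x) := h1.tower_top
    exact IsIntegrallyClosed.isIntegral_iff.1 h2
  have hinj : Function.Injective (algebraMap A k) := IsFractionRing.injective A k
  choose f hf using himg
  let σA : O →+* A :=
    { toFun := f
      map_one' := hinj (by rw [hf, map_one, map_one])
      map_mul' := fun x y => hinj (by rw [hf, map_mul, map_mul, hf, hf])
      map_zero' := hinj (by rw [hf, map_zero, map_zero])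
      map_add' := fun x y => hinj (by rw [hf, map_add, map_add, hf, hf]) }
  have hσA : ∀ x, algebraMap A k (σA x) = σ x := hf
  have hcu : IsUnit (σA (a none * a (some none) * a (some (some (Fin.last d))))) := by
    have h1 := map_dvd σA hcm
    rw [map_intCast] at h1
    exact isUnit_of_dvd_unit h1 (unit_of_not_dvd hπ hp hπp hpm)
  rw [map_mul, map_mul, IsUnit.mul_iff, IsUnit.mul_iff] at hcu
  obtain ⟨⟨hμ, hδ⟩, hl⟩ := hcu
  obtain ⟨u, hu⟩ := hμ
  have h1 := hj 1
  rw [pow_one, mul_one] at h1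
  -- the polynomial over `A`
  set G : Polynomial A := ∑ i : Fin (d + 1), Polynomial.C (σA (a (some (some i)))) *
    Polynomial.X ^ (i : ℕ) with hG
  have hGc : ∀ n : ℕ, G.coeff n = if h : n < d + 1 then σA (a (some (some ⟨n, h⟩))) else 0 := by
    intro n
    rw [hG, Polynomial.finsetSum_coeff]
    simp only [Polynomial.coeff_C_mul, Polynomial.coeff_X_pow]
    split_ifs with hn
    · rw [Finset.sum_eq_single ⟨n, hn⟩]
      · simp
      · intro j _ hj
        have : n ≠ (j : ℕ) := fun h => hj (Fin.ext h.symm)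
        simp [this]
      · intro h; exact absurd (Finset.mem_univ _) h
    · refine Finset.sum_eq_zero fun j _ => ?_
      have : n ≠ (j : ℕ) := fun h => hn (h ▸ j.2)
      simp [this]
  have hGd : G.natDegree = d := by
    apply le_antisymm
    · rw [Polynomial.natDegree_le_iff_coeff_eq_zero]
      intro n hn
      rw [hGc, dif_neg (by omega)]
    · apply Polynomial.le_natDegree_of_ne_zero
      rw [hGc, dif_pos (Nat.lt_succ_self d)]
      exact hl.ne_zero
  have hGl : G.leadingCoeff = σA (a (some (some (Fin.last d)))) := by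
    rw [Polynomial.leadingCoeff, hGd, hGc, dif_pos (Nat.lt_succ_self d)]
    rfl
  set F : Polynomial A := Polynomial.C ((u⁻¹ : Aˣ) : A) * G with hF
  have hFd : F.natDegree = d := by
    rw [hF, Polynomial.natDegree_C_mul (u⁻¹).ne_zero, hGd]
  have hFl : IsUnit F.leadingCoeff := by
    rw [hF, Polynomial.leadingCoeff_mul, Polynomial.leadingCoeff_C, hGl]
    exact (u⁻¹).isUnit.mul hl
  have huk : algebraMap A k ((u⁻¹ : Aˣ) : A) = (σ (a none))⁻¹ := by
    apply eq_inv_of_mul_eq_one_left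
    rw [← hσA, ← hu, ← map_mul, Units.inv_mul, map_one]
  let q : Hq d → k := fun i => σ (a i)
  let y : ℕ → k := fun t => ((hnm q)^[t] P).1
  have hy1 : ∀ t, y (t + 1) = ((hnm q)^[t] P).2 := by
    intro t
    simp only [y]
    rw [Function.iterate_succ_apply']
    rfl
  have hFe : ∀ x : k, (F.map (algebraMap A k)).eval x = (∑ i : Fin (d + 1),
      q (some (some i)) * x ^ (i : ℕ)) / q none := by
    intro x
    rw [hF, Polynomial.map_mul, Polynomial.map_C, Polynomial.eval_mul, Polynomial.eval_C, huk,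
      hG, Polynomial.map_sum, Polynomial.eval_finsetSum, div_eq_inv_mul]
    congr 1
    refine Finset.sum_congr rfl fun i _ => ?_
    rw [Polynomial.map_mul, Polynomial.map_C, Polynomial.map_pow, Polynomial.map_X,
      Polynomial.eval_mul, Polynomial.eval_C, Polynomial.eval_pow, Polynomial.eval_X, hσA]
  have hrec : ∀ t, y (t + 2) = (F.map (algebraMap A k)).eval (y (t + 1)) -
      algebraMap A k (((u⁻¹ : Aˣ) : A) * σA (a (some none))) * y t := by
    intro t
    have h3 : y (t + 2) = (hnm q ((hnm q)^[t] P)).2 := by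
      rw [hy1 (t + 1), Function.iterate_succ_apply']
    have h4 : ∀ R : k × k, (hnm q R).2 = (F.map (algebraMap A k)).eval R.2 -
        algebraMap A k (((u⁻¹ : Aˣ) : A) * σA (a (some none))) * R.1 := by
      intro R
      rw [hFe, map_mul, huk, hσA]
      simp only [hnm, q]
      ring
    rw [h3, hy1 t, h4]
  obtain ⟨r, hr⟩ := hW A k π hπ hπp h1.1 h1.2 F (((u⁻¹ : Aˣ) : A) * σA (a (some none)))
    (by rw [hFd]; exact hd) hFl ((u⁻¹).isUnit.mul hδ) y hrec ⟨t, ht, fun s => by
      simp only [y]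
      rw [Function.iterate_add_apply]
      exact congrArg (fun R => ((hnm q)^[s] R).1) hper⟩
  refine ⟨r, ?_⟩
  have h5 := hr 0
  have h6 := hr 1
  rw [zero_add] at h5
  rw [Nat.add_comm 1, hy1, hy1 0] at h6
  ext
  · exact h5
  · exact h6

/-- the periods at two places -/
theorem per_hh {p q D Wp Wq : ℕ} (hp : p.Prime) (hq : q.Prime) (hpq : p ≠ q)
    (hWp : PerH p D Wp) (hWq : PerH q D Wq)
    {k : Type} [Field k] [NumberField k] (hD : Module.finrank ℚ k ≤ D) {O : Type} [CommRing O]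
    [Module.Finite ℤ O] (σ : O →+* k) {d : ℕ} (hd : 2 ≤ d) (a : Hq d → O) (m : ℤ)
    (hcm : a none * a (some none) * a (some (some (Fin.last d))) ∣ (m : O)) (hpm : ¬ (p : ℤ) ∣ m)
    (hqm : ¬ (q : ℤ) ∣ m)
    {P : k × k} {t : ℕ} (ht : 0 < t) (hper : (hnm fun i => σ (a i))^[t] P = P) :
    (hnm fun i => σ (a i))^[Wp * Wq] P = P := by
  obtain ⟨r, hr⟩ := per_h hp hWp hD σ hd a m hcm hpm ht hper
  obtain ⟨r', hr'⟩ := per_h hq hWq hD σ hd a m hcm hqm ht hper
  have h0 : Function.IsPeriodicPt (hnm fun i => σ (a i)) (Wp * p ^ r) P := hr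
  have h0' : Function.IsPeriodicPt (hnm fun i => σ (a i)) (Wq * q ^ r') P := hr'
  have hg := h0.gcd h0'
  have hdvd : Nat.gcd (Wp * p ^ r) (Wq * q ^ r') ∣ Wp * Wq := by
    have h1 : Nat.gcd (Wp * p ^ r) (Wq * q ^ r') ∣
        Nat.gcd (Wp * Wq * p ^ r) (Wp * Wq * q ^ r') := by
      apply Nat.dvd_gcd
      · exact (Nat.gcd_dvd_left _ _).trans ⟨Wq, by ring⟩
      · exact (Nat.gcd_dvd_right _ _).trans ⟨Wp, by ring⟩
    rw [Nat.gcd_mul_left] at h1
    have h2 : Nat.gcd (p ^ r) (q ^ r') = 1 :=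
      Nat.Coprime.pow r r' ((Nat.coprime_primes hp hq).2 hpq)
    rwa [h2, mul_one] at h1
  exact hg.trans_dvd hdvd

/-- the point is defined over an extension of degree at most `B` -/
def PB (K : Type) {L : Type} [Field K] [Field L] [Algebra K L] (B : ℕ) (P : L × L) : Prop :=
  ∃ E : IntermediateField K L, FiniteDimensional K E ∧ Module.finrank K E ≤ B ∧ P.1 ∈ E ∧ P.2 ∈ E

lemma PB_iff {K L : Type} [Field K] [Field L] [Algebra K L] {B : ℕ} {P : L × L} :
    PB K B P ↔ DegLe K B ![P.1, P.2, 1] := by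
  constructor
  · rintro ⟨E, h1, h2, h3, h4⟩
    refine ⟨E, h1, h2, 1, one_ne_zero, fun j => ?_⟩
    rw [one_mul]
    fin_cases j
    · exact h3
    · exact h4
    · exact one_mem E
  · rintro ⟨E, h1, h2, c, hc, h3⟩
    have h4 := h3 2
    have h5 : c ∈ E := by simpa using h4
    refine ⟨E, h1, h2, ?_, ?_⟩
    · have h6 := mul_mem (inv_mem h5) (h3 0)
      rwa [inv_mul_cancel_left₀ hc] at h6
    · have h6 := mul_mem (inv_mem h5) (h3 1)
      rwa [inv_mul_cancel_left₀ hc] at h6

/-- the periods of the points of degree at most `B` -/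
theorem per_hB {p q D Wp Wq B : ℕ} (hp : p.Prime) (hq : q.Prime) (hpq : p ≠ q)
    (hWp : PerH p D Wp) (hWq : PerH q D Wq)
    {k kb : Type} [Field k] [NumberField k] [Field kb] [Algebra k kb]
    (hD : Module.finrank ℚ k * B ≤ D) {d : ℕ} (hd : 2 ≤ d) (a : Hq d → 𝓞 k) (m : ℤ)
    (hcm : a none * a (some none) * a (some (some (Fin.last d))) ∣ (m : 𝓞 k))
    (hpm : ¬ (p : ℤ) ∣ m) (hqm : ¬ (q : ℤ) ∣ m) {P : kb × kb} (hP : PB k B P) {t : ℕ} (ht : 0 < t)
    (hper : (hnm fun i => algebraMap k kb (algebraMap (𝓞 k) k (a i)))^[t] P = P) :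
    (hnm fun i => algebraMap k kb (algebraMap (𝓞 k) k (a i)))^[Wp * Wq] P = P := by
  obtain ⟨E, hE1, hE2, h1, h2⟩ := hP
  have : NumberField E := NumberField.of_module_finite k E
  have hfr : Module.finrank ℚ E ≤ D := by
    rw [← Module.finrank_mul_finrank ℚ k E]
    exact (Nat.mul_le_mul_left _ hE2).trans hD
  have hco : (fun i => algebraMap k kb (algebraMap (𝓞 k) k (a i))) =
      fun i => algebraMap E kb (((algebraMap k E).comp (algebraMap (𝓞 k) k)) (a i)) := by
    funext i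
    exact IsScalarTower.algebraMap_apply k E kb _
  have hPE : P = (algebraMap E kb ((⟨P.1, h1⟩ : E), (⟨P.2, h2⟩ : E)).1,
      algebraMap E kb ((⟨P.1, h1⟩ : E), (⟨P.2, h2⟩ : E)).2) := rfl
  rw [hco, hPE, hnm_per_map] at hper ⊢
  exact per_hh hp hq hpq hWp hWq hfr ((algebraMap k E).comp (algebraMap (𝓞 k) k)) hd a m hcm hpm
    hqm ht hper

end Pool.Agent.Y706
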