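import Pool.Agent.Y706.HN2

set_option autoImplicit false

/-! Hénon maps: transfer from an ultrapower. -/

namespace Pool.Agent.Y706

open H294UB Pool.Agent.W275.UB Pool.Agent.W554.UB NumberField

/-- at most `C` periodic points of degree at most `B` -/
def FewH {K : Type} (L : Type) [Field K] [Field L] [Algebra K L] {d : ℕ} (B C : ℕ)
    (q : Hq d → K) : Prop :=
  ∀ X : Finset (L × L), (∀ P ∈ X, ∃ n : ℕ, 0 < n ∧
    (hnm fun i => algebraMap K L (q i))^[n] P = P) → (∀ P ∈ X, PB K B P) → X.card ≤ C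

section germs

variable {α : Type} {U : Ultrafilter α} {k : Type} [Field k]

lemma up_inv (x : α → k) : (up U k x)⁻¹ = up U k fun w => (x w)⁻¹ := by
  by_cases h0 : up U k x = 0
  · rw [h0, inv_zero, eq_comm, up_eq_zero]
    rw [up_eq_zero] at h0
    filter_upwards [h0] with w hw
    rw [hw, inv_zero]
  · symm
    apply eq_inv_of_mul_eq_one_left
    rw [← map_mul, ← map_one (up U k), up_eq]
    have h1 : ∀ᶠ w in (U : Filter α), x w ≠ 0 := by
      rw [up_eq_zero] at h0
      exact Ultrafilter.eventually_not.2 h0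
    filter_upwards [h1] with w hw
    rw [Pi.mul_apply, inv_mul_cancel₀ hw, Pi.one_apply]

lemma up_div (x y : α → k) : up U k x / up U k y = up U k fun w => x w / y w := by
  rw [div_eq_mul_inv, up_inv, ← map_mul]
  congr 1
  funext w
  rw [Pi.mul_apply, div_eq_mul_inv]

lemma hnm_up {d : ℕ} (q : Hq d → α → k) (P : α → k × k) :
    hnm (fun i => up U k (q i)) (up U k fun w => (P w).1, up U k fun w => (P w).2) =
      (up U k fun w => (hnm (fun i => q i w) (P w)).1,
        up U k fun w => (hnm (fun i => q i w) (P w)).2) := by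
  unfold hnm
  ext
  · rfl
  · simp only
    rw [← up_div]
    congr 1
    have h1 : (fun w => (∑ i : Fin (d + 1), q (some (some i)) w * (P w).2 ^ (i : ℕ)) -
        q (some none) w * (P w).1) =
        (∑ i : Fin (d + 1), q (some (some i)) * (fun w => (P w).2) ^ (i : ℕ)) -
        q (some none) * fun w => (P w).1 := by
      funext w
      simp only [Pi.sub_apply, Finset.sum_apply, Pi.mul_apply, Pi.pow_apply]
    rw [h1]
    simp only [map_sub, map_sum, map_mul, map_pow]

lemma hnm_iter_up {d : ℕ} (q : Hq d → α → k) (P : α → k × k) (n : ℕ) :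
    (hnm (fun i => up U k (q i)))^[n] (up U k fun w => (P w).1, up U k fun w => (P w).2) =
      (up U k fun w => ((hnm (fun i => q i w))^[n] (P w)).1,
        up U k fun w => ((hnm (fun i => q i w))^[n] (P w)).2) := by
  induction n with
  | zero => rfl
  | succ n ih =>
    rw [Function.iterate_succ_apply', ih, hnm_up]
    simp only [Function.iterate_succ_apply']

lemma hnm_per_up {d : ℕ} (q : Hq d → α → k) (P : α → k × k) (n : ℕ) :
    (hnm (fun i => up U k (q i)))^[n] (up U k fun w => (P w).1, up U k fun w => (P w).2) =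
      (up U k fun w => (P w).1, up U k fun w => (P w).2) ↔
    ∀ᶠ w in (U : Filter α), (hnm (fun i => q i w))^[n] (P w) = P w := by
  rw [hnm_iter_up, Prod.mk.injEq, up_eq, up_eq, ← Filter.eventually_and]
  constructor
  · intro h
    filter_upwards [h] with w hw
    exact Prod.ext hw.1 hw.2
  · intro h
    filter_upwards [h] with w hw
    rw [hw]
    exact ⟨rfl, rfl⟩

end germs

/-- **upper transfer** -/
theorem upH {α : Type} {U : Ultrafilter α} {K k kb : Type} [Field K] [CharZero K] [Field k]
    [Field kb] [Algebra k kb] (ψ : K →+* UP U k)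
    (hcl : ∀ z : UP U k, (∃ g : Polynomial K, g ≠ 0 ∧ g.eval₂ ψ z = 0) → ∃ y, ψ y = z)
    {d e B C : ℕ} (hd : 2 ≤ d) (he : 0 < e) (q : Hq d → K)
    (h1 : q (some (some (Fin.last d))) ≠ 0) (h2 : q none ≠ 0) (qw : Hq d → α → k)
    (hq : ∀ i, ψ (q i) = up U k (qw i)) (P : α → Fin (C + 1) → kb × kb)
    (h : ∀ᶠ w in (U : Filter α), (∀ l l', P w l = P w l' → l = l') ∧
      (∀ l, (hnm fun i => algebraMap k kb (qw i w))^[e] (P w l) = P w l) ∧
      ∀ l, PB k B (P w l)) :
    ¬ FewH (AlgebraicClosure K) B C q := by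
  classical
  let iE : Algebra K (UP U k) := ψ.toAlgebra
  let iO : Algebra (UP U k) (UP U kb) := (jU U).toAlgebra
  let iK : Algebra K (UP U kb) := ((jU (kb := kb) U).comp ψ).toAlgebra
  have iT : IsScalarTower K (UP U k) (UP U kb) := IsScalarTower.of_algebraMap_eq fun _ => rfl
  let Xp : Fin (C + 1) → UP U kb × UP U kb := fun l =>
    (up U kb fun w => (P w l).1, up U kb fun w => (P w l).2)
  have hco : (fun i => algebraMap K (UP U kb) (q i)) =
      fun i => up U kb fun w => algebraMap k kb (qw i w) := by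
    funext i
    show jU U (ψ (q i)) = _
    rw [hq, jU_up]
  have hXper : ∀ l, (hnm fun i => algebraMap K (UP U kb) (q i))^[e] (Xp l) = Xp l := by
    intro l
    rw [hco]
    have h3 := (hnm_per_up (U := U) (fun i w => algebraMap k kb (qw i w)) (fun w => P w l) e).2
    exact h3 (by
      filter_upwards [h] with w hw
      exact hw.2.1 l)
  have hXinj : ∀ l l', Xp l = Xp l' → l = l' := by
    intro l l' hll
    have h3 := up_eq.1 (congrArg Prod.fst hll)
    have h4 := up_eq.1 (congrArg Prod.snd hll)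
    obtain ⟨w, ⟨hw, hw1⟩, hw2⟩ := ((h.and h3).and h4).exists
    exact hw.1 l l' (Prod.ext hw1 hw2)
  have halg : ∀ l, IsAlgebraic K (Xp l).1 ∧ IsAlgebraic K (Xp l).2 := fun l =>
    alg_hnm hd he q h1 h2 (Xp l) (hXper l)
  -- degrees
  have hEx : ∀ w l, ∃ F : IntermediateField k kb, PB k B (P w l) → (FiniteDimensional k F ∧
      Module.finrank k F ≤ B ∧ (P w l).1 ∈ F ∧ (P w l).2 ∈ F) := by
    intro w l
    by_cases h3 : PB k B (P w l)
    · obtain ⟨F, hF⟩ := h3
      exact ⟨F, fun _ => hF⟩
    · exact ⟨⊥, fun h4 => absurd h4 h3⟩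
  choose F hF using hEx
  have hXd : ∀ l, ∀ θ ∈ IntermediateField.adjoin K (Set.range ![(Xp l).1, (Xp l).2]),
      ∃ g : Polynomial (UP U k), g.Monic ∧ g.natDegree ≤ B ∧ Polynomial.aeval θ g = 0 := by
    intro l θ hθ
    have h9 : IntermediateField.adjoin K (Set.range ![(Xp l).1, (Xp l).2]) ≤
        germF (k := k) (K := K) (fun y => ⟨_, rfl⟩) (fun w => F w l) := by
      rw [IntermediateField.adjoin_le_iff]
      rintro _ ⟨i, rfl⟩
      fin_cases i
      · refine ⟨fun w => (P w l).1, rfl, ?_⟩
        filter_upwards [h] with w hw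
        exact (hF w l (hw.2.2 l)).2.2.1
      · refine ⟨fun w => (P w l).2, rfl, ?_⟩
        filter_upwards [h] with w hw
        exact (hF w l (hw.2.2 l)).2.2.2
    obtain ⟨f, rfl, hf⟩ := h9 hθ
    refine deg_up f (fun w => F w l) B ?_
    filter_upwards [h, hf] with w hw hw'
    exact ⟨hw', (hF w l (hw.2.2 l)).1, (hF w l (hw.2.2 l)).2.1⟩
  have hcl' : ∀ z : UP U k, IsAlgebraic K z → ∃ y, algebraMap K (UP U k) y = z := by
    rintro z ⟨g, hg, hgz⟩
    exact hcl z ⟨g, hg, hgz⟩
  -- to the algebraic closure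
  set A := algebraicClosure K (UP U kb) with hA
  let Xa : Fin (C + 1) → A × A := fun l =>
    (⟨(Xp l).1, (mem_algebraicClosure_iff).2 (halg l).1⟩,
      ⟨(Xp l).2, (mem_algebraicClosure_iff).2 (halg l).2⟩)
  let τ : A →ₐ[K] AlgebraicClosure K := IsAlgClosed.lift
  let Y : Fin (C + 1) → AlgebraicClosure K × AlgebraicClosure K := fun l =>
    (τ (Xa l).1, τ (Xa l).2)
  have hXaper : ∀ l, (hnm fun i => algebraMap K A (q i))^[e] (Xa l) = Xa l := by
    intro l
    rw [← hnm_per_map (algebraMap A (UP U kb))]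
    exact hXper l
  have hYper : ∀ l, (hnm fun i => algebraMap K (AlgebraicClosure K) (q i))^[e] (Y l) = Y l := by
    intro l
    have h5 : (fun i => (τ : A →+* AlgebraicClosure K) (algebraMap K A (q i))) =
        fun i => algebraMap K (AlgebraicClosure K) (q i) := funext fun i => τ.commutes (q i)
    rw [← h5]
    exact (hnm_per_map (τ : A →+* AlgebraicClosure K) (fun i => algebraMap K A (q i)) (Xa l) e).2
      (hXaper l)
  have hYinj : ∀ l l', Y l = Y l' → l = l' := by
    intro l l' hll
    apply hXinj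
    have h3 := τ.toRingHom.injective (congrArg Prod.fst hll)
    have h4 := τ.toRingHom.injective (congrArg Prod.snd hll)
    exact Prod.ext (congrArg Subtype.val h3) (congrArg Subtype.val h4)
  intro hfew
  have h13 := hfew (Finset.univ.image Y) (by
    intro y hy
    obtain ⟨l, _, rfl⟩ := Finset.mem_image.1 hy
    exact ⟨e, he, hYper l⟩) (by
    intro y hy
    obtain ⟨l, _, rfl⟩ := Finset.mem_image.1 hy
    obtain ⟨hfd, hfr⟩ := finrank_adjoin_le hcl' ![(Xp l).1, (Xp l).2] (by
      intro i
      fin_cases i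
      · exact (halg l).1
      · exact (halg l).2) (hXd l)
    have hle : IntermediateField.adjoin K (Set.range ![(Xp l).1, (Xp l).2]) ≤ A := by
      rw [IntermediateField.adjoin_le_iff]
      rintro _ ⟨i, rfl⟩
      fin_cases i
      · exact (Xa l).1.2
      · exact (Xa l).2.2
    let τM := τ.comp (IntermediateField.inclusion hle)
    let eM := AlgEquiv.ofInjectiveField τM
    refine ⟨τM.fieldRange, ?_, ?_, ?_, ?_⟩
    · exact Module.Finite.equiv eM.toLinearEquiv
    · exact le_trans (le_of_eq (LinearEquiv.finrank_eq eM.toLinearEquiv).symm) hfr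
    · exact ⟨⟨(Xp l).1, IntermediateField.subset_adjoin _ _ ⟨0, rfl⟩⟩, rfl⟩
    · exact ⟨⟨(Xp l).2, IntermediateField.subset_adjoin _ _ ⟨1, rfl⟩⟩, rfl⟩)
  rw [Finset.card_image_of_injective, Finset.card_univ, Fintype.card_fin] at h13
  · omega
  · intro l l' hll
    exact hYinj l l' hll

end Pool.Agent.Y706
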