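import Pool.Agent.Y706.HN3

set_option autoImplicit false

/-! Hénon maps: transfer to an ultrapower. -/

namespace Pool.Agent.Y706

open H294UB Pool.Agent.W275.UB Pool.Agent.W554.UB NumberField

section

variable {α : Type} {U : Ultrafilter α} {K k kb : Type} [Field K] [CharZero K] [Field k]
    [Field kb] [Algebra k kb] (ψ : K →+* UP U k) (τ : AlgebraicClosure K →+* UP U kb)
    (hτ : ∀ c, τ (algebraMap K (AlgebraicClosure K) c) = jU U (ψ c))

include hτ in
/-- a point as a family of points -/
lemma famH {B : ℕ} {P : AlgebraicClosure K × AlgebraicClosure K} (hP : PB K B P) :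
    ∃ Q : α → kb × kb, (τ P.1 = up U kb fun w => (Q w).1) ∧ (τ P.2 = up U kb fun w => (Q w).2) ∧
      ∀ᶠ w in (U : Filter α), PB k B (Q w) := by
  obtain ⟨x, h1, h2, h3⟩ := fam ψ τ hτ (z := ![P.1, P.2, 1]) (i1 := 2) rfl (PB_iff.1 hP)
  refine ⟨fun w => (x w 0, x w 1), h1 0, h1 1, ?_⟩
  filter_upwards [h2, h3] with w hw hw'
  rw [PB_iff]
  have h4 : ![x w 0, x w 1, 1] = x w := by
    funext j
    fin_cases j
    · rfl
    · rfl
    · exact hw'.symm
  rw [h4]
  exact hw

include hτ in
lemma perH_fam {d n : ℕ} {q : Hq d → K} {qw : Hq d → α → k} (hq : ∀ i, ψ (q i) = up U k (qw i))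
    {P : AlgebraicClosure K × AlgebraicClosure K} {Q : α → kb × kb}
    (h1 : τ P.1 = up U kb fun w => (Q w).1) (h2 : τ P.2 = up U kb fun w => (Q w).2) :
    (hnm fun i => algebraMap K (AlgebraicClosure K) (q i))^[n] P = P ↔
      ∀ᶠ w in (U : Filter α), (hnm fun i => algebraMap k kb (qw i w))^[n] (Q w) = Q w := by
  have hco : (fun i => τ (algebraMap K (AlgebraicClosure K) (q i))) =
      fun i => up U kb fun w => algebraMap k kb (qw i w) := by
    funext i
    rw [hτ, hq, jU_up]
  rw [← hnm_per_map τ, hco, h1, h2]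
  exact hnm_per_up (U := U) (fun i w => algebraMap k kb (qw i w)) Q n

include hτ in
/-- points of the generic member give points of almost all members -/
theorem lowH {d B C : ℕ} {q : Hq d → K} {qw : Hq d → α → k} (hq : ∀ i, ψ (q i) = up U k (qw i))
    (h : ¬ FewH (AlgebraicClosure K) B C q) :
    ∀ᶠ w in (U : Filter α), ¬ FewH kb B C fun i => qw i w := by
  classical
  unfold FewH at h
  push Not at h
  obtain ⟨X, hXper, hXd, hXc⟩ := h
  have hfam : ∀ P : X, ∃ Q : α → kb × kb, (τ P.1.1 = up U kb fun w => (Q w).1) ∧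
      (τ P.1.2 = up U kb fun w => (Q w).2) ∧ ∀ᶠ w in (U : Filter α), PB k B (Q w) :=
    fun P => famH ψ τ hτ (hXd P.1 P.2)
  choose Q hQ1 hQ2 hQB using hfam
  have hQper : ∀ P : X, ∀ᶠ w in (U : Filter α), ∃ n : ℕ, 0 < n ∧
      (hnm fun i => algebraMap k kb (qw i w))^[n] (Q P w) = Q P w := by
    intro P
    obtain ⟨n, hn, h1⟩ := hXper P.1 P.2
    have h2 := (perH_fam ψ τ hτ hq (hQ1 P) (hQ2 P)).1 h1
    filter_upwards [h2] with w hw
    exact ⟨n, hn, hw⟩
  have hQne : ∀ P P' : X, P ≠ P' → ∀ᶠ w in (U : Filter α), Q P w ≠ Q P' w := by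
    intro P P' hPP
    refine Ultrafilter.eventually_not.2 fun h1 => hPP ?_
    apply Subtype.ext
    apply Prod.ext
    · apply τ.injective
      rw [hQ1, hQ1, up_eq]
      filter_upwards [h1] with w hw
      rw [hw]
    · apply τ.injective
      rw [hQ2, hQ2, up_eq]
      filter_upwards [h1] with w hw
      rw [hw]
  have h1' := (Filter.eventually_all (l := (U : Filter α))).2 hQper
  have h2' := (Filter.eventually_all (l := (U : Filter α))).2 hQB
  have h3' : ∀ᶠ w in (U : Filter α), ∀ P P' : X, P ≠ P' → Q P w ≠ Q P' w := by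
    rw [Filter.eventually_all]
    intro P
    rw [Filter.eventually_all]
    intro P'
    by_cases h1 : P = P'
    · exact Filter.Eventually.of_forall fun w h2 => absurd h1 h2
    · filter_upwards [hQne P P' h1] with w hw _
      exact hw
  filter_upwards [h1', h2', h3'] with w h1 h2 h3 hfew
  have hinj : Function.Injective fun P : X => Q P w := by
    intro P P' hPP
    by_contra hne
    exact h3 P P' hne hPP
  have h5 := hfew (Finset.univ.image fun P : X => Q P w) (by
    intro z hz
    obtain ⟨P, _, rfl⟩ := Finset.mem_image.1 hz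
    exact h1 P) (by
    intro z hz
    obtain ⟨P, _, rfl⟩ := Finset.mem_image.1 hz
    exact h2 P)
  rw [Finset.card_image_of_injective _ hinj, Finset.card_univ, Fintype.card_coe] at h5
  omega

include hτ in
/-- the periods of the points of the generic member -/
theorem periodH {d B e : ℕ} {q : Hq d → K} {qw : Hq d → α → k}
    (hq : ∀ i, ψ (q i) = up U k (qw i))
    (h : ∀ᶠ w in (U : Filter α), ∀ P : kb × kb, PB k B P → ∀ n : ℕ, 0 < n →
      (hnm fun i => algebraMap k kb (qw i w))^[n] P = P →
      (hnm fun i => algebraMap k kb (qw i w))^[e] P = P)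
    {P : AlgebraicClosure K × AlgebraicClosure K} (hP : PB K B P) {n : ℕ} (hn : 0 < n)
    (hper : (hnm fun i => algebraMap K (AlgebraicClosure K) (q i))^[n] P = P) :
    (hnm fun i => algebraMap K (AlgebraicClosure K) (q i))^[e] P = P := by
  obtain ⟨Q, h1, h2, h3⟩ := famH ψ τ hτ hP
  have h4 := (perH_fam ψ τ hτ hq h1 h2).1 hper
  rw [perH_fam ψ τ hτ hq h1 h2]
  filter_upwards [h, h3, h4] with w hw hw1 hw2
  exact hw _ hw1 n hn hw2

end

/-- the embedding of the algebraic closure -/
lemma exists_tauU {α : Type} {U : Ultrafilter α} {K k kb : Type} [Field K] [Field k]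
    [Field kb] [IsAlgClosed kb] [Algebra k kb] (ψ : K →+* UP U k) :
    ∃ τ : AlgebraicClosure K →+* UP U kb,
      ∀ c, τ (algebraMap K (AlgebraicClosure K) c) = jU U (ψ c) := by
  let iO : Algebra K (UP U kb) := ((jU (kb := kb) U).comp ψ).toAlgebra
  have hac : IsAlgClosed (UP U kb) := up_closed
  let τ : AlgebraicClosure K →ₐ[K] UP U kb := IsAlgClosed.lift
  exact ⟨(τ : _ →+* UP U kb), fun c => τ.commutes c⟩

section

variable {k : Type} [Field k] [NumberField k] {J : Type} [Fintype J] {m : ℕ}
  (ω : Module.Basis J ℤ (𝓞 k)) {U : Ultrafilter (Fin (m + 1) × J → ℤ)}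

/-- the field of rational functions in the ultrapower -/
noncomputable def psiT (hU : Gen U) : FractionRing (MvPolynomial (Fin m) k) →+* UP U k :=
  (psiF ω W883.UB.Dens.main hU).comp (TM k m)

lemma psiF_kap (hU : Gen U) (c : k) :
    psiF ω W883.UB.Dens.main hU (kap c) = algebraMap k (UP U k) c := by
  have h1 : (psiF ω W883.UB.Dens.main hU).comp (kap (k := k) (ι := Fin (m + 1))) =
      algebraMap k (UP U k) := by
    apply IsLocalization.ringHom_ext (nonZeroDivisors (𝓞 k))
    apply RingHom.ext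
    intro x
    rw [RingHom.comp_apply, RingHom.comp_apply, RingHom.comp_apply, ← kap_spec, psiF_algebraMap,
      rho_C]
  exact congrArg (fun f => f c) h1

lemma psiT_apply (hU : Gen U) (r : MvPolynomial (Fin m) k) :
    psiT ω hU (algebraMap _ _ r) = up U k fun w => MvPolynomial.eval (tp ω w) r := by
  have h1 : ((psiF ω W883.UB.Dens.main hU).comp
      ((MvPolynomial.aeval (yy (xx k m)) : MvPolynomial (Fin m) k →ₐ[k] KK k (Fin (m + 1))) :
        MvPolynomial (Fin m) k →+* KK k (Fin (m + 1)))) =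
      (up U k).comp (RingHom.pi fun w => MvPolynomial.eval (tp ω w)) := by
    apply MvPolynomial.ringHom_ext
    · intro c
      have h2 : (MvPolynomial.aeval (yy (xx k m))) (MvPolynomial.C c : MvPolynomial (Fin m) k) =
          kap c := MvPolynomial.aeval_C _ _
      show psiF ω W883.UB.Dens.main hU (MvPolynomial.aeval (yy (xx k m)) (MvPolynomial.C c)) =
        up U k fun w => MvPolynomial.eval (tp ω w) (MvPolynomial.C c)
      rw [h2, psiF_kap, algebraMap_up]
      congr 1
      funext w
      rw [MvPolynomial.eval_C]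
    · intro l
      show psiF ω W883.UB.Dens.main hU (MvPolynomial.aeval (yy (xx k m)) (MvPolynomial.X l)) =
        up U k fun w => MvPolynomial.eval (tp ω w) (MvPolynomial.X l)
      rw [MvPolynomial.aeval_X, yy, map_div₀, xx, xx, psiF_algebraMap, psiF_algebraMap, rho_apply,
        rho_apply, up_div]
      congr 1
      funext w
      rw [MvPolynomial.eval_X, MvPolynomial.eval_X, MvPolynomial.eval_X]
      rfl
  rw [psiT, RingHom.comp_apply, TM_apply]
  exact congrArg (fun f => f r) h1

lemma psiT_closed (hU : Gen U) (z : UP U k)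
    (h : ∃ g : Polynomial (FractionRing (MvPolynomial (Fin m) k)), g ≠ 0 ∧
      g.eval₂ (psiT ω hU) z = 0) : ∃ y, psiT ω hU y = z := by
  obtain ⟨g, hg, hgz⟩ := h
  obtain ⟨y, hy⟩ := psiF_closed ω W883.UB.Dens.main urel hU z ⟨g.map (TM k m),
    (Polynomial.map_ne_zero_iff (TM k m).injective).2 hg, by
      rw [Polynomial.eval₂_map]
      exact hgz⟩
  obtain ⟨y', hy'⟩ := TM_cl y ⟨g, hg, by
    apply (psiF ω W883.UB.Dens.main hU).injective
    rw [Polynomial.hom_eval₂, hy, map_zero]
    exact hgz⟩
  exact ⟨y', by rw [psiT, RingHom.comp_apply, hy', hy]⟩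

end

end Pool.Agent.Y706
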