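import Pool.Agent.Y706.HN4

set_option autoImplicit false

/-! Families of Hénon maps: periods of the members, and the counting theorems. -/

namespace Pool.Agent.Y706

open MvPolynomial H294UB Pool.Agent.W275.UB Pool.Agent.W554.UB NumberField

section

variable {k : Type} [Field k] [NumberField k] {J : Type} [Fintype J] {m : ℕ}
  (ω : Module.Basis J ℤ (𝓞 k))

/-- integral data for the members of a family -/
theorem integral_data {d : ℕ} (q : Hq d → MvPolynomial (Fin m) k) (hq0 : q none ≠ 0)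
    (hq1 : q (some none) ≠ 0) (hq2 : q (some (some (Fin.last d))) ≠ 0) :
    ∃ n : MvPolynomial (Fin (m + 1) × J) ℤ, n ≠ 0 ∧ ∀ w : Fin (m + 1) × J → ℤ, eval w n ≠ 0 →
      vec ω w 0 ≠ 0 ∧ eval (tp ω w) (q none) ≠ 0 ∧ eval (tp ω w) (q (some none)) ≠ 0 ∧
      eval (tp ω w) (q (some (some (Fin.last d)))) ≠ 0 ∧
      ∃ (a : Hq d → 𝓞 k) (c : k), c ≠ 0 ∧
        (∀ i, algebraMap (𝓞 k) k (a i) = c * eval (tp ω w) (q i)) ∧
        a none * a (some none) * a (some (some (Fin.last d))) ∣ ((eval w n : ℤ) : 𝓞 k) := by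
  classical
  obtain ⟨c, hc, hci⟩ := exists_mult q
  set e : ℕ := Finset.univ.sup fun i => (q i).totalDegree with he
  have hve : ∀ i, (q i).totalDegree ≤ e := fun i =>
    Finset.le_sup (f := fun i => (q i).totalDegree) (Finset.mem_univ i)
  set A : Fin m → MvPolynomial (Fin (m + 1)) (𝓞 k) := fun l => X l.succ with hA
  set B₀ : MvPolynomial (Fin (m + 1)) (𝓞 k) := X 0 with hB₀
  set a : Hq d → MvPolynomial (Fin (m + 1)) (𝓞 k) := fun i => homm A B₀ c e (q i) with ha
  have hB₀0 : B₀ ≠ 0 := MvPolynomial.X_ne_zero 0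
  have hBK : algebraMap (MvPolynomial (Fin (m + 1)) (𝓞 k)) (KK k (Fin (m + 1))) B₀ ≠ 0 := by
    rw [Ne, FaithfulSMul.algebraMap_eq_zero_iff]
    exact hB₀0
  set u : KK k (Fin (m + 1)) := kap c *
    algebraMap (MvPolynomial (Fin (m + 1)) (𝓞 k)) (KK k (Fin (m + 1))) B₀ ^ e with hu
  have hu0 : u ≠ 0 := mul_ne_zero ((map_ne_zero kap).2 hc) (pow_ne_zero _ hBK)
  have haK : ∀ i, algebraMap (MvPolynomial (Fin (m + 1)) (𝓞 k)) (KK k (Fin (m + 1))) (a i) =
      u * TM k m (algebraMap (MvPolynomial (Fin m) k)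
        (FractionRing (MvPolynomial (Fin m) k)) (q i)) := by
    intro i
    rw [ha]
    simp only
    rw [homm_map kap (algebraMap (MvPolynomial (Fin (m + 1)) (𝓞 k)) (KK k (Fin (m + 1)))) kap_spec
      hBK (q i) (hve i) (hci i), TM_apply, aeval_kap]
    rfl
  have hane : ∀ i, q i ≠ 0 → a i ≠ 0 := by
    intro i hi h0
    have h1 := haK i
    rw [h0, map_zero] at h1
    have h2 : TM k m (algebraMap (MvPolynomial (Fin m) k)
        (FractionRing (MvPolynomial (Fin m) k)) (q i)) ≠ 0 := by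
      rw [map_ne_zero, Ne, FaithfulSMul.algebraMap_eq_zero_iff]
      exact hi
    exact mul_ne_zero hu0 h2 h1.symm
  obtain ⟨n, hn, hdvd⟩ := norm_poly ω
    (B₀ * (a none * a (some none) * a (some (some (Fin.last d))))) (mul_ne_zero hB₀0
      (mul_ne_zero (mul_ne_zero (hane _ hq0) (hane _ hq1)) (hane _ hq2)))
  refine ⟨n, hn, fun w hw => ?_⟩
  have h1 := hdvd w
  have h2 : eval (vec ω w) (B₀ * (a none * a (some none) * a (some (some (Fin.last d))))) ≠ 0 := by
    intro h0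
    rw [h0, zero_dvd_iff] at h1
    exact hw (by exact_mod_cast h1)
  rw [map_mul, map_mul, map_mul] at h2 h1
  have h3 := left_ne_zero_of_mul h2
  have h4 := right_ne_zero_of_mul h2
  have h5 := right_ne_zero_of_mul h4
  have h6 := left_ne_zero_of_mul (left_ne_zero_of_mul h4)
  have h7 := right_ne_zero_of_mul (left_ne_zero_of_mul h4)
  have hBw : sp ω w B₀ ≠ 0 := by
    rw [sp, RingHom.comp_apply, Ne, FaithfulSMul.algebraMap_eq_zero_iff]
    exact h3
  have hspX : ∀ i : Fin (m + 1), sp ω w (X i) = algebraMap (𝓞 k) k (vec ω w i) := by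
    intro i
    rw [sp, RingHom.comp_apply, MvPolynomial.eval_X]
  have hspec : ∀ y, sp ω w (MvPolynomial.C y : MvPolynomial (Fin (m + 1)) (𝓞 k)) =
      (RingHom.id k) (algebraMap (𝓞 k) k y) := by
    intro y
    rw [sp, RingHom.comp_apply, MvPolynomial.eval_C, RingHom.id_apply]
  have hcf : ∀ i, algebraMap (𝓞 k) k (eval (vec ω w) (a i)) =
      (c * sp ω w B₀ ^ e) * eval (tp ω w) (q i) := by
    intro i
    show sp ω w (homm A B₀ c e (q i)) = _
    rw [homm_map (RingHom.id k) (sp ω w) hspec hBw (q i) (hve i) (hci i), RingHom.id_apply]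
    congr 1
    have h2 : (fun l => sp ω w (A l) / sp ω w B₀) = tp ω w := by
      funext l
      rw [hA, hB₀]
      simp only
      rw [hspX, hspX]
      rfl
    rw [h2]
    rfl
  have hc0 : c * sp ω w B₀ ^ e ≠ 0 := mul_ne_zero hc (pow_ne_zero _ hBw)
  have hnz : ∀ i, eval (vec ω w) (a i) ≠ 0 → eval (tp ω w) (q i) ≠ 0 := by
    intro i hi h0
    have h8 := hcf i
    rw [h0, mul_zero, FaithfulSMul.algebraMap_eq_zero_iff] at h8
    exact hi h8
  refine ⟨?_, hnz _ h6, hnz _ h7, hnz _ h5, fun i => eval (vec ω w) (a i), c * sp ω w B₀ ^ e, hc0,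
    hcf, ?_⟩
  · have h8 : eval (vec ω w) (X 0 : MvPolynomial (Fin (m + 1)) (𝓞 k)) ≠ 0 := h3
    rwa [MvPolynomial.eval_X] at h8
  · exact (dvd_mul_left _ _).trans h1

/-- the periods of the members with good reduction at two primes -/
theorem per_member {d B p p' Wp Wp' : ℕ} (hd : 2 ≤ d) (hp : p.Prime) (hp' : p'.Prime)
    (hpp : p ≠ p') (hWp : PerH p (Module.finrank ℚ k * B) Wp)
    (hWp' : PerH p' (Module.finrank ℚ k * B) Wp') (kb : Type) [Field kb] [Algebra k kb]
    (q : Hq d → k) (a : Hq d → 𝓞 k) (c : k) (hc : c ≠ 0)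
    (ha : ∀ i, algebraMap (𝓞 k) k (a i) = c * q i) (n : ℤ)
    (hdvd : a none * a (some none) * a (some (some (Fin.last d))) ∣ (n : 𝓞 k))
    (hpn : ¬ (p : ℤ) ∣ n) (hpn' : ¬ (p' : ℤ) ∣ n) (P : kb × kb) (hP : PB k B P) (t : ℕ)
    (ht : 0 < t) (hper : (hnm fun i => algebraMap k kb (q i))^[t] P = P) :
    (hnm fun i => algebraMap k kb (q i))^[Wp * Wp'] P = P := by
  have h1 : (hnm fun i => algebraMap k kb (q i)) =
      hnm fun i => algebraMap k kb (algebraMap (𝓞 k) k (a i)) := by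
    have h2 : (fun i => algebraMap k kb (algebraMap (𝓞 k) k (a i))) =
        fun i => algebraMap k kb c * algebraMap k kb (q i) := by
      funext i
      rw [ha, map_mul]
    rw [h2, hnm_scale ((map_ne_zero _).2 hc)]
  rw [h1] at hper ⊢
  exact per_hB hp hp' hpp hWp hWp' le_rfl hd a n hdvd hpn hpn' hP ht hper

section thms

variable {d B : ℕ} (hd : 2 ≤ d) (q : Hq d → MvPolynomial (Fin m) k) (hq0 : q none ≠ 0)
    (hq1 : q (some none) ≠ 0) (hq2 : q (some (some (Fin.last d))) ≠ 0)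

/-- the generic member -/
noncomputable def gq (q : Hq d → MvPolynomial (Fin m) k) (i : Hq d) :
    FractionRing (MvPolynomial (Fin m) k) :=
  algebraMap (MvPolynomial (Fin m) k) (FractionRing (MvPolynomial (Fin m) k)) (q i)

lemma gq_ne {q : Hq d → MvPolynomial (Fin m) k} {i : Hq d} (h : q i ≠ 0) : gq q i ≠ 0 := by
  rw [gq, Ne, FaithfulSMul.algebraMap_eq_zero_iff]
  exact h

include ω hd hq0 hq1 hq2 in
/-- the generic member has finitely many periodic points of bounded degree -/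
theorem generic_finite (B : ℕ) : ∃ C : ℕ,
    FewH (AlgebraicClosure (FractionRing (MvPolynomial (Fin m) k))) B C (gq q) := by
  classical
  have hcz : CharZero (FractionRing (MvPolynomial (Fin m) k)) :=
    charZero_of_injective_algebraMap (R := k) (algebraMap k _).injective
  obtain ⟨n, hn, hdata⟩ := integral_data ω q hq0 hq1 hq2
  obtain ⟨P₀, hP₀⟩ := W925.UB.Densp.main (Fin (m + 1) × J) n hn (1 / 4) (by positivity)
  obtain ⟨p, hp, hpP⟩ := exists_prime_ge P₀
  obtain ⟨p', hp', hpP'⟩ := exists_prime_ge (max P₀ (p + 1))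
  have hpp : p ≠ p' := by
    have := (le_max_right P₀ (p + 1)).trans hpP'
    omega
  obtain ⟨Wp, hWp, hRp⟩ := exists_perH p (Module.finrank ℚ k * B) hp
  obtain ⟨Wp', hWp', hRp'⟩ := exists_perH p' (Module.finrank ℚ k * B) hp'
  set G : Set (Fin (m + 1) × J → ℤ) := {w | ¬ (p : ℤ) ∣ eval w n ∧ ¬ (p' : ℤ) ∣ eval w n} with hG
  have hnot : ¬ (∀ ε : ℝ, 0 < ε → UD ε G) := by
    intro h0
    have h1 := ((h0 (1 / 4) (by positivity)).union (hP₀ p hp hpP)).union
      (hP₀ p' hp' ((le_max_left _ _).trans hpP'))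
    refine not_UD_univ (by norm_num : (1 / 4 + 1 / 4 + 1 / 4 : ℝ) < 1) (h1.mono ?_)
    intro w _
    by_cases h2 : (p : ℤ) ∣ eval w n
    · exact Or.inl (Or.inr h2)
    · by_cases h3 : (p' : ℤ) ∣ eval w n
      · exact Or.inr h3
      · exact Or.inl (Or.inl ⟨h2, h3⟩)
  obtain ⟨U, hU, hUG⟩ := W125.UB.Exu.main (Fin (m + 1) × J) G hnot
  have he : 0 < Wp * Wp' := Nat.mul_pos hWp hWp'
  obtain ⟨τ, hτ⟩ := exists_tauU (kb := AlgebraicClosure k) (psiT ω hU)
  have hpd : ∀ P : AlgebraicClosure (FractionRing (MvPolynomial (Fin m) k)) ×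
      AlgebraicClosure (FractionRing (MvPolynomial (Fin m) k)),
      PB (FractionRing (MvPolynomial (Fin m) k)) B P → ∀ t : ℕ, 0 < t →
      (hnm fun i => algebraMap (FractionRing (MvPolynomial (Fin m) k)) _ (gq q i))^[t] P = P →
      (hnm fun i => algebraMap (FractionRing (MvPolynomial (Fin m) k)) _ (gq q i))^[Wp * Wp'] P =
        P := by
    intro P hP t ht hper
    refine periodH (psiT ω hU) τ hτ (qw := fun i w => eval (tp ω w) (q i))
      (fun i => psiT_apply ω hU (q i)) ?_ hP ht hper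
    filter_upwards [hUG] with w hw P hP t ht hper
    obtain ⟨hw1, hw2⟩ := hw
    have hw0 : eval w n ≠ 0 := by
      intro h0
      rw [h0] at hw1
      exact hw1 (dvd_zero _)
    obtain ⟨-, -, -, -, a, c, hc, ha, hdvd⟩ := hdata w hw0
    exact per_member hd hp hp' hpp hRp hRp' (AlgebraicClosure k) (fun i => eval (tp ω w) (q i)) a c
      hc ha _ hdvd hw1 hw2 P hP t ht hper
  refine ⟨d ^ (Wp * Wp'), fun X hX hXB => ?_⟩
  refine card_hnm hd (fun i => algebraMap (FractionRing (MvPolynomial (Fin m) k))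
    (AlgebraicClosure (FractionRing (MvPolynomial (Fin m) k))) (gq q i))
    ((map_ne_zero _).2 (gq_ne hq2)) ((map_ne_zero _).2 (gq_ne hq0)) he X ?_
  intro P hP
  obtain ⟨t, ht, hper⟩ := hX P hP
  exact hpd P (hXB P hP) t ht hper

include hd hq0 hq1 hq2 in
/-- 100% of the members do not have more points -/
theorem upper_members (kb : Type) [Field kb] [Algebra k kb] {C : ℕ}
    (hgen : FewH (AlgebraicClosure (FractionRing (MvPolynomial (Fin m) k))) B C (gq q)) :
    D0 {w : Fin (m + 1) × J → ℤ | ¬ (vec ω w 0 ≠ 0 ∧ eval (tp ω w) (q none) ≠ 0 ∧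
      eval (tp ω w) (q (some none)) ≠ 0 ∧ eval (tp ω w) (q (some (some (Fin.last d)))) ≠ 0 ∧
      FewH kb B C fun i => eval (tp ω w) (q i))} := by
  classical
  have hcz : CharZero (FractionRing (MvPolynomial (Fin m) k)) :=
    charZero_of_injective_algebraMap (R := k) (algebraMap k _).injective
  intro ε hε
  by_contra hcon
  set Bad : Set (Fin (m + 1) × J → ℤ) := {w | ¬ (vec ω w 0 ≠ 0 ∧ eval (tp ω w) (q none) ≠ 0 ∧
      eval (tp ω w) (q (some none)) ≠ 0 ∧ eval (tp ω w) (q (some (some (Fin.last d)))) ≠ 0 ∧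
      FewH kb B C fun i => eval (tp ω w) (q i))} with hBad
  obtain ⟨n, hn, hdata⟩ := integral_data ω q hq0 hq1 hq2
  obtain ⟨P₀, hP₀⟩ := W925.UB.Densp.main (Fin (m + 1) × J) n hn (ε / 4) (by positivity)
  obtain ⟨p, hp, hpP⟩ := exists_prime_ge P₀
  obtain ⟨p', hp', hpP'⟩ := exists_prime_ge (max P₀ (p + 1))
  have hpp : p ≠ p' := by
    have := (le_max_right P₀ (p + 1)).trans hpP'
    omega
  obtain ⟨Wp, hWp, hRp⟩ := exists_perH p (Module.finrank ℚ k * B) hp
  obtain ⟨Wp', hWp', hRp'⟩ := exists_perH p' (Module.finrank ℚ k * B) hp'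
  set Bad' : Set (Fin (m + 1) × J → ℤ) :=
    {w | w ∈ Bad ∧ ¬ (p : ℤ) ∣ eval w n ∧ ¬ (p' : ℤ) ∣ eval w n} with hBad'
  have hnot : ¬ (∀ ε : ℝ, 0 < ε → UD ε Bad') := by
    intro h0
    apply hcon
    have h1 := ((h0 (ε / 4) (by positivity)).union (hP₀ p hp hpP)).union
      (hP₀ p' hp' ((le_max_left _ _).trans hpP'))
    refine UD.le (by linarith : ε / 4 + ε / 4 + ε / 4 ≤ ε) (h1.mono ?_)
    intro w hw
    by_cases h2 : (p : ℤ) ∣ eval w n
    · exact Or.inl (Or.inr h2)
    · by_cases h3 : (p' : ℤ) ∣ eval w n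
      · exact Or.inr h3
      · exact Or.inl (Or.inl ⟨hw, h2, h3⟩)
  obtain ⟨U, hU, hUB⟩ := W125.UB.Exu.main (Fin (m + 1) × J) Bad' hnot
  have he : 0 < Wp * Wp' := Nat.mul_pos hWp hWp'
  have key : ∀ w ∈ Bad', ∃ P : Fin (C + 1) → kb × kb, (∀ l l', P l = P l' → l = l') ∧
      (∀ l, (hnm fun i => algebraMap k kb (eval (tp ω w) (q i)))^[Wp * Wp'] (P l) = P l) ∧
      ∀ l, PB k B (P l) := by
    rintro w ⟨hw, hw1, hw2⟩
    have hw0 : eval w n ≠ 0 := by
      intro h0
      rw [h0] at hw1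
      exact hw1 (dvd_zero _)
    obtain ⟨g1, g2, g3, g4, a, c, hc, ha, hdvd⟩ := hdata w hw0
    have hfew : ¬ FewH kb B C fun i => eval (tp ω w) (q i) := fun h => hw ⟨g1, g2, g3, g4, h⟩
    unfold FewH at hfew
    push Not at hfew
    obtain ⟨X, hXper, hXd, hXc⟩ := hfew
    obtain ⟨Y, hYX, hYc⟩ := Finset.exists_subset_card_eq (Nat.succ_le_of_lt hXc)
    let E := Y.equivFinOfCardEq hYc
    refine ⟨fun l => (E.symm l).1, fun l l' h => ?_, fun l => ?_, fun l => ?_⟩
    · exact E.symm.injective (Subtype.ext h)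
    · obtain ⟨t, ht, hper⟩ := hXper _ (hYX (E.symm l).2)
      exact per_member hd hp hp' hpp hRp hRp' kb (fun i => eval (tp ω w) (q i)) a c hc ha _ hdvd
        hw1 hw2 _ (hXd _ (hYX (E.symm l).2)) t ht hper
    · exact hXd _ (hYX (E.symm l).2)
  choose! P hP using key
  refine upH (psiT ω hU) (psiT_closed ω hU) hd he (gq q) (gq_ne hq2) (gq_ne hq0)
    (fun i w => eval (tp ω w) (q i)) (fun i => psiT_apply ω hU (q i)) P ?_ hgen
  filter_upwards [hUB] with w hw
  exact hP w hw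

/-- 100% of the members do not have less points -/
theorem lower_members (kb : Type) [Field kb] [Algebra k kb] [IsAlgClosed kb] {C : ℕ}
    (hgen : ¬ FewH (AlgebraicClosure (FractionRing (MvPolynomial (Fin m) k))) B C (gq q)) :
    D0 {w : Fin (m + 1) × J → ℤ | FewH kb B C fun i => eval (tp ω w) (q i)} := by
  classical
  have hcz : CharZero (FractionRing (MvPolynomial (Fin m) k)) :=
    charZero_of_injective_algebraMap (R := k) (algebraMap k _).injective
  by_contra hcon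
  obtain ⟨U, hU, hUG⟩ := W125.UB.Exu.main (Fin (m + 1) × J) _ hcon
  obtain ⟨τ, hτ⟩ := exists_tauU (kb := kb) (psiT ω hU)
  have h1 := lowH (psiT ω hU) τ hτ (qw := fun i w => eval (tp ω w) (q i))
    (fun i => psiT_apply ω hU (q i)) hgen
  have h2 : ∀ᶠ w in (U : Filter (Fin (m + 1) × J → ℤ)),
      FewH kb B C fun i => eval (tp ω w) (q i) := hUG
  obtain ⟨w, hw1, hw2⟩ := (h1.and h2).exists
  exact hw1 hw2

end thms

end

end Pool.Agent.Y706
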