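import Pool.Agent.Y706.P9

set_option autoImplicit false

/-! Families with several parameters, at all rational parameters. -/

namespace Pool.Agent.Y706

open Pool.Agent.H936R2 Pool.Agent.H927R2.RD H294UB Pool.Agent.W275.UB
  Pool.Agent.W193.UB Pool.Agent.W277.UH NumberField Filter Topology

set_option linter.unusedSectionVars false

/-! ### the pull-back -/

section pull

variable {k : Type} [Field k] [NumberField k] {ι σ : Type} [Fintype ι] [Fintype σ]

/-- homogenisation -/
noncomputable def homm (A : σ → MvPolynomial ι (𝓞 k)) (B : MvPolynomial ι (𝓞 k)) (m : k) (e : ℕ)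
    (g : MvPolynomial σ k) : MvPolynomial ι (𝓞 k) :=
  ∑ μ ∈ g.support, MvPolynomial.C (om m (g.coeff μ)) * (∏ l, A l ^ μ l) * B ^ (e - μ.degree)

/-- homogenisation of the coefficients -/
noncomputable def hommP (A : σ → MvPolynomial ι (𝓞 k)) (B : MvPolynomial ι (𝓞 k)) (m : k)
    (e d : ℕ) (P : Polynomial (MvPolynomial σ k)) : Polynomial (MvPolynomial ι (𝓞 k)) :=
  ∑ j ∈ Finset.range (d + 1), Polynomial.monomial j (homm A B m e (P.coeff j))

variable {L : Type} [Field L] (κ : k →+* L) (φ : MvPolynomial ι (𝓞 k) →+* L)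
  (hφ : ∀ y, φ (MvPolynomial.C y) = κ (algebraMap (𝓞 k) k y)) {A : σ → MvPolynomial ι (𝓞 k)}
  {B : MvPolynomial ι (𝓞 k)} (hB : φ B ≠ 0) {m : k} {e d : ℕ}

include hφ hB in
lemma homm_map (g : MvPolynomial σ k) (hg : g.totalDegree ≤ e)
    (hint : ∀ μ, ∃ y : 𝓞 k, algebraMap (𝓞 k) k y = m * g.coeff μ) :
    φ (homm A B m e g) = κ m * φ B ^ e * g.eval₂ κ (fun l => φ (A l) / φ B) := by
  rw [homm, map_sum, MvPolynomial.eval₂_eq', Finset.mul_sum]
  refine Finset.sum_congr rfl fun μ hμ => ?_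
  have hμe : μ.degree ≤ e := by
    refine le_trans ?_ hg
    have := MvPolynomial.le_totalDegree hμ
    rw [Finsupp.degree_eq_sum]
    rw [Finsupp.sum_fintype _ _ (fun _ => rfl)] at this
    exact this
  rw [map_mul, map_mul, hφ, om_spec _ _ (hint μ), map_mul, map_pow, map_prod]
  have h1 : φ B ^ e = φ B ^ (e - μ.degree) * φ B ^ μ.degree := by
    rw [← pow_add, Nat.sub_add_cancel hμe]
  have h2 : φ B ^ μ.degree ≠ 0 := pow_ne_zero _ hB
  have h3 : ∏ l, (φ (A l) / φ B) ^ μ l = (∏ l, φ (A l ^ μ l)) / φ B ^ μ.degree := by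
    rw [Finsupp.degree_eq_sum, ← Finset.prod_pow_eq_pow_sum, ← Finset.prod_div_distrib]
    exact Finset.prod_congr rfl fun l _ => by rw [div_pow, map_pow]
  rw [h1, h3]
  field_simp

include hφ hB in
lemma hommP_map (P : Polynomial (MvPolynomial σ k)) (hP : P.natDegree ≤ d)
    (hg : ∀ j, (P.coeff j).totalDegree ≤ e)
    (hint : ∀ j μ, ∃ y : 𝓞 k, algebraMap (𝓞 k) k y = m * (P.coeff j).coeff μ) :
    (hommP A B m e d P).map φ = Polynomial.C (κ m * φ B ^ e) *
      P.map (MvPolynomial.eval₂Hom κ (fun l => φ (A l) / φ B)) := by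
  ext n
  rw [Polynomial.coeff_map, Polynomial.coeff_C_mul, Polynomial.coeff_map, hommP,
    Polynomial.finsetSum_coeff]
  simp only [Polynomial.coeff_monomial]
  rw [Finset.sum_ite_eq' (Finset.range (d + 1)) n]
  split_ifs with h
  · rw [homm_map κ φ hφ hB _ (hg n) (hint n)]
    rfl
  · rw [map_zero, Polynomial.coeff_eq_zero_of_natDegree_lt, map_zero, mul_zero]
    rw [Finset.mem_range] at h
    omega

end pull

section

variable {k : Type} [Field k] [NumberField k] {ι σ J : Type} [Fintype ι] [Fintype σ] [Fintype J]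
  (ω : Module.Basis J ℤ (𝓞 k)) {A : σ → MvPolynomial ι (𝓞 k)} {B : MvPolynomial ι (𝓞 k)}

lemma exists_multiple2 (P Q : Polynomial (MvPolynomial σ k)) : ∃ m : k, m ≠ 0 ∧
    (∀ j i, ∃ y : 𝓞 k, algebraMap (𝓞 k) k y = m * (P.coeff j).coeff i) ∧
    (∀ j i, ∃ y : 𝓞 k, algebraMap (𝓞 k) k y = m * (Q.coeff j).coeff i) := by
  obtain ⟨m, P', Q', hm, hP', hQ'⟩ := exists_lift P Q
  refine ⟨algebraMap (𝓞 k) k m, ?_, fun j i => ⟨(P'.coeff j).coeff i, ?_⟩,
    fun j i => ⟨(Q'.coeff j).coeff i, ?_⟩⟩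
  · rw [Ne, FaithfulSMul.algebraMap_eq_zero_iff]
    exact hm
  · have h := congrArg (fun R : Polynomial (MvPolynomial σ k) => (R.coeff j).coeff i) hP'
    simp only [Polynomial.coeff_map, MvPolynomial.coeff_map, Polynomial.coeff_C_mul,
      MvPolynomial.coeff_C_mul] at h
    exact h
  · have h := congrArg (fun R : Polynomial (MvPolynomial σ k) => (R.coeff j).coeff i) hQ'
    simp only [Polynomial.coeff_map, MvPolynomial.coeff_map, Polynomial.coeff_C_mul,
      MvPolynomial.coeff_C_mul] at h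
    exact h

/-- preperiodic points over the big field come from the small one -/
lemma good_big2 {d C : ℕ} (hd : 2 ≤ d) {E Ω : Type} [Field E] [Field Ω] (T : E →+* Ω)
    (hcl : ∀ x : Ω, (∃ g : Polynomial E, g ≠ 0 ∧ g.eval₂ T x = 0) → ∃ y, T y = x)
    (p q : Polynomial E) (hg : GoodMap d C p q) : GoodMap d C (p.map T) (q.map T) := by
  apply goodMap_map T p q d C hg
  intro z hz
  cases z with
  | none => exact ⟨none, rfl⟩
  | some x =>
    letI : Algebra E Ω := T.toAlgebra
    obtain ⟨hco, hmax, _⟩ := hg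
    obtain ⟨g, hg0, hgx⟩ := pre_alg (E := E) (Ω := Ω) hd hmax hco x hz
    obtain ⟨y, hy⟩ := hcl x ⟨g, hg0, hgx⟩
    exact ⟨some y, by rw [Option.map_some, hy]⟩

/-- **Families with several parameters, pulled back by `t_l = A_l / B`.** -/
theorem multi_param {d C : ℕ} (hd : 2 ≤ d) (P Q : Polynomial (MvPolynomial σ k))
    (hg : GoodMap d C (P.map (algebraMap (MvPolynomial σ k) (FractionRing (MvPolynomial σ k))))
      (Q.map (algebraMap (MvPolynomial σ k) (FractionRing (MvPolynomial σ k)))))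
    (hB : B ≠ 0) (T : FractionRing (MvPolynomial σ k) →+* KK k ι)
    (hT : ∀ r : MvPolynomial σ k, T (algebraMap _ _ r) =
      MvPolynomial.eval₂Hom kap (fun l => algebraMap (MvPolynomial ι (𝓞 k)) (KK k ι) (A l) /
        algebraMap (MvPolynomial ι (𝓞 k)) (KK k ι) B) r)
    (hcl : ∀ x : KK k ι, (∃ g : Polynomial (FractionRing (MvPolynomial σ k)), g ≠ 0 ∧
      g.eval₂ T x = 0) → ∃ y, T y = x) :
    D0 {w : ι × J → ℤ | ¬ (sp ω w B ≠ 0 ∧
      GoodMap d C (P.map (MvPolynomial.eval fun l => sp ω w (A l) / sp ω w B))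
        (Q.map (MvPolynomial.eval fun l => sp ω w (A l) / sp ω w B)))} := by
  classical
  obtain ⟨m, hm, hPi, hQi⟩ := exists_multiple2 P Q
  have hinj : Function.Injective (algebraMap (MvPolynomial σ k) (FractionRing (MvPolynomial σ k))) :=
    IsFractionRing.injective _ _
  have hPd : P.natDegree ≤ d := by
    rw [← Polynomial.natDegree_map_eq_of_injective hinj P, ← hg.2.1]
    exact le_max_left _ _
  have hQd : Q.natDegree ≤ d := by
    rw [← Polynomial.natDegree_map_eq_of_injective hinj Q, ← hg.2.1]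
    exact le_max_right _ _
  -- a bound for the degrees of the coefficients
  obtain ⟨e, hPe, hQe⟩ : ∃ e : ℕ, (∀ j, (P.coeff j).totalDegree ≤ e) ∧
      ∀ j, (Q.coeff j).totalDegree ≤ e := by
    refine ⟨(P.support.sup fun j => (P.coeff j).totalDegree) ⊔
      (Q.support.sup fun j => (Q.coeff j).totalDegree), fun j => ?_, fun j => ?_⟩
    · by_cases hj : j ∈ P.support
      · exact (Finset.le_sup (f := fun j => (P.coeff j).totalDegree) hj).trans le_sup_left
      · rw [Polynomial.notMem_support_iff.1 hj, MvPolynomial.totalDegree_zero]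
        exact Nat.zero_le _
    · by_cases hj : j ∈ Q.support
      · exact (Finset.le_sup (f := fun j => (Q.coeff j).totalDegree) hj).trans le_sup_right
      · rw [Polynomial.notMem_support_iff.1 hj, MvPolynomial.totalDegree_zero]
        exact Nat.zero_le _
  -- the generic member
  have hBK : algebraMap (MvPolynomial ι (𝓞 k)) (KK k ι) B ≠ 0 := by
    rw [Ne, FaithfulSMul.algebraMap_eq_zero_iff]
    exact hB
  have hTT : ∀ g : Polynomial (MvPolynomial σ k),
      g.map (MvPolynomial.eval₂Hom kap (fun l =>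
        algebraMap (MvPolynomial ι (𝓞 k)) (KK k ι) (A l) /
        algebraMap (MvPolynomial ι (𝓞 k)) (KK k ι) B)) =
      (g.map (algebraMap (MvPolynomial σ k) (FractionRing (MvPolynomial σ k)))).map T := by
    intro g
    rw [Polynomial.map_map]
    congr 1
    exact (RingHom.ext hT).symm
  have hgen : GoodMap d C
      ((hommP A B m e d P).map (algebraMap (MvPolynomial ι (𝓞 k)) (KK k ι)))
      ((hommP A B m e d Q).map (algebraMap (MvPolynomial ι (𝓞 k)) (KK k ι))) := by
    rw [hommP_map kap (algebraMap (MvPolynomial ι (𝓞 k)) (KK k ι)) kap_spec hBK P hPd hPe hPi,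
      hommP_map kap (algebraMap (MvPolynomial ι (𝓞 k)) (KK k ι)) kap_spec hBK Q hQd hQe hQi,
      goodMap_scale, hTT, hTT]
    · exact good_big2 hd T hcl _ _ hg
    · exact mul_ne_zero ((map_ne_zero kap).2 hm) (pow_ne_zero _ hBK)
  have h1 := (family ω hd _ _ hgen).union (D0_B ω hB)
  intro ε hε
  refine (h1 ε hε).mono ?_
  intro w hw
  by_contra hcon
  rw [Set.mem_union, not_or] at hcon
  obtain ⟨hcon1, hcon2⟩ := hcon
  have hcon1' : GoodMap d C ((hommP A B m e d P).map (sp ω w))
      ((hommP A B m e d Q).map (sp ω w)) := by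
    by_contra h2
    exact hcon1 h2
  have hBw : sp ω w B ≠ 0 := by
    rw [sp, RingHom.comp_apply, Ne, FaithfulSMul.algebraMap_eq_zero_iff]
    exact hcon2
  apply hw
  refine ⟨hBw, ?_⟩
  have hspec : ∀ y, sp ω w (MvPolynomial.C y : MvPolynomial ι (𝓞 k)) =
      (RingHom.id k) (algebraMap (𝓞 k) k y) := by
    intro y
    rw [sp, RingHom.comp_apply, MvPolynomial.eval_C, RingHom.id_apply]
  rw [hommP_map (RingHom.id k) (sp ω w) hspec hBw P hPd hPe hPi,
    hommP_map (RingHom.id k) (sp ω w) hspec hBw Q hQd hQe hQi, goodMap_scale] at hcon1'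
  · exact hcon1'
  · exact mul_ne_zero hm (pow_ne_zero _ hBw)

end

end Pool.Agent.Y706
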