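import Pool.Agent.Y706.P2
import Pool.Agent.W275.ND.He4

set_option autoImplicit false

/-! Families of rational maps of the projective line. -/

namespace Pool.Agent.Y706

open Pool.Agent.H936R2 Pool.Agent.H927R2.RD H294UB Pool.Agent.W275.UB
  Pool.Agent.W193.UB Pool.Agent.W277.UH NumberField

section

variable {k : Type} [Field k] [NumberField k] {ι J : Type} [Fintype ι] [Fintype J]
  (ω : Module.Basis J ℤ (𝓞 k))

/-- the value at the parameters `w`, in `k` -/
noncomputable def sp (w : ι × J → ℤ) : MvPolynomial ι (𝓞 k) →+* k :=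
  (algebraMap (𝓞 k) k).comp (MvPolynomial.eval (vec ω w))

/-- degree `d`, coprime, and at most `C` preperiodic points -/
def GoodMap {K : Type} [Field K] (d C : ℕ) (p q : Polynomial K) : Prop :=
  IsCoprime p q ∧ max p.natDegree q.natDegree = d ∧
    {z : Option K | (Set.range fun m : ℕ => (ratP1 p q d)^[m] z).Finite}.encard ≤ (C : ℕ∞)

theorem family {d C : ℕ} (hd : 2 ≤ d) (P Q : Polynomial (MvPolynomial ι (𝓞 k)))
    (hgen : GoodMap d C
      (P.map (algebraMap (MvPolynomial ι (𝓞 k)) (FractionRing (MvPolynomial ι (𝓞 k)))))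
      (Q.map (algebraMap (MvPolynomial ι (𝓞 k)) (FractionRing (MvPolynomial ι (𝓞 k)))))) :
    D0 {w : ι × J → ℤ | ¬ GoodMap d C (P.map (sp ω w)) (Q.map (sp ω w))} := by
  obtain ⟨hco, hmax, hC⟩ := hgen
  set K := FractionRing (MvPolynomial ι (𝓞 k)) with hK
  have hinj : Function.Injective (algebraMap (MvPolynomial ι (𝓞 k)) K) :=
    IsFractionRing.injective _ _
  have hPd : P.natDegree ≤ d := by
    rw [← Polynomial.natDegree_map_eq_of_injective hinj P, ← hmax]
    exact le_max_left _ _
  have hQd : Q.natDegree ≤ d := by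
    rw [← Polynomial.natDegree_map_eq_of_injective hinj Q, ← hmax]
    exact le_max_right _ _
  obtain ⟨s, c, hc, hM⟩ := exists_monC
    ((algebraMap K (AlgebraicClosure K)).comp (algebraMap (MvPolynomial ι (𝓞 k)) K)) (co P Q d) (by
      intro x hx
      refine no_common_map (algebraMap K (AlgebraicClosure K)) (by omega) hmax hco x ?_
      intro j
      rw [← hx j, ← co_map]
      rfl)
  have hc0 : c ≠ 0 := by
    rintro rfl
    exact hc (map_zero _)
  have hfew := few_of_encard (by omega) hmax hco C hC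
  rw [← co_map] at hfew
  have h1 := transfer ω hd (co P Q d) c hc0 hM hfew
  intro ε hε
  refine (h1 ε hε).mono ?_
  intro w hw
  by_contra hcon
  apply hw
  have hcon' : MvPolynomial.eval (vec ω w) c ≠ 0 ∧ Few C (sy (cf ω (co P Q d) w)) := by
    by_contra h2
    exact hcon h2
  have hcf : cf ω (co P Q d) w = co (P.map (sp ω w)) (Q.map (sp ω w)) d := by
    rw [← co_map]
    rfl
  have hMon : MonIn s (sy (co (P.map (sp ω w)) (Q.map (sp ω w)) d)) := by
    have h3 := hM.map (sp ω w)
    rw [co_map] at h3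
    refine h3.monIn ?_
    rw [isUnit_iff_ne_zero, sp, RingHom.comp_apply, Ne, FaithfulSMul.algebraMap_eq_zero_iff]
    exact hcon'.1
  obtain ⟨h4, h5⟩ := of_monIn (Polynomial.natDegree_map_le.trans hPd)
    (Polynomial.natDegree_map_le.trans hQd) hMon
  rw [hcf] at hcon'
  exact ⟨h4, h5, encard_of_few (by omega) h5 h4 C hcon'.2⟩

end

end Pool.Agent.Y706
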