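import Pool.Agent.Y706.P3

set_option autoImplicit false

/-! One-parameter families, pulled back by a quotient `τ = A / B` of two polynomials. -/

namespace Pool.Agent.Y706

open Pool.Agent.H936R2 Pool.Agent.H927R2.RD H294UB Pool.Agent.W275.UB
  Pool.Agent.W193.UB Pool.Agent.W277.UH NumberField

set_option linter.unusedSectionVars false

/-! ### the effect of field homomorphisms and scalings on maps of the line -/

section maps

variable {K L : Type} [Field K] [Field L]

lemma ratP1_map (T : K →+* L) (p q : Polynomial K) (d : ℕ) (z : Option K) :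
    ratP1 (p.map T) (q.map T) d (z.map T) = (ratP1 p q d z).map T := by
  cases z with
  | none =>
    by_cases h : q.coeff d = 0
    · rw [ratP1_none0 p q d h]
      show ratP1 (p.map T) (q.map T) d none = none
      rw [ratP1_none0]
      rw [Polynomial.coeff_map, h, map_zero]
    · rw [ratP1_none p q d h]
      show ratP1 (p.map T) (q.map T) d none = some _
      rw [ratP1_none]
      · rw [Polynomial.coeff_map, Polynomial.coeff_map, map_div₀]
      · rw [Polynomial.coeff_map]
        exact (map_ne_zero T).2 h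
  | some x =>
    have hx : ∀ g : Polynomial K, (g.map T).eval (T x) = T (g.eval x) := fun g => by
      rw [Polynomial.eval_map, Polynomial.eval₂_hom]
    by_cases h : q.eval x = 0
    · rw [ratP1_some0 p q d x h]
      show ratP1 (p.map T) (q.map T) d (some (T x)) = none
      rw [ratP1_some0]
      rw [hx, h, map_zero]
    · rw [ratP1_some p q d x h]
      show ratP1 (p.map T) (q.map T) d (some (T x)) = some _
      rw [ratP1_some]
      · rw [hx, hx, map_div₀]
      · rw [hx]
        exact (map_ne_zero T).2 h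

lemma ratP1_iter_map (T : K →+* L) (p q : Polynomial K) (d : ℕ) (z : Option K) (m : ℕ) :
    (ratP1 (p.map T) (q.map T) d)^[m] (z.map T) = ((ratP1 p q d)^[m] z).map T := by
  induction m with
  | zero => rfl
  | succ m ih => rw [Function.iterate_succ_apply', ih, ratP1_map, Function.iterate_succ_apply']

lemma pre_map (T : K →+* L) (p q : Polynomial K) (d : ℕ) (z : Option K)
    (h : (Set.range fun m : ℕ => (ratP1 (p.map T) (q.map T) d)^[m] (z.map T)).Finite) :
    (Set.range fun m : ℕ => (ratP1 p q d)^[m] z).Finite := by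
  rw [orb_fin] at h ⊢
  obtain ⟨m, l, hml, h⟩ := h
  refine ⟨m, l, hml, ?_⟩
  rw [ratP1_iter_map, ratP1_iter_map] at h
  exact Option.map_injective T.injective h

lemma ratP1_scale (c : K) (hc : c ≠ 0) (p q : Polynomial K) (d : ℕ) :
    ratP1 (Polynomial.C c * p) (Polynomial.C c * q) d = ratP1 p q d := by
  funext z
  cases z with
  | none =>
    by_cases h : q.coeff d = 0
    · rw [ratP1_none0 p q d h, ratP1_none0]
      rw [Polynomial.coeff_C_mul, h, mul_zero]
    · rw [ratP1_none p q d h, ratP1_none]
      · rw [Polynomial.coeff_C_mul, Polynomial.coeff_C_mul, mul_div_mul_left _ _ hc]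
      · rw [Polynomial.coeff_C_mul]
        exact mul_ne_zero hc h
  | some x =>
    by_cases h : q.eval x = 0
    · rw [ratP1_some0 p q d x h, ratP1_some0]
      rw [Polynomial.eval_mul, h, mul_zero]
    · rw [ratP1_some p q d x h, ratP1_some]
      · rw [Polynomial.eval_mul, Polynomial.eval_mul, Polynomial.eval_C, mul_div_mul_left _ _ hc]
      · rw [Polynomial.eval_mul, Polynomial.eval_C]
        exact mul_ne_zero hc h

lemma goodMap_scale (c : K) (hc : c ≠ 0) (p q : Polynomial K) (d C : ℕ) :
    GoodMap d C (Polynomial.C c * p) (Polynomial.C c * q) ↔ GoodMap d C p q := by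
  unfold GoodMap
  rw [ratP1_scale c hc, Polynomial.natDegree_C_mul hc, Polynomial.natDegree_C_mul hc]
  have hu : IsUnit (Polynomial.C c) := Polynomial.isUnit_C.2 (isUnit_iff_ne_zero.2 hc)
  rw [isCoprime_mul_unit_left_left hu, isCoprime_mul_unit_left_right hu]

/-- if all preperiodic points over `L` come from `K` then the bound over `K` holds over `L` -/
lemma goodMap_map (T : K →+* L) (p q : Polynomial K) (d C : ℕ) (h : GoodMap d C p q)
    (hcl : ∀ z : Option L,
      (Set.range fun m : ℕ => (ratP1 (p.map T) (q.map T) d)^[m] z).Finite →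
      ∃ y : Option K, y.map T = z) : GoodMap d C (p.map T) (q.map T) := by
  obtain ⟨hco, hmax, hC⟩ := h
  refine ⟨hco.map (Polynomial.mapRingHom T), ?_, ?_⟩
  · rw [Polynomial.natDegree_map, Polynomial.natDegree_map]
    exact hmax
  · have hsub : {z : Option L |
        (Set.range fun m : ℕ => (ratP1 (p.map T) (q.map T) d)^[m] z).Finite} ⊆
        Option.map T '' {z : Option K | (Set.range fun m : ℕ => (ratP1 p q d)^[m] z).Finite} := by
      intro z hz
      obtain ⟨y, rfl⟩ := hcl z hz
      exact ⟨y, pre_map T p q d y hz, rfl⟩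
    exact (Set.encard_le_encard hsub).trans ((Set.encard_image_le _ _).trans hC)

end maps

/-! ### preperiodic points are algebraic -/

section alg

variable {E Ω : Type} [Field E] [Field Ω] [Algebra E Ω]

lemma monIn_of_good {p q : Polynomial E} {d : ℕ} (hd : 1 ≤ d)
    (hmax : max p.natDegree q.natDegree = d) (hco : IsCoprime p q) :
    ∃ s, MonIn s (sy (co p q d)) := by
  obtain ⟨s, c, hc, hM⟩ := exists_monC (algebraMap E (AlgebraicClosure E)) (co p q d)
    (no_common_map (algebraMap E (AlgebraicClosure E)) hd hmax hco)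
  refine ⟨s, hM.monIn ?_⟩
  rw [isUnit_iff_ne_zero]
  rintro rfl
  exact hc (map_zero _)

lemma pre_alg {p q : Polynomial E} {d : ℕ} (hd : 2 ≤ d)
    (hmax : max p.natDegree q.natDegree = d) (hco : IsCoprime p q) (x : Ω)
    (h : (Set.range fun m : ℕ => (ratP1 (p.map (algebraMap E Ω)) (q.map (algebraMap E Ω)) d)^[m]
      (some x)).Finite) : IsAlgebraic E x := by
  obtain ⟨s, hM⟩ := monIn_of_good (by omega) hmax hco
  have hmax' : max (p.map (algebraMap E Ω)).natDegree (q.map (algebraMap E Ω)).natDegree = d := by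
    rw [Polynomial.natDegree_map, Polynomial.natDegree_map]
    exact hmax
  have hco' : IsCoprime (p.map (algebraMap E Ω)) (q.map (algebraMap E Ω)) :=
    hco.map (Polynomial.mapRingHom (algebraMap E Ω))
  have h1 := (pre_hv (by omega) hmax' hco' (some x)).2 h
  obtain ⟨m, l, hml, c, hc, h2⟩ := h1
  obtain ⟨e, rfl⟩ := Nat.exists_eq_add_of_le hml.le
  have he : 0 < e := by omega
  have hrel : ∃ c : Ω, c ≠ 0 ∧ (pt (sy fun i => algebraMap E Ω (co p q d i)))^[m + e]
      (hv (some x)) = c • (pt (sy fun i => algebraMap E Ω (co p q d i)))^[m] (hv (some x)) := by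
    rw [co_map]
    exact ⟨c, hc, h2⟩
  have h3 := alg_pts (E := E) (Ω := Ω) W405.UB.main (H294UB.taskCnt H294UB.taskFib)
    W125.UB.FinT.fin_main (N := 1) (d := d) (b := m) (e := e) hd he (co p q d) hM (hv (some x)) 1
    rfl hrel
  exact h3 0

end alg

/-! ### the pull-back -/

section pull

variable {k : Type} [Field k] [NumberField k] {ι : Type} [Fintype ι]

/-- an integral multiple -/
noncomputable def om (m x : k) : 𝓞 k := by
  classical exact if h : ∃ y : 𝓞 k, algebraMap (𝓞 k) k y = m * x then h.choose else 0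

lemma om_spec (m x : k) (h : ∃ y : 𝓞 k, algebraMap (𝓞 k) k y = m * x) :
    algebraMap (𝓞 k) k (om m x) = m * x := by
  unfold om
  rw [dif_pos h]
  exact h.choose_spec

/-- homogenisation of a polynomial in one parameter -/
noncomputable def hom1 (A B : MvPolynomial ι (𝓞 k)) (m : k) (e : ℕ) (g : Polynomial k) :
    MvPolynomial ι (𝓞 k) :=
  ∑ i ∈ Finset.range (e + 1), MvPolynomial.C (om m (g.coeff i)) * A ^ i * B ^ (e - i)

/-- homogenisation of the coefficients -/
noncomputable def hom2 (A B : MvPolynomial ι (𝓞 k)) (m : k) (e d : ℕ)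
    (P : Polynomial (Polynomial k)) : Polynomial (MvPolynomial ι (𝓞 k)) :=
  ∑ j ∈ Finset.range (d + 1), Polynomial.monomial j (hom1 A B m e (P.coeff j))

variable {L : Type} [Field L] (κ : k →+* L) (φ : MvPolynomial ι (𝓞 k) →+* L)
  (hφ : ∀ y, φ (MvPolynomial.C y) = κ (algebraMap (𝓞 k) k y)) {A B : MvPolynomial ι (𝓞 k)}
  (hB : φ B ≠ 0) {m : k} {e d : ℕ}

include hφ hB in
lemma hom1_map (g : Polynomial k) (hg : g.natDegree ≤ e)
    (hint : ∀ i, ∃ y : 𝓞 k, algebraMap (𝓞 k) k y = m * g.coeff i) :
    φ (hom1 A B m e g) = κ m * φ B ^ e * g.eval₂ κ (φ A / φ B) := by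
  rw [hom1, map_sum, Polynomial.eval₂_eq_sum_range' κ (Nat.lt_succ_of_le hg), Finset.mul_sum]
  refine Finset.sum_congr rfl fun i hi => ?_
  have hi' : i ≤ e := Nat.lt_succ_iff.1 (Finset.mem_range.1 hi)
  rw [map_mul, map_mul, hφ, om_spec _ _ (hint i), map_mul, map_pow, map_pow, div_pow]
  have h1 : φ B ^ e = φ B ^ (e - i) * φ B ^ i := by rw [← pow_add, Nat.sub_add_cancel hi']
  rw [h1]
  have h2 : φ B ^ i ≠ 0 := pow_ne_zero _ hB
  field_simp

include hφ hB in
lemma hom2_map (P : Polynomial (Polynomial k)) (hP : P.natDegree ≤ d)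
    (hg : ∀ j, (P.coeff j).natDegree ≤ e)
    (hint : ∀ j i, ∃ y : 𝓞 k, algebraMap (𝓞 k) k y = m * (P.coeff j).coeff i) :
    (hom2 A B m e d P).map φ = Polynomial.C (κ m * φ B ^ e) *
      P.map (Polynomial.eval₂RingHom κ (φ A / φ B)) := by
  ext n
  rw [Polynomial.coeff_map, Polynomial.coeff_C_mul, Polynomial.coeff_map, hom2,
    Polynomial.finsetSum_coeff]
  simp only [Polynomial.coeff_monomial]
  rw [Finset.sum_ite_eq' (Finset.range (d + 1)) n]
  split_ifs with h
  · rw [hom1_map κ φ hφ hB _ (hg n) (hint n)]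
    rfl
  · rw [map_zero, Polynomial.coeff_eq_zero_of_natDegree_lt, map_zero, mul_zero]
    rw [Finset.mem_range] at h
    omega

end pull

end Pool.Agent.Y706
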