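import Pool.Agent.Y706.P4

set_option autoImplicit false

/-! One-parameter families, pulled back by a quotient `τ = A / B` of two polynomials. -/

namespace Pool.Agent.Y706

open Pool.Agent.H936R2 Pool.Agent.H927R2.RD H294UB Pool.Agent.W275.UB
  Pool.Agent.W193.UB Pool.Agent.W277.UH NumberField

set_option linter.unusedSectionVars false

section

variable {k : Type} [Field k] [NumberField k] {ι J : Type} [Fintype ι] [Fintype J]
  (ω : Module.Basis J ℤ (𝓞 k))

/-- the field of rational functions -/
abbrev KK (k ι : Type) [Field k] [NumberField k] : Type := FractionRing (MvPolynomial ι (𝓞 k))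

lemma kap_inj : Function.Injective ((algebraMap (MvPolynomial ι (𝓞 k)) (KK k ι)).comp
    (MvPolynomial.C : 𝓞 k →+* MvPolynomial ι (𝓞 k))) :=
  (IsFractionRing.injective (MvPolynomial ι (𝓞 k)) (KK k ι)).comp (MvPolynomial.C_injective _ _)

/-- constants -/
noncomputable def kap : k →+* KK k ι := IsFractionRing.lift (kap_inj (k := k) (ι := ι))

lemma kap_spec (y : 𝓞 k) : algebraMap (MvPolynomial ι (𝓞 k)) (KK k ι) (MvPolynomial.C y) =
    kap (algebraMap (𝓞 k) k y) := (IsFractionRing.lift_algebraMap kap_inj y).symm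

noncomputable instance : Algebra k (KK k ι) := kap.toAlgebra

/-- the quotient -/
noncomputable def tau (A B : MvPolynomial ι (𝓞 k)) : KK k ι :=
  algebraMap _ (KK k ι) A / algebraMap _ (KK k ι) B

variable {A B : MvPolynomial ι (𝓞 k)}

/-- the embedding of `k(t)` -/
noncomputable def TT (h : Transcendental k (tau A B)) : RatFunc k →+* KK k ι :=
  (algebraMap (IntermediateField.adjoin k {tau A B}) (KK k ι)).comp
    (RatFunc.algEquivOfTranscendental (tau A B) h : RatFunc k →+* _)

lemma TT_poly (h : Transcendental k (tau A B)) :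
    (TT h).comp (algebraMap (Polynomial k) (RatFunc k)) =
      Polynomial.eval₂RingHom kap (tau A B) := by
  apply RingHom.ext
  intro g
  show ((RatFunc.algEquivOfTranscendental (tau A B) h (algebraMap _ _ g) :
    IntermediateField.adjoin k {tau A B}) : KK k ι) = Polynomial.eval₂ kap (tau A B) g
  rw [RatFunc.algEquivOfTranscendental_algebraMap]
  have h1 : ((Polynomial.aeval (IntermediateField.AdjoinSimple.gen k (tau A B)) g :
      IntermediateField.adjoin k {tau A B}) : KK k ι) = Polynomial.aeval (tau A B) g := by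
    have h2 := Polynomial.aeval_algebraMap_apply (KK k ι)
      (IntermediateField.AdjoinSimple.gen k (tau A B)) g
    rw [IntermediateField.AdjoinSimple.algebraMap_gen] at h2
    exact h2.symm
  rw [h1]
  rfl

/-- preperiodic points over the big field come from `k(t)` -/
lemma good_big {d C : ℕ} (hd : 2 ≤ d) (h : Transcendental k (tau A B))
    (hcl : ∀ x : KK k ι, IsAlgebraic (IntermediateField.adjoin k {tau A B}) x →
      x ∈ IntermediateField.adjoin k {tau A B})
    (p q : Polynomial (RatFunc k)) (hg : GoodMap d C p q) :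
    GoodMap d C (p.map (TT h)) (q.map (TT h)) := by
  apply goodMap_map (TT h) p q d C hg
  intro z hz
  cases z with
  | none => exact ⟨none, rfl⟩
  | some x =>
    set E := IntermediateField.adjoin k {tau A B} with hE
    let e : RatFunc k ≃ₐ[k] E := RatFunc.algEquivOfTranscendental (tau A B) h
    have hp : ∀ g : Polynomial (RatFunc k), g.map (TT h) =
        (g.map (e : RatFunc k →+* E)).map (algebraMap E (KK k ι)) := fun g => by
      rw [Polynomial.map_map]
      rfl
    rw [hp, hp] at hz
    obtain ⟨hco, hmax, _⟩ := hg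
    have hx : IsAlgebraic E x := by
      refine pre_alg hd ?_ (hco.map (Polynomial.mapRingHom (e : RatFunc k →+* E))) x hz
      show max (p.map (e : RatFunc k →+* E)).natDegree (q.map (e : RatFunc k →+* E)).natDegree = d
      rw [Polynomial.natDegree_map, Polynomial.natDegree_map]
      exact hmax
    refine ⟨some (e.symm ⟨x, hcl x hx⟩), ?_⟩
    show some (algebraMap E (KK k ι) (e (e.symm ⟨x, hcl x hx⟩))) = some x
    rw [AlgEquiv.apply_symm_apply]
    rfl

lemma exists_multiple (P Q : Polynomial (Polynomial k)) : ∃ m : k, m ≠ 0 ∧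
    (∀ j i, ∃ y : 𝓞 k, algebraMap (𝓞 k) k y = m * (P.coeff j).coeff i) ∧
    (∀ j i, ∃ y : 𝓞 k, algebraMap (𝓞 k) k y = m * (Q.coeff j).coeff i) := by
  classical
  let S : Finset k := (P.support.biUnion fun j => (P.coeff j).support.image fun i =>
    (P.coeff j).coeff i) ∪ (Q.support.biUnion fun j => (Q.coeff j).support.image fun i =>
    (Q.coeff j).coeff i)
  obtain ⟨b, hb⟩ := IsLocalization.exist_integer_multiples_of_finset (nonZeroDivisors (𝓞 k)) S
  have hb0 : algebraMap (𝓞 k) k (b : 𝓞 k) ≠ 0 := by
    rw [Ne, FaithfulSMul.algebraMap_eq_zero_iff]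
    exact nonZeroDivisors.coe_ne_zero b
  have key : ∀ x ∈ S, ∃ y : 𝓞 k, algebraMap (𝓞 k) k y = algebraMap (𝓞 k) k (b : 𝓞 k) * x := by
    intro x hx
    obtain ⟨y, hy⟩ := hb x hx
    refine ⟨y, ?_⟩
    rw [hy, Algebra.smul_def]
  refine ⟨algebraMap (𝓞 k) k (b : 𝓞 k), hb0, fun j i => ?_, fun j i => ?_⟩
  · by_cases h : (P.coeff j).coeff i = 0
    · exact ⟨0, by rw [h, map_zero, mul_zero]⟩
    · apply key
      apply Finset.mem_union_left
      refine Finset.mem_biUnion.2 ⟨j, ?_, Finset.mem_image.2 ⟨i, ?_, rfl⟩⟩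
      · rw [Polynomial.mem_support_iff]
        intro h0
        rw [h0, Polynomial.coeff_zero] at h
        exact h rfl
      · rw [Polynomial.mem_support_iff]
        exact h
  · by_cases h : (Q.coeff j).coeff i = 0
    · exact ⟨0, by rw [h, map_zero, mul_zero]⟩
    · apply key
      apply Finset.mem_union_right
      refine Finset.mem_biUnion.2 ⟨j, ?_, Finset.mem_image.2 ⟨i, ?_, rfl⟩⟩
      · rw [Polynomial.mem_support_iff]
        intro h0
        rw [h0, Polynomial.coeff_zero] at h
        exact h rfl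
      · rw [Polynomial.mem_support_iff]
        exact h

lemma D0_B (hB : B ≠ 0) : D0 {w : ι × J → ℤ | MvPolynomial.eval (vec ω w) B = 0} := by
  obtain ⟨n, hn, hdvd⟩ := norm_poly ω B hB
  intro ε hε
  refine (D0_zero W883.UB.Dens.main n hn ε hε).mono ?_
  intro w hw
  have h1 := hdvd w
  have h2 : MvPolynomial.eval (vec ω w) B = 0 := hw
  rw [h2, zero_dvd_iff] at h1
  show MvPolynomial.eval w n = 0
  exact_mod_cast h1

/-- **One-parameter families.** -/
theorem one_param {d C : ℕ} (hd : 2 ≤ d) (P Q : Polynomial (Polynomial k))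
    (hg : GoodMap d C (P.map (algebraMap (Polynomial k) (RatFunc k)))
      (Q.map (algebraMap (Polynomial k) (RatFunc k)))) (hB : B ≠ 0)
    (h : Transcendental k (tau A B))
    (hcl : ∀ x : KK k ι, IsAlgebraic (IntermediateField.adjoin k {tau A B}) x →
      x ∈ IntermediateField.adjoin k {tau A B}) :
    D0 {w : ι × J → ℤ | ¬ (sp ω w B ≠ 0 ∧
      GoodMap d C (P.map (Polynomial.evalRingHom (sp ω w A / sp ω w B)))
        (Q.map (Polynomial.evalRingHom (sp ω w A / sp ω w B))))} := by
  classical
  obtain ⟨m, hm, hPi, hQi⟩ := exists_multiple P Q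
  have hinj : Function.Injective (algebraMap (Polynomial k) (RatFunc k)) :=
    IsFractionRing.injective _ _
  have hPd : P.natDegree ≤ d := by
    rw [← Polynomial.natDegree_map_eq_of_injective hinj P, ← hg.2.1]
    exact le_max_left _ _
  have hQd : Q.natDegree ≤ d := by
    rw [← Polynomial.natDegree_map_eq_of_injective hinj Q, ← hg.2.1]
    exact le_max_right _ _
  -- a bound for the degrees of the coefficients
  obtain ⟨e, hPe, hQe⟩ : ∃ e : ℕ, (∀ j, (P.coeff j).natDegree ≤ e) ∧
      ∀ j, (Q.coeff j).natDegree ≤ e := by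
    refine ⟨(P.support.sup fun j => (P.coeff j).natDegree) ⊔
      (Q.support.sup fun j => (Q.coeff j).natDegree), fun j => ?_, fun j => ?_⟩
    · by_cases hj : j ∈ P.support
      · exact (Finset.le_sup (f := fun j => (P.coeff j).natDegree) hj).trans le_sup_left
      · rw [Polynomial.notMem_support_iff.1 hj, Polynomial.natDegree_zero]
        exact Nat.zero_le _
    · by_cases hj : j ∈ Q.support
      · exact (Finset.le_sup (f := fun j => (Q.coeff j).natDegree) hj).trans le_sup_right
      · rw [Polynomial.notMem_support_iff.1 hj, Polynomial.natDegree_zero]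
        exact Nat.zero_le _
  -- the generic member
  have hBK : algebraMap (MvPolynomial ι (𝓞 k)) (KK k ι) B ≠ 0 := by
    rw [Ne, FaithfulSMul.algebraMap_eq_zero_iff]
    exact hB
  have hTT : ∀ g : Polynomial (Polynomial k),
      g.map (Polynomial.eval₂RingHom kap (algebraMap (MvPolynomial ι (𝓞 k)) (KK k ι) A /
        algebraMap (MvPolynomial ι (𝓞 k)) (KK k ι) B)) =
      (g.map (algebraMap (Polynomial k) (RatFunc k))).map (TT h) := by
    intro g
    rw [Polynomial.map_map, TT_poly]
    rfl
  have hgen : GoodMap d C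
      ((hom2 A B m e d P).map (algebraMap (MvPolynomial ι (𝓞 k)) (KK k ι)))
      ((hom2 A B m e d Q).map (algebraMap (MvPolynomial ι (𝓞 k)) (KK k ι))) := by
    rw [hom2_map kap (algebraMap (MvPolynomial ι (𝓞 k)) (KK k ι)) kap_spec hBK P hPd hPe hPi,
      hom2_map kap (algebraMap (MvPolynomial ι (𝓞 k)) (KK k ι)) kap_spec hBK Q hQd hQe hQi,
      goodMap_scale, hTT, hTT]
    · exact good_big hd h hcl _ _ hg
    · exact mul_ne_zero ((map_ne_zero kap).2 hm) (pow_ne_zero _ hBK)
  have h1 := (family ω hd _ _ hgen).union (D0_B ω hB)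
  intro ε hε
  refine (h1 ε hε).mono ?_
  intro w hw
  by_contra hcon
  rw [Set.mem_union, not_or] at hcon
  obtain ⟨hcon1, hcon2⟩ := hcon
  have hcon1' : GoodMap d C ((hom2 A B m e d P).map (sp ω w)) ((hom2 A B m e d Q).map (sp ω w)) := by
    by_contra h2
    exact hcon1 h2
  have hBw : sp ω w B ≠ 0 := by
    rw [sp, RingHom.comp_apply, Ne, FaithfulSMul.algebraMap_eq_zero_iff]
    exact hcon2
  apply hw
  refine ⟨hBw, ?_⟩
  have hspec : ∀ y, sp ω w (MvPolynomial.C y : MvPolynomial ι (𝓞 k)) =
      (RingHom.id k) (algebraMap (𝓞 k) k y) := by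
    intro y
    rw [sp, RingHom.comp_apply, MvPolynomial.eval_C, RingHom.id_apply]
  rw [hom2_map (RingHom.id k) (sp ω w) hspec hBw P hPd hPe hPi,
    hom2_map (RingHom.id k) (sp ω w) hspec hBw Q hQd hQe hQi, goodMap_scale] at hcon1'
  · exact hcon1'
  · exact mul_ne_zero hm (pow_ne_zero _ hBw)

end

end Pool.Agent.Y706
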