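import Pool.Agent.Y706.P5

set_option autoImplicit false

/-! One-parameter families: integral parameters and all parameters. -/

namespace Pool.Agent.Y706

open Pool.Agent.H936R2 Pool.Agent.H927R2.RD H294UB Pool.Agent.W275.UB
  Pool.Agent.W193.UB Pool.Agent.W277.UH NumberField

set_option linter.unusedSectionVars false

section

variable {k : Type} [Field k] [NumberField k] {ι : Type} [Fintype ι]

lemma indep_gen {Ω : Type} [Field Ω] [Algebra k Ω] (φ : MvPolynomial ι (𝓞 k) →+* Ω)
    (hφ : Function.Injective φ) : AlgebraicIndependent k (fun i : ι => φ (MvPolynomial.X i)) := by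
  have h1 : AlgebraicIndependent ℤ (fun i : ι => φ (MvPolynomial.X i)) := by
    have h2 : ∀ P : MvPolynomial ι ℤ, MvPolynomial.aeval (fun i : ι => φ (MvPolynomial.X i)) P =
        φ (MvPolynomial.map (Int.castRingHom (𝓞 k)) P) := by
      intro P
      induction P using MvPolynomial.induction_on with
      | C a => simp
      | add p q hp hq => rw [map_add, map_add, map_add, hp, hq]
      | mul_X p i hp => rw [map_mul, map_mul, map_mul, hp, MvPolynomial.aeval_X, MvPolynomial.map_X]
    intro P Q hPQ
    have h3 : MvPolynomial.aeval (fun i : ι => φ (MvPolynomial.X i)) P =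
        MvPolynomial.aeval (fun i : ι => φ (MvPolynomial.X i)) Q := hPQ
    rw [h2, h2] at h3
    exact MvPolynomial.map_injective _ (RingHom.injective_int _) (hφ h3)
  have : Algebra.IsAlgebraic ℤ k := by
    constructor
    intro c
    have h2 : IsAlgebraic ℚ c := Algebra.IsAlgebraic.isAlgebraic c
    exact (IsFractionRing.isAlgebraic_iff ℤ ℚ k).2 h2
  exact h1.extendScalars k

lemma indep_K : AlgebraicIndependent k (fun i : ι => algebraMap (MvPolynomial ι (𝓞 k)) (KK k ι)
    (MvPolynomial.X i)) :=
  indep_gen _ (IsFractionRing.injective (MvPolynomial ι (𝓞 k)) (KK k ι))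

/-- generation of the big field -/
lemma top_K (F : IntermediateField k (KK k ι))
    (h : ∀ i : ι, algebraMap (MvPolynomial ι (𝓞 k)) (KK k ι) (MvPolynomial.X i) ∈ F)
    (x : KK k ι) : x ∈ F := by
  have h1 : ∀ P : MvPolynomial ι (𝓞 k), algebraMap (MvPolynomial ι (𝓞 k)) (KK k ι) P ∈ F := by
    intro P
    induction P using MvPolynomial.induction_on with
    | C a =>
      rw [kap_spec]
      exact F.algebraMap_mem _
    | add p q hp hq => rw [map_add]; exact add_mem hp hq
    | mul_X p i hp => rw [map_mul]; exact mul_mem hp (h i)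
  obtain ⟨a, b, _, rfl⟩ := IsFractionRing.div_surjective (A := MvPolynomial ι (𝓞 k)) x
  exact div_mem (h1 a) (h1 b)

end

lemma cl_abs {k E : Type*} [Field k] [Field E] [Algebra k E] (τ b : E)
    (htr : Transcendental (IntermediateField.adjoin k {τ}) b)
    (htop : ∀ G : IntermediateField k E, τ ∈ G → b ∈ G → ∀ x, x ∈ G) (x : E)
    (hx : IsAlgebraic (IntermediateField.adjoin k {τ}) x) :
    x ∈ IntermediateField.adjoin k {τ} := by
  have h1 : x ∈ (IntermediateField.adjoin (IntermediateField.adjoin k {τ}) {b}).restrictScalars k := by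
    apply htop
    · rw [IntermediateField.mem_restrictScalars]
      have h3 : τ ∈ IntermediateField.adjoin k {τ} := IntermediateField.mem_adjoin_simple_self _ _
      exact IntermediateField.algebraMap_mem _ (⟨τ, h3⟩ : IntermediateField.adjoin k {τ})
    · rw [IntermediateField.mem_restrictScalars]
      exact IntermediateField.mem_adjoin_simple_self _ b
  rw [IntermediateField.mem_restrictScalars] at h1
  obtain ⟨c, hc⟩ := mem_of_alg_simple htr h1 hx
  rw [← hc]
  exact c.2

section

variable {k : Type} [Field k] [NumberField k]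

/-! ### integral parameters -/

lemma tau_unit : tau (k := k) (MvPolynomial.X ()) 1 =
    algebraMap (MvPolynomial Unit (𝓞 k)) (KK k Unit) (MvPolynomial.X ()) := by
  rw [tau, map_one, div_one]

lemma tr_unit : Transcendental k (tau (k := k) (MvPolynomial.X ()) 1) := by
  rw [tau_unit]
  exact (indep_K (k := k) (ι := Unit)).transcendental ()

lemma cl_unit (x : KK k Unit) :
    x ∈ IntermediateField.adjoin k {tau (k := k) (MvPolynomial.X ()) 1} := by
  apply top_K
  intro i
  rw [← tau_unit]
  exact IntermediateField.mem_adjoin_simple_self _ _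

/-! ### all parameters -/

lemma tr_two : Transcendental k (tau (k := k) (MvPolynomial.X (0 : Fin 2)) (MvPolynomial.X 1)) ∧
    Transcendental (IntermediateField.adjoin k
      {tau (k := k) (MvPolynomial.X (0 : Fin 2)) (MvPolynomial.X 1)})
      (algebraMap (MvPolynomial (Fin 2) (𝓞 k)) (KK k (Fin 2)) (MvPolynomial.X 1)) := by
  set a := algebraMap (MvPolynomial (Fin 2) (𝓞 k)) (KK k (Fin 2)) (MvPolynomial.X 0) with ha
  set b := algebraMap (MvPolynomial (Fin 2) (𝓞 k)) (KK k (Fin 2)) (MvPolynomial.X 1) with hb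
  have hab : AlgebraicIndependent k (fun i : Fin 2 =>
    algebraMap (MvPolynomial (Fin 2) (𝓞 k)) (KK k (Fin 2)) (MvPolynomial.X i)) := indep_K
  have htau : tau (k := k) (MvPolynomial.X (0 : Fin 2)) (MvPolynomial.X 1) = a / b := rfl
  rw [htau]
  have hb0 : b ≠ 0 := by
    intro h0
    have h1 := hab.transcendental 1
    rw [← hb, h0] at h1
    exact h1 isAlgebraic_zero
  have h1 : Transcendental (Algebra.adjoin k {b}) a := by
    have h2 := hab.transcendental_adjoin (s := {1}) (i := 0) (by simp)
    rw [Set.image_singleton] at h2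
    exact h2
  have hbmem : b ∈ Algebra.adjoin k {b} := Algebra.subset_adjoin rfl
  have h3 : Transcendental (Algebra.adjoin k {b}) (a / b) := by
    intro h4
    apply h1
    have h5 : IsAlgebraic (Algebra.adjoin k {b}) b :=
      isAlgebraic_algebraMap (⟨b, hbmem⟩ : Algebra.adjoin k {b})
    have h6 := h4.mul h5
    rw [div_mul_cancel₀ _ hb0] at h6
    exact h6
  have hbu : AlgebraicIndependent k (fun _ : Unit => b) :=
    (algebraicIndependent_unique_type_iff (R := k) (x := fun _ : Unit => b)).2 (hab.transcendental 1)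
  have h7 : AlgebraicIndependent k (fun o : Option Unit => o.elim (a / b) (fun _ => b)) := by
    rw [AlgebraicIndependent.option_iff_transcendental hbu]
    rw [Set.range_const]
    exact h3
  constructor
  · exact h7.transcendental none
  · rw [IntermediateField.transcendental_adjoin_iff]
    have h8 := h7.transcendental_adjoin (s := {none}) (i := some ()) (by simp)
    rw [Set.image_singleton] at h8
    exact h8

lemma cl_two (x : KK k (Fin 2)) (hx : IsAlgebraic (IntermediateField.adjoin k
      {tau (k := k) (MvPolynomial.X (0 : Fin 2)) (MvPolynomial.X 1)}) x) :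
    x ∈ IntermediateField.adjoin k
      {tau (k := k) (MvPolynomial.X (0 : Fin 2)) (MvPolynomial.X 1)} := by
  refine cl_abs _ _ tr_two.2 ?_ x hx
  intro G hG1 hG2 y
  apply top_K
  intro i
  have hb0 : algebraMap (MvPolynomial (Fin 2) (𝓞 k)) (KK k (Fin 2)) (MvPolynomial.X 1) ≠ 0 := by
    intro h0
    have h1 := (indep_K (k := k) (ι := Fin 2)).transcendental 1
    rw [h0] at h1
    exact h1 isAlgebraic_zero
  have h4 := mul_mem hG1 hG2
  rw [tau, div_mul_cancel₀ _ hb0] at h4
  have hi : i = 0 ∨ i = 1 := by omega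
  rcases hi with rfl | rfl
  · exact h4
  · exact hG2

end

/-! ### the final theorem -/

section final

variable {k : Type} [Field k] [NumberField k]

theorem param_int {J : Type} [Fintype J] (ω : Module.Basis J ℤ (𝓞 k)) {d C : ℕ} (hd : 2 ≤ d)
    (P Q : Polynomial (Polynomial k))
    (hg : GoodMap d C (P.map (algebraMap (Polynomial k) (RatFunc k)))
      (Q.map (algebraMap (Polynomial k) (RatFunc k)))) :
    D0 {w : Unit × J → ℤ | ¬ GoodMap d C
      (P.map (Polynomial.evalRingHom (algebraMap (𝓞 k) k (vec ω w ()))))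
      (Q.map (Polynomial.evalRingHom (algebraMap (𝓞 k) k (vec ω w ()))))} := by
  have h := one_param ω (A := MvPolynomial.X ()) (B := 1) hd P Q hg one_ne_zero tr_unit
    fun x _ => cl_unit x
  intro ε hε
  refine (h ε hε).mono ?_
  intro w hw hcon
  apply hw
  have h1 : sp ω w (MvPolynomial.X () : MvPolynomial Unit (𝓞 k)) / sp ω w 1 =
      algebraMap (𝓞 k) k (vec ω w ()) := by
    rw [map_one, div_one, sp, RingHom.comp_apply, MvPolynomial.eval_X]
  have h2 := hcon.2
  rw [h1] at h2
  exact h2

theorem param_all {J : Type} [Fintype J] (ω : Module.Basis J ℤ (𝓞 k)) {d C : ℕ} (hd : 2 ≤ d)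
    (P Q : Polynomial (Polynomial k))
    (hg : GoodMap d C (P.map (algebraMap (Polynomial k) (RatFunc k)))
      (Q.map (algebraMap (Polynomial k) (RatFunc k)))) :
    D0 {w : Fin 2 × J → ℤ | ¬ (vec ω w 1 ≠ 0 ∧ GoodMap d C
      (P.map (Polynomial.evalRingHom (algebraMap (𝓞 k) k (vec ω w 0) /
        algebraMap (𝓞 k) k (vec ω w 1))))
      (Q.map (Polynomial.evalRingHom (algebraMap (𝓞 k) k (vec ω w 0) /
        algebraMap (𝓞 k) k (vec ω w 1)))))} := by
  have h := one_param ω (A := MvPolynomial.X (0 : Fin 2)) (B := MvPolynomial.X 1) hd P Q hg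
    (MvPolynomial.X_ne_zero 1) tr_two.1 cl_two
  have h1 : ∀ (w : Fin 2 × J → ℤ) (i : Fin 2), sp ω w (MvPolynomial.X i) =
      algebraMap (𝓞 k) k (vec ω w i) := by
    intro w i
    rw [sp, RingHom.comp_apply, MvPolynomial.eval_X]
  intro ε hε
  refine (h ε hε).mono ?_
  intro w hw hcon
  apply hw
  obtain ⟨h2, h3⟩ := hcon
  rw [h1] at h2
  rw [h1, h1] at h3
  refine ⟨?_, h3⟩
  intro h0
  rw [h0, map_zero] at h2
  exact h2 rfl

end final

end Pool.Agent.Y706
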