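import Pool.Agent.Y706.P6

set_option autoImplicit false

/-! Densities, and the geometric input. -/

namespace Pool.Agent.Y706

open Pool.Agent.H936R2 Pool.Agent.H927R2.RD H294UB Pool.Agent.W275.UB
  Pool.Agent.W193.UB Pool.Agent.W277.UH NumberField Filter Topology

set_option linter.unusedSectionVars false

section dens

variable {k : Type} [Field k] [NumberField k] {J : Type} [Fintype J]
  (ω : Module.Basis J ℤ (𝓞 k))

/-- a set of integers of `k` has density one -/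
lemma dens_one (P : 𝓞 k → Prop) (h : D0 {w : Unit × J → ℤ | ¬ P (vec ω w ())}) :
    Tendsto (fun H : ℕ => (({t : 𝓞 k | (∀ j, |ω.repr t j| ≤ (H : ℤ)) ∧ P t}).ncard : ℝ) /
      (({t : 𝓞 k | ∀ j, |ω.repr t j| ≤ (H : ℤ)}).ncard : ℝ)) atTop (𝓝 1) := by
  have h1 := Pool.Agent.W275.ND.ratioV ω (ι := Unit) (fun q => P (q ())) h
  refine h1.congr fun H => ?_
  have h2 : ∀ R : 𝓞 k → Prop, ({q : Unit → 𝓞 k | R (q ())}).ncard = ({t | R t}).ncard := by
    intro R
    have h3 : {q : Unit → 𝓞 k | R (q ())} = (fun (t : 𝓞 k) (_ : Unit) => t) '' {t | R t} := by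
      ext q
      constructor
      · intro hq
        exact ⟨q (), hq, funext fun _ => rfl⟩
      · rintro ⟨t, ht, rfl⟩
        exact ht
    rw [h3, Set.ncard_image_of_injective]
    intro a b hab
    exact congrFun hab ()
  have h4 := h2 fun t => (∀ j, |ω.repr t j| ≤ (H : ℤ)) ∧ P t
  have h5 := h2 fun t => ∀ j, |ω.repr t j| ≤ (H : ℤ)
  have h6 : {q | q ∈ {q : Unit → 𝓞 k | ∀ i j, |ω.repr (q i) j| ≤ (H : ℤ)} ∧ P (q ())} =
      {q : Unit → 𝓞 k | (∀ j, |ω.repr (q ()) j| ≤ (H : ℤ)) ∧ P (q ())} := by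
    ext q
    exact ⟨fun hq => ⟨fun j => hq.1 () j, hq.2⟩, fun hq => ⟨fun _ j => hq.1 j, hq.2⟩⟩
  have h7 : {q : Unit → 𝓞 k | ∀ i j, |ω.repr (q i) j| ≤ (H : ℤ)} =
      {q : Unit → 𝓞 k | ∀ j, |ω.repr (q ()) j| ≤ (H : ℤ)} := by
    ext q
    exact ⟨fun hq j => hq () j, fun hq _ j => hq j⟩
  rw [h6, h7, h4, h5]

/-- a set of pairs of integers of `k` has density one -/
lemma dens_two (P : 𝓞 k × 𝓞 k → Prop) (h : D0 {w : Fin 2 × J → ℤ | ¬ P (vec ω w 0, vec ω w 1)}) :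
    Tendsto (fun H : ℕ =>
      (({s : 𝓞 k × 𝓞 k | (∀ j, |ω.repr s.1 j| ≤ (H : ℤ) ∧ |ω.repr s.2 j| ≤ (H : ℤ)) ∧
        P s}).ncard : ℝ) /
      (({s : 𝓞 k × 𝓞 k | ∀ j, |ω.repr s.1 j| ≤ (H : ℤ) ∧ |ω.repr s.2 j| ≤ (H : ℤ)}).ncard : ℝ))
      atTop (𝓝 1) := by
  have h1 := Pool.Agent.W275.ND.ratioV ω (ι := Fin 2) (fun q => P (q 0, q 1)) h
  refine h1.congr fun H => ?_
  have h2 : ∀ R : 𝓞 k × 𝓞 k → Prop,
      ({q : Fin 2 → 𝓞 k | R (q 0, q 1)}).ncard = ({t | R t}).ncard := by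
    intro R
    have h3 : {q : Fin 2 → 𝓞 k | R (q 0, q 1)} =
        (fun s : 𝓞 k × 𝓞 k => (![s.1, s.2] : Fin 2 → 𝓞 k)) '' {t | R t} := by
      ext q
      constructor
      · intro hq
        refine ⟨(q 0, q 1), hq, ?_⟩
        funext i
        fin_cases i <;> rfl
      · rintro ⟨t, ht, rfl⟩
        exact ht
    rw [h3, Set.ncard_image_of_injective]
    intro a b hab
    exact Prod.ext (congrFun hab 0) (congrFun hab 1)
  have h4 := h2 fun s => (∀ j, |ω.repr s.1 j| ≤ (H : ℤ) ∧ |ω.repr s.2 j| ≤ (H : ℤ)) ∧ P s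
  have h5 := h2 fun s => ∀ j, |ω.repr s.1 j| ≤ (H : ℤ) ∧ |ω.repr s.2 j| ≤ (H : ℤ)
  have h6 : {q | q ∈ {q : Fin 2 → 𝓞 k | ∀ i j, |ω.repr (q i) j| ≤ (H : ℤ)} ∧ P (q 0, q 1)} =
      {q : Fin 2 → 𝓞 k | (∀ j, |ω.repr (q 0) j| ≤ (H : ℤ) ∧ |ω.repr (q 1) j| ≤ (H : ℤ)) ∧
        P (q 0, q 1)} := by
    ext q
    constructor
    · rintro ⟨h8, h9⟩
      exact ⟨fun j => ⟨h8 0 j, h8 1 j⟩, h9⟩
    · rintro ⟨h8, h9⟩
      refine ⟨fun i j => ?_, h9⟩
      have hi : i = 0 ∨ i = 1 := by omega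
      rcases hi with rfl | rfl
      · exact (h8 j).1
      · exact (h8 j).2
  have h7 : {q : Fin 2 → 𝓞 k | ∀ i j, |ω.repr (q i) j| ≤ (H : ℤ)} =
      {q : Fin 2 → 𝓞 k | ∀ j, |ω.repr (q 0) j| ≤ (H : ℤ) ∧ |ω.repr (q 1) j| ≤ (H : ℤ)} := by
    ext q
    constructor
    · exact fun h8 j => ⟨h8 0 j, h8 1 j⟩
    · intro h8 i j
      have hi : i = 0 ∨ i = 1 := by omega
      rcases hi with rfl | rfl
      · exact (h8 j).1
      · exact (h8 j).2
  rw [h6, h7, h4, h5]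

end dens

/-- the map `p / q` over `k(t)` is conjugate over `k(t)` to a map with coefficients in `k` -/
def Isotriv {k : Type} [Field k] (p q : Polynomial (RatFunc k)) (d : ℕ) : Prop :=
  ∃ a b c e : RatFunc k, a * e - b * c ≠ 0 ∧ ∃ u w : Polynomial k, (u ≠ 0 ∨ w ≠ 0) ∧
    u.natDegree ≤ d ∧ w.natDegree ≤ d ∧
    (Polynomial.C a * p + Polynomial.C b * q) * ∑ i ∈ Finset.range (d + 1),
      Polynomial.C (algebraMap k (RatFunc k) (w.coeff i)) *
        (Polynomial.C a * Polynomial.X + Polynomial.C b) ^ i *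
        (Polynomial.C c * Polynomial.X + Polynomial.C e) ^ (d - i) =
    (Polynomial.C c * p + Polynomial.C e * q) * ∑ i ∈ Finset.range (d + 1),
      Polynomial.C (algebraMap k (RatFunc k) (u.coeff i)) *
        (Polynomial.C a * Polynomial.X + Polynomial.C b) ^ i *
        (Polynomial.C c * Polynomial.X + Polynomial.C e) ^ (d - i)

lemma const_of_alg {k : Type} [Field k] (x : RatFunc k) (hx : IsAlgebraic k x) :
    ∃ c : k, algebraMap k (RatFunc k) c = x := by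
  by_contra hcon
  refine RatFunc.transcendental_of_ne_C x ?_ hx
  rintro ⟨c, hc⟩
  exact hcon ⟨c, by rw [RatFunc.algebraMap_eq_C]; exact hc.symm⟩

lemma poly_of_alg {k : Type} [Field k] (u : Polynomial (RatFunc k))
    (hu : ∀ n, IsAlgebraic k (u.coeff n)) : ∃ v : Polynomial k, v.map (algebraMap k (RatFunc k)) = u := by
  have h1 : u ∈ Polynomial.lifts (algebraMap k (RatFunc k)) := by
    rw [Polynomial.lifts_iff_coeff_lifts]
    intro n
    obtain ⟨c, hc⟩ := const_of_alg _ (hu n)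
    exact ⟨c, hc⟩
  exact (Polynomial.mem_lifts _).1 h1

theorem geom : ∃ N : ℕ → ℕ, ∀ (k : Type) [Field k] [CharZero k] (d : ℕ), 2 ≤ d →
    ∀ p q : Polynomial (RatFunc k), IsCoprime p q → max p.natDegree q.natDegree = d →
    ¬ Isotriv p q d → GoodMap d (N d) p q := by
  obtain ⟨N, hN⟩ := ubp_rationalU.{0, 0}
  refine ⟨N, fun k _ _ d hd p q hco hmax hiso => ⟨hco, hmax, ?_⟩⟩
  have htop : IntermediateField.adjoin k {(RatFunc.X : RatFunc k)} = ⊤ := RatFunc.adjoin_X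
  have ht : Transcendental k (RatFunc.X : RatFunc k) := RatFunc.transcendental_X
  obtain ⟨c, hc0, hc⟩ := hN k (RatFunc k) ⟨{RatFunc.X}, by rw [Finset.coe_singleton]; exact htop⟩
    ⟨RatFunc.X, ht, by
      constructor
      intro x
      have hx : x ∈ IntermediateField.adjoin k {(RatFunc.X : RatFunc k)} := by
        rw [htop]
        exact IntermediateField.mem_top
      exact isAlgebraic_algebraMap
        (⟨x, hx⟩ : IntermediateField.adjoin k {(RatFunc.X : RatFunc k)})⟩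
  have h := hc d hd p q hco hmax (by
    rintro ⟨a, b, c, e, hdet, u, w, hne, hu, hw, hua, hwa, hid⟩
    obtain ⟨u, rfl⟩ := poly_of_alg u hua
    obtain ⟨w, rfl⟩ := poly_of_alg w hwa
    refine hiso ⟨a, b, c, e, hdet, u, w, ?_, ?_, ?_, ?_⟩
    · rcases hne with h | h
      · exact Or.inl fun h0 => h (by rw [h0, Polynomial.map_zero])
      · exact Or.inr fun h0 => h (by rw [h0, Polynomial.map_zero])
    · rwa [Polynomial.natDegree_map] at hu
    · rwa [Polynomial.natDegree_map] at hw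
    · simp only [Polynomial.coeff_map] at hid
      exact hid)
  rw [hc0 ⟨_, htop⟩, zero_add, pow_one] at h
  exact h

/-- **Uniform boundedness for 100% of the members of every non-isotrivial one-parameter family.** -/
theorem main1 : ∃ N : ℕ → ℕ, ∀ (k : Type) [Field k] [NumberField k] (d : ℕ), 2 ≤ d →
    ∀ P Q : Polynomial (Polynomial k),
    IsCoprime (P.map (algebraMap (Polynomial k) (RatFunc k)))
      (Q.map (algebraMap (Polynomial k) (RatFunc k))) → max P.natDegree Q.natDegree = d →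
    ¬ Isotriv (P.map (algebraMap (Polynomial k) (RatFunc k)))
      (Q.map (algebraMap (Polynomial k) (RatFunc k))) d →
    ∀ (J : Type) [Fintype J] (ω : Module.Basis J ℤ (𝓞 k)),
    Tendsto (fun H : ℕ => (({t : 𝓞 k | (∀ j, |ω.repr t j| ≤ (H : ℤ)) ∧
        GoodMap d (N d) (P.map (Polynomial.evalRingHom (algebraMap (𝓞 k) k t)))
          (Q.map (Polynomial.evalRingHom (algebraMap (𝓞 k) k t)))}).ncard : ℝ) /
      (({t : 𝓞 k | ∀ j, |ω.repr t j| ≤ (H : ℤ)}).ncard : ℝ)) atTop (𝓝 1) ∧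
    Tendsto (fun H : ℕ =>
      (({s : 𝓞 k × 𝓞 k | (∀ j, |ω.repr s.1 j| ≤ (H : ℤ) ∧ |ω.repr s.2 j| ≤ (H : ℤ)) ∧
        (s.2 ≠ 0 ∧ GoodMap d (N d)
          (P.map (Polynomial.evalRingHom (algebraMap (𝓞 k) k s.1 / algebraMap (𝓞 k) k s.2)))
          (Q.map (Polynomial.evalRingHom
            (algebraMap (𝓞 k) k s.1 / algebraMap (𝓞 k) k s.2))))}).ncard : ℝ) /
      (({s : 𝓞 k × 𝓞 k | ∀ j, |ω.repr s.1 j| ≤ (H : ℤ) ∧ |ω.repr s.2 j| ≤ (H : ℤ)}).ncard : ℝ))
      atTop (𝓝 1) := by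
  obtain ⟨N, hN⟩ := geom
  refine ⟨N, fun k _ _ d hd P Q hco hmax hiso J _ ω => ?_⟩
  have hinj : Function.Injective (algebraMap (Polynomial k) (RatFunc k)) :=
    IsFractionRing.injective _ _
  have hmax' : max (P.map (algebraMap (Polynomial k) (RatFunc k))).natDegree
      (Q.map (algebraMap (Polynomial k) (RatFunc k))).natDegree = d := by
    rw [Polynomial.natDegree_map_eq_of_injective hinj,
      Polynomial.natDegree_map_eq_of_injective hinj]
    exact hmax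
  have hg := hN k d hd _ _ hco hmax' hiso
  exact ⟨dens_one ω _ (param_int ω hd P Q hg), dens_two ω _ (param_all ω hd P Q hg)⟩

end Pool.Agent.Y706
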