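import Pool.Agent.Y706.P7

set_option autoImplicit false

/-! Families with several parameters. -/

namespace Pool.Agent.Y706

open Pool.Agent.H936R2 Pool.Agent.H927R2.RD H294UB Pool.Agent.W275.UB
  Pool.Agent.W193.UB Pool.Agent.W277.UH NumberField Filter Topology

set_option linter.unusedSectionVars false

/-- the map `p / q` over `K` is conjugate over `K` to a map with coefficients in the subfield `F` -/
def IsoOver {K : Type} [Field K] (F : Subfield K) (p q : Polynomial K) (d : ℕ) : Prop :=
  ∃ a b c e : K, a * e - b * c ≠ 0 ∧ ∃ u w : Polynomial K, (u ≠ 0 ∨ w ≠ 0) ∧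
    u.natDegree ≤ d ∧ w.natDegree ≤ d ∧ (∀ n, u.coeff n ∈ F) ∧ (∀ n, w.coeff n ∈ F) ∧
    (Polynomial.C a * p + Polynomial.C b * q) * ∑ i ∈ Finset.range (d + 1),
      Polynomial.C (w.coeff i) *
        (Polynomial.C a * Polynomial.X + Polynomial.C b) ^ i *
        (Polynomial.C c * Polynomial.X + Polynomial.C e) ^ (d - i) =
    (Polynomial.C c * p + Polynomial.C e * q) * ∑ i ∈ Finset.range (d + 1),
      Polynomial.C (u.coeff i) *
        (Polynomial.C a * Polynomial.X + Polynomial.C b) ^ i *
        (Polynomial.C c * Polynomial.X + Polynomial.C e) ^ (d - i)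

lemma isotriv_of_isoOver {k : Type} [Field k] {p q : Polynomial (RatFunc k)} {d : ℕ}
    (h : IsoOver (algebraMap k (RatFunc k)).fieldRange p q d) : Isotriv p q d := by
  obtain ⟨a, b, c, e, hdet, u, w, hne, hu, hw, huF, hwF, hid⟩ := h
  have key : ∀ v : Polynomial (RatFunc k), (∀ n, v.coeff n ∈ (algebraMap k (RatFunc k)).fieldRange) →
      ∃ v' : Polynomial k, v'.map (algebraMap k (RatFunc k)) = v := by
    intro v hv
    have h1 : v ∈ Polynomial.lifts (algebraMap k (RatFunc k)) := by
      rw [Polynomial.lifts_iff_coeff_lifts]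
      intro n
      obtain ⟨c, hc⟩ := hv n
      exact ⟨c, hc⟩
    exact (Polynomial.mem_lifts _).1 h1
  obtain ⟨u, rfl⟩ := key u huF
  obtain ⟨w, rfl⟩ := key w hwF
  refine ⟨a, b, c, e, hdet, u, w, ?_, ?_, ?_, ?_⟩
  · rcases hne with h | h
    · exact Or.inl fun h0 => h (by rw [h0, Polynomial.map_zero])
    · exact Or.inr fun h0 => h (by rw [h0, Polynomial.map_zero])
  · rwa [Polynomial.natDegree_map] at hu
  · rwa [Polynomial.natDegree_map] at hw
  · simp only [Polynomial.coeff_map] at hid
    exact hid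

/-- the geometric theorem, for `K = k₀(t)` -/
theorem geom2 : ∃ N : ℕ → ℕ, (∀ (k : Type) [Field k] [CharZero k] (d : ℕ), 2 ≤ d →
    ∀ p q : Polynomial (RatFunc k), IsCoprime p q → max p.natDegree q.natDegree = d →
    ¬ Isotriv p q d → GoodMap d (N d) p q) ∧
    ∀ (K : Type) [Field K] [CharZero K] (F : Subfield K) (t : K), Transcendental F t →
    (∀ G : Subfield K, F ≤ G → t ∈ G → ∀ x, x ∈ G) → ∀ d : ℕ, 2 ≤ d →
    ∀ p q : Polynomial K, IsCoprime p q → max p.natDegree q.natDegree = d →
    ¬ IsoOver F p q d → GoodMap d (N d) p q := by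
  obtain ⟨N₁, hN₁⟩ := geom
  obtain ⟨N, hN⟩ := ubp_rationalU.{0, 0}
  refine ⟨fun d => max (N₁ d) (N d), fun k _ _ d hd p q hco hmax hiso => ?_, ?_⟩
  · obtain ⟨h1, h2, h3⟩ := hN₁ k d hd p q hco hmax hiso
    exact ⟨h1, h2, h3.trans (by exact_mod_cast le_max_left _ _)⟩
  intro K _ _ F t ht htop d hd p q hco hmax hiso
  have hcz : CharZero F := charZero_of_injective_algebraMap (algebraMap F K).injective (A := K) |> fun _ => by
    constructor
    intro a b hab
    have := congrArg (algebraMap F K) hab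
    rw [map_natCast, map_natCast] at this
    exact_mod_cast this
  have htop' : IntermediateField.adjoin F {t} = ⊤ := by
    rw [eq_top_iff]
    intro x _
    refine htop (IntermediateField.adjoin F {t}).toSubfield ?_ ?_ x
    · intro y hy
      exact (IntermediateField.adjoin F {t}).algebraMap_mem ⟨y, hy⟩
    · exact IntermediateField.mem_adjoin_simple_self F t
  obtain ⟨c, hc0, hc⟩ := hN F K ⟨{t}, by rw [Finset.coe_singleton]; exact htop'⟩
    ⟨t, ht, by
      constructor
      intro x
      have hx : x ∈ IntermediateField.adjoin F {t} := by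
        rw [htop']
        exact IntermediateField.mem_top
      exact isAlgebraic_algebraMap (⟨x, hx⟩ : IntermediateField.adjoin F {t})⟩
  have hcl : ∀ x : K, IsAlgebraic F x → x ∈ F := by
    intro x hx
    have h1 : x ∈ IntermediateField.adjoin F {t} := by
      rw [htop']
      exact IntermediateField.mem_top
    obtain ⟨y, rfl⟩ := mem_of_alg_simple ht h1 hx
    exact y.2
  have h := hc d hd p q hco hmax (by
    rintro ⟨a, b, c, e, hdet, u, w, hne, hu, hw, hua, hwa, hid⟩
    exact hiso ⟨a, b, c, e, hdet, u, w, hne, hu, hw, fun n => hcl _ (hua n),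
      fun n => hcl _ (hwa n), hid⟩)
  rw [hc0 ⟨_, htop'⟩, zero_add, pow_one] at h
  exact ⟨hco, hmax, h.trans (by exact_mod_cast le_max_right _ _)⟩

section

variable {k : Type} [Field k] [NumberField k] {ι : Type} [Fintype ι]

/-- clearing denominators -/
lemma exists_lift (P Q : Polynomial (MvPolynomial ι k)) : ∃ (m : 𝓞 k)
    (P' Q' : Polynomial (MvPolynomial ι (𝓞 k))), m ≠ 0 ∧
    P'.map (MvPolynomial.map (algebraMap (𝓞 k) k)) =
      Polynomial.C (MvPolynomial.C (algebraMap (𝓞 k) k m)) * P ∧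
    Q'.map (MvPolynomial.map (algebraMap (𝓞 k) k)) =
      Polynomial.C (MvPolynomial.C (algebraMap (𝓞 k) k m)) * Q := by
  classical
  have key : ∀ P : Polynomial (MvPolynomial ι k), ∃ (m : 𝓞 k)
      (P' : Polynomial (MvPolynomial ι (𝓞 k))), m ≠ 0 ∧
      P'.map (MvPolynomial.map (algebraMap (𝓞 k) k)) =
        Polynomial.C (MvPolynomial.C (algebraMap (𝓞 k) k m)) * P := by
    intro P
    let S : Finset k := P.support.biUnion fun j => (P.coeff j).support.image fun i =>
      (P.coeff j).coeff i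
    obtain ⟨b, hb⟩ := IsLocalization.exist_integer_multiples_of_finset (nonZeroDivisors (𝓞 k)) S
    have hint : ∀ j i, ∃ y : 𝓞 k, algebraMap (𝓞 k) k y =
        algebraMap (𝓞 k) k (b : 𝓞 k) * (P.coeff j).coeff i := by
      intro j i
      by_cases h : (P.coeff j).coeff i = 0
      · exact ⟨0, by rw [h, map_zero, mul_zero]⟩
      · have h1 : (P.coeff j).coeff i ∈ S := by
          refine Finset.mem_biUnion.2 ⟨j, ?_, Finset.mem_image.2 ⟨i, ?_, rfl⟩⟩
          · rw [Polynomial.mem_support_iff]
            intro h0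
            rw [h0, MvPolynomial.coeff_zero] at h
            exact h rfl
          · rw [MvPolynomial.mem_support_iff]
            exact h
        obtain ⟨y, hy⟩ := hb _ h1
        exact ⟨y, by rw [hy, Algebra.smul_def]⟩
    have h2 : Polynomial.C (MvPolynomial.C (algebraMap (𝓞 k) k (b : 𝓞 k))) * P ∈
        Polynomial.lifts (MvPolynomial.map (σ := ι) (algebraMap (𝓞 k) k)) := by
      rw [Polynomial.lifts_iff_coeff_lifts]
      intro j
      rw [Polynomial.coeff_C_mul, MvPolynomial.mem_range_map_iff_coeffs_subset]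
      intro y hy
      obtain ⟨i, _, rfl⟩ := MvPolynomial.mem_coeffs_iff.1 hy
      rw [MvPolynomial.coeff_C_mul]
      obtain ⟨z, hz⟩ := hint j i
      exact ⟨z, hz⟩
    obtain ⟨P', hP'⟩ := (Polynomial.mem_lifts _).1 h2
    exact ⟨b, P', nonZeroDivisors.coe_ne_zero b, hP'⟩
  obtain ⟨m₁, P', hm₁, hP'⟩ := key P
  obtain ⟨m₂, Q', hm₂, hQ'⟩ := key Q
  refine ⟨m₁ * m₂, Polynomial.C (MvPolynomial.C m₂) * P', Polynomial.C (MvPolynomial.C m₁) * Q',
    mul_ne_zero hm₁ hm₂, ?_, ?_⟩
  · rw [Polynomial.map_mul, hP', Polynomial.map_C, MvPolynomial.map_C, map_mul, map_mul, map_mul]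
    ring
  · rw [Polynomial.map_mul, hQ', Polynomial.map_C, MvPolynomial.map_C, map_mul, map_mul, map_mul]
    ring

variable {J : Type} [Fintype J] (ω : Module.Basis J ℤ (𝓞 k))

/-- **Families with several parameters.** -/
theorem several {d C : ℕ} (hd : 2 ≤ d) (P Q : Polynomial (MvPolynomial ι k))
    (hg : GoodMap d C (P.map (algebraMap (MvPolynomial ι k) (FractionRing (MvPolynomial ι k))))
      (Q.map (algebraMap (MvPolynomial ι k) (FractionRing (MvPolynomial ι k))))) :
    D0 {w : ι × J → ℤ | ¬ GoodMap d C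
      (P.map (MvPolynomial.eval fun i => algebraMap (𝓞 k) k (vec ω w i)))
      (Q.map (MvPolynomial.eval fun i => algebraMap (𝓞 k) k (vec ω w i)))} := by
  obtain ⟨m, P', Q', hm, hP', hQ'⟩ := exists_lift P Q
  have hmk : algebraMap (𝓞 k) k m ≠ 0 := by
    rw [Ne, FaithfulSMul.algebraMap_eq_zero_iff]
    exact hm
  -- the isomorphism of the fields of rational functions
  set K₁ := FractionRing (MvPolynomial ι k) with hK₁
  have hinj1 : Function.Injective (algebraMap (MvPolynomial ι k) K₁) := IsFractionRing.injective _ _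
  have hX : AlgebraicIndependent k (fun i : ι => algebraMap (MvPolynomial ι (𝓞 k)) (KK k ι)
    (MvPolynomial.X i)) := indep_K
  let θ : MvPolynomial ι k →+* KK k ι := (MvPolynomial.aeval fun i : ι =>
    algebraMap (MvPolynomial ι (𝓞 k)) (KK k ι) (MvPolynomial.X i) : MvPolynomial ι k →ₐ[k] KK k ι)
  have hθ : Function.Injective θ := hX
  let Θ : K₁ →+* KK k ι := IsFractionRing.lift hθ
  have hΘ : ∀ r, Θ (algebraMap _ K₁ r) = θ r := fun r => IsFractionRing.lift_algebraMap hθ r
  have hθm : ∀ r : MvPolynomial ι (𝓞 k), θ (MvPolynomial.map (algebraMap (𝓞 k) k) r) =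
      algebraMap (MvPolynomial ι (𝓞 k)) (KK k ι) r := by
    intro r
    have h1 : θ.comp (MvPolynomial.map (algebraMap (𝓞 k) k)) =
        algebraMap (MvPolynomial ι (𝓞 k)) (KK k ι) := by
      apply MvPolynomial.ringHom_ext
      · intro y
        rw [RingHom.comp_apply, MvPolynomial.map_C]
        exact (MvPolynomial.aeval_C _ _).trans (kap_spec y).symm
      · intro i
        rw [RingHom.comp_apply, MvPolynomial.map_X]
        exact MvPolynomial.aeval_X _ i
    exact congrArg (fun f => f r) h1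
  have hsurj : ∀ x : KK k ι, ∃ y, Θ y = x := by
    intro x
    obtain ⟨a, b, _, rfl⟩ := IsFractionRing.div_surjective (A := MvPolynomial ι (𝓞 k)) x
    refine ⟨algebraMap _ K₁ (MvPolynomial.map (algebraMap (𝓞 k) k) a) /
      algebraMap _ K₁ (MvPolynomial.map (algebraMap (𝓞 k) k) b), ?_⟩
    rw [map_div₀, hΘ, hΘ, hθm, hθm]
  have hgen : ∀ (R : Polynomial (MvPolynomial ι k)) (R' : Polynomial (MvPolynomial ι (𝓞 k))),
      R'.map (MvPolynomial.map (algebraMap (𝓞 k) k)) =
        Polynomial.C (MvPolynomial.C (algebraMap (𝓞 k) k m)) * R →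
      R'.map (algebraMap (MvPolynomial ι (𝓞 k)) (KK k ι)) =
        Polynomial.C (kap (algebraMap (𝓞 k) k m)) * (R.map (algebraMap _ K₁)).map Θ := by
    intro R R' hR
    have h1 : R'.map (algebraMap (MvPolynomial ι (𝓞 k)) (KK k ι)) =
        (R'.map (MvPolynomial.map (algebraMap (𝓞 k) k))).map θ := by
      rw [Polynomial.map_map]
      congr 1
      exact (RingHom.ext hθm).symm
    rw [h1, hR, Polynomial.map_mul, Polynomial.map_C, Polynomial.map_map]
    congr 1
    · congr 1
      exact MvPolynomial.aeval_C _ _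
    · congr 1
      exact (RingHom.ext hΘ).symm
  have hG : GoodMap d C (P'.map (algebraMap (MvPolynomial ι (𝓞 k)) (KK k ι)))
      (Q'.map (algebraMap (MvPolynomial ι (𝓞 k)) (KK k ι))) := by
    rw [hgen P P' hP', hgen Q Q' hQ', goodMap_scale _ ((map_ne_zero kap).2 hmk)]
    apply goodMap_map Θ _ _ d C hg
    intro z _
    cases z with
    | none => exact ⟨none, rfl⟩
    | some x =>
      obtain ⟨y, hy⟩ := hsurj x
      exact ⟨some y, by rw [Option.map_some, hy]⟩
  have hfam := family ω hd P' Q' hG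
  intro ε hε
  refine (hfam ε hε).mono ?_
  intro w hw hcon
  apply hw
  have hsp : ∀ r : MvPolynomial ι (𝓞 k), sp ω w r =
      MvPolynomial.eval (fun i => algebraMap (𝓞 k) k (vec ω w i))
        (MvPolynomial.map (algebraMap (𝓞 k) k) r) := by
    intro r
    rw [sp, RingHom.comp_apply, MvPolynomial.eval_map]
    have h1 := MvPolynomial.eval₂_comp_left (algebraMap (𝓞 k) k) (RingHom.id (𝓞 k)) (vec ω w) r
    rw [RingHom.comp_id] at h1
    exact h1
  have hspec : ∀ (R : Polynomial (MvPolynomial ι k)) (R' : Polynomial (MvPolynomial ι (𝓞 k))),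
      R'.map (MvPolynomial.map (algebraMap (𝓞 k) k)) =
        Polynomial.C (MvPolynomial.C (algebraMap (𝓞 k) k m)) * R →
      R'.map (sp ω w) = Polynomial.C (algebraMap (𝓞 k) k m) *
        R.map (MvPolynomial.eval fun i => algebraMap (𝓞 k) k (vec ω w i)) := by
    intro R R' hR
    have h1 : R'.map (sp ω w) = (R'.map (MvPolynomial.map (algebraMap (𝓞 k) k))).map
        (MvPolynomial.eval fun i => algebraMap (𝓞 k) k (vec ω w i)) := by
      rw [Polynomial.map_map]
      congr 1
      exact RingHom.ext hsp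
    rw [h1, hR, Polynomial.map_mul, Polynomial.map_C, MvPolynomial.eval_C]
  rw [hspec P P' hP', hspec Q Q' hQ', goodMap_scale _ hmk] at hcon
  exact hcon

end

end Pool.Agent.Y706
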