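import Pool.Agent.Y706.G16

set_option autoImplicit false

/-! The portrait of the rational preperiodic points of 100% of the members of a family. -/

namespace Pool.Agent.Y706

open MvPolynomial Pool.Agent.H936R2 Pool.Agent.H927R2.RD H294UB Pool.Agent.W275.UB
  Pool.Agent.W193.UB Pool.Agent.W554.UB NumberField

section

variable {k : Type} [Field k] [NumberField k] {J : Type} [Fintype J] {m : ℕ}
  (ω : Module.Basis J ℤ (𝓞 k))

/-- the zeros of a nonzero polynomial in the parameters are negligible -/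
theorem D0_tp {Δ : MvPolynomial (Fin m) k} (hΔ : Δ ≠ 0) :
    D0 {w : Fin (m + 1) × J → ℤ | eval (tp ω w) Δ = 0} := by
  classical
  obtain ⟨c, hc, hci⟩ := exists_mult (fun _ : Unit => Δ)
  set A : Fin m → MvPolynomial (Fin (m + 1)) (𝓞 k) := fun l => X l.succ with hA
  set B₀ : MvPolynomial (Fin (m + 1)) (𝓞 k) := X 0 with hB₀
  set a : MvPolynomial (Fin (m + 1)) (𝓞 k) := homm A B₀ c Δ.totalDegree Δ with ha
  have hB₀0 : B₀ ≠ 0 := MvPolynomial.X_ne_zero 0
  have hBK : algebraMap (MvPolynomial (Fin (m + 1)) (𝓞 k)) (KK k (Fin (m + 1))) B₀ ≠ 0 := by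
    rw [Ne, FaithfulSMul.algebraMap_eq_zero_iff]
    exact hB₀0
  set u : KK k (Fin (m + 1)) := kap c *
    algebraMap (MvPolynomial (Fin (m + 1)) (𝓞 k)) (KK k (Fin (m + 1))) B₀ ^ Δ.totalDegree with hu
  have hu0 : u ≠ 0 := mul_ne_zero ((map_ne_zero kap).2 hc) (pow_ne_zero _ hBK)
  have haK : algebraMap (MvPolynomial (Fin (m + 1)) (𝓞 k)) (KK k (Fin (m + 1))) a =
      u * TM k m (algebraMap (MvPolynomial (Fin m) k)
        (FractionRing (MvPolynomial (Fin m) k)) Δ) := by
    rw [ha]
    rw [homm_map kap (algebraMap (MvPolynomial (Fin (m + 1)) (𝓞 k)) (KK k (Fin (m + 1)))) kap_spec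
      hBK Δ le_rfl (hci ()), TM_apply, aeval_kap]
    rfl
  have hane : a ≠ 0 := by
    intro h0
    have h1 := haK
    rw [h0, map_zero] at h1
    have h2 : TM k m (algebraMap (MvPolynomial (Fin m) k)
        (FractionRing (MvPolynomial (Fin m) k)) Δ) ≠ 0 := by
      rw [map_ne_zero, Ne, FaithfulSMul.algebraMap_eq_zero_iff]
      exact hΔ
    exact mul_ne_zero hu0 h2 h1.symm
  have h1 := (D0_B ω hane).union (D0_B ω hB₀0)
  intro ε hε
  refine (h1 ε hε).mono ?_
  intro w hw
  by_contra hcon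
  rw [Set.mem_union, not_or] at hcon
  obtain ⟨hcon1, hcon2⟩ := hcon
  have hBw : sp ω w B₀ ≠ 0 := by
    rw [sp, RingHom.comp_apply, Ne, FaithfulSMul.algebraMap_eq_zero_iff]
    exact hcon2
  have hspX : ∀ i : Fin (m + 1), sp ω w (X i) = algebraMap (𝓞 k) k (vec ω w i) := by
    intro i
    rw [sp, RingHom.comp_apply, MvPolynomial.eval_X]
  have hspec : ∀ y, sp ω w (MvPolynomial.C y : MvPolynomial (Fin (m + 1)) (𝓞 k)) =
      (RingHom.id k) (algebraMap (𝓞 k) k y) := by
    intro y
    rw [sp, RingHom.comp_apply, MvPolynomial.eval_C, RingHom.id_apply]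
  have hcf : sp ω w a = (c * sp ω w B₀ ^ Δ.totalDegree) * eval (tp ω w) Δ := by
    rw [ha, homm_map (RingHom.id k) (sp ω w) hspec hBw Δ le_rfl (hci ()), RingHom.id_apply]
    congr 1
    have h2 : (fun l => sp ω w (A l) / sp ω w B₀) = tp ω w := by
      funext l
      rw [hA, hB₀]
      simp only
      rw [hspX, hspX]
      rfl
    rw [h2]
    rfl
  have hw0 : eval (tp ω w) Δ = 0 := hw
  rw [hw0, mul_zero, sp, RingHom.comp_apply, FaithfulSMul.algebraMap_eq_zero_iff] at hcf
  exact hcon1 hcf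

end

section portrait

/-- The vectors `y i` represent different points, the system maps them as `σ` says, and they are
all the rational preperiodic points. -/
def Portrait {K : Type} [Field K] {n r : ℕ} (P : Fin n → MvPolynomial (Fin n) K)
    (y : Fin r → Fin n → K) (σ : Fin r → Fin r) : Prop :=
  (∀ i, y i ≠ 0) ∧ (∀ i j, ∀ c : K, y i = c • y j → i = j) ∧
  (∀ i, ∃ c : K, c ≠ 0 ∧ pt P (y i) = c • y (σ i)) ∧
  ∀ z : Fin n → K, z ≠ 0 → Pre P z → ∃ i, ∃ c : K, c ≠ 0 ∧ z = c • y i

variable {K : Type} [Field K] {n d s : ℕ}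

lemma eval_map_algebraMap_apply' {L : Type} [Field L] [Algebra K L] (z : Fin n → K)
    (q : MvPolynomial (Fin n) K) :
    eval (fun j => algebraMap K L (z j)) (map (algebraMap K L) q) = algebraMap K L (eval z q) := by
  rw [eval_map]
  exact (eval₂_comp_left (algebraMap K L) (RingHom.id K) z q).symm

lemma degLe_one (x : Fin n → K) : DegLe K 1 x := by
  refine ⟨⊥, inferInstance, ?_, 1, one_ne_zero, fun j => ?_⟩
  · rw [IntermediateField.finrank_bot]
  · exact IntermediateField.mem_bot.2 ⟨1 * x j, rfl⟩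

lemma fewB_self {C : ℕ} {v : Idx n d → K} : FewB K 1 C v ↔ Few C (sy v) := by
  have h : (sy fun i => algebraMap K K (v i)) = sy v := rfl
  unfold FewB Few
  rw [h]
  constructor
  · intro h1 X h2 h3 h4
    exact h1 X h2 h3 h4 fun x _ => degLe_one x
  · intro h1 X h2 h3 h4 _
    exact h1 X h2 h3 h4

/-- points of degree one are rational -/
lemma fewB_of_few {L : Type} [Field L] [Algebra K L] {C : ℕ} {v : Idx n d → K}
    (h : Few C (sy v)) : FewB L 1 C v := by
  classical
  intro X hX0 hXp hXpre hXd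
  have h1 : ∀ x : X, ∃ (y : Fin n → K) (c : L), c ≠ 0 ∧
      (fun j => algebraMap K L (y j)) = c • x.1 := by
    intro x
    obtain ⟨E, h1, h2, c, hc, h3⟩ := hXd x.1 x.2
    have hE : E = ⊥ := by
      rw [← IntermediateField.finrank_eq_one_iff]
      have h4 : 0 < Module.finrank K E := Module.finrank_pos
      omega
    subst hE
    choose y hy using fun j => IntermediateField.mem_bot.1 (h3 j)
    exact ⟨y, c, hc, funext hy⟩
  choose y c hc hy using h1
  have hpt : ∀ z : Fin n → K, pt (sy fun i => algebraMap K L (v i)) (fun j => algebraMap K L (z j)) =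
      fun j => algebraMap K L (pt (sy v) z j) := by
    intro z
    funext j
    show eval _ (sy (fun i => algebraMap K L (v i)) j) = algebraMap K L (eval z (sy v j))
    have h5 := congrFun (Pool.Agent.W193.UB.map_sy (algebraMap K L) v) j
    rw [← h5]
    exact eval_map_algebraMap_apply' z (sy v j)
  have hit : ∀ (l : ℕ) (z : Fin n → K),
      (pt (sy fun i => algebraMap K L (v i)))^[l] (fun j => algebraMap K L (z j)) =
      fun j => algebraMap K L ((pt (sy v))^[l] z j) := by
    intro l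
    induction l with
    | zero => intro z; rfl
    | succ l ih =>
      intro z
      rw [Function.iterate_succ_apply, hpt, ih, Function.iterate_succ_apply]
  have hs := Pool.Agent.W193.UB.sy_hom (R := L) fun i => algebraMap K L (v i)
  have hinj : Function.Injective y := by
    intro x x' hxx
    apply Subtype.ext
    have h2 := hy x
    rw [hxx, hy x'] at h2
    have h3 : x.1 = ((c x)⁻¹ * c x') • x'.1 := by
      rw [mul_smul, h2, smul_smul, inv_mul_cancel₀ (hc x), one_smul]
    exact hXp x.1 x.2 x'.1 x'.2 _ h3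
  have hcard : (Finset.univ.image y).card = X.card := by
    rw [Finset.card_image_of_injective _ hinj, Finset.card_univ, Fintype.card_coe]
  rw [← hcard]
  refine h _ ?_ ?_ ?_
  · intro z hz
    obtain ⟨x, -, rfl⟩ := Finset.mem_image.1 hz
    intro h0
    have h2 := hy x
    rw [h0] at h2
    have h3 : c x • x.1 = 0 := by
      rw [← h2]
      funext j
      exact map_zero _
    rcases smul_eq_zero.1 h3 with h4 | h4
    · exact hc x h4
    · exact hX0 x.1 x.2 h4
  · intro z hz z' hz' a ha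
    obtain ⟨x, -, rfl⟩ := Finset.mem_image.1 hz
    obtain ⟨x', -, rfl⟩ := Finset.mem_image.1 hz'
    have h2 := hy x
    rw [ha] at h2
    have h3 : (fun j => algebraMap K L ((a • y x') j)) = algebraMap K L a • (c x' • x'.1) := by
      rw [← hy x']
      funext j
      simp
    rw [h3] at h2
    have h4 : x.1 = ((c x)⁻¹ * (algebraMap K L a * c x')) • x'.1 := by
      rw [mul_smul, mul_smul, h2, smul_smul, inv_mul_cancel₀ (hc x), one_smul]
    have h5 := hXp x.1 x.2 x'.1 x'.2 _ h4
    rw [Subtype.ext h5]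
  · intro z hz
    obtain ⟨x, -, rfl⟩ := Finset.mem_image.1 hz
    obtain ⟨m, l, hml, e, he, h2⟩ := hXpre x.1 x.2
    have h3 : ∀ j, (pt (sy fun i => algebraMap K L (v i)))^[j] (c x • x.1) =
        (c x) ^ d ^ j • (pt (sy fun i => algebraMap K L (v i)))^[j] x.1 := fun j => it_smul hs _ _ j
    have h4 : (fun j => algebraMap K L ((pt (sy v))^[l] (y x) j)) =
        ((c x) ^ d ^ l * e * ((c x) ^ d ^ m)⁻¹) •
          fun j => algebraMap K L ((pt (sy v))^[m] (y x) j) := by
      rw [← hit, ← hit, hy x, h3, h3, h2, smul_smul, smul_smul]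
      congr 1
      have h5 : (c x) ^ d ^ m ≠ 0 := pow_ne_zero _ (hc x)
      field_simp
    -- the factor is rational
    by_cases h0 : (pt (sy v))^[m] (y x) = 0
    · refine ⟨m, l, hml, 1, one_ne_zero, ?_⟩
      rw [h0, one_smul]
      funext j
      have h5 := congrFun h4 j
      rw [h0] at h5
      simp at h5
      exact h5
    · obtain ⟨j0, hj0⟩ := Function.ne_iff.1 h0
      set q := (pt (sy v))^[l] (y x) j0 / (pt (sy v))^[m] (y x) j0 with hq
      have h5 := congrFun h4 j0
      simp only [Pi.smul_apply, smul_eq_mul] at h5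
      have hj1 : algebraMap K L ((pt (sy v))^[m] (y x) j0) ≠ 0 := by
        rw [Ne, map_eq_zero]
        exact hj0
      have h6 : algebraMap K L q = (c x) ^ d ^ l * e * ((c x) ^ d ^ m)⁻¹ := by
        rw [hq, map_div₀, h5, mul_div_assoc, div_self hj1, mul_one]
      have h7 : q ≠ 0 := by
        intro h8
        rw [h8, map_zero] at h6
        have h9 : (c x) ^ d ^ l * e * ((c x) ^ d ^ m)⁻¹ ≠ 0 :=
          mul_ne_zero (mul_ne_zero (pow_ne_zero _ (hc x)) he) (inv_ne_zero (pow_ne_zero _ (hc x)))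
        exact h9 h6.symm
      refine ⟨m, l, hml, q, h7, ?_⟩
      funext j
      apply (algebraMap K L).injective
      have h8 := congrFun h4 j
      simp only [Pi.smul_apply, smul_eq_mul] at h8 ⊢
      rw [h8, map_mul, h6]

/-- images of preperiodic points -/
lemma pre_pt {P : Fin n → MvPolynomial (Fin n) K} (hP : ∀ i, (P i).IsHomogeneous d)
    {x : Fin n → K} (h : Pre P x) : Pre P (pt P x) := by
  obtain ⟨m, l, hml, c, hc, h1⟩ := h
  refine ⟨m, l, hml, c ^ d, pow_ne_zero _ hc, ?_⟩
  rw [← Function.iterate_succ_apply, ← Function.iterate_succ_apply, Function.iterate_succ_apply',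
    Function.iterate_succ_apply', h1, pt_smul hP]

/-- the portrait exists -/
theorem exists_portrait {N C : ℕ} {v : Idx (N + 1) d → K} (hM : MonIn s (sy v))
    (hfew : Few C (sy v)) :
    ∃ (r : ℕ) (y : Fin r → Fin (N + 1) → K) (σ : Fin r → Fin r), Portrait (sy v) y σ ∧
      Few r (sy v) := by
  classical
  have hs := Pool.Agent.W193.UB.sy_hom (R := K) v
  let Q : Finset (Fin (N + 1) → K) → Prop := fun X => (∀ x ∈ X, x ≠ 0) ∧
    (∀ x ∈ X, ∀ y ∈ X, ∀ c : K, x = c • y → x = y) ∧ ∀ x ∈ X, Pre (sy v) x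
  obtain ⟨X, hX, hmax⟩ : ∃ X, Q X ∧ ∀ X', Q X' → X'.card ≤ X.card := by
    let S : Set ℕ := {c | ∃ X, Q X ∧ X.card = c}
    have hb : BddAbove S := ⟨C, by
      rintro _ ⟨X, hX, rfl⟩
      exact hfew X hX.1 hX.2.1 hX.2.2⟩
    have hne : S.Nonempty := ⟨0, ∅, ⟨by simp, by simp, by simp⟩, rfl⟩
    obtain ⟨X, hX, hXc⟩ := Nat.sSup_mem hne hb
    exact ⟨X, hX, fun X' hX' => by rw [hXc]; exact le_csSup hb ⟨X', hX', rfl⟩⟩
  obtain ⟨hX0, hXp, hXpre⟩ := hX
  have hall : ∀ z : Fin (N + 1) → K, z ≠ 0 → Pre (sy v) z → ∃ x : X, ∃ c : K, c ≠ 0 ∧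
      z = c • x.1 := by
    intro z hz hpz
    by_contra hcon
    push Not at hcon
    have hzX : z ∉ X := by
      intro h
      exact hcon ⟨z, h⟩ 1 one_ne_zero (one_smul K z).symm
    have h1 : Q (insert z X) := by
      refine ⟨?_, ?_, ?_⟩
      · intro x hx
        rcases Finset.mem_insert.1 hx with rfl | hx
        · exact hz
        · exact hX0 x hx
      · intro x hx y hy c hc
        rcases Finset.mem_insert.1 hx with hx1 | hx <;> rcases Finset.mem_insert.1 hy with hy1 | hy
        · rw [hx1, hy1]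
        · exfalso
          rw [hx1] at hc
          refine hcon ⟨y, hy⟩ c ?_ hc
          rintro rfl
          exact hz (by rw [hc, zero_smul])
        · exfalso
          rw [hy1] at hc
          have hc0 : c ≠ 0 := by
            rintro rfl
            exact hX0 x hx (by rw [hc, zero_smul])
          refine hcon ⟨x, hx⟩ c⁻¹ (inv_ne_zero hc0) ?_
          have h5 : c⁻¹ • x = z := by
            rw [hc, smul_smul, inv_mul_cancel₀ hc0, one_smul]
          exact h5.symm
        · exact hXp x hx y hy c hc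
      · intro x hx
        rcases Finset.mem_insert.1 hx with rfl | hx
        · exact hpz
        · exact hXpre x hx
    have h2 := hmax _ h1
    rw [Finset.card_insert_of_notMem hzX] at h2
    omega
  let e : Fin X.card ≃ X := X.equivFin.symm
  have hne : ∀ i, pt (sy v) (e i).1 ≠ 0 := fun i =>
    Pool.Agent.W275.UB.iter_ne_zero (sy v) hM (e i).1 (hX0 _ (e i).2) 1
  choose σ' c hc hσ' using fun i => hall _ (hne i) (pre_pt hs (hXpre _ (e i).2))
  refine ⟨X.card, fun i => (e i).1, fun i => e.symm (σ' i), ⟨fun i => hX0 _ (e i).2,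
    fun i j a ha => ?_, fun i => ⟨c i, hc i, ?_⟩, fun z hz hpz => ?_⟩, fun X' h1 h2 h3 =>
    hmax X' ⟨h1, h2, h3⟩⟩
  · exact e.injective (Subtype.ext (hXp _ (e i).2 _ (e j).2 a ha))
  · show pt (sy v) (e i).1 = c i • (e (e.symm (σ' i))).1
    rw [hσ' i, Equiv.apply_symm_apply]
  · obtain ⟨x, a, ha, h1⟩ := hall z hz hpz
    refine ⟨e.symm x, a, ha, ?_⟩
    show z = a • (e (e.symm x)).1
    rw [Equiv.apply_symm_apply]
    exact h1

/-- points which are mapped as `σ` says are preperiodic -/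
lemma pre_of_sigma {r : ℕ} {P : Fin n → MvPolynomial (Fin n) K} (hP : ∀ i, (P i).IsHomogeneous d)
    {y : Fin r → Fin n → K} {σ : Fin r → Fin r}
    (h : ∀ i, ∃ c : K, c ≠ 0 ∧ pt P (y i) = c • y (σ i)) (i : Fin r) : Pre P (y i) := by
  have h1 : ∀ j : ℕ, ∀ i, ∃ c : K, c ≠ 0 ∧ (pt P)^[j] (y i) = c • y (σ^[j] i) := by
    intro j
    induction j with
    | zero => intro i; exact ⟨1, one_ne_zero, (one_smul K _).symm⟩
    | succ j ih =>
      intro i
      obtain ⟨c, hc, h2⟩ := ih i
      obtain ⟨c', hc', h3⟩ := h (σ^[j] i)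
      refine ⟨c ^ d * c', mul_ne_zero (pow_ne_zero _ hc) hc', ?_⟩
      rw [Function.iterate_succ_apply', h2, pt_smul hP, h3, smul_smul,
        Function.iterate_succ_apply']
  obtain ⟨a, b, hab, h2⟩ := Finite.exists_ne_map_eq_of_infinite fun j : ℕ => σ^[j] i
  wlog hlt : a < b generalizing a b
  · exact this b a (Ne.symm hab) h2.symm (by omega)
  obtain ⟨c, hc, h3⟩ := h1 a i
  obtain ⟨c', hc', h4⟩ := h1 b i
  refine ⟨a, b, hlt, c' * c⁻¹, mul_ne_zero hc' (inv_ne_zero hc), ?_⟩
  have h2' : σ^[a] i = σ^[b] i := h2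
  rw [h3, h4, ← h2', smul_smul, mul_assoc, inv_mul_cancel₀ hc, mul_one]

end portrait

end Pool.Agent.Y706
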