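import Pool.Agent.Y706.PT2

set_option autoImplicit false

/-! The portrait theorem over the rational numbers. -/

namespace Pool.Agent.Y706

open MvPolynomial Pool.Agent.H936R2 Pool.Agent.H927R2.RD H294UB Pool.Agent.W275.UB
  Pool.Agent.W193.UB Pool.Agent.W554.UB NumberField Filter Topology

section

variable {K : Type} [Field K] {n d s : ℕ}

lemma orbK_iff {P : Fin n → MvPolynomial (Fin n) K} (hP : ∀ i, (P i).IsHomogeneous d)
    (hM : MonIn s P) {x : Fin n → K} (hx : x ≠ 0) :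
    (Set.range fun j : ℕ => Submodule.span K {(pt P)^[j] x}).Finite ↔ Pre P x := by
  have hne : ∀ j, (pt P)^[j] x ≠ 0 := fun j => iter_ne_zero _ hM x hx j
  constructor
  · intro hfin
    have h1 : ¬ Function.Injective fun j : ℕ => Submodule.span K {(pt P)^[j] x} := by
      intro hinj
      exact Set.infinite_range_of_injective hinj hfin
    have h2 : ∃ m l : ℕ, m < l ∧ Submodule.span K {(pt P)^[m] x} =
        Submodule.span K {(pt P)^[l] x} := by
      unfold Function.Injective at h1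
      push Not at h1
      obtain ⟨m, l, h3, h4⟩ := h1
      rcases lt_or_gt_of_ne h4 with h5 | h5
      · exact ⟨m, l, h5, h3⟩
      · exact ⟨l, m, h5, h3.symm⟩
    obtain ⟨m, l, hml, h3⟩ := h2
    have h4 : (pt P)^[l] x ∈ Submodule.span K {(pt P)^[m] x} := by
      rw [h3]
      exact Submodule.mem_span_singleton_self _
    obtain ⟨c, hc⟩ := Submodule.mem_span_singleton.1 h4
    refine ⟨m, l, hml, c, ?_, hc.symm⟩
    rintro rfl
    rw [zero_smul] at hc
    exact hne l hc.symm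
  · rintro ⟨m, l, hml, c, hc, h⟩
    have hstep : ∀ i, Submodule.span K {(pt P)^[i + l] x} =
        Submodule.span K {(pt P)^[i + m] x} := by
      intro i
      rw [Function.iterate_add_apply, h, it_smul hP, Function.iterate_add_apply]
      exact Submodule.span_singleton_smul_eq (isUnit_iff_ne_zero.2 (pow_ne_zero _ hc)) _
    refine (Set.Finite.image (fun j => Submodule.span K {(pt P)^[j] x})
      (Set.finite_lt_nat l)).subset ?_
    rintro _ ⟨j, rfl⟩
    induction j using Nat.strong_induction_on with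
    | _ j ih =>
      by_cases hj : j < l
      · exact ⟨j, hj, rfl⟩
      · obtain ⟨t, rfl⟩ := Nat.exists_eq_add_of_le (Nat.le_of_not_lt hj)
        have h1 := ih (t + m) (by omega)
        have h2 := hstep t
        rw [Nat.add_comm t l] at h2
        simp only
        rw [h2]
        exact h1

/-- the portrait, with orbits -/
def PortO {r : ℕ} (P : Fin n → MvPolynomial (Fin n) K) (y : Fin r → Fin n → K)
    (σ : Fin r → Fin r) : Prop :=
  (∀ i, y i ≠ 0) ∧ (∀ i j, ∀ c : K, y i = c • y j → i = j) ∧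
  (∀ i, ∃ c : K, c ≠ 0 ∧ pt P (y i) = c • y (σ i)) ∧
  ∀ z : Fin n → K, z ≠ 0 → ((Set.range fun j : ℕ => Submodule.span K {(pt P)^[j] z}).Finite ↔
    ∃ i, ∃ c : K, z = c • y i)

lemma Portrait.portO {r : ℕ} {P : Fin n → MvPolynomial (Fin n) K}
    (hP : ∀ i, (P i).IsHomogeneous d) (hM : MonIn s P) {y : Fin r → Fin n → K}
    {σ : Fin r → Fin r} (h : Portrait P y σ) : PortO P y σ := by
  obtain ⟨h1, h2, h3, h4⟩ := h
  refine ⟨h1, h2, h3, fun z hz => ?_⟩
  rw [orbK_iff hP hM hz]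
  constructor
  · intro h5
    obtain ⟨i, c, -, h6⟩ := h4 z hz h5
    exact ⟨i, c, h6⟩
  · rintro ⟨i, c, rfl⟩
    have hc : c ≠ 0 := by
      rintro rfl
      exact hz (zero_smul K _)
    obtain ⟨m, l, hml, a, ha, h6⟩ := pre_of_sigma hP h3 i
    refine ⟨m, l, hml, c ^ d ^ l * a * (c ^ d ^ m)⁻¹, mul_ne_zero (mul_ne_zero (pow_ne_zero _ hc) ha)
      (inv_ne_zero (pow_ne_zero _ hc)), ?_⟩
    rw [it_smul hP, it_smul hP, h6, smul_smul, smul_smul, mul_assoc (c ^ d ^ l * a),
      inv_mul_cancel₀ (pow_ne_zero _ hc), mul_one]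

end

/-- the integral basis of the ring of integers of the rational numbers -/
noncomputable def omQ : Module.Basis Unit ℤ (𝓞 ℚ) :=
  (Module.Basis.singleton Unit ℤ).map (Rat.ringOfIntegersEquiv.symm.toAddEquiv.toIntLinearEquiv)

lemma omQ_apply (j : Unit) : omQ j = 1 := by
  unfold omQ
  rw [Module.Basis.map_apply, Module.Basis.singleton_apply]
  exact map_one Rat.ringOfIntegersEquiv.symm

lemma vec_omQ {ι : Type} (w : ι × Unit → ℤ) (i : ι) :
    algebraMap (𝓞 ℚ) ℚ (vec omQ w i) = (w (i, ()) : ℚ) := by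
  have h : vec omQ w i = ((w (i, ()) : ℤ) : 𝓞 ℚ) := by
    show cv omQ (fun q => (w q : 𝓞 ℚ)) i = _
    unfold cv
    rw [Finset.univ_unique, Finset.sum_singleton, omQ_apply, one_mul]
  rw [h, map_intCast]

theorem portraitQ (N d : ℕ) (hd : 2 ≤ d) (m : ℕ)
    (F : Fin (N + 1) → MvPolynomial (Fin (N + 1)) (MvPolynomial (Fin m) ℚ))
    (hF : ∀ i, (F i).IsHomogeneous d)
    (hmor : MorP fun i => (F i).map (algebraMap (MvPolynomial (Fin m) ℚ)
      (FractionRing (MvPolynomial (Fin m) ℚ)))) :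
    ∃ (r : ℕ) (x : Fin r → Fin (N + 1) → MvPolynomial (Fin m) ℚ) (σ : Fin r → Fin r),
      PortO (fun i => (F i).map (algebraMap (MvPolynomial (Fin m) ℚ)
        (FractionRing (MvPolynomial (Fin m) ℚ)))) (fun i j => algebraMap (MvPolynomial (Fin m) ℚ)
        (FractionRing (MvPolynomial (Fin m) ℚ)) (x i j)) σ ∧
      Tendsto (fun H : ℕ =>
        (({v | v ∈ {v : Fin (m + 1) → ℤ | ∀ l, |v l| ≤ (H : ℤ)} ∧
          (v 0 ≠ 0 ∧
            MorP (fun i => (F i).map (MvPolynomial.eval fun l : Fin m =>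
              (v l.succ : ℚ) / (v 0 : ℚ))) ∧
            PortO (fun i => (F i).map (MvPolynomial.eval fun l : Fin m =>
              (v l.succ : ℚ) / (v 0 : ℚ))) (fun i j => MvPolynomial.eval (fun l : Fin m =>
              (v l.succ : ℚ) / (v 0 : ℚ)) (x i j)) σ)} :
            Set (Fin (m + 1) → ℤ)).ncard : ℝ) /
        (({v : Fin (m + 1) → ℤ | ∀ l, |v l| ≤ (H : ℤ)}).ncard : ℝ))
        atTop (𝓝 1) := by
  classical
  obtain ⟨v, hv⟩ : ∃ v : Idx (N + 1) d → MvPolynomial (Fin m) ℚ,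
    v = fun i => coeff (expo i.2) (F i.1) := ⟨_, rfl⟩
  have hFv : F = sy v := by
    rw [hv]
    funext i
    exact (form_coeff (hF i)).symm
  have hmap : ∀ {S : Type} [CommRing S] (φ : MvPolynomial (Fin m) ℚ →+* S),
      (fun i => (F i).map φ) = sy fun i => φ (v i) := by
    intro S _ φ
    rw [hFv]
    exact Pool.Agent.W193.UB.map_sy φ v
  rw [hmap] at hmor ⊢
  obtain ⟨vK, hvK⟩ : ∃ vK : Idx (N + 1) d → KF ℚ m,
    vK = fun i => algebraMap (RR ℚ m) (KF ℚ m) (v i) := ⟨_, rfl⟩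
  -- the generic member
  obtain ⟨s, c, hc, hMC⟩ := exists_monC (algebraMap (KF ℚ m)
    (AlgebraicClosure (KF ℚ m))) vK (by
      intro x hx
      apply hmor x
      intro i
      have h1 := hx i
      rw [hvK, ← Pool.Agent.W193.UB.map_sy, eval_map] at h1
      rw [aeval_def]
      exact h1)
  have hc0 : c ≠ 0 := by
    rintro rfl
    exact hc (map_zero _)
  have hM : MonIn s (sy vK) := hMC.monIn (isUnit_iff_ne_zero.2 hc0)
  rw [hvK] at hM
  obtain ⟨r, x, σ, h1, h2⟩ := portrait_family omQ hd v hM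
  refine ⟨r, x, σ, h1.portO (Pool.Agent.W193.UB.sy_hom _) hM, ?_⟩
  have hbox : ∀ H : ℕ, {v : Fin (m + 1) → ℤ | ∀ l, |v l| ≤ (H : ℤ)} =
      {q : Fin (m + 1) → ℤ | ∀ i j, |(Module.Basis.singleton Unit ℤ).repr (q i) j| ≤ (H : ℤ)} := by
    intro H
    ext q
    constructor
    · intro h i j
      simpa using h i
    · intro h i
      simpa using h i ()
  simp only [hbox]
  refine Pool.Agent.W275.ND.ratioV (Module.Basis.singleton Unit ℤ) (ι := Fin (m + 1)) _ ?_
  intro ε hε
  refine (h2 ε hε).mono ?_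
  intro w hw hcon
  apply hw
  obtain ⟨g1, ⟨s', g2⟩, g3⟩ := hcon
  have hcv : ∀ i, cv (Module.Basis.singleton Unit ℤ) (fun q => (Int.cast (w q) : ℤ)) i = w (i, ()) := by
    intro i
    unfold cv
    rw [Finset.univ_unique, Finset.sum_singleton]
    simp
  have htp : (fun l : Fin m =>
      ((cv (Module.Basis.singleton Unit ℤ) (fun q => (Int.cast (w q) : ℤ)) l.succ : ℤ) : ℚ) /
      ((cv (Module.Basis.singleton Unit ℤ) (fun q => (Int.cast (w q) : ℤ)) 0 : ℤ) : ℚ)) = tp omQ w := by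
    funext l
    rw [hcv, hcv]
    unfold tp
    rw [vec_omQ, vec_omQ]
  refine ⟨?_, ?_, ?_⟩
  · rw [hcv]
    intro h0
    apply g1
    have h3 := vec_omQ w (0 : Fin (m + 1))
    rw [h0, Int.cast_zero, FaithfulSMul.algebraMap_eq_zero_iff] at h3
    exact h3
  · rw [htp, hmap]
    intro x hx
    have g5 : MonIn s' (sy fun i => algebraMap ℚ (AlgebraicClosure ℚ) (eval (tp omQ w) (v i))) :=
      monIn_map (algebraMap ℚ (AlgebraicClosure ℚ)) g2
    apply no_zero _ g5 x
    intro i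
    have h1 := hx i
    rw [aeval_def] at h1
    rw [← Pool.Agent.W193.UB.map_sy, eval_map]
    exact h1
  · rw [htp, hmap]
    exact g3.portO (Pool.Agent.W193.UB.sy_hom _) g2

end Pool.Agent.Y706
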