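import Mathlib

set_option autoImplicit false

/-! Purely transcendental extensions contain no new algebraic elements. -/

namespace Pool.Agent.Y706

open IntermediateField

/-- one variable -/
lemma mem_of_alg_simple {F E : Type*} [Field F] [Field E] [Algebra F E] {y : E}
    (hy : Transcendental F y) {x : E} (hx : x ∈ F⟮y⟯) (ha : IsAlgebraic F x) :
    ∃ c : F, algebraMap F E c = x := by
  let e := RatFunc.algEquivOfTranscendental y hy
  have hu : IsAlgebraic F (e.symm ⟨x, hx⟩) := by
    have h1 : IsAlgebraic F (⟨x, hx⟩ : F⟮y⟯) := by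
      rw [IntermediateField.isAlgebraic_iff]
      exact ha
    exact h1.algHom (e.symm : F⟮y⟯ →ₐ[F] RatFunc F)
  by_contra hcon
  refine RatFunc.transcendental_of_ne_C (e.symm ⟨x, hx⟩) ?_ hu
  rintro ⟨c, hc⟩
  apply hcon
  refine ⟨c, ?_⟩
  have h2 : e (RatFunc.C c) = ⟨x, hx⟩ := by
    rw [← hc, AlgEquiv.apply_symm_apply]
  have h3 : e (RatFunc.C c) = algebraMap F F⟮y⟯ c := by
    have : RatFunc.C c = algebraMap F (RatFunc F) c := by
      rw [RatFunc.algebraMap_eq_C]
    rw [this, AlgEquiv.commutes]
  rw [h2] at h3
  have h4 := congrArg (fun z : F⟮y⟯ => (z : E)) h3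
  exact h4.symm

/-- several variables -/
lemma mem_of_alg_adjoin {F E τ : Type*} [Field F] [Field E] [Algebra F E] {W : τ → E}
    (hW : AlgebraicIndependent F W) (S : Finset τ) : ∀ x : E, x ∈ adjoin F (W '' S) →
    IsAlgebraic F x → ∃ c : F, algebraMap F E c = x := by
  classical
  induction S using Finset.induction_on with
  | empty =>
    intro x hx _
    rw [Finset.coe_empty, Set.image_empty, IntermediateField.adjoin_empty, IntermediateField.mem_bot] at hx
    exact hx
  | insert a S ha ih =>
    intro x hx halg
    set F' := adjoin F (W '' (S : Set τ)) with hF'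
    have htr : Transcendental F' (W a) :=
       IntermediateField.transcendental_adjoin_iff.2
        (hW.transcendental_adjoin (s := (S : Set τ)) (i := a) (by simpa using ha))
    have hx' : x ∈ F'⟮W a⟯ := by
      have h3 : (W '' ((insert a S : Finset τ) : Set τ)) = (W '' (S : Set τ)) ∪ {W a} := by
        rw [Finset.coe_insert, Set.image_insert_eq, Set.insert_eq, Set.union_comm]
      rw [h3, ← IntermediateField.adjoin_adjoin_left] at hx
      exact hx
    obtain ⟨c, hc⟩ := mem_of_alg_simple htr hx' (halg.tower_top F')
    exact ih x (by rw [← hc]; exact c.2) halg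

end Pool.Agent.Y706
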