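import Pool.Agent.W275.UB.Den
import Pool.Agent.Y706.Rac1

set_option autoImplicit false

/-! Ultrapowers of number fields over sets of integer points. -/

namespace Pool.Agent.Y706

open MvPolynomial Pool.Agent.W275.UB

/-- the ultrapower of `k` -/
def UP {α : Type} (U : Ultrafilter α) (k : Type) : Type := (U : Filter α).Germ k

section basic

variable {α : Type} (U : Ultrafilter α) (k : Type) [Field k]

noncomputable instance : Field (UP U k) := inferInstanceAs (Field ((U : Filter α).Germ k))

/-- the class of a function -/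
noncomputable def up : (α → k) →+* UP U k := Filter.Germ.coeRingHom (U : Filter α)

variable {U k}

lemma up_surj : Function.Surjective (up U k) := fun x => Quotient.inductionOn' x fun f => ⟨f, rfl⟩

lemma up_eq {x y : α → k} : up U k x = up U k y ↔ ∀ᶠ w in (U : Filter α), x w = y w :=
  Filter.Germ.coe_eq

lemma up_eq_zero {x : α → k} : up U k x = 0 ↔ ∀ᶠ w in (U : Filter α), x w = 0 := by
  rw [← map_zero (up U k), up_eq]
  rfl

noncomputable instance : Algebra k (UP U k) := ((up U k).comp (Pi.constRingHom α k)).toAlgebra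

lemma algebraMap_up (c : k) : algebraMap k (UP U k) c = up U k fun _ => c := rfl

lemma up_hom {R : Type*} [CommRing R] {R' : Type*} [CommRing R'] (f : R →+* UP U k)
    (g : α → R →+* k) (h : ∀ r, f r = up U k fun w => g w r) : f = (up U k).comp (RingHom.pi g) :=
  RingHom.ext h

end basic

section map

variable {α : Type} (U : Ultrafilter α) {k k' : Type} [Field k] [Field k']

/-- functoriality -/
noncomputable def upMap (f : k →+* k') : UP U k →+* UP U k' where
  toFun := Filter.Germ.map f
  map_one' := by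
    have : (1 : UP U k) = up U k 1 := (map_one _).symm
    rw [this, ← map_one (up U k')]
    show up U k' (fun w => f ((1 : α → k) w)) = _
    congr 1
    funext w
    exact map_one f
  map_zero' := by
    have : (0 : UP U k) = up U k 0 := (map_zero _).symm
    rw [this, ← map_zero (up U k')]
    show up U k' (fun w => f ((0 : α → k) w)) = _
    congr 1
    funext w
    exact map_zero f
  map_mul' := by
    intro x y
    obtain ⟨x, rfl⟩ := up_surj x
    obtain ⟨y, rfl⟩ := up_surj y
    rw [← map_mul]
    show up U k' (fun w => f ((x * y) w)) = up U k' (fun w => f (x w)) * up U k' (fun w => f (y w))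
    rw [← map_mul]
    congr 1
    funext w
    exact map_mul f _ _
  map_add' := by
    intro x y
    obtain ⟨x, rfl⟩ := up_surj x
    obtain ⟨y, rfl⟩ := up_surj y
    rw [← map_add]
    show up U k' (fun w => f ((x + y) w)) = up U k' (fun w => f (x w)) + up U k' (fun w => f (y w))
    rw [← map_add]
    congr 1
    funext w
    exact map_add f _ _

lemma upMap_up (f : k →+* k') (x : α → k) : upMap U f (up U k x) = up U k' fun w => f (x w) := rfl

end map

section ev

variable {ι : Type} (U : Ultrafilter (ι → ℤ)) (k : Type) [Field k]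

/-- polynomials in the coordinates -/
noncomputable def evk : MvPolynomial ι ℤ →+* UP U k :=
  (up U k).comp (RingHom.pi fun v => (Int.castRingHom k).comp (eval v))

noncomputable instance : Algebra (MvPolynomial ι ℤ) (UP U k) := (evk U k).toAlgebra

variable {U k}

lemma evk_def (c : MvPolynomial ι ℤ) : evk U k c = up U k fun v => ((eval v c : ℤ) : k) := rfl

lemma algebraMap_evk (c : MvPolynomial ι ℤ) : algebraMap (MvPolynomial ι ℤ) (UP U k) c =
    up U k fun v => ((eval v c : ℤ) : k) := rfl

lemma upMap_evk {k' : Type} [Field k'] (f : k →+* k') (c : MvPolynomial ι ℤ) :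
    upMap U f (evk U k c) = evk U k' c := by
  rw [evk_def, evk_def, upMap_up]
  congr 1
  funext v
  exact map_intCast f _

lemma UD_mono {ι : Type} [Fintype ι] {ε : ℝ} {S S' : Set (ι → ℤ)} (h : S ⊆ S') (h' : UD ε S') :
    UD ε S := by
  obtain ⟨H₀, hH⟩ := h'
  refine ⟨H₀, fun H hH0 => le_trans ?_ (hH H hH0)⟩
  have hfin : ({v | v ∈ S' ∧ ∀ i, |v i| ≤ (H : ℤ)} : Set (ι → ℤ)).Finite := by
    refine (Set.Finite.pi' (fun _ : ι => Set.finite_Icc (-(H : ℤ)) (H : ℤ))).subset ?_
    rintro v ⟨-, hv⟩
    exact fun i => abs_le.mp (hv i)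
  have hsub : ({v | v ∈ S ∧ ∀ i, |v i| ≤ (H : ℤ)} : Set (ι → ℤ)) ⊆
      ({v | v ∈ S' ∧ ∀ i, |v i| ≤ (H : ℤ)} : Set (ι → ℤ)) := fun v hv => ⟨h hv.1, hv.2⟩
  exact_mod_cast Set.ncard_le_ncard hsub hfin

lemma gen_ne_zero [Fintype ι] (hd : S_dens) (hU : Gen U) {c : MvPolynomial ι ℤ}
    (hc : c ≠ 0) : ∀ᶠ v in (U : Filter (ι → ℤ)), eval v c ≠ 0 := by
  refine hU _ fun ε hε => ?_
  obtain ⟨V, hV⟩ := hd ι c hc 2 Nat.prime_two ε hε
  refine UD_mono ?_ hV
  intro v hv
  have hv' : eval v c = 0 := hv
  show ((2 : ℕ) : ℤ) ^ (V + 1) ∣ eval v c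
  rw [hv']
  exact dvd_zero _

lemma evk_inj [Fintype ι] [CharZero k] (hd : S_dens) (hU : Gen U) :
    Function.Injective (evk U k) := by
  rw [injective_iff_map_eq_zero]
  intro c hc
  by_contra hne
  have h1 := gen_ne_zero hd hU hne
  rw [evk_def, up_eq_zero] at hc
  obtain ⟨v, hv1, hv2⟩ := (hc.and h1).exists
  exact hv2 (by exact_mod_cast hv1)

end ev

end Pool.Agent.Y706
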