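import Pool.Agent.W619.Y.Main
import Pool.Agent.W300.PG.TRGE
import Pool.Agent.W53.PG.ManyB
import Pool.Agent.Y174.C3
import Pool.Agent.Y174.Multi
import Pool.Agent.Y173.QA.MainU
import Pool.Agent.Y173.QA.MainA

/-! Steps for the iterated quotients: transport along isomorphisms and the general bounds. -/

set_option autoImplicit false
set_option linter.overlappingInstances false
set_option linter.unusedSectionVars false

open FF IntermediateField Pool.Agent.W619.PQ Pool.Agent.W619.PL Pool.Agent.W619.TW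
  Pool.Agent.W619.Y Pool.Agent.W603.LV

namespace Pool.Agent.Y706.Tw

variable {k : Type} [Field k] [CharZero k] [IsAlgClosed k]

/-- The data which are carried through the induction. -/
def Good (k K : Type) [Field k] [Field K] [Algebra k K] (n a : ℕ) : Prop :=
  Algebra.EssFiniteType k K ∧ Algebra.trdeg k K = n ∧
    (IsUniruled k K n ∨ (KodTr k K n a ∧ NumLe k K n (fun _ => False) a))

theorem Good.iso {K K' : Type} [Field K] [Algebra k K] [Field K'] [Algebra k K'] (e : K ≃ₐ[k] K')
    {n a : ℕ} (h : Good k K n a) : Good k K' n a := by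
  obtain ⟨h1, h2, h3⟩ := h
  refine ⟨(Algebra.EssFiniteType.iff_of_algEquiv e).1 h1, by rw [← h2]; exact e.symm.trdeg_eq, ?_⟩
  rcases h3 with ⟨M, i1, i2, h4, h5, ⟨f⟩⟩ | ⟨h4, h5⟩
  · exact Or.inl ⟨M, i1, i2, h4, h5, ⟨f.comp e.symm.toAlgHom⟩⟩
  · refine Or.inr ⟨Pool.Agent.Y174.kod_equiv e h1 h2 h4, ?_⟩
    exact ((Pool.Agent.W53.PG.ManyB.transportB pTRANS e h1 h2 (fun _ => False)).2.2 a).1 h5

/-- the quotient by a finite group -/
theorem fixed_basic {L : Type} [Field L] [Algebra k L] {r : ℕ} (hn : Algebra.trdeg k L = r)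
    (hess : Algebra.EssFiniteType k L) (G : Subgroup (L ≃ₐ[k] L)) [Finite G] :
    Algebra.EssFiniteType k (fixedField G) ∧ Algebra.trdeg k (fixedField G) = r := by
  have hfinL : FiniteDimensional (fixedField G) L := by
    have hGal : IsGaloisGroup G (fixedField G) L := isGaloisGroup_fixed G
    exact IsGaloisGroup.finiteDimensional G (fixedField G) L
  have hnK : Algebra.trdeg k (fixedField G) = r := by
    rw [← hn, ← trdeg_add_eq k (fixedField G) (A := L),
      trdeg_eq_zero (R := fixedField G) (A := L), add_zero]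
  refine ⟨?_, hnK⟩
  obtain ⟨hnK', z, hz⟩ := Pool.Agent.W721.PG.EFF2.exists_basis (fixedField G) r hn
  have hfd : FiniteDimensional (IntermediateField.adjoin k (Set.range z)) (fixedField G) :=
    fin_over_adjoin r (fixedField G) z hz
  have h1 : Algebra.EssFiniteType k (IntermediateField.adjoin k (Set.range z)) :=
    essFiniteType_iff.2 (fg_adjoin_of_finite (Set.finite_range z))
  have h2 : Algebra.EssFiniteType (IntermediateField.adjoin k (Set.range z)) (fixedField G) :=
    inferInstance
  exact Algebra.EssFiniteType.comp k (IntermediateField.adjoin k (Set.range z)) (fixedField G)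

theorem numLe_dim {K : Type} [Field K] [Algebra k K] (hess : Algebra.EssFiniteType k K) {n : ℕ}
    (hn : Algebra.trdeg k K = n) : NumLe k K n (fun _ => False) n := by
  classical
  rcases Nat.eq_zero_or_pos n with h0 | h0
  · subst h0
    exact Pool.Agent.Y173.QA.numLe_point hn
  obtain ⟨s, hs⟩ := IntermediateField.fg_top k K
  obtain ⟨N, z', hz'⟩ : ∃ (N : ℕ) (z' : Fin N → K), Set.range z' = (s : Set K) \ {0} := by
    obtain ⟨N, z', -, hz'⟩ := ((s.finite_toSet).subset
      (Set.diff_subset : (s : Set K) \ {0} ⊆ s)).fin_param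
    exact ⟨N, z', hz'⟩
  let z : Fin (N + 1) → K := Fin.cons 1 z'
  have hz0 : ∀ i, z i ≠ 0 := by
    intro i
    refine Fin.cases one_ne_zero (fun j => ?_) i
    have h1 : z' j ∈ Set.range z' := ⟨j, rfl⟩
    rw [hz'] at h1
    exact h1.2
  have htop : ∀ i, IntermediateField.adjoin k (Set.range fun j => z j / z i) = ⊤ := by
    intro i
    rw [eq_top_iff, ← hs, IntermediateField.adjoin_le_iff]
    intro x hx
    by_cases hx0 : x = 0
    · rw [hx0]
      exact zero_mem _
    have h1 : x ∈ Set.range z' := by rw [hz']; exact ⟨hx, hx0⟩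
    obtain ⟨j, rfl⟩ := h1
    have h2 : z j.succ / z i ∈ IntermediateField.adjoin k (Set.range fun j => z j / z i) :=
      IntermediateField.subset_adjoin _ _ ⟨j.succ, rfl⟩
    have h3 : z 0 / z i ∈ IntermediateField.adjoin k (Set.range fun j => z j / z i) :=
      IntermediateField.subset_adjoin _ _ ⟨0, rfl⟩
    have h4 := div_mem h2 h3
    have h5 : z j.succ / z i / (z 0 / z i) = z' j := by
      have h6 : z 0 = 1 := rfl
      have h7 : z j.succ = z' j := rfl
      rw [h6, h7]
      field_simp [hz0 i]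
    rw [h5] at h4
    exact h4
  obtain ⟨t, ht⟩ : ∃ t : Fin n → K, IsTranscendenceBasis k t := by
    obtain ⟨S, hS⟩ := exists_isTranscendenceBasis k K
    have h1 : Cardinal.mk S = (n : Cardinal) := by
      rw [hS.cardinalMk_eq_trdeg, hn]
    obtain ⟨e⟩ := Cardinal.eq.1 (h1.trans (Cardinal.mk_fin n).symm)
    exact ⟨fun i => (e.symm i : K), (hS.comp_equiv e.symm)⟩
  have hn' : Algebra.trdeg k K = (n + 0 : ℕ) := hn
  refine Pool.Agent.Y173.QA.numLe_U (r := 0) (by omega) hn' (fun y hy => ?_) ht.1 hz0 htop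
    (U := Fin.elim0) (fun i => i.elim0) (fun l => l.elim0) ?_
  · exact Pool.Agent.W824.PG.fin_adj hess y hy
  · intro D hD
    refine ⟨Fin.elim0, ?_⟩
    rw [Finset.univ_eq_empty, Finset.sum_empty]
    refine Pool.Agent.W602.GT.der_eq_zero D (Set.range t) ht.isAlgebraic_field ?_
    rintro _ ⟨j, rfl⟩
    exact hD j

end Pool.Agent.Y706.Tw
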