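import Pool.Agent.Y706.Tw1
import Pool.Agent.Y169.CH.Top

/-! Steps for the iterated quotients. -/

set_option autoImplicit false
set_option linter.overlappingInstances false
set_option linter.unusedSectionVars false

open FF IntermediateField Pool.Agent.W619.PQ Pool.Agent.W619.PL Pool.Agent.W619.TW
  Pool.Agent.W619.Y Pool.Agent.W603.LV

namespace Pool.Agent.Y706.Tw

variable {k : Type} [Field k] [CharZero k] [IsAlgClosed k]

theorem not_uniruled {K : Type} [Field K] [Algebra k K] [Algebra.EssFiniteType k K] {n : ℕ}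
    (hn : Algebra.trdeg k K = n) (h : KodTr k K n 0) : ¬ IsUniruled k K n := fun hU =>
  (uniruled_neg n hn hU).1 (psef_of_eff (eff_of_kodTr h))

theorem Good.curves {L : Type} [Field L] [Algebra k L] {d n : ℕ}
    (hn : Algebra.trdeg k L = (d + n : ℕ)) (M : IntermediateField k L) {a : ℕ} (hM : Good k M d a)
    (F : Fin n → IntermediateField k L) (hF : ∀ i, IsFF k (F i)) (hsup : M ⊔ (⨆ i, F i) = ⊤)
    (G : Subgroup (L ≃ₐ[k] L)) [Finite G] (σ : G →* Equiv.Perm (Fin n))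
    (hσ : ∀ (g : G) i, ∀ z ∈ F i, (g : L ≃ₐ[k] L) z ∈ F (σ g i)) (h : MixedPos G σ F) :
    Good k (fixedField G) (d + n) (a + {i | ¬ IsElliptic (F i)}.ncard) := by
  obtain ⟨h1, h2, h3⟩ := hM
  have hess : Algebra.EssFiniteType k L := ess_top M F hsup
  obtain ⟨h4, h5⟩ := fixed_basic hn hess G
  refine ⟨h4, h5, ?_⟩
  rcases mmM d n hn M h2 F hsup G σ hσ h a h3 with h6 | ⟨-, -, h6, -, h7⟩
  · exact Or.inl h6.1
  · exact Or.inr ⟨h6, h7⟩

theorem Good.terminal {L : Type} [Field L] [Algebra k L] {d r m b : ℕ}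
    (hL : Good k L (d + r) b) (G : Subgroup (L ≃ₐ[k] L)) [Finite G]
    {W : Submodule k (Derivation k L L →ₗ[L] L)}
    (hWr : ∀ η ∈ W, ∀ w : Place k L, IsDivisorial w (d + r) → ∀ D : Derivation k L L,
      (∀ f, w.Reg f → w.Reg (D f)) → w.Reg (η D))
    (hWG : ∀ g ∈ G, ∀ η ∈ W, Pool.Agent.Y174.gForm g η ∈ W)
    {α : Fin d → (Derivation k L L →ₗ[L] L)} {a : L} (ha : a ≠ 0) (hm : 1 ≤ m)
    (hT : ∀ w : Place k L, IsDivisorial w (d + r) → ∀ D : Fin d → Derivation k L L,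
      (∀ j f, w.Reg f → w.Reg (D j f)) → w.Reg (a * (Matrix.of fun i j => α i (D j)).det ^ m))
    (hRT : Pool.Agent.Y174.ReidTaiTensor d r m G α a W)
    (η : Fin r → (Derivation k L L →ₗ[L] L)) (hη : ∀ i, η i ∈ W)
    (hli : LinearIndependent L (Fin.append α η)) :
    Good k (fixedField G) (d + r) b := by
  obtain ⟨h1, h2, h3⟩ := hL
  obtain ⟨h4, h5⟩ := fixed_basic h2 h1 G
  obtain ⟨-, h6, h7⟩ := Pool.Agent.Y174.main_C0 h2 h1 G hWr hWG ha hm hT hRT η hη hli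
  refine ⟨h4, h5, h3.imp (fun h => uniruled_down G h) fun h => ⟨(h6 b).2 h.1, h7 b h.2⟩⟩

theorem Good.cover {L : Type} [Field L] [Algebra k L] {n a : ℕ}
    (hess : Algebra.EssFiniteType k L)
    (G : Subgroup (L ≃ₐ[k] L)) [Finite G] (hL : Good k (fixedField G) n a)
    (V : Submodule k (Derivation k L L →ₗ[L] L))
    (hreg : ∀ θ ∈ V, Pool.Agent.Y173.QA.IsRegForm n θ)
    (hstab : ∀ g ∈ G, ∀ θ ∈ V, ∃ θ' ∈ V, Pool.Agent.Y173.QA.IsImage g θ θ')
    (hgen : ∃ (θ : Fin n → Derivation k L L →ₗ[L] L) (D : Fin n → Derivation k L L),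
      (∀ i, θ i ∈ V) ∧ (Matrix.of fun i j => θ i (D j)).det ≠ 0)
    (hRT : Pool.Agent.Y173.QA.ReidTai n G V 1) :
    Good k L n a := by
  obtain ⟨h1, h2, h3⟩ := hL
  have hfinL : FiniteDimensional (fixedField G) L := by
    have hGal : IsGaloisGroup G (fixedField G) L := isGaloisGroup_fixed G
    exact IsGaloisGroup.finiteDimensional G (fixedField G) L
  have hn : Algebra.trdeg k L = n := by
    rw [← h2, ← trdeg_add_eq k (fixedField G) (A := L),
      trdeg_eq_zero (R := fixedField G) (A := L), add_zero]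
  obtain ⟨h4, h5⟩ := Pool.Agent.Y173.QA.transfer hn G V hreg hstab hgen hRT
  refine ⟨hess, hn, ?_⟩
  rcases h3 with h3 | ⟨h3, h6⟩
  · exact absurd h3 (not_uniruled h2 h4)
  · exact Or.inr ⟨(h5 a).1.1 h3, (h5 a).2.1 h6⟩

theorem Good.closed {L : Type} [Field L] [Algebra k L] {n a : ℕ}
    (hess : Algebra.EssFiniteType k L) (hn : Algebra.trdeg k L = n)
    (G : Subgroup (L ≃ₐ[k] L)) [Finite G] (V : Submodule k (Derivation k L L →ₗ[L] L))
    (hreg : ∀ θ ∈ V, Pool.Agent.Y173.QA.IsRegForm n θ)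
    (hcl : ∀ θ ∈ V, Pool.Agent.Y173.QA.IsClosedForm θ)
    (hstab : ∀ g ∈ G, ∀ θ ∈ V, ∃ θ' ∈ V, Pool.Agent.Y173.QA.IsImage g θ θ')
    (hgen : ∃ (θ : Fin n → Derivation k L L →ₗ[L] L) (D : Fin n → Derivation k L L),
      (∀ i, θ i ∈ V) ∧ (Matrix.of fun i j => θ i (D j)).det ≠ 0)
    (hRT : Pool.Agent.Y173.QA.ReidTai n G V 0)
    (hmod : Pool.Agent.Y173.QA.IsRegularOnModel (Pool.Agent.Y173.QA.constFields V))
    (ha : a + Module.finrank k (Pool.Agent.Y173.QA.constFields V) = n) :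
    Good k (fixedField G) n a := by
  obtain ⟨h4, h5⟩ := fixed_basic hn hess G
  obtain ⟨b, h1, h2, h3⟩ := Pool.Agent.Y173.QA.mainU hn G V hreg hcl hstab hgen hRT
  have hab : b = a := by omega
  subst hab
  exact ⟨h4, h5, Or.inr ⟨h2, h3 hmod⟩⟩

theorem Good.generalType {K : Type} [Field K] [Algebra k K] {n : ℕ}
    (hess : Algebra.EssFiniteType k K) (hn : Algebra.trdeg k K = n) (h : KodTr k K n n) :
    Good k K n n :=
  ⟨hess, hn, Or.inr ⟨h, numLe_dim hess hn⟩⟩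

theorem Good.uniruled {K : Type} [Field K] [Algebra k K] {n : ℕ} (a : ℕ)
    (hess : Algebra.EssFiniteType k K) (hn : Algebra.trdeg k K = n) (h : IsUniruled k K n) :
    Good k K n a :=
  ⟨hess, hn, Or.inl h⟩

/-- the conclusion -/
theorem Good.concl {K : Type} [Field K] [Algebra k K] {n a : ℕ} (h : Good k K n a) :
    (IsUniruled k K n ∧ ¬ IsPsef k K n (fun _ => False)) ∨
    (KodTr k K n a ∧ KodGe k K n (fun _ => False) a ∧ NumLe k K n (fun _ => False) a ∧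
      IsPsef k K n (fun _ => False)) := by
  obtain ⟨h1, h2, h3⟩ := h
  rcases h3 with h3 | ⟨h3, h4⟩
  · exact Or.inl ⟨h3, (uniruled_neg n h2 h3).1⟩
  · exact Or.inr ⟨h3, Pool.Agent.W300.PG.TRGE.main k K n a h2 h3, h4,
      psef_of_eff (eff_of_kodTr h3)⟩

section hyper

open MvPolynomial Pool.Agent.TH756.PR Pool.Agent.TH122.AB Pool.Agent.TH756.PN Pool.Agent.Y169.CH

theorem Good.hyper {r N R : ℕ} {n d : Fin r → ℕ} (hr : 1 ≤ r) (hn : ∀ i, 1 ≤ n i)
    (hN : N = ∑ i, n i) {F : ∀ i, MvPolynomial (Fin (n i + 1)) ℂ} (hd : ∀ i, 1 ≤ d i)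
    (hh : ∀ i, (F i).IsHomogeneous (d i)) (hs : ∀ i, SmF (F i)) {K : Type} [Field K] [Algebra ℂ K]
    {x : ∀ i, Fin (n i + 1) → K} (hx0 : ∀ i, x i 0 ≠ 0)
    (hbas : IsTranscendenceBasis ℂ (aff x)) {m : Fin R → ℕ} (hm : ∀ j, 0 < m j)
    {a : Fin R → Fin r → ℕ} (hdiv : ∀ j i, m j ∣ a j i * d i) {z : Fin R → K}
    (hz : ∀ j, z j ^ m j = ∏ i, (aeval (x i) (F i) / x i 0 ^ d i) ^ a j i)
    (hgen : IntermediateField.adjoin ℂ (Set.range (aff x) ∪ Set.range z) = ⊤)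
    (I : Finset (Fin r)) (hI : ∀ i, i ∈ I ↔ ∀ v, Adm m a v →
      ∑ s, (((d s : ℚ) - n s - 1) / d s) * v s = 1 → v i = 0)
    (hpos : ∀ v, Adm m a v → 1 ≤ ∑ i, (((d i : ℚ) - n i - 1) / d i) * v i) :
    Good ℂ K N (∑ i ∈ I, n i) := by
  obtain ⟨-, -, h1⟩ := Pool.Agent.Y169.CH.main hr hn hN hd hh hs hx0 hbas hm hdiv hz hgen I hI
  obtain ⟨h2, h3⟩ := h1 hpos
  have hess : Algebra.EssFiniteType ℂ K := by
    have hfin : (Set.range (aff x) ∪ Set.range z).Finite :=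
      (Set.finite_range _).union (Set.finite_range _)
    have h4 : Algebra.EssFiniteType ℂ
        (IntermediateField.adjoin ℂ (Set.range (aff x) ∪ Set.range z)) :=
      essFiniteType_iff.2 (fg_adjoin_of_finite hfin)
    rw [hgen] at h4
    exact (Algebra.EssFiniteType.iff_of_algEquiv (IntermediateField.topEquiv (F := ℂ) (E := K))).1 h4
  have htr : Algebra.trdeg ℂ K = N := by
    have h4 := hbas.cardinalMk_eq_trdeg
    rw [← h4, Cardinal.mk_fintype, Fintype.card_sigma]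
    simp [hN]
  refine ⟨hess, htr, Or.inr ⟨?_, ?_⟩⟩
  · obtain ⟨m', hm', ω, hω, D, hD, hind⟩ := h2
    refine ⟨m', hm', ω, fun l => ⟨(hω l).1, fun v hv _ E hE => ?_, fun v _ hv => hv.elim⟩, D, ?_,
      hind⟩
    · rcases (hω l).2 v hv E (fun c f hf => hE c f hf) with h4 | ⟨s, hs1, hs0, h4⟩
      · exact Or.inl h4
      · refine Or.inr ⟨s, hs1, hs0, ?_⟩
        rw [Finset.mem_singleton] at hs1
        subst hs1
        rw [v.ord_one] at h4 ⊢
        simpa using h4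
    · intro l
      refine Fin.cases hD (fun j => ?_) l
      have h4 := hind.ne_zero j
      intro h5
      rw [h5, zero_div] at h4
      exact h4 rfl
  · intro S
    obtain ⟨C, hC⟩ := h3 S
    refine ⟨C, fun m' N' hm' hI' => hC m' N' hm' ?_⟩
    obtain ⟨ω, h4, h5⟩ := hI'
    refine ⟨ω, h4, fun l => ⟨(h5 l).1, fun P hP D hD => ?_⟩⟩
    exact (h5 l).2.1 P hP not_false D (fun c f hf => hD c f hf)

end hyper

end Pool.Agent.Y706.Tw
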